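import Pool.Agent.Lib.SHD.Spec

set_option autoImplicit false

/-!
# SHD, module AV: averaging
-/

namespace Pool.Agent.Lib.SHD

open Finset Filter Topology MeasureTheory
open Pool.Agent.Lib.MP_3ef1ab_nt Pool.Agent.Results.MP_9a4459_nt Pool.Agent.Lib.SHG
open Pool.Agent.Lib.SHR hiding ShanksLaw
open Pool.Agent.Lib.SHK (pr Vk nu mem_pr MedStmt PrgStmt)
open scoped Classical

namespace AVM

theorem approx (hPrg : PrgStmt) (Q : Finset ℕ) (n0 D : ℕ)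
    (hQ : ∀ p ∈ Q, p.Prime ∧ 3 ≤ p ∧ p.Coprime D) (ε : ℝ) (hε : 0 < ε) :
    ∃ N : ℕ, 1 ≤ N ∧ ∀ H : Finset ℕ, H.card ≤ 3 → ∃ A : Finset ℕ,
      (∀ t, t ∈ A ↔ t < N ∧ ∀ p ∈ Q, ∀ h ∈ H, (n0 + D * t + h) % p ≠ 0) ∧
      |(A.card : ℝ) - N * ∏ p ∈ Q, (1 - (nu H p : ℝ) / p)| ≤ ε * N := by
  obtain ⟨s, hs⟩ : ∃ s : ℝ, s = ∑ p ∈ Q, (3 : ℝ) / p := ⟨_, rfl⟩
  have ht := FloorSemiring.tendsto_pow_div_factorial_atTop s
  obtain ⟨R, hR⟩ := (ht.eventually (gt_mem_nhds (show (0 : ℝ) < ε / 4 by positivity))).exists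
  obtain ⟨N0, hN0⟩ := exists_nat_ge ((1 + 3 * (Q.card : ℝ)) ^ R / (ε / 2))
  refine ⟨N0 + 1, by omega, fun H hH => ?_⟩
  have h1 := hPrg Q H (fun _ => 0) n0 D (N0 + 1) R
    (fun p hp => ⟨(hQ p hp).1, (hQ p hp).2.2, (hQ p hp).1.pos⟩)
  refine ⟨_, fun t => ?_, h1.trans ?_⟩
  · rw [mem_filter, mem_range]
  have hHc : (H.card : ℝ) ≤ 3 := by exact_mod_cast hH
  have h2 : ∑ p ∈ Q, (H.card : ℝ) / p ≤ s := by
    rw [hs]
    refine sum_le_sum fun p _ => ?_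
    exact div_le_div_of_nonneg_right hHc (Nat.cast_nonneg p)
  have h3 : 0 ≤ ∑ p ∈ Q, (H.card : ℝ) / p := sum_nonneg fun p _ => by positivity
  have h4 : (∑ p ∈ Q, (H.card : ℝ) / p) ^ R / (R.factorial : ℝ) ≤ s ^ R / (R.factorial : ℝ) :=
    div_le_div_of_nonneg_right (pow_le_pow_left₀ h3 h2 R) (Nat.cast_nonneg _)
  have h5 : (1 + (Q.card : ℝ) * H.card) ^ R ≤ (1 + 3 * (Q.card : ℝ)) ^ R := by
    refine pow_le_pow_left₀ (by positivity) ?_ R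
    have hq : (0 : ℝ) ≤ Q.card := Nat.cast_nonneg _
    nlinarith
  have h6 : (1 + 3 * (Q.card : ℝ)) ^ R ≤ ε / 2 * ((N0 + 1 : ℕ) : ℝ) := by
    rw [div_le_iff₀ (by positivity)] at hN0
    push_cast
    nlinarith
  have h7 : (∑ p ∈ Q, (H.card : ℝ) / p) ^ R / (R.factorial : ℝ) ≤ ε / 4 := h4.trans hR.le
  have h8 : 2 * ((N0 + 1 : ℕ) : ℝ) * ((∑ p ∈ Q, (H.card : ℝ) / p) ^ R / (R.factorial : ℝ)) ≤
      2 * ((N0 + 1 : ℕ) : ℝ) * (ε / 4) :=
    mul_le_mul_of_nonneg_left h7 (by positivity)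
  linarith

theorem nu_le (H : Finset ℕ) (p : ℕ) : nu H p ≤ H.card := by
  unfold nu
  exact card_image_le

theorem prod_pos' (Q : Finset ℕ) (g : ℕ) (hQ : ∀ p ∈ Q, 3 ≤ p) :
    0 < ∏ p ∈ Q, (1 - (nu {0, g} p : ℝ) / p) := by
  refine prod_pos fun p hp => ?_
  have h1 : nu {0, g} p ≤ 2 := (nu_le _ _).trans card_le_two
  have h2 : (nu {0, g} p : ℝ) ≤ 2 := by exact_mod_cast h1
  have h3 : (3 : ℝ) ≤ p := by exact_mod_cast hQ p hp
  have h4 : (nu {0, g} p : ℝ) / p < 1 := by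
    rw [div_lt_one (by linarith)]
    linarith
  linarith

theorem prod_pos1 (Q : Finset ℕ) (hQ : ∀ p ∈ Q, 3 ≤ p) :
    0 < ∏ p ∈ Q, (1 - 1 / (p : ℝ)) := by
  refine prod_pos fun p hp => ?_
  have h3 : (3 : ℝ) ≤ p := by exact_mod_cast hQ p hp
  have h4 : 1 / (p : ℝ) < 1 := by
    rw [div_lt_one (by linarith)]
    linarith
  linarith

end AVM

theorem tAV : S_AV := by
  intro hPrg Q S g n0 D δ hδ hSg hQ hprod
  obtain ⟨P, hP⟩ : ∃ P : ℝ, P = ∏ p ∈ Q, (1 - (nu {0, g} p : ℝ) / p) := ⟨_, rfl⟩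
  obtain ⟨V, hV⟩ : ∃ V : ℝ, V = ∏ p ∈ Q, (1 - 1 / (p : ℝ)) := ⟨_, rfl⟩
  have hP0 : 0 < P := by
    rw [hP]
    exact AVM.prod_pos' Q g fun p hp => (hQ p hp).2.1
  have hV0 : 0 < V := by
    rw [hV]
    exact AVM.prod_pos1 Q fun p hp => (hQ p hp).2.1
  rw [← hV]
  rw [← hV, ← hP] at hprod
  obtain ⟨ε, hε⟩ : ∃ ε : ℝ, ε = min (P / 2) (δ * V * P / (1 + (1 + 2 * δ) * V)) := ⟨_, rfl⟩
  have hden : 0 < 1 + (1 + 2 * δ) * V := by positivity
  have hε0 : 0 < ε := by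
    rw [hε]
    exact lt_min (by positivity) (by positivity)
  have hε1 : ε ≤ P / 2 := by
    rw [hε]
    exact min_le_left _ _
  have hε2 : ε * (1 + (1 + 2 * δ) * V) ≤ δ * V * P := by
    have h : ε ≤ δ * V * P / (1 + (1 + 2 * δ) * V) := by
      rw [hε]
      exact min_le_right _ _
    rwa [le_div_iff₀ hden] at h
  obtain ⟨N, hN1, hN⟩ := AVM.approx hPrg Q n0 D hQ ε hε0
  have hN0 : (0 : ℝ) < N := by
    have : (1 : ℝ) ≤ N := by exact_mod_cast hN1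
    linarith
  obtain ⟨A, hA, hAb⟩ := hN {0, g} (card_le_two.trans (by norm_num))
  have hAc : (N : ℝ) * (P - ε) ≤ A.card := by
    rw [← hP] at hAb
    have h2 := (abs_le.1 hAb).1
    linarith
  have hAm : ∀ t ∈ A, ∀ p ∈ Q, ¬ p ∣ n0 + D * t ∧ ¬ p ∣ n0 + D * t + g := by
    intro t ht p hp
    rw [hA] at ht
    have h1 := ht.2 p hp 0 (by simp)
    have h2 := ht.2 p hp g (by simp)
    exact ⟨fun hd => h1 (Nat.mod_eq_zero_of_dvd (by simpa using hd)),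
      fun hd => h2 (Nat.mod_eq_zero_of_dvd hd)⟩
  by_contra hcon
  push Not at hcon
  have hK : ∀ t ∈ A, (1 + 2 * δ) * (S.card * V) <
      ((S.filter (fun j => ∀ p ∈ Q, ¬ p ∣ n0 + D * t + j)).card : ℝ) :=
    fun t ht => hcon t (hAm t ht)
  have hApos : (0 : ℝ) < A.card := by
    have h1 : 0 < (N : ℝ) * (P - ε) := mul_pos hN0 (by linarith)
    linarith
  have hAne : A.Nonempty := card_pos.1 (by exact_mod_cast hApos)
  have hS0 : (0 : ℝ) < S.card := by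
    obtain ⟨t, ht⟩ := hAne
    have h1 := hK t ht
    have h2 : ((S.filter (fun j => ∀ p ∈ Q, ¬ p ∣ n0 + D * t + j)).card : ℝ) ≤ S.card := by
      exact_mod_cast card_filter_le _ _
    have h3 : 0 ≤ (1 + 2 * δ) * (S.card * V) := by positivity
    linarith
  have hlow : A.card * ((1 + 2 * δ) * (S.card * V)) <
      ∑ t ∈ A, ((S.filter (fun j => ∀ p ∈ Q, ¬ p ∣ n0 + D * t + j)).card : ℝ) := by
    have h1 := sum_lt_sum_of_nonempty hAne hK
    rwa [sum_const, nsmul_eq_mul] at h1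
  have hup : ∑ t ∈ A, ((S.filter (fun j => ∀ p ∈ Q, ¬ p ∣ n0 + D * t + j)).card : ℝ) ≤
      S.card * (N * ((1 + δ) * (V * P) + ε)) := by
    have h1 : ∑ t ∈ A, ((S.filter (fun j => ∀ p ∈ Q, ¬ p ∣ n0 + D * t + j)).card : ℝ) =
        ∑ j ∈ S, ((A.filter (fun t => ∀ p ∈ Q, ¬ p ∣ n0 + D * t + j)).card : ℝ) := by
      simp only [card_filter, Nat.cast_sum]
      exact sum_comm
    rw [h1]
    have h2 : ∀ j ∈ S, ((A.filter (fun t => ∀ p ∈ Q, ¬ p ∣ n0 + D * t + j)).card : ℝ) ≤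
        N * ((1 + δ) * (V * P) + ε) := by
      intro j hj
      obtain ⟨B, hB, h3⟩ := hN {0, j, g} card_le_three
      have h4 : ((A.filter (fun t => ∀ p ∈ Q, ¬ p ∣ n0 + D * t + j)).card : ℝ) ≤
          (B.card : ℝ) := by
        have h5 : A.filter (fun t => ∀ p ∈ Q, ¬ p ∣ n0 + D * t + j) ⊆ B := by
          intro t ht
          rw [mem_filter] at ht
          obtain ⟨ht1, ht2⟩ := ht
          rw [hA] at ht1
          refine (hB t).2 ⟨ht1.1, fun p hp h hh => ?_⟩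
          simp only [mem_insert, mem_singleton] at hh
          rcases hh with rfl | rfl | rfl
          · exact ht1.2 p hp 0 (by simp)
          · exact fun he => ht2 p hp (Nat.dvd_of_mod_eq_zero he)
          · exact ht1.2 p hp h (by simp)
        exact_mod_cast card_le_card h5
      have h6 := (abs_le.1 h3).2
      have h7 := mul_le_mul_of_nonneg_left (hprod j hj) hN0.le
      linarith
    calc ∑ j ∈ S, ((A.filter (fun t => ∀ p ∈ Q, ¬ p ∣ n0 + D * t + j)).card : ℝ)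
        ≤ ∑ _j ∈ S, N * ((1 + δ) * (V * P) + ε) := sum_le_sum h2
      _ = S.card * (N * ((1 + δ) * (V * P) + ε)) := by rw [sum_const, nsmul_eq_mul]
  have h1 : (N : ℝ) * (P - ε) * ((1 + 2 * δ) * (S.card * V)) ≤
      A.card * ((1 + 2 * δ) * (S.card * V)) :=
    mul_le_mul_of_nonneg_right hAc (by positivity)
  have h2 : (N : ℝ) * (P - ε) * ((1 + 2 * δ) * (S.card * V)) <
      S.card * (N * ((1 + δ) * (V * P) + ε)) := by linarith
  have h3 : (N * S.card : ℝ) * ((P - ε) * ((1 + 2 * δ) * V)) <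
      (N * S.card : ℝ) * ((1 + δ) * (V * P) + ε) := by linarith
  have h4 := lt_of_mul_lt_mul_left h3 (by positivity)
  nlinarith

end Pool.Agent.Lib.SHD
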