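import Pool.Agent.Lib.SHD.Spec

set_option autoImplicit false

namespace Pool.Agent.Lib.SHD

open Finset Filter Topology MeasureTheory
open Pool.Agent.Lib.MP_3ef1ab_nt Pool.Agent.Results.MP_9a4459_nt Pool.Agent.Lib.SHG
open Pool.Agent.Lib.SHR hiding ShanksLaw
open Pool.Agent.Lib.SHK (pr Vk nu mem_pr MedStmt PrgStmt)
open scoped Classical

namespace CDMM

/-- `m n` is free of the primes up to `y` exactly when `n` is, if no prime up to `y` divides `m` -/
theorem sf_iff (y m n : ℕ) (hm : ∀ p : ℕ, p.Prime → p ≤ y → ¬ p ∣ m) :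
    SieveFree y (m * n) ↔ SieveFree y n := by
  unfold SieveFree
  constructor
  · intro h p hp hpy hd
    exact h p hp hpy (Dvd.dvd.mul_left hd m)
  · intro h p hp hpy hd
    rcases (Nat.Prime.dvd_mul hp).1 hd with h1 | h1
    · exact hm p hp hpy h1
    · exact h p hp hpy h1

/-- the multiples of `m` in `(b, b + g)`, counted by the cofactor -/
theorem card_eq (y b g m : ℕ) (hg : 1 ≤ g) (hm1 : 1 ≤ m)
    (hm : ∀ p : ℕ, p.Prime → p ≤ y → ¬ p ∣ m) :
    ((Ioo 0 g).filter (fun j => SieveFree y (b + j) ∧ m ∣ b + j)).card =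
      ((range ((b + g - 1) / m - b / m)).filter (fun i => SieveFree y (b / m + i + 1))).card := by
  symm
  have hlo : ∀ i : ℕ, b < m * (b / m + i + 1) := by
    intro i
    have h1 : b < m * (b / m + 1) := by
      have := Nat.lt_mul_div_succ b (show 0 < m by omega)
      simpa using this
    have h2 : m * (b / m + 1) ≤ m * (b / m + i + 1) := Nat.mul_le_mul_left m (by omega)
    omega
  refine Finset.card_bij (fun i _ => m * (b / m + i + 1) - b) ?_ ?_ ?_
  · intro i hi
    simp only [Finset.mem_filter, Finset.mem_range] at hi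
    obtain ⟨hi1, hi2⟩ := hi
    simp only [Finset.mem_filter, Finset.mem_Ioo]
    have h0 := hlo i
    have h3 : b / m + i + 1 ≤ (b + g - 1) / m := by omega
    have h4 : m * (b / m + i + 1) ≤ b + g - 1 :=
      le_trans (Nat.mul_le_mul_left m h3) (Nat.mul_div_le _ _)
    have h5 : b + (m * (b / m + i + 1) - b) = m * (b / m + i + 1) := by omega
    rw [h5]
    refine ⟨⟨by omega, by omega⟩, (sf_iff y m _ hm).2 hi2, Dvd.intro _ rfl⟩
  · intro i _ j _ hij
    have h0 := hlo i
    have h1 := hlo j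
    have hij' : m * (b / m + i + 1) - b = m * (b / m + j + 1) - b := hij
    have h2 : m * (b / m + i + 1) = m * (b / m + j + 1) := by omega
    have h3 := Nat.eq_of_mul_eq_mul_left (show 0 < m by omega) h2
    omega
  · intro j hj
    simp only [Finset.mem_filter, Finset.mem_Ioo] at hj
    obtain ⟨⟨hj0, hjg⟩, hsf, c, hc⟩ := hj
    have h1 : b / m < c := by
      rw [Nat.div_lt_iff_lt_mul (show 0 < m by omega)]
      rw [mul_comm] at hc
      omega
    have h2 : c ≤ (b + g - 1) / m := by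
      rw [Nat.le_div_iff_mul_le (show 0 < m by omega)]
      rw [mul_comm] at hc
      omega
    have h3 : b / m + (c - b / m - 1) + 1 = c := by omega
    refine ⟨c - b / m - 1, ?_, ?_⟩
    · simp only [Finset.mem_filter, Finset.mem_range]
      refine ⟨by omega, ?_⟩
      rw [h3]
      rw [hc] at hsf
      exact (sf_iff y m c hm).1 hsf
    · rw [h3, ← hc]
      omega

/-- the number of multiples of `m` in `(b, b + g)` is `g / m` up to `2` -/
theorem Y_bd (b g m : ℕ) (hg : 1 ≤ g) (hm1 : 1 ≤ m) :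
    (((b + g - 1) / m - b / m : ℕ) : ℝ) ≤ (g : ℝ) / m + 1 ∧
      (g : ℝ) / m - 2 ≤ (((b + g - 1) / m - b / m : ℕ) : ℝ) := by
  have hmp : (0 : ℝ) < m := by exact_mod_cast hm1
  have hm1' : (1 : ℝ) ≤ m := by exact_mod_cast hm1
  have hle : b / m ≤ (b + g - 1) / m := Nat.div_le_div_right (by omega)
  rw [Nat.cast_sub hle]
  set A : ℕ := (b + g - 1) / m with hA
  set C : ℕ := b / m with hC
  have a1 : m * A ≤ b + g - 1 := Nat.mul_div_le _ _
  have a2 : b + g - 1 < m * (A + 1) := by
    have := Nat.lt_mul_div_succ (b + g - 1) (show 0 < m by omega)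
    simpa using this
  have c1 : m * C ≤ b := Nat.mul_div_le _ _
  have c2 : b < m * (C + 1) := by
    have := Nat.lt_mul_div_succ b (show 0 < m by omega)
    simpa using this
  have a1' : (m : ℝ) * A ≤ b + g - 1 := by
    have : m * A + 1 ≤ b + g := by omega
    have h' : ((m * A + 1 : ℕ) : ℝ) ≤ ((b + g : ℕ) : ℝ) := by exact_mod_cast this
    push_cast at h'
    linarith
  have a2' : (b : ℝ) + g ≤ m * (A + 1) := by
    have : b + g ≤ m * (A + 1) := by omega
    have h' : ((b + g : ℕ) : ℝ) ≤ ((m * (A + 1) : ℕ) : ℝ) := by exact_mod_cast this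
    push_cast at h'
    linarith
  have c1' : (m : ℝ) * C ≤ b := by exact_mod_cast c1
  have c2' : (b : ℝ) + 1 ≤ m * (C + 1) := by
    have h' : ((b + 1 : ℕ) : ℝ) ≤ ((m * (C + 1) : ℕ) : ℝ) := by exact_mod_cast c2
    push_cast at h'
    linarith
  constructor
  · rw [← sub_le_iff_le_add, le_div_iff₀ hmp]
    nlinarith
  · rw [sub_le_iff_le_add, div_le_iff₀ hmp]
    nlinarith

end CDMM

open CDMM in
theorem tCDM : S_CDM := by
  intro B y ε hε hε1 hyp b g m hg hm1 hm
  have h1 := hyp (b / m) ((b + g - 1) / m - b / m)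
  have hcard := card_eq y b g m hg hm1 hm
  obtain ⟨hY1, hY2⟩ := Y_bd b g m hg hm1
  rw [hcard]
  set Y : ℕ := (b + g - 1) / m - b / m with hY
  have hsum : ∑ i ∈ range Y, (if SieveFree y (b / m + i + 1) then (VV y)⁻¹ else 0) =
      (VV y)⁻¹ * (((range Y).filter (fun i => SieveFree y (b / m + i + 1))).card : ℝ) := by
    rw [← Finset.sum_filter, Finset.sum_const, nsmul_eq_mul, mul_comm]
  rw [hsum] at h1
  have h2 : ε * (Y : ℝ) ≤ ε * ((g : ℝ) / m + 1) := mul_le_mul_of_nonneg_left hY1 hε.le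
  have h3 := abs_le.1 h1
  rw [abs_le]
  constructor
  · nlinarith [h3.1]
  · nlinarith [h3.2]

end Pool.Agent.Lib.SHD
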