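import Pool.Agent.Lib.SHD.Spec

set_option autoImplicit false

namespace Pool.Agent.Lib.SHD

open Finset Filter Topology MeasureTheory
open Pool.Agent.Lib.MP_3ef1ab_nt Pool.Agent.Results.MP_9a4459_nt Pool.Agent.Lib.SHG
open Pool.Agent.Lib.SHR hiding ShanksLaw
open Pool.Agent.Lib.SHK (pr Vk nu mem_pr MedStmt PrgStmt)
open scoped Classical

/-- Chinese remainder theorem (module CR). -/
theorem tCR : S_CR := by
  intro y g P hg hP
  set I : Finset ℕ := (Finset.range (y + 1)).filter Nat.Prime ∪ P with hI
  have hprime : ∀ p ∈ I, p.Prime := by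
    intro p hp
    rcases Finset.mem_union.1 hp with h | h
    · exact (Finset.mem_filter.1 h).2
    · exact (hP p h).1
  let a : ℕ → ℕ := fun p => if p ≤ y ∧ p ∣ 1 + g then 2 else 1
  have hne : ∀ i ∈ I, (fun p : ℕ => p) i ≠ 0 := fun i hi => (hprime i hi).ne_zero
  have hpp : Set.Pairwise (I : Set ℕ) (Function.onFun Nat.Coprime (fun p : ℕ => p)) := by
    intro p hp q hq hpq
    exact (Nat.coprime_primes (hprime p (by simpa using hp)) (hprime q (by simpa using hq))).2 hpq
  obtain ⟨b, hb⟩ := Nat.chineseRemainderOfFinset a (fun p : ℕ => p) I hne hpp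
  refine ⟨b, ?_, ?_⟩
  · intro p hp hpy
    have hpI : p ∈ I := Finset.mem_union_left _ (Finset.mem_filter.2 ⟨Finset.mem_range.2 (by omega), hp⟩)
    have hbp : b ≡ a p [MOD p] := hb p hpI
    have key : ∀ t, ¬ p ∣ a p + t → ¬ p ∣ b + t := by
      intro t ht h
      exact ht ((Nat.ModEq.dvd_iff (Nat.ModEq.add_right t hbp) (dvd_refl p)).1 h)
    have h2 := hp.two_le
    by_cases h : p ∣ 1 + g
    · have ha : a p = 2 := if_pos ⟨hpy, h⟩
      have hp3 : p ≠ 2 := by
        rintro rfl
        obtain ⟨k, hk⟩ := hg
        omega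
      refine ⟨?_, key g ?_⟩
      · have := key 0 (by
          rw [ha]
          intro h'
          have := Nat.le_of_dvd (by norm_num) h'
          omega)
        simpa using this
      · rw [ha]
        intro h'
        have h1 : p ∣ 1 := by
          have := (Nat.dvd_sub h' h)
          have e : 2 + g - (1 + g) = 1 := by omega
          rwa [e] at this
        exact hp.one_lt.ne' (Nat.dvd_one.1 h1)
    · have ha : a p = 1 := if_neg (fun h' => h h'.2)
      refine ⟨?_, key g ?_⟩
      · have := key 0 (by
          rw [ha]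
          intro h'
          exact hp.one_lt.ne' (Nat.dvd_one.1 h'))
        simpa using this
      · rw [ha]; exact h
  · intro p hpP
    have hbp : b ≡ a p [MOD p] := hb p (Finset.mem_union_right _ hpP)
    have ha : a p = 1 := if_neg (fun h' => absurd h'.1 (by have := (hP p hpP).2; omega))
    rw [ha] at hbp
    exact hbp

end Pool.Agent.Lib.SHD
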