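import Pool.Agent.Lib.SHD.SpecB

/-! MP_9a4459_nt, directory Lib/SHD, module FNDA: Shanks's law is false if the sieving limit is not
`(log k)^(o(1))`. -/

set_option autoImplicit false

namespace Pool.Agent.Lib.SHD

open Finset Filter Topology MeasureTheory
open Pool.Agent.Lib.MP_3ef1ab_nt Pool.Agent.Results.MP_9a4459_nt Pool.Agent.Lib.SHG
open Pool.Agent.Lib.SHR hiding ShanksLaw
open Pool.Agent.Lib.SHK (pr Vk nu mem_pr MedStmt PrgStmt MrtStmt)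
open scoped Classical

namespace FNDAM

theorem rho_nonneg (T : ℕ → ℕ) (k : ℕ) : 0 ≤ rho T k := by
  unfold rho
  split_ifs
  · exact inv_nonneg.2 (VV_pos _).le
  · exact le_rfl

/-- the first gap of size `g` -/
theorem first (Q : ℕ → Prop) (m g : ℕ) (h : Consec Q m (m + g)) :
    ∃ p : ℕ, p ≤ m ∧ Consec Q p (p + g) ∧ ∀ q' : ℕ, q' < p + g → Q q' →
      ¬ ∃ p' : ℕ, Q p' ∧ p' + g = q' ∧ ∀ k : ℕ, p' < k → k < q' → ¬ Q k := by
  have hex : ∃ p, Consec Q p (p + g) := ⟨m, h⟩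
  refine ⟨Nat.find hex, Nat.find_min' hex h, Nat.find_spec hex, ?_⟩
  rintro q' h1 h2 ⟨p', h3, h4, h5⟩
  have h6 := Nat.find_spec hex
  have h7 : p' < Nat.find hex := by omega
  refine Nat.find_min hex h7 ⟨h3, by rw [h4]; exact h2, ?_, ?_⟩
  · have := h6.2.2.1
    omega
  · rw [h4]
    exact h5

/-- there are infinitely many admissible even `g` -/
theorem freq (T : ℕ → ℕ) (hT : Monotone T) (δ : ℝ)
    (hf : ∃ᶠ k : ℕ in atTop, Real.log k ^ δ < (T k : ℝ)) (d : ℝ) (hd : 0 < d) (hd4 : 4 * d ≤ δ)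
    (c1 : ℝ) (hc0 : 0 < c1) :
    ∃ᶠ g : ℕ in atTop, Even g ∧ (g : ℝ) ^ d ≤ (T ⌊Real.exp (c1 * √(g : ℝ))⌋₊ : ℝ) := by
  rw [frequently_atTop]
  intro G
  obtain ⟨X1, hX1⟩ : ∃ X1 : ℝ, X1 = 1 + 2 * (4 / c1 ^ 2 + 1) + c1 * (G + 1) := ⟨_, rfl⟩
  have hev : ∀ᶠ k : ℕ in atTop, X1 ≤ Real.log k :=
    (Real.tendsto_log_atTop.comp tendsto_natCast_atTop_atTop).eventually_ge_atTop X1
  obtain ⟨k, hk1, hk2⟩ := (hf.and_eventually hev).exists
  have hc2 : 0 < 4 / c1 ^ 2 := by positivity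
  have hG0 : (0 : ℝ) ≤ G := Nat.cast_nonneg G
  have hcG : 0 ≤ c1 * ((G : ℝ) + 1) := by positivity
  have hL1 : 1 ≤ Real.log k := by linarith
  have hL2 : 2 * (4 / c1 ^ 2 + 1) ≤ Real.log k := by linarith
  have hL3 : c1 * ((G : ℝ) + 1) ≤ Real.log k := by linarith
  have hk0 : 1 ≤ k := by
    rcases Nat.eq_zero_or_pos k with h | h
    · rw [h] at hL1
      norm_num at hL1
    · exact h
  have hkr : (1 : ℝ) ≤ k := by exact_mod_cast hk0
  have hlog1 : Real.log k ≤ Real.log ((k : ℝ) + 1) :=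
    Real.log_le_log (by linarith) (by linarith)
  have hlog2 : Real.log ((k : ℝ) + 1) ≤ 2 * Real.log k := by
    have h1 : Real.log ((k : ℝ) + 1) ≤ Real.log (2 * k) :=
      Real.log_le_log (by linarith) (by linarith)
    rw [Real.log_mul (by norm_num) (by linarith)] at h1
    have h2 : Real.log 2 ≤ 1 := by
      have := Real.log_two_lt_d9
      linarith
    linarith
  set x : ℝ := (Real.log ((k : ℝ) + 1) / c1) ^ 2 with hx
  have hx0 : 0 ≤ x := sq_nonneg _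
  set g : ℕ := 2 * ⌈x⌉₊ with hg
  have hxc : x ≤ (⌈x⌉₊ : ℝ) := Nat.le_ceil x
  have hcx : (⌈x⌉₊ : ℝ) < x + 1 := Nat.ceil_lt_add_one hx0
  have hgr : (g : ℝ) = 2 * (⌈x⌉₊ : ℝ) := by rw [hg]; push_cast; ring
  have hgx : x ≤ (g : ℝ) := by rw [hgr]; linarith
  refine ⟨g, ?_, ⟨⌈x⌉₊, by rw [hg]; ring⟩, ?_⟩
  · have h1 : (G : ℝ) + 1 ≤ Real.log ((k : ℝ) + 1) / c1 := by
      rw [le_div_iff₀ hc0]
      linarith [mul_comm c1 ((G : ℝ) + 1)]
    have h2 : ((G : ℝ) + 1) ^ 2 ≤ x := pow_le_pow_left₀ (by linarith) h1 2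
    have h3 : (G : ℝ) ≤ g := by nlinarith
    exact_mod_cast h3
  · have hsq : Real.log ((k : ℝ) + 1) / c1 ≤ √(g : ℝ) := by
      apply Real.le_sqrt_of_sq_le
      exact hgx
    have hexp : (k : ℝ) + 1 ≤ Real.exp (c1 * √(g : ℝ)) := by
      have h1 : Real.log ((k : ℝ) + 1) ≤ c1 * √(g : ℝ) := by
        rw [div_le_iff₀ hc0] at hsq
        linarith [mul_comm c1 (√(g : ℝ))]
      calc (k : ℝ) + 1 = Real.exp (Real.log ((k : ℝ) + 1)) := (Real.exp_log (by linarith)).symm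
        _ ≤ _ := Real.exp_le_exp.2 h1
    have hfl : k ≤ ⌊Real.exp (c1 * √(g : ℝ))⌋₊ := Nat.le_floor (by linarith)
    have hTk : (T k : ℝ) ≤ (T ⌊Real.exp (c1 * √(g : ℝ))⌋₊ : ℝ) := by exact_mod_cast hT hfl
    have hg4 : (g : ℝ) ≤ Real.log k ^ (4 : ℕ) := by
      have h1 : x ≤ (2 * Real.log k / c1) ^ 2 := by
        apply pow_le_pow_left₀ (div_nonneg (by linarith) hc0.le)
        exact div_le_div_of_nonneg_right hlog2 hc0.le
      have h2 : (2 * Real.log k / c1) ^ 2 = 4 / c1 ^ 2 * Real.log k ^ 2 := by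
        rw [div_pow, mul_pow]
        ring
      have h3 : (1 : ℝ) ≤ Real.log k ^ 2 := by nlinarith
      have h4 : (g : ℝ) ≤ 2 * (4 / c1 ^ 2 + 1) * Real.log k ^ 2 := by
        rw [hgr]
        nlinarith
      have h5 : 2 * (4 / c1 ^ 2 + 1) ≤ Real.log k ^ 2 := by nlinarith
      calc (g : ℝ) ≤ 2 * (4 / c1 ^ 2 + 1) * Real.log k ^ 2 := h4
        _ ≤ Real.log k ^ 2 * Real.log k ^ 2 := mul_le_mul_of_nonneg_right h5 (by positivity)
        _ = Real.log k ^ (4 : ℕ) := by ring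
    have h6 : (g : ℝ) ^ d ≤ Real.log k ^ δ := by
      calc (g : ℝ) ^ d ≤ (Real.log k ^ (4 : ℕ)) ^ d :=
            Real.rpow_le_rpow (Nat.cast_nonneg g) hg4 hd.le
        _ = Real.log k ^ (4 * d) := by
            rw [← Real.rpow_natCast, ← Real.rpow_mul (by linarith)]
            norm_num
        _ ≤ Real.log k ^ δ := Real.rpow_le_rpow_of_exponent_le hL1 hd4
    linarith

end FNDAM

open FNDAM in
theorem tFNDA.{u} (h1 : S_MDL.{u}) (h2 : S_UP2.{u}) (h3 : WDAStmt) : S_FNDA.{u} := by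
  intro Ω m0 P _ ℱ A T hA hB hS
  obtain ⟨B, hB⟩ := hB
  obtain ⟨δ, hδ, hf⟩ : ∃ δ : ℝ, 0 < δ ∧ ∃ᶠ k : ℕ in atTop, Real.log k ^ δ < (T k : ℝ) := by
    unfold Slow at hS
    push Not at hS
    obtain ⟨δ, hδ, h⟩ := hS
    exact ⟨δ, hδ, h⟩
  obtain ⟨hm, hq⟩ := h1 Ω m0 P ℱ A T hA
  obtain ⟨d, hd⟩ : ∃ d : ℝ, d = min (δ / 4) (1 / 4) := ⟨_, rfl⟩
  have hd0 : 0 < d := by
    rw [hd]
    exact lt_min (by linarith) (by norm_num)
  have hd1 : d ≤ 1 / 4 := by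
    rw [hd]
    exact min_le_right _ _
  have hd2 : 4 * d ≤ δ := by
    have : d ≤ δ / 4 := by
      rw [hd]
      exact min_le_left _ _
    linarith
  obtain ⟨c, c1, ε, hc10, hc11, hc, hε0, hε1, hw⟩ := h3 T B hA.mono hB d hd0 hd1
  have hfr := freq T hA.mono δ hf d hd0 hd2 c1 hc10
  have hup := h2 Ω m0 P ℱ (Xi A) (Qc P ℱ A) hm (rho T) ε c
    (fun g => Even g ∧ (g : ℝ) ^ d ≤ (T ⌊Real.exp (c1 * √(g : ℝ))⌋₊ : ℝ)) (rho_nonneg T) hε0 hε1
    (hq ε hε0) hw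
  filter_upwards [hup] with ω hω
  intro hSh
  have hX : ∀ k, ω ∈ A k ↔ Xi A k ω = 1 := by
    intro k
    unfold Xi
    by_cases h : ω ∈ A k
    · simp [h]
    · simp [h]
  have hX0 : ∀ k, Xi A k ω = 0 ↔ ω ∉ A k := by
    intro k
    rw [hX k]
    rcases Xi_01 A k ω with h | h <;> rw [h] <;> norm_num
  obtain ⟨G2, hG2⟩ := hSh ((1 - c) / 2) (by linarith)
  obtain ⟨g, hadm, hgap, hgG⟩ :=
    (hfr.and_eventually (hω.and (eventually_ge_atTop (max G2 1)))).exists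
  obtain ⟨m, m1, m2, m3, m4⟩ := hgap hadm
  have hg1 : 1 ≤ g := (le_max_right _ _).trans hgG
  have hm1 : Consec (fun k => ω ∈ A k) m (m + g) :=
    ⟨(hX m).2 m1, (hX _).2 m3, by omega, fun k a1 a2 => (hX0 k).1 (m2 k a1 a2)⟩
  obtain ⟨p, hp1, hp2, hp3⟩ := first _ m g hm1
  have h6 := hG2 g (p + g) ((le_max_left _ _).trans hgG) hp2.2.1 ⟨p, hp2.1, rfl, hp2.2.2.2⟩ hp3
  have hg0 : (0 : ℝ) < g := by exact_mod_cast hg1
  have hs : 0 < √(g : ℝ) := Real.sqrt_pos.2 hg0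
  have hpg : (0 : ℝ) < ((p + g : ℕ) : ℝ) := by
    have : 0 < p + g := by omega
    exact_mod_cast this
  have hle : ((p + g : ℕ) : ℝ) ≤ (m : ℝ) + g := by
    push_cast
    have : (p : ℝ) ≤ m := by exact_mod_cast hp1
    linarith
  have h7 : Real.log ((p + g : ℕ) : ℝ) ≤ c * √(g : ℝ) :=
    (Real.log_le_log hpg hle).trans m4
  have h8 : Real.log ((p + g : ℕ) : ℝ) / √(g : ℝ) ≤ c := by
    rw [div_le_iff₀ hs]
    exact h7
  have h9 := (abs_lt.1 h6).1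
  linarith

end Pool.Agent.Lib.SHD
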