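import Pool.Agent.Lib.SHD.FNDA

/-! MP_9a4459_nt, directory Lib/SHD, module FNDB: if `T k ≥ (log k)^α`, `α > 0`, every large even `g` is a
gap with `log p(g) < c √g`, `c < 1`. -/

set_option autoImplicit false

namespace Pool.Agent.Lib.SHD

open Finset Filter Topology MeasureTheory
open Pool.Agent.Lib.MP_3ef1ab_nt Pool.Agent.Results.MP_9a4459_nt Pool.Agent.Lib.SHG
open Pool.Agent.Lib.SHR hiding ShanksLaw
open Pool.Agent.Lib.SHK (pr Vk nu mem_pr MedStmt PrgStmt MrtStmt)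
open scoped Classical

def S_FNDB.{u} : Prop := ∀ T : ℕ → ℕ, Monotone T →
  (∃ B : ℕ, ∀ᶠ k : ℕ in atTop, (T k : ℝ) ≤ Real.log k ^ B) →
  (∃ α : ℝ, 0 < α ∧ ∀ᶠ k : ℕ in atTop, Real.log k ^ α ≤ (T k : ℝ)) →
  ∃ c : ℝ, c < 1 ∧ ∀ (Ω : Type u) (m0 : MeasurableSpace Ω) (P : Measure Ω)
    [IsProbabilityMeasure P] (ℱ : Filtration ℕ m0) (A : ℕ → Set Ω), CGModel P ℱ A T →
    ∀ᵐ ω ∂P, ∃ G : ℕ, ∀ g : ℕ, G ≤ g → Even g →
      ∃ m : ℕ, Consec (fun k => ω ∈ A k) m (m + g) ∧ Real.log ((m : ℝ) + g) < c * √(g : ℝ)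

namespace FNDBM

/-- every large `g` is admissible -/
theorem adm (T : ℕ → ℕ) (α : ℝ) (hα : 0 < α) (hf : ∀ᶠ k : ℕ in atTop, Real.log k ^ α ≤ (T k : ℝ))
    (d : ℝ) (hd : 0 < d) (hd4 : 4 * d ≤ α) (c1 : ℝ) (hc0 : 0 < c1) :
    ∀ᶠ g : ℕ in atTop, (g : ℝ) ^ d ≤ (T ⌊Real.exp (c1 * √(g : ℝ))⌋₊ : ℝ) := by
  have hsq : Tendsto (fun g : ℕ => √(g : ℝ)) atTop atTop :=
    Real.tendsto_sqrt_atTop.comp tendsto_natCast_atTop_atTop
  have hmul : Tendsto (fun g : ℕ => c1 * √(g : ℝ)) atTop atTop := hsq.const_mul_atTop hc0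
  have hfl : Tendsto (fun g : ℕ => ⌊Real.exp (c1 * √(g : ℝ))⌋₊) atTop atTop :=
    tendsto_nat_floor_atTop.comp (Real.tendsto_exp_atTop.comp hmul)
  filter_upwards [hfl.eventually hf, hsq.eventually_ge_atTop (4 / c1 ^ 2),
    hmul.eventually_ge_atTop 2, eventually_ge_atTop 1] with g h1 h2 h3 h4
  have hg1 : (1 : ℝ) ≤ g := by exact_mod_cast h4
  refine le_trans ?_ h1
  set s := √(g : ℝ) with hs
  have hs0 : 0 ≤ s := Real.sqrt_nonneg _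
  have hgs : (g : ℝ) = s ^ 2 := (Real.sq_sqrt (by linarith)).symm
  have hE : Real.exp (c1 * s) / 2 ≤ (⌊Real.exp (c1 * s)⌋₊ : ℝ) := by
    have e1 : Real.exp (c1 * s) < (⌊Real.exp (c1 * s)⌋₊ : ℝ) + 1 := Nat.lt_floor_add_one _
    have e2 : (2 : ℝ) ≤ Real.exp (c1 * s) := by
      have := Real.add_one_le_exp (c1 * s)
      linarith
    linarith
  have hL : c1 * s - 1 ≤ Real.log (⌊Real.exp (c1 * s)⌋₊ : ℝ) := by
    have e3 : Real.log (Real.exp (c1 * s) / 2) ≤ Real.log (⌊Real.exp (c1 * s)⌋₊ : ℝ) :=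
      Real.log_le_log (by positivity) hE
    rw [Real.log_div (Real.exp_ne_zero _) (by norm_num), Real.log_exp] at e3
    have := Real.log_two_lt_d9
    linarith
  have hs1 : 1 ≤ s := by
    rw [hs]
    exact Real.one_le_sqrt.2 hg1
  -- √s ≤ c1 s / 2
  have h5 : √s ≤ c1 * s / 2 := by
    have e4 : (√s) ^ 2 = s := Real.sq_sqrt hs0
    have e5 : 0 ≤ √s := Real.sqrt_nonneg _
    have e6 : 2 / c1 ≤ √s := by
      apply Real.le_sqrt_of_sq_le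
      rw [div_pow]
      norm_num
      exact h2
    rw [div_le_iff₀ hc0] at e6
    nlinarith
  have h6 : √s ≤ Real.log (⌊Real.exp (c1 * s)⌋₊ : ℝ) := by linarith
  have h7 : (1 : ℝ) ≤ √s := Real.one_le_sqrt.2 hs1
  calc (g : ℝ) ^ d = (√s) ^ (4 * d) := by
        rw [hgs]
        have e4 : s = (√s) ^ 2 := (Real.sq_sqrt hs0).symm
        nth_rewrite 1 [e4]
        rw [← pow_mul, ← Real.rpow_natCast, ← Real.rpow_mul (by linarith)]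
        norm_num
    _ ≤ (√s) ^ α := Real.rpow_le_rpow_of_exponent_le h7 hd4
    _ ≤ Real.log (⌊Real.exp (c1 * s)⌋₊ : ℝ) ^ α := Real.rpow_le_rpow (by linarith) h6 hα.le

end FNDBM

theorem tFNDB.{u} (h1 : S_MDL.{u}) (h2 : S_UP2.{u}) (h3 : WDAStmt) : S_FNDB.{u} := by
  intro T hT hB hα
  obtain ⟨B, hB⟩ := hB
  obtain ⟨α, hα0, hα⟩ := hα
  obtain ⟨d, hd⟩ : ∃ d : ℝ, d = min (α / 4) (1 / 4) := ⟨_, rfl⟩
  have hd0 : 0 < d := by
    rw [hd]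
    exact lt_min (by linarith) (by norm_num)
  have hd1 : d ≤ 1 / 4 := by
    rw [hd]
    exact min_le_right _ _
  have hd2 : 4 * d ≤ α := by
    have : d ≤ α / 4 := by
      rw [hd]
      exact min_le_left _ _
    linarith
  obtain ⟨c, c1, ε, hc10, hc11, hc, hε0, hε1, hw⟩ := h3 T B hT hB d hd0 hd1
  refine ⟨(c + 1) / 2, by linarith, fun Ω m0 P _ ℱ A hA => ?_⟩
  obtain ⟨hm, hq⟩ := h1 Ω m0 P ℱ A T hA
  have hup := h2 Ω m0 P ℱ (Xi A) (Qc P ℱ A) hm (rho T) ε c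
    (fun g => Even g ∧ (g : ℝ) ^ d ≤ (T ⌊Real.exp (c1 * √(g : ℝ))⌋₊ : ℝ)) (FNDAM.rho_nonneg T)
    hε0 hε1 (hq ε hε0) hw
  filter_upwards [hup] with ω hω
  have hX : ∀ k, ω ∈ A k ↔ Xi A k ω = 1 := by
    intro k
    unfold Xi
    by_cases h : ω ∈ A k
    · simp [h]
    · simp [h]
  have hX0 : ∀ k, Xi A k ω = 0 ↔ ω ∉ A k := by
    intro k
    rw [hX k]
    rcases Xi_01 A k ω with h | h <;> rw [h] <;> norm_num
  obtain ⟨G, hG⟩ := eventually_atTop.1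
    ((hω.and (FNDBM.adm T α hα0 hα d hd0 hd2 c1 hc10)).and (eventually_ge_atTop 1))
  refine ⟨G, fun g hg hev => ?_⟩
  obtain ⟨⟨u1, u2⟩, hg1⟩ := hG g hg
  obtain ⟨m, m1, m2, m3, m4⟩ := u1 ⟨hev, u2⟩
  refine ⟨m, ⟨(hX m).2 m1, (hX _).2 m3, by omega, fun k a1 a2 => (hX0 k).1 (m2 k a1 a2)⟩,
    lt_of_le_of_lt m4 ?_⟩
  have hs : 0 < √(g : ℝ) := Real.sqrt_pos.2 (by exact_mod_cast hg1)
  exact mul_lt_mul_of_pos_right (by linarith) hs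

end Pool.Agent.Lib.SHD
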