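import Pool.Agent.Lib.SHD.Spec

set_option autoImplicit false

namespace Pool.Agent.Lib.SHD

open Finset Filter Topology MeasureTheory
open Pool.Agent.Lib.MP_3ef1ab_nt Pool.Agent.Results.MP_9a4459_nt Pool.Agent.Lib.SHG
open Pool.Agent.Lib.SHR hiding ShanksLaw
open Pool.Agent.Lib.SHK (pr Vk nu mem_pr MedStmt PrgStmt)
open scoped Classical

namespace IEAM

theorem ee_zero (P : Finset ℕ) (x : ℕ → ℝ) : ee P x 0 = 1 := by
  unfold ee
  rw [Finset.powersetCard_zero, Finset.sum_singleton, Finset.prod_empty]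

theorem ee_empty (x : ℕ → ℝ) (i : ℕ) : ee ∅ x (i + 1) = 0 := by
  unfold ee
  rw [Finset.powersetCard_eq_empty.mpr (by simp), Finset.sum_empty]

theorem ee_insert (P : Finset ℕ) (x : ℕ → ℝ) (q i : ℕ) (hq : q ∉ P) :
    ee (insert q P) x (i + 1) = ee P x (i + 1) + x q * ee P x i := by
  unfold ee
  rw [Finset.powersetCard_succ_insert hq, Finset.sum_union, Finset.sum_image]
  · congr 1
    rw [Finset.mul_sum]
    apply Finset.sum_congr rfl
    intro D hD
    have hqD : q ∉ D := fun h => hq ((Finset.mem_powersetCard.mp hD).1 h)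
    rw [Finset.prod_insert hqD]
  · intro D hD D' hD' h
    have h1 : q ∉ D := fun h => hq ((Finset.mem_powersetCard.mp hD).1 h)
    have h2 : q ∉ D' := fun h => hq ((Finset.mem_powersetCard.mp hD').1 h)
    have h3 : (insert q D).erase q = (insert q D').erase q := by rw [h]
    rwa [Finset.erase_insert h1, Finset.erase_insert h2] at h3
  · rw [Finset.disjoint_left]
    intro D hD hD'
    obtain ⟨D0, hD0, rfl⟩ := Finset.mem_image.mp hD'
    exact hq ((Finset.mem_powersetCard.mp hD).1 (Finset.mem_insert_self q D0))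

theorem ee_nonneg (P : Finset ℕ) (x : ℕ → ℝ) (hx : ∀ p ∈ P, 0 ≤ x p) (i : ℕ) :
    0 ≤ ee P x i := by
  unfold ee
  apply Finset.sum_nonneg
  intro D hD
  apply Finset.prod_nonneg
  intro p hp
  exact hx p ((Finset.mem_powersetCard.mp hD).1 hp)

theorem part2 (x : ℕ → ℝ) (P : Finset ℕ) : (∀ p ∈ P, 0 ≤ x p) →
    ∀ i : ℕ, ((i : ℝ) + 1) * ee P x (i + 1) ≤ (∑ p ∈ P, x p) * ee P x i := by
  induction P using Finset.induction_on with
  | empty =>
    intro _ i
    rw [ee_empty, mul_zero, Finset.sum_empty, zero_mul]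
  | insert q P hq ih =>
    intro hx i
    have hxP : ∀ p ∈ P, 0 ≤ x p := fun p hp => hx p (Finset.mem_insert_of_mem hp)
    have hxq : 0 ≤ x q := hx q (Finset.mem_insert_self q P)
    have IH := ih hxP
    rw [Finset.sum_insert hq, ee_insert P x q i hq]
    cases i with
    | zero =>
      have h0 := IH 0
      rw [ee_zero] at h0 ⊢
      rw [ee_zero]
      push_cast at h0 ⊢
      linarith
    | succ k =>
      rw [ee_insert P x q k hq]
      have h1 := IH (k + 1)
      have h2 := IH k
      have h3 := mul_le_mul_of_nonneg_left h2 hxq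
      have h4 : 0 ≤ x q * x q * ee P x k :=
        mul_nonneg (mul_nonneg hxq hxq) (ee_nonneg P x hxP k)
      push_cast at h1 h2 h3 ⊢
      nlinarith [h1, h3, h4]

theorem part3 (x : ℕ → ℝ) (P : Finset ℕ) : (∀ p ∈ P, 0 ≤ x p ∧ x p ≤ 1) →
    ∀ k : ℕ, 0 ≤ (-1 : ℝ) ^ k * (∏ p ∈ P, (1 - x p) -
      ∑ i ∈ range k, (-1 : ℝ) ^ i * ee P x i) := by
  induction P using Finset.induction_on with
  | empty =>
    intro _ k
    cases k with
    | zero => simp
    | succ k =>
      rw [Finset.sum_range_succ']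
      rw [Finset.sum_eq_zero (fun i _ => by rw [ee_empty, mul_zero])]
      rw [ee_zero, Finset.prod_empty]
      simp
  | insert q P hq ih =>
    intro hx k
    have hxP : ∀ p ∈ P, 0 ≤ x p ∧ x p ≤ 1 := fun p hp => hx p (Finset.mem_insert_of_mem hp)
    have hxq := hx q (Finset.mem_insert_self q P)
    have IH := ih hxP
    cases k with
    | zero =>
      rw [Finset.sum_range_zero, pow_zero, one_mul, sub_zero]
      apply Finset.prod_nonneg
      intro p hp
      linarith [(hx p hp).2]
    | succ k =>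
      have hS : ∑ i ∈ range (k + 1), (-1 : ℝ) ^ i * ee (insert q P) x i =
          ∑ i ∈ range (k + 1), (-1 : ℝ) ^ i * ee P x i -
            x q * ∑ i ∈ range k, (-1 : ℝ) ^ i * ee P x i := by
        rw [Finset.sum_range_succ', Finset.sum_range_succ' (fun i => (-1 : ℝ) ^ i * ee P x i) k,
          ee_zero, ee_zero, Finset.mul_sum]
        have h : ∀ i ∈ range k, (-1 : ℝ) ^ (i + 1) * ee (insert q P) x (i + 1) =
            (-1 : ℝ) ^ (i + 1) * ee P x (i + 1) - x q * ((-1 : ℝ) ^ i * ee P x i) := by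
          intro i _
          rw [ee_insert P x q i hq]; ring
        rw [Finset.sum_congr rfl h, Finset.sum_sub_distrib]
        ring
      rw [hS, Finset.prod_insert hq]
      have h1 := IH (k + 1)
      have h2 := mul_nonneg hxq.1 (IH k)
      have h3 : (-1 : ℝ) ^ (k + 1) * ((1 - x q) * ∏ p ∈ P, (1 - x p) -
          (∑ i ∈ range (k + 1), (-1 : ℝ) ^ i * ee P x i -
            x q * ∑ i ∈ range k, (-1 : ℝ) ^ i * ee P x i)) =
          (-1 : ℝ) ^ (k + 1) * (∏ p ∈ P, (1 - x p) -
            ∑ i ∈ range (k + 1), (-1 : ℝ) ^ i * ee P x i) +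
          x q * ((-1 : ℝ) ^ k * (∏ p ∈ P, (1 - x p) -
            ∑ i ∈ range k, (-1 : ℝ) ^ i * ee P x i)) := by ring
      rw [h3]
      exact add_nonneg h1 h2

theorem part4 (x : ℕ → ℝ) (P : Finset ℕ) : (∀ p ∈ P, 0 ≤ x p) →
    ∀ k : ℕ, ∑ i ∈ range k, ee P x i ≤ Real.exp (∑ p ∈ P, x p) := by
  induction P using Finset.induction_on with
  | empty =>
    intro _ k
    cases k with
    | zero => simp
    | succ k =>
      rw [Finset.sum_range_succ', Finset.sum_eq_zero (fun i _ => ee_empty x i), ee_zero]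
      simp
  | insert q P hq ih =>
    intro hx k
    have hxP : ∀ p ∈ P, 0 ≤ x p := fun p hp => hx p (Finset.mem_insert_of_mem hp)
    have hxq : 0 ≤ x q := hx q (Finset.mem_insert_self q P)
    have IH := ih hxP
    rw [Finset.sum_insert hq, Real.exp_add]
    cases k with
    | zero =>
      rw [Finset.sum_range_zero]
      positivity
    | succ k =>
      have hS : ∑ i ∈ range (k + 1), ee (insert q P) x i =
          ∑ i ∈ range (k + 1), ee P x i + x q * ∑ i ∈ range k, ee P x i := by
        rw [Finset.sum_range_succ', Finset.sum_range_succ' (fun i => ee P x i) k,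
          ee_zero, ee_zero, Finset.mul_sum,
          Finset.sum_congr rfl (fun i _ => ee_insert P x q i hq), Finset.sum_add_distrib]
        ring
      rw [hS]
      have h1 := IH (k + 1)
      have h2 := mul_le_mul_of_nonneg_left (IH k) hxq
      have h3 : x q + 1 ≤ Real.exp (x q) := Real.add_one_le_exp (x q)
      have h4 : 0 < Real.exp (∑ p ∈ P, x p) := Real.exp_pos _
      nlinarith [mul_le_mul_of_nonneg_right h3 h4.le]

end IEAM

theorem tIEA : S_IEA := by
  intro P x hx
  have hx0 : ∀ p ∈ P, 0 ≤ x p := fun p hp => (hx p hp).1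
  refine ⟨IEAM.ee_nonneg P x hx0, IEAM.part2 x P hx0, ?_, IEAM.part4 x P hx0⟩
  intro k hk
  have h := IEAM.part3 x P hx (k + 2)
  rw [Finset.sum_range_succ, Finset.sum_range_succ] at h
  have h1 : (-1 : ℝ) ^ k = 1 := hk.neg_one_pow
  have h2 : (-1 : ℝ) ^ (k + 1) = -1 := by rw [pow_succ, h1]; norm_num
  have h3 : (-1 : ℝ) ^ (k + 2) = 1 := by rw [pow_add, h1]; norm_num
  rw [h1, h2, h3] at h
  linarith

end Pool.Agent.Lib.SHD
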