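import Pool.Agent.Lib.SHD.Spec

/-! MP_9a4459_nt, project SHD: lower bound for elementary symmetric sums. -/

set_option autoImplicit false

namespace Pool.Agent.Lib.SHD

open Finset Filter Topology MeasureTheory
open Pool.Agent.Lib.MP_3ef1ab_nt Pool.Agent.Results.MP_9a4459_nt Pool.Agent.Lib.SHG
open Pool.Agent.Lib.SHR hiding ShanksLaw
open Pool.Agent.Lib.SHK (pr Vk nu mem_pr MedStmt PrgStmt)
open scoped Classical

namespace IEBM

theorem ee_zero (P : Finset ℕ) (x : ℕ → ℝ) : ee P x 0 = 1 := by
  simp [ee]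

theorem ee_empty (x : ℕ → ℝ) (i : ℕ) : ee ∅ x (i + 1) = 0 := by
  unfold ee
  rw [Finset.powersetCard_eq_empty.2 (by simp)]
  simp

theorem ee_insert (P : Finset ℕ) (x : ℕ → ℝ) (q : ℕ) (hq : q ∉ P) (i : ℕ) :
    ee (insert q P) x (i + 1) = ee P x (i + 1) + x q * ee P x i := by
  unfold ee
  rw [Finset.powersetCard_succ_insert hq, Finset.sum_union, Finset.mul_sum, Finset.sum_image]
  · refine congrArg _ (Finset.sum_congr rfl fun D hD => ?_)
    have h1 : q ∉ D := fun h => hq ((Finset.mem_powersetCard.1 hD).1 h)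
    rw [Finset.prod_insert h1]
  · intro D hD D' hD' h
    have h1 : q ∉ D := fun h => hq ((Finset.mem_powersetCard.1 hD).1 h)
    have h2 : q ∉ D' := fun h => hq ((Finset.mem_powersetCard.1 hD').1 h)
    have h3 := congrArg (fun S => Finset.erase S q) h
    simp only [Finset.erase_insert h1, Finset.erase_insert h2] at h3
    exact h3
  · rw [Finset.disjoint_left]
    intro D hD hD'
    obtain ⟨D', -, rfl⟩ := Finset.mem_image.1 hD'
    exact hq ((Finset.mem_powersetCard.1 hD).1 (Finset.mem_insert_self q D'))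

theorem pow_sub (u v : ℝ) (hv : 0 ≤ v) (huv : v ≤ u) (n : ℕ) :
    u ^ (n + 1) - v ^ (n + 1) ≤ ((n : ℝ) + 1) * (u - v) * u ^ n := by
  induction n with
  | zero => simp
  | succ n ih =>
    have hu : 0 ≤ u := hv.trans huv
    have h1 : v ^ (n + 1) ≤ u ^ (n + 1) := pow_le_pow_left₀ hv huv _
    have h2 : u ^ (n + 1 + 1) - v ^ (n + 1 + 1) =
        u * (u ^ (n + 1) - v ^ (n + 1)) + v ^ (n + 1) * (u - v) := by ring
    have h3 := mul_le_mul_of_nonneg_left ih hu
    have h4 := mul_le_mul_of_nonneg_right h1 (sub_nonneg.2 huv)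
    rw [h2]
    push_cast
    calc u * (u ^ (n + 1) - v ^ (n + 1)) + v ^ (n + 1) * (u - v)
        ≤ u * (((n : ℝ) + 1) * (u - v) * u ^ n) + u ^ (n + 1) * (u - v) := add_le_add h3 h4
      _ = ((n : ℝ) + 1 + 1) * (u - v) * u ^ (n + 1) := by ring

end IEBM

open IEBM

theorem tIEB : S_IEB := by
  intro P x μ hμ
  induction P using Finset.induction_on with
  | empty =>
    intro _ i
    cases i with
    | zero => simp [ee_zero]
    | succ i =>
      have h1 : max ((∑ p ∈ (∅ : Finset ℕ), x p) - ((i + 1 : ℕ) : ℝ) * μ) 0 = 0 := by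
        rw [Finset.sum_empty]
        refine max_eq_right ?_
        have : 0 ≤ ((i + 1 : ℕ) : ℝ) * μ := by positivity
        linarith
      rw [h1, ee_empty, zero_pow (Nat.succ_ne_zero i), zero_div]
  | insert q P hq ih =>
    intro hx i
    have hxP : ∀ p ∈ P, 0 ≤ x p ∧ x p ≤ μ := fun p hp => hx p (Finset.mem_insert_of_mem hp)
    have ih' := ih hxP
    obtain ⟨hq0, hqμ⟩ := hx q (Finset.mem_insert_self q P)
    cases i with
    | zero => simp [ee_zero]
    | succ i =>
      have h1 := ih' (i + 1)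
      have h2 := ih' i
      rw [Finset.sum_insert hq, ee_insert P x q hq i]
      set l : ℝ := ∑ p ∈ P, x p with hl
      set A : ℝ := max (l - ((i + 1 : ℕ) : ℝ) * μ) 0 with hA
      set B : ℝ := max (x q + l - ((i + 1 : ℕ) : ℝ) * μ) 0 with hB
      set C : ℝ := max (l - (i : ℝ) * μ) 0 with hC
      have hA0 : 0 ≤ A := le_max_right _ _
      have hB0 : 0 ≤ B := le_max_right _ _
      have hAB : A ≤ B := max_le_max (by linarith) le_rfl
      have hBA : B - A ≤ x q := by
        have h3 : B ≤ A + x q := by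
          refine max_le ?_ (by linarith)
          have := le_max_left (l - ((i + 1 : ℕ) : ℝ) * μ) 0
          linarith
        linarith
      have hBC : B ≤ C := by
        refine max_le_max ?_ le_rfl
        push_cast
        linarith
      have h4 := pow_sub B A hA0 hAB i
      have h5 : ((i : ℝ) + 1) * (B - A) * B ^ i ≤ ((i : ℝ) + 1) * x q * C ^ i := by
        have h6 : B ^ i ≤ C ^ i := pow_le_pow_left₀ hB0 hBC i
        have h7 : 0 ≤ B ^ i := pow_nonneg hB0 i
        have h8 : ((i : ℝ) + 1) * (B - A) ≤ ((i : ℝ) + 1) * x q :=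
          mul_le_mul_of_nonneg_left hBA (by positivity)
        exact mul_le_mul h8 h6 h7 (by positivity)
      have hf : (0 : ℝ) < (i.factorial : ℝ) := by exact_mod_cast Nat.factorial_pos i
      have hf1 : ((i + 1).factorial : ℝ) = ((i : ℝ) + 1) * (i.factorial : ℝ) := by
        rw [Nat.factorial_succ]
        push_cast
        ring
      have h9 : B ^ (i + 1) / ((i + 1).factorial : ℝ) ≤
          A ^ (i + 1) / ((i + 1).factorial : ℝ) + x q * (C ^ i / (i.factorial : ℝ)) := by
        have h10 : x q * (C ^ i / (i.factorial : ℝ)) =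
            (((i : ℝ) + 1) * x q * C ^ i) / ((i + 1).factorial : ℝ) := by
          rw [hf1]
          have : ((i : ℝ) + 1) ≠ 0 := by positivity
          field_simp
        rw [h10, ← add_div]
        refine div_le_div_of_nonneg_right ?_ (by positivity)
        linarith
      have h11 := mul_le_mul_of_nonneg_left h2 hq0
      linarith

end Pool.Agent.Lib.SHD
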