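import Pool.Agent.Lib.SHD.Spec

set_option autoImplicit false

/-! # SHD, module IES: inclusion-exclusion over the sets of special primes -/

namespace Pool.Agent.Lib.SHD

open Finset Filter Topology MeasureTheory
open Pool.Agent.Lib.MP_3ef1ab_nt Pool.Agent.Results.MP_9a4459_nt Pool.Agent.Lib.SHG
open Pool.Agent.Lib.SHR hiding ShanksLaw
open Pool.Agent.Lib.SHK (pr Vk nu mem_pr MedStmt PrgStmt)
open scoped Classical

namespace IESM

/-- Inclusion-exclusion for one integer. -/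
theorem ie (P : Finset ℕ) (c : ℕ → Prop) [DecidablePred c] :
    (if ∀ p ∈ P, ¬ c p then (1 : ℝ) else 0) =
      ∑ D ∈ P.powerset, (-1 : ℝ) ^ D.card * (if ∀ p ∈ D, c p then (1 : ℝ) else 0) := by
  have h1 : (if ∀ p ∈ P, ¬ c p then (1 : ℝ) else 0) =
      ∏ p ∈ P, (1 + -(if c p then (1 : ℝ) else 0)) := by
    have h0 : ∀ p ∈ P, (1 + -(if c p then (1 : ℝ) else 0)) = (if ¬ c p then (1 : ℝ) else 0) := by
      intro p _
      by_cases h : c p <;> simp [h]
    rw [Finset.prod_congr rfl h0, Finset.prod_ite_zero]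
    simp
  rw [h1, Finset.prod_one_add]
  refine Finset.sum_congr rfl (fun D _ => ?_)
  have h2 : ∀ p ∈ D, (-(if c p then (1 : ℝ) else 0)) = (-1 : ℝ) * (if c p then (1 : ℝ) else 0) := by
    intro p _
    ring
  rw [Finset.prod_congr rfl h2, Finset.prod_mul_distrib, Finset.prod_const, Finset.prod_ite_zero]
  simp

end IESM

theorem tIES : S_IES := by
  intro J P Q b k hk
  have hc : ∀ D : Finset ℕ, ((J.filter (fun j => Q j ∧ ∀ p ∈ D, p ∣ b + j)).card : ℝ) =
      ∑ j ∈ J, (if Q j then (1 : ℝ) else 0) * (if ∀ p ∈ D, p ∣ b + j then (1 : ℝ) else 0) := by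
    intro D
    rw [Finset.card_filter]
    push_cast
    refine Finset.sum_congr rfl (fun j _ => ?_)
    by_cases h : Q j <;> by_cases h' : ∀ p ∈ D, p ∣ b + j <;> simp [h, h']
  have hc0 : ((J.filter (fun j => Q j ∧ ∀ p ∈ P, ¬ p ∣ b + j)).card : ℝ) =
      ∑ j ∈ J, (if Q j then (1 : ℝ) else 0) * (if ∀ p ∈ P, ¬ p ∣ b + j then (1 : ℝ) else 0) := by
    rw [Finset.card_filter]
    push_cast
    refine Finset.sum_congr rfl (fun j _ => ?_)
    by_cases h : Q j <;> by_cases h' : ∀ p ∈ P, ¬ p ∣ b + j <;> simp [h, h']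
  have h1 : ((J.filter (fun j => Q j ∧ ∀ p ∈ P, ¬ p ∣ b + j)).card : ℝ) =
      ∑ D ∈ P.powerset, (-1 : ℝ) ^ D.card *
        ((J.filter (fun j => Q j ∧ ∀ p ∈ D, p ∣ b + j)).card : ℝ) := by
    rw [hc0]
    have h2 : ∀ j ∈ J, (if Q j then (1 : ℝ) else 0) *
        (if ∀ p ∈ P, ¬ p ∣ b + j then (1 : ℝ) else 0) =
        ∑ D ∈ P.powerset, (-1 : ℝ) ^ D.card * ((if Q j then (1 : ℝ) else 0) *
          (if ∀ p ∈ D, p ∣ b + j then (1 : ℝ) else 0)) := by
      intro j _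
      have h3 := IESM.ie P (fun p => p ∣ b + j)
      rw [h3, Finset.mul_sum]
      refine Finset.sum_congr rfl (fun D _ => ?_)
      ring
    rw [Finset.sum_congr rfl h2, Finset.sum_comm]
    refine Finset.sum_congr rfl (fun D _ => ?_)
    rw [hc D, Finset.mul_sum]
  have hz : ∀ i, k ≤ i → (-1 : ℝ) ^ i * ∑ D ∈ P.powersetCard i,
      ((J.filter (fun j => Q j ∧ ∀ p ∈ D, p ∣ b + j)).card : ℝ) = 0 := by
    intro i hi
    have h0 : ∑ D ∈ P.powersetCard i,
        ((J.filter (fun j => Q j ∧ ∀ p ∈ D, p ∣ b + j)).card : ℝ) = 0 := by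
      apply Finset.sum_eq_zero
      intro D hD
      rw [Finset.mem_powersetCard] at hD
      have h4 : J.filter (fun j => Q j ∧ ∀ p ∈ D, p ∣ b + j) = ∅ := by
        apply Finset.filter_eq_empty_iff.2
        intro j hj h5
        exact hk D hD.1 (by omega) j hj h5.1 h5.2
      rw [h4]
      simp
    rw [h0, mul_zero]
  have hz2 : ∀ i, P.card + 1 ≤ i → (-1 : ℝ) ^ i * ∑ D ∈ P.powersetCard i,
      ((J.filter (fun j => Q j ∧ ∀ p ∈ D, p ∣ b + j)).card : ℝ) = 0 := by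
    intro i hi
    rw [Finset.powersetCard_eq_empty.2 (by omega)]
    simp
  rw [h1, Finset.sum_powerset]
  have e1 : ∑ i ∈ range (P.card + 1), ∑ D ∈ P.powersetCard i, (-1 : ℝ) ^ D.card *
        ((J.filter (fun j => Q j ∧ ∀ p ∈ D, p ∣ b + j)).card : ℝ) =
      ∑ i ∈ range (P.card + 1), (-1 : ℝ) ^ i * ∑ D ∈ P.powersetCard i,
        ((J.filter (fun j => Q j ∧ ∀ p ∈ D, p ∣ b + j)).card : ℝ) := by
    refine Finset.sum_congr rfl (fun i _ => ?_)
    rw [Finset.mul_sum]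
    refine Finset.sum_congr rfl (fun D hD => ?_)
    rw [(Finset.mem_powersetCard.1 hD).2]
  rw [e1]
  have e2 : ∑ i ∈ range (P.card + 1), (-1 : ℝ) ^ i * ∑ D ∈ P.powersetCard i,
        ((J.filter (fun j => Q j ∧ ∀ p ∈ D, p ∣ b + j)).card : ℝ) =
      ∑ i ∈ range (max k (P.card + 1)), (-1 : ℝ) ^ i * ∑ D ∈ P.powersetCard i,
        ((J.filter (fun j => Q j ∧ ∀ p ∈ D, p ∣ b + j)).card : ℝ) := by
    apply Finset.sum_subset
    · intro i hi
      rw [Finset.mem_range] at hi ⊢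
      exact lt_of_lt_of_le hi (le_max_right _ _)
    · intro i _ hi
      rw [Finset.mem_range, not_lt] at hi
      exact hz2 i hi
  have e3 : ∑ i ∈ range k, (-1 : ℝ) ^ i * ∑ D ∈ P.powersetCard i,
        ((J.filter (fun j => Q j ∧ ∀ p ∈ D, p ∣ b + j)).card : ℝ) =
      ∑ i ∈ range (max k (P.card + 1)), (-1 : ℝ) ^ i * ∑ D ∈ P.powersetCard i,
        ((J.filter (fun j => Q j ∧ ∀ p ∈ D, p ∣ b + j)).card : ℝ) := by
    apply Finset.sum_subset
    · intro i hi
      rw [Finset.mem_range] at hi ⊢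
      exact lt_of_lt_of_le hi (le_max_left _ _)
    · intro i _ hi
      rw [Finset.mem_range, not_lt] at hi
      exact hz i hi
  rw [e2, e3]

end Pool.Agent.Lib.SHD
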