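import Pool.Agent.Lib.SHD.SpecB

set_option autoImplicit false

/-! MP_9a4459_nt, module MEDA: the medium primes (first moment), general exponent. -/

namespace Pool.Agent.Lib.SHD

open Finset Filter Topology MeasureTheory
open Pool.Agent.Lib.MP_3ef1ab_nt Pool.Agent.Results.MP_9a4459_nt Pool.Agent.Lib.SHG
open Pool.Agent.Lib.SHR hiding ShanksLaw
open Pool.Agent.Lib.SHK (pr Vk nu mem_pr MedStmt PrgStmt MrtStmt)
open scoped Classical

namespace MEDAM

/-- products of 1 - ν/p are not small -/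
lemma prod (P : Finset ℕ) (ν : ℕ → ℕ) (C2 : ℝ) (h1 : ∀ p ∈ P, 100 ≤ p)
    (h2 : ∀ p ∈ P, ν p ≤ 3) (h3 : ∑ p ∈ P, 1 / (p : ℝ) ≤ C2) :
    Real.exp (-6 * C2) ≤ ∏ p ∈ P, (1 - (ν p : ℝ) / p) := by
  have h4 : ∀ p ∈ P, Real.exp (-6 * (1 / (p : ℝ))) ≤ 1 - (ν p : ℝ) / p := by
    intro p hp
    have hp1 : (100 : ℝ) ≤ p := by exact_mod_cast h1 p hp
    have hp0 : (0 : ℝ) < p := by linarith
    have hν : (ν p : ℝ) ≤ 3 := by exact_mod_cast h2 p hp
    have hu0 : 0 < 1 / (p : ℝ) := by positivity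
    have hu1 : 1 / (p : ℝ) ≤ 1 / 100 := one_div_le_one_div_of_le (by norm_num) hp1
    have h5 : (ν p : ℝ) / p ≤ 3 * (1 / (p : ℝ)) := by
      rw [div_eq_mul_one_div]
      exact mul_le_mul_of_nonneg_right hν hu0.le
    generalize 1 / (p : ℝ) = u at *
    have h6 : 1 + 6 * u ≤ Real.exp (6 * u) := by
      have := Real.add_one_le_exp (6 * u)
      linarith
    have h7 : Real.exp (-6 * u) * Real.exp (6 * u) = 1 := by
      rw [← Real.exp_add]
      have : -6 * u + 6 * u = 0 := by ring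
      rw [this, Real.exp_zero]
    have h8 : 0 < Real.exp (-6 * u) := Real.exp_pos _
    have h9 : Real.exp (-6 * u) * (1 + 6 * u) ≤ 1 :=
      (mul_le_mul_of_nonneg_left h6 h8.le).trans h7.le
    have h10 : (1 : ℝ) ≤ (1 - 3 * u) * (1 + 6 * u) := by nlinarith
    have h11 : Real.exp (-6 * u) ≤ 1 - 3 * u := by
      have : Real.exp (-6 * u) * (1 + 6 * u) ≤ (1 - 3 * u) * (1 + 6 * u) := h9.trans h10
      exact le_of_mul_le_mul_right this (by linarith)
    linarith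
  calc Real.exp (-6 * C2) ≤ Real.exp (∑ p ∈ P, -6 * (1 / (p : ℝ))) := by
        apply Real.exp_le_exp.2
        rw [← mul_sum]
        linarith
    _ = ∏ p ∈ P, Real.exp (-6 * (1 / (p : ℝ))) := Real.exp_sum _ _
    _ ≤ _ := prod_le_prod (fun p _ => (Real.exp_pos _).le) h4

lemma mer (C : ℝ) (hC : 0 < C) (h : ∀ x y : ℝ, 2 ≤ x → x ≤ y →
    |∑ p ∈ (Ioc ⌊x⌋₊ ⌊y⌋₊).filter Nat.Prime, 1 / (p : ℝ) - Real.log (Real.log y / Real.log x)| ≤
      C / Real.log x) (A y w : ℕ) (h1 : 100 ≤ y) (h2 : y ≤ w) (h3 : w ≤ y ^ A) :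
    ∑ p ∈ pr y w, 1 / (p : ℝ) ≤ Real.log A + C / Real.log 2 := by
  have hA : 0 < A := by
    rcases Nat.eq_zero_or_pos A with h0 | h0
    · rw [h0, pow_zero] at h3
      omega
    · exact h0
  have hA' : (0 : ℝ) < A := by exact_mod_cast hA
  have hy : (100 : ℝ) ≤ y := by exact_mod_cast h1
  have hw : (y : ℝ) ≤ w := by exact_mod_cast h2
  have hlw : Real.log w ≤ A * Real.log y := by
    have h4 : (w : ℝ) ≤ (y : ℝ) ^ A := by exact_mod_cast h3
    calc Real.log w ≤ Real.log ((y : ℝ) ^ A) := Real.log_le_log (by linarith) h4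
      _ = A * Real.log y := by rw [Real.log_pow]
  have hly : 0 < Real.log y := Real.log_pos (by linarith)
  have hlw0 : 0 < Real.log w := Real.log_pos (by linarith)
  have h5 := h y w (by linarith) hw
  rw [Nat.floor_natCast, Nat.floor_natCast] at h5
  have h6 := (abs_le.1 h5).2
  have h7 : Real.log (Real.log w / Real.log y) ≤ Real.log A :=
    Real.log_le_log (by positivity) (by rw [div_le_iff₀ hly]; exact hlw)
  have h8 : C / Real.log y ≤ C / Real.log 2 := by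
    apply div_le_div_of_nonneg_left hC.le (Real.log_pos (by norm_num))
    exact Real.log_le_log (by norm_num) (by linarith)
  have h9 : ∑ p ∈ pr y w, 1 / (p : ℝ) = ∑ p ∈ (Ioc y w).filter Nat.Prime, 1 / (p : ℝ) := rfl
  rw [h9]
  linarith

lemma err (h2 : PrgStmt) (Q H : Finset ℕ) (a : ℕ → ℕ) (n0 D N R0 w : ℕ) (C2 κ : ℝ)
    (hQ : ∀ p ∈ Q, p.Prime ∧ p.Coprime D ∧ a p < p) (hH : H.card ≤ 3) (hQw : Q.card ≤ w)
    (hsum : ∑ p ∈ Q, 1 / (p : ℝ) ≤ C2)
    (hR0 : 2 * ((3 * C2) ^ R0 / (R0.factorial : ℝ)) ≤ κ) (hw : 4 ≤ w) (hw2 : 1 ≤ κ * w)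
    (hN : w ^ (2 * R0 + 1) ≤ N) :
    ∃ F : Finset ℕ, (∀ t, t ∈ F ↔ t ∈ range N ∧ ∀ p ∈ Q, ∀ h ∈ H, (n0 + D * t + h) % p ≠ a p) ∧
      |(F.card : ℝ) - N * ∏ p ∈ Q, (1 - (nu H p : ℝ) / p)| ≤ 2 * κ * N := by
  have h := h2 Q H a n0 D N R0 hQ
  refine ⟨_, fun t => mem_filter, h.trans ?_⟩
  have hHc : (H.card : ℝ) ≤ 3 := by exact_mod_cast hH
  have hs0 : 0 ≤ ∑ p ∈ Q, (H.card : ℝ) / p := sum_nonneg fun p _ => by positivity
  have hs1 : ∑ p ∈ Q, (H.card : ℝ) / p ≤ 3 * C2 := by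
    have h5 : ∑ p ∈ Q, (H.card : ℝ) / p = H.card * ∑ p ∈ Q, 1 / (p : ℝ) := by
      rw [mul_sum]
      exact sum_congr rfl fun p _ => by rw [div_eq_mul_one_div]
    rw [h5]
    have h6 : 0 ≤ ∑ p ∈ Q, 1 / (p : ℝ) := sum_nonneg fun p _ => by positivity
    exact mul_le_mul hHc hsum h6 (by norm_num)
  have hN0 : (0 : ℝ) ≤ N := Nat.cast_nonneg N
  have hf : (0 : ℝ) < (R0.factorial : ℝ) := by exact_mod_cast R0.factorial_pos
  have hA : 2 * (N : ℝ) * ((∑ p ∈ Q, (H.card : ℝ) / p) ^ R0 / (R0.factorial : ℝ)) ≤ κ * N := by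
    have h5 : (∑ p ∈ Q, (H.card : ℝ) / p) ^ R0 ≤ (3 * C2) ^ R0 := pow_le_pow_left₀ hs0 hs1 R0
    have h6 : (∑ p ∈ Q, (H.card : ℝ) / p) ^ R0 / (R0.factorial : ℝ) ≤
        (3 * C2) ^ R0 / (R0.factorial : ℝ) := div_le_div_of_nonneg_right h5 hf.le
    calc 2 * (N : ℝ) * ((∑ p ∈ Q, (H.card : ℝ) / p) ^ R0 / (R0.factorial : ℝ))
        = N * (2 * ((∑ p ∈ Q, (H.card : ℝ) / p) ^ R0 / (R0.factorial : ℝ))) := by ring
      _ ≤ N * κ := mul_le_mul_of_nonneg_left (by linarith) hN0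
      _ = κ * N := mul_comm _ _
  have hw0 : (4 : ℝ) ≤ w := by exact_mod_cast hw
  have hB : (1 + (Q.card : ℝ) * H.card) ^ R0 ≤ κ * N := by
    have hκ : 0 ≤ κ := by
      by_contra hneg
      push Not at hneg
      nlinarith
    have h5 : (1 + (Q.card : ℝ) * H.card) ≤ (w : ℝ) ^ 2 := by
      have h6 : (Q.card : ℝ) ≤ w := by exact_mod_cast hQw
      have h7 : (Q.card : ℝ) * H.card ≤ w * 3 :=
        mul_le_mul h6 hHc (Nat.cast_nonneg _) (by linarith)
      nlinarith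
    have h8 : (1 + (Q.card : ℝ) * H.card) ^ R0 ≤ ((w : ℝ) ^ 2) ^ R0 :=
      pow_le_pow_left₀ (by positivity) h5 R0
    have h9 : ((w : ℝ) ^ 2) ^ R0 * 1 ≤ ((w : ℝ) ^ 2) ^ R0 * (κ * w) :=
      mul_le_mul_of_nonneg_left hw2 (by positivity)
    have h10 : ((w : ℝ) ^ 2) ^ R0 * (κ * w) = κ * (w : ℝ) ^ (2 * R0 + 1) := by
      rw [← pow_mul, pow_succ]
      ring
    have h11 : (w : ℝ) ^ (2 * R0 + 1) ≤ N := by exact_mod_cast hN
    have h12 : κ * (w : ℝ) ^ (2 * R0 + 1) ≤ κ * N := mul_le_mul_of_nonneg_left h11 hκ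
    linarith
  linarith

lemma count (N : ℕ) (A : ℕ → Prop) (B : ℕ → ℕ → Prop) [DecidablePred A]
    [∀ j t, Decidable (B j t)] (S : Finset ℕ) (δ V P c0 : ℝ) (hδ : 0 < δ) (hδ1 : δ ≤ 1)
    (hc0 : 0 < c0) (hV : c0 ≤ V) (hP : c0 ≤ P)
    (hA : N * P * (1 - δ / 16) ≤ (((range N).filter A).card : ℝ))
    (hB : ∀ j ∈ S, (((range N).filter (fun t => A t ∧ B j t)).card : ℝ) ≤
      N * (P * V) * (1 + δ / 8)) :
    δ / 4 * c0 * N ≤ (((range N).filter (fun t => A t ∧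
      ((S.filter (fun j => B j t)).card : ℝ) ≤ (1 + δ) * (S.card * V))).card : ℝ) := by
  have hN0 : (0 : ℝ) ≤ N := Nat.cast_nonneg N
  have hV0 : 0 < V := lt_of_lt_of_le hc0 hV
  have hP0 : 0 < P := lt_of_lt_of_le hc0 hP
  set K : ℕ → ℝ := fun t => ((S.filter (fun j => B j t)).card : ℝ) with hK
  set L : ℝ := (1 + δ) * (S.card * V) with hL
  set G := (range N).filter (fun t => A t ∧ K t ≤ L) with hG
  set Bd := (range N).filter (fun t => A t ∧ ¬ K t ≤ L) with hBd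
  change δ / 4 * c0 * N ≤ (G.card : ℝ)
  have hsplit : (((range N).filter A).card : ℝ) = G.card + Bd.card := by
    have h1 : ((range N).filter A).card =
        (((range N).filter A).filter (fun t => K t ≤ L)).card +
        (((range N).filter A).filter (fun t => ¬ K t ≤ L)).card :=
      (card_filter_add_card_filter_not (s := (range N).filter A) (fun t => K t ≤ L)).symm
    rw [filter_filter, filter_filter] at h1
    rw [h1]
    push_cast
    rfl
  have hNP : (N : ℝ) * c0 ≤ N * P := mul_le_mul_of_nonneg_left hP hN0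
  rcases S.eq_empty_or_nonempty with hS | hS
  · have hBe : Bd = ∅ := by
      rw [hBd]
      apply filter_eq_empty_iff.2
      rintro t _ ⟨_, h2⟩
      apply h2
      rw [hK, hL, hS]
      simp
    rw [hBe] at hsplit
    simp only [card_empty, Nat.cast_zero, add_zero] at hsplit
    rw [← hsplit]
    refine le_trans ?_ hA
    nlinarith [mul_nonneg hN0 hc0.le, mul_nonneg (mul_nonneg hN0 hP0.le) hδ.le]
  · have hS0 : (0 : ℝ) < S.card := by exact_mod_cast hS.card_pos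
    have h1 : (Bd.card : ℝ) * L ≤ ∑ t ∈ Bd, K t := by
      rw [← nsmul_eq_mul]
      refine card_nsmul_le_sum _ _ _ fun t ht => ?_
      have h2 := (mem_filter.1 ht).2.2
      exact (not_le.1 h2).le
    have h2 : ∑ t ∈ Bd, K t ≤ ∑ t ∈ (range N).filter A, K t := by
      refine sum_le_sum_of_subset_of_nonneg ?_ fun t _ _ => Nat.cast_nonneg _
      intro t ht
      have h3 := mem_filter.1 ht
      exact mem_filter.2 ⟨h3.1, h3.2.1⟩
    have h3 : ∑ t ∈ (range N).filter A, K t =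
        ∑ j ∈ S, (((range N).filter (fun t => A t ∧ B j t)).card : ℝ) := by
      have h4 : ∀ t, K t = ∑ j ∈ S, if B j t then (1 : ℝ) else 0 := by
        intro t
        rw [hK]
        simp only [card_filter]
        push_cast
        rfl
      have h5 : ∀ j, (((range N).filter (fun t => A t ∧ B j t)).card : ℝ) =
          ∑ t ∈ (range N).filter A, if B j t then (1 : ℝ) else 0 := by
        intro j
        rw [← filter_filter, card_filter]
        push_cast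
        rfl
      rw [sum_congr rfl fun t _ => h4 t, sum_comm]
      exact sum_congr rfl fun j _ => (h5 j).symm
    have h4 : ∑ j ∈ S, (((range N).filter (fun t => A t ∧ B j t)).card : ℝ) ≤
        S.card * (N * (P * V) * (1 + δ / 8)) := by
      rw [← nsmul_eq_mul]
      exact sum_le_card_nsmul _ _ _ hB
    have h5 : (Bd.card : ℝ) * (1 + δ) ≤ N * P * (1 + δ / 8) := by
      have h6 : (Bd.card : ℝ) * L ≤ S.card * (N * (P * V) * (1 + δ / 8)) := by
        linarith [h3.le]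
      have h7 : ((Bd.card : ℝ) * (1 + δ)) * (S.card * V) ≤
          (N * P * (1 + δ / 8)) * (S.card * V) := by
        calc ((Bd.card : ℝ) * (1 + δ)) * (S.card * V) = Bd.card * L := by rw [hL]; ring
          _ ≤ _ := h6
          _ = _ := by ring
      exact le_of_mul_le_mul_right h7 (mul_pos hS0 hV0)
    have h6 : N * P * (1 - δ / 16) ≤ G.card + Bd.card := hsplit ▸ hA
    have hX : 0 ≤ (N : ℝ) * P := mul_nonneg hN0 hP0.le
    have h7 : N * P * (3 / 4 * δ) ≤ G.card * (1 + δ) := by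
      have h8 : N * P * (1 - δ / 16) * (1 + δ) ≤ (G.card + Bd.card) * (1 + δ) :=
        mul_le_mul_of_nonneg_right h6 (by linarith)
      have h9 : N * P * (3 / 4 * δ) ≤ N * P * ((1 - δ / 16) * (1 + δ) - (1 + δ / 8)) := by
        apply mul_le_mul_of_nonneg_left _ hX
        nlinarith
      nlinarith
    have h8 : (G.card : ℝ) * (1 + δ) ≤ G.card * 2 :=
      mul_le_mul_of_nonneg_left (by linarith) (Nat.cast_nonneg _)
    have h9 : δ * (N * c0) ≤ δ * (N * P) := mul_le_mul_of_nonneg_left hNP hδ.le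
    nlinarith [mul_nonneg hδ.le hX]

end MEDAM

theorem tMEDA (h1 : MrtStmt) (h2 : PrgStmt) (h3 : S_RT) : MedA := by
  intro A δ hδ hδ1
  obtain ⟨C, hC, hM⟩ := h1
  set C2 : ℝ := Real.log (A : ℝ) + C / Real.log 2 with hC2
  have hl2 : 0 < Real.log 2 := Real.log_pos (by norm_num)
  have hC2p : 0 < C2 := by
    have h4 : 0 ≤ Real.log (A : ℝ) := Real.log_natCast_nonneg A
    have h5 : 0 < C / Real.log 2 := by positivity
    linarith
  set c0 : ℝ := Real.exp (-6 * C2) with hc0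
  have hc0p : 0 < c0 := Real.exp_pos _
  have hc01 : c0 ≤ 1 := by
    rw [hc0, Real.exp_le_one_iff]
    linarith
  set κ : ℝ := δ / 32 * c0 ^ 2 with hκ
  have hκp : 0 < κ := by positivity
  obtain ⟨R0, hR0⟩ : ∃ R0 : ℕ, 2 * ((3 * C2) ^ R0 / (R0.factorial : ℝ)) ≤ κ := by
    have h4 := (FloorSemiring.tendsto_pow_div_factorial_atTop (3 * C2)).const_mul 2
    rw [mul_zero] at h4
    exact (h4.eventually (ge_mem_nhds hκp)).exists
  obtain ⟨y1, hy1, hR⟩ := h3 A (δ / 16) (by positivity)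
  refine ⟨δ / 4 * c0, by positivity, 2 * R0 + 1, max (max y1 100) ⌈1 / κ⌉₊, ?_⟩
  intro y w g N n0 D a S hy hyw hw12 hg hgy hN hS ha
  have hy2 : y1 ≤ y := (le_max_left _ _).trans ((le_max_left _ _).trans hy)
  have hy100 : 100 ≤ y := (le_max_right _ _).trans ((le_max_left _ _).trans hy)
  have hyk : ⌈1 / κ⌉₊ ≤ y := (le_max_right _ _).trans hy
  have hwk : 1 ≤ κ * w := by
    have h4 : 1 / κ ≤ (w : ℝ) := (Nat.le_ceil _).trans (by exact_mod_cast hyk.trans hyw)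
    rw [div_le_iff₀ hκp] at h4
    linarith
  have hsum := MEDAM.mer C hC hM A y w hy100 hyw hw12
  rw [← hC2] at hsum
  have hQ : ∀ p ∈ pr y w, p.Prime ∧ p.Coprime D ∧ a p < p := fun p hp =>
    ⟨(mem_pr.1 hp).2.2, ha p hp⟩
  have hp100 : ∀ p ∈ pr y w, 100 ≤ p := fun p hp => hy100.trans (mem_pr.1 hp).1.le
  have hQc : (pr y w).card ≤ w := by
    calc (pr y w).card ≤ (Ioc y w).card := card_filter_le _ _
      _ = w - y := Nat.card_Ioc _ _
      _ ≤ w := Nat.sub_le _ _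
  have hw4 : 4 ≤ w := by omega
  have hnu : ∀ H : Finset ℕ, H.card ≤ 3 → ∀ p, nu H p ≤ 3 := fun H hH p =>
    card_image_le.trans hH
  have hcard2 : ({0, g} : Finset ℕ).card ≤ 3 := card_le_two.trans (by norm_num)
  have hcard3 : ∀ j : ℕ, ({0, j, g} : Finset ℕ).card ≤ 3 := fun j => card_le_three
  have hP := MEDAM.prod (pr y w) (nu {0, g}) C2 hp100 (fun p _ => hnu _ hcard2 p) hsum
  have hV : c0 ≤ Vk 1 y w := MEDAM.prod (pr y w) (fun _ => 1) C2 hp100 (fun p _ => by norm_num) hsum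
  rw [← hc0] at hP
  have herr := fun (H : Finset ℕ) (hH : H.card ≤ 3) =>
    MEDAM.err h2 (pr y w) H a n0 D N R0 w C2 κ hQ hH hQc hsum hR0 hw4 hwk hN
  have hN0 : (0 : ℝ) ≤ N := Nat.cast_nonneg N
  set P : ℝ := ∏ p ∈ pr y w, (1 - (nu {0, g} p : ℝ) / p) with hPd
  set V : ℝ := Vk 1 y w with hVd
  have hVP : c0 ^ 2 ≤ P * V := by
    rw [sq]
    exact mul_le_mul hP hV hc0p.le (hc0p.le.trans hP)
  have hcP : c0 ^ 2 ≤ P := by
    have h4 : c0 ^ 2 ≤ c0 := by
      rw [sq]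
      exact mul_le_of_le_one_right hc0p.le hc01
    exact h4.trans hP
  refine MEDAM.count N
    (fun t => ∀ p ∈ pr y w, (n0 + D * t) % p ≠ a p ∧ (n0 + D * t + g) % p ≠ a p)
    (fun j t => ∀ p ∈ pr y w, (n0 + D * t + j) % p ≠ a p) S δ V P c0 hδ hδ1 hc0p hV hP ?_ ?_
  · obtain ⟨F, hF, h4⟩ := herr {0, g} hcard2
    have h4 := (abs_le.1 h4).1
    have h5 : F ⊆ (range N).filter (fun t => ∀ p ∈ pr y w, (n0 + D * t) % p ≠ a p ∧
        (n0 + D * t + g) % p ≠ a p) := by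
      intro t ht
      have hh := (hF t).1 ht
      exact mem_filter.2 ⟨hh.1, fun p hp => ⟨hh.2 p hp 0 (by simp), hh.2 p hp g (by simp)⟩⟩
    have h5c : (F.card : ℝ) ≤ (((range N).filter (fun t => ∀ p ∈ pr y w, (n0 + D * t) % p ≠ a p ∧
        (n0 + D * t + g) % p ≠ a p)).card : ℝ) := by exact_mod_cast card_le_card h5
    refine le_trans ?_ h5c
    have h6 : 2 * κ * N ≤ N * P * (δ / 16) := by
      have h7 : 2 * κ = δ / 16 * c0 ^ 2 := by rw [hκ]; ring
      rw [h7]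
      have h8 : δ / 16 * c0 ^ 2 ≤ δ / 16 * P := mul_le_mul_of_nonneg_left hcP (by positivity)
      nlinarith [mul_le_mul_of_nonneg_right h8 hN0]
    linarith
  · intro j hj
    have hj2 := mem_Ioo.1 (hS hj)
    obtain ⟨F, hF, h4⟩ := herr {0, j, g} (hcard3 j)
    have h4 := (abs_le.1 h4).2
    have h5 : (range N).filter (fun t => (∀ p ∈ pr y w, (n0 + D * t) % p ≠ a p ∧
        (n0 + D * t + g) % p ≠ a p) ∧ ∀ p ∈ pr y w, (n0 + D * t + j) % p ≠ a p) ⊆ F := by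
      intro t ht
      obtain ⟨hr, ha1, ha2⟩ := mem_filter.1 ht
      refine (hF t).2 ⟨hr, fun p hp h hh => ?_⟩
      simp only [mem_insert, mem_singleton] at hh
      rcases hh with hh | hh | hh
      · rw [hh]
        exact (ha1 p hp).1
      · rw [hh]
        exact ha2 p hp
      · rw [hh]
        exact (ha1 p hp).2
    have h5c : (((range N).filter (fun t => (∀ p ∈ pr y w, (n0 + D * t) % p ≠ a p ∧
        (n0 + D * t + g) % p ≠ a p) ∧ ∀ p ∈ pr y w, (n0 + D * t + j) % p ≠ a p)).card : ℝ) ≤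
        F.card := by exact_mod_cast card_le_card h5
    refine le_trans h5c ?_
    have h6 := hR y g j (pr y w) hy2 (fun p hp => ⟨(mem_pr.1 hp).2.2, (mem_pr.1 hp).1⟩) hj2.1
      hj2.2 hgy
    have hVk : ∏ p ∈ pr y w, (1 - 1 / (p : ℝ)) = V := by
      rw [hVd]
      unfold Vk
      exact prod_congr rfl fun p _ => by rw [Nat.cast_one]
    rw [hVk, ← hPd] at h6
    have h7 : 2 * κ * N ≤ N * (P * V) * (δ / 16) := by
      have h7 : 2 * κ = δ / 16 * c0 ^ 2 := by rw [hκ]; ring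
      rw [h7]
      have h8 : δ / 16 * c0 ^ 2 ≤ δ / 16 * (P * V) :=
        mul_le_mul_of_nonneg_left hVP (by positivity)
      nlinarith [mul_le_mul_of_nonneg_right h8 hN0]
    have h8 : N * ∏ p ∈ pr y w, (1 - (nu {0, j, g} p : ℝ) / p) ≤
        N * ((1 + δ / 16) * (V * P)) := mul_le_mul_of_nonneg_left h6 hN0
    nlinarith

end Pool.Agent.Lib.SHD
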