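import Pool.Agent.Lib.SHD.Spec

/-! MP_9a4459_nt, directory SHD, module MZ: the sum of the reciprocals of the special primes. -/

set_option autoImplicit false

namespace Pool.Agent.Lib.SHD

open Finset Filter Topology MeasureTheory
open Pool.Agent.Lib.MP_3ef1ab_nt Pool.Agent.Results.MP_9a4459_nt Pool.Agent.Lib.SHG
open Pool.Agent.Lib.SHR hiding ShanksLaw
open Pool.Agent.Lib.SHK (pr Vk nu mem_pr MedStmt PrgStmt)
open scoped Classical

namespace MZM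

theorem VV_eq (z : ℕ) : VV z = Vk 1 0 z := by
  unfold VV Vk
  refine prod_congr ?_ (fun p _ => by simp)
  ext p
  rw [mem_filter, mem_Icc, mem_pr]
  constructor
  · rintro ⟨⟨h1, h2⟩, h3⟩
    exact ⟨by omega, h2, h3⟩
  · rintro ⟨h1, h2, h3⟩
    exact ⟨⟨by omega, h2⟩, h3⟩

theorem Vk_mul {y w : ℕ} (h : y ≤ w) : VV w = VV y * Vk 1 y w := by
  rw [VV_eq, VV_eq]
  unfold Vk
  rw [← prod_union (Pool.Agent.Lib.SHK.pr_disjoint 0 y w),
    Pool.Agent.Lib.SHK.pr_union (Nat.zero_le y) h]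

theorem fl_top (a : ℝ) (ha : 0 < a) : Tendsto (fun g : ℕ => ⌊(g : ℝ) ^ a⌋₊) atTop atTop :=
  tendsto_nat_floor_atTop.comp ((tendsto_rpow_atTop ha).comp tendsto_natCast_atTop_atTop)

theorem lg_top : Tendsto (fun g : ℕ => Real.log (g : ℝ)) atTop atTop :=
  Real.tendsto_log_atTop.comp tendsto_natCast_atTop_atTop

theorem fl_log (a : ℝ) (ha : 0 < a) :
    Tendsto (fun g : ℕ => Real.log (⌊(g : ℝ) ^ a⌋₊ : ℝ) / Real.log g) atTop (𝓝 a) := by
  have h2 : Tendsto (fun g : ℕ => a - Real.log 2 / Real.log g) atTop (𝓝 a) := by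
    have := (tendsto_const_nhds (x := a)).sub (lg_top.const_div_atTop (Real.log 2))
    simpa using this
  have h3 : ∀ᶠ g : ℕ in atTop, (2 : ℝ) ≤ (g : ℝ) ^ a :=
    ((tendsto_rpow_atTop ha).comp tendsto_natCast_atTop_atTop).eventually_ge_atTop 2
  have h4 : ∀ᶠ g : ℕ in atTop, 0 < Real.log (g : ℝ) := lg_top.eventually_gt_atTop 0
  refine tendsto_of_tendsto_of_tendsto_of_le_of_le' h2 tendsto_const_nhds ?_ ?_
  · filter_upwards [h3, h4, eventually_ge_atTop 1] with g hg hl hg1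
    have hg0 : (0 : ℝ) < g := by exact_mod_cast hg1
    have e1 : (g : ℝ) ^ a / 2 ≤ (⌊(g : ℝ) ^ a⌋₊ : ℝ) := by
      have := Nat.lt_floor_add_one ((g : ℝ) ^ a)
      linarith
    have e2 : Real.log ((g : ℝ) ^ a / 2) ≤ Real.log (⌊(g : ℝ) ^ a⌋₊ : ℝ) :=
      Real.log_le_log (by positivity) e1
    rw [Real.log_div (by positivity) (by norm_num), Real.log_rpow hg0] at e2
    rw [le_div_iff₀ hl, sub_mul, div_mul_cancel₀ _ hl.ne']
    exact e2
  · filter_upwards [h3, h4, eventually_ge_atTop 1] with g hg hl hg1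
    have hg0 : (0 : ℝ) < g := by exact_mod_cast hg1
    have e1 : (⌊(g : ℝ) ^ a⌋₊ : ℝ) ≤ (g : ℝ) ^ a := Nat.floor_le (by positivity)
    have e0 : 0 < (⌊(g : ℝ) ^ a⌋₊ : ℝ) := by
      have : 1 ≤ ⌊(g : ℝ) ^ a⌋₊ := Nat.le_floor (by push_cast; linarith)
      exact_mod_cast this
    have e2 := Real.log_le_log e0 e1
    rw [Real.log_rpow hg0] at e2
    rw [div_le_iff₀ hl]
    exact e2

theorem ratio (h : MerStmt) (a b : ℝ) (ha : 0 < a) (hb : 0 < b) :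
    Tendsto (fun g : ℕ => VV ⌊(g : ℝ) ^ a⌋₊ / VV ⌊(g : ℝ) ^ b⌋₊) atTop (𝓝 (b / a)) := by
  obtain ⟨c, hc, hM⟩ := h
  have h1 := hM.comp (fl_top a ha)
  have h2 := hM.comp (fl_top b hb)
  have h3 := (h1.div h2 hc.ne').mul ((fl_log b hb).div (fl_log a ha) ha.ne')
  rw [div_self hc.ne', one_mul] at h3
  refine h3.congr' ?_
  filter_upwards [lg_top.eventually_gt_atTop 0, (fl_top a ha).eventually_ge_atTop 2,
    (fl_top b hb).eventually_ge_atTop 2] with g h5 h6 h7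
  have h8 : 0 < Real.log (⌊(g : ℝ) ^ a⌋₊ : ℝ) := Real.log_pos (by exact_mod_cast h6)
  have h9 : 0 < Real.log (⌊(g : ℝ) ^ b⌋₊ : ℝ) := Real.log_pos (by exact_mod_cast h7)
  have h10 := VV_pos ⌊(g : ℝ) ^ b⌋₊
  change VV ⌊(g : ℝ) ^ a⌋₊ * Real.log (⌊(g : ℝ) ^ a⌋₊ : ℝ) /
    (VV ⌊(g : ℝ) ^ b⌋₊ * Real.log (⌊(g : ℝ) ^ b⌋₊ : ℝ)) *
    (Real.log (⌊(g : ℝ) ^ b⌋₊ : ℝ) / Real.log g / (Real.log (⌊(g : ℝ) ^ a⌋₊ : ℝ) / Real.log g)) =
    VV ⌊(g : ℝ) ^ a⌋₊ / VV ⌊(g : ℝ) ^ b⌋₊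
  have h5' : Real.log (g : ℝ) ≠ 0 := ne_of_gt h5
  field_simp

theorem lam {w z : ℕ} (hw : 1 ≤ w) (hz : w ≤ z) :
    ∑ p ∈ pr w z, 1 / (p : ℝ) ≤ Real.log (VV w / VV z) ∧
    Real.log (VV w / VV z) ≤ ∑ p ∈ pr w z, 1 / (p : ℝ) + 2 * (1 / w) := by
  have h0 : ∀ p ∈ pr w z, (0 : ℝ) ≤ 1 / (p : ℝ) ∧ 1 / (p : ℝ) ≤ 1 / 2 := by
    intro p hp
    have h1 : (2 : ℝ) ≤ p := by exact_mod_cast (mem_pr.1 hp).2.2.two_le
    exact ⟨by positivity, one_div_le_one_div_of_le (by norm_num) h1⟩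
  have h1 : Real.log (VV w / VV z) = - ∑ p ∈ pr w z, Real.log (1 - 1 / (p : ℝ)) := by
    have hV := VV_pos w
    rw [Vk_mul hz, div_mul_cancel_left₀ hV.ne', Real.log_inv]
    unfold Vk
    rw [Real.log_prod]
    · simp
    · intro p hp
      obtain ⟨a1, a2⟩ := h0 p hp
      push_cast
      intro h
      linarith
  rw [h1, ← sum_neg_distrib]
  constructor
  · refine sum_le_sum fun p hp => ?_
    obtain ⟨a1, a2⟩ := h0 p hp
    have := Real.log_le_sub_one_of_pos (show 0 < 1 - 1 / (p : ℝ) by linarith)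
    linarith
  · have h2 := sum_sq_tail w z hw hz
    have h3 : ∑ p ∈ pr w z, -Real.log (1 - 1 / (p : ℝ)) ≤
        ∑ p ∈ pr w z, (1 / (p : ℝ) + 2 * (1 / (p : ℝ)) ^ 2) := by
      refine sum_le_sum fun p hp => ?_
      obtain ⟨a1, a2⟩ := h0 p hp
      have := (abs_le.1 (log_one_sub _ a1 a2)).1
      linarith
    rw [sum_add_distrib, ← mul_sum] at h3
    have h4 : ∑ p ∈ pr w z, (1 / (p : ℝ)) ^ 2 =
        ∑ p ∈ (Ioc w z).filter Nat.Prime, (1 / (p : ℝ)) ^ 2 := rfl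
    rw [h4] at h3
    linarith

theorem few {w z g k : ℕ} (h : g + 1 < (w + 1) ^ k) :
    ((pr w z).filter (fun p => p ∣ g + 1)).card < k := by
  by_contra hc
  have hc' := not_lt.1 hc
  set D := (pr w z).filter (fun p => p ∣ g + 1) with hD
  have h1 : ∏ p ∈ D, p ∣ g + 1 := by
    apply Finset.prod_primes_dvd
    · intro p hp
      exact (mem_pr.1 (mem_filter.1 hp).1).2.2.prime
    · intro p hp
      exact (mem_filter.1 hp).2
  have h2 : ∏ _p ∈ D, (w + 1) ≤ ∏ p ∈ D, p := by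
    refine Finset.prod_le_prod (fun _ _ => Nat.zero_le _) (fun p hp => ?_)
    exact (mem_pr.1 (mem_filter.1 hp).1).1
  rw [prod_const] at h2
  have h3 := Nat.le_of_dvd (Nat.succ_pos g) h1
  have h4 : (w + 1) ^ k ≤ (w + 1) ^ D.card := Nat.pow_le_pow_right (Nat.succ_pos w) hc'
  omega

theorem pw (k : ℕ) (hk : 4 ≤ k) : ∀ᶠ g : ℕ in atTop, g + 1 < (wa k g + 1) ^ k := by
  have hkR : (4 : ℝ) ≤ k := by exact_mod_cast hk
  have hδ : (0 : ℝ) < 1 / (2 * k - 1) := by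
    apply div_pos one_pos
    linarith
  have h1 : ∀ᶠ g : ℕ in atTop, (3 : ℝ) ≤ (g : ℝ) ^ ((1 : ℝ) / (2 * k - 1)) :=
    ((tendsto_rpow_atTop hδ).comp tendsto_natCast_atTop_atTop).eventually_ge_atTop 3
  filter_upwards [h1, eventually_ge_atTop 1] with g h2 h3
  have hg1 : (1 : ℝ) ≤ g := by exact_mod_cast h3
  have hg0 : (0 : ℝ) < g := by linarith
  have h4 : (g : ℝ) ^ ((2 : ℝ) / (2 * k - 1)) < (wa k g : ℝ) + 1 := Nat.lt_floor_add_one _
  have h5 : ((g : ℝ) ^ ((2 : ℝ) / (2 * k - 1))) ^ k ≤ ((wa k g : ℝ) + 1) ^ k :=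
    pow_le_pow_left₀ (by positivity) h4.le k
  have h6 : ((g : ℝ) ^ ((2 : ℝ) / (2 * k - 1))) ^ k = g * (g : ℝ) ^ ((1 : ℝ) / (2 * k - 1)) := by
    rw [← Real.rpow_natCast, ← Real.rpow_mul hg0.le]
    have h7 : (2 : ℝ) / (2 * k - 1) * (k : ℕ) = 1 + 1 / (2 * k - 1) := by
      have : (2 : ℝ) * k - 1 ≠ 0 := by linarith
      field_simp
      ring
    rw [h7, Real.rpow_add hg0, Real.rpow_one]
  have h8 : (g : ℝ) + 1 < ((wa k g : ℝ) + 1) ^ k := by
    rw [h6] at h5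
    nlinarith
  exact_mod_cast h8

end MZM

open MZM in
theorem tMZ : S_MZ := by
  intro hM k hk
  have hkR : (4 : ℝ) ≤ k := by exact_mod_cast hk
  have ha : (0 : ℝ) < (2 : ℝ) / (2 * k - 1) := by
    apply div_pos two_pos
    linarith
  have hb : (0 : ℝ) < (4 : ℝ) / (4 * k - 3) := by
    apply div_pos (by norm_num)
    linarith
  have hab : (2 : ℝ) / (2 * k - 1) ≤ (4 : ℝ) / (4 * k - 3) := by
    rw [div_le_div_iff₀ (by linarith) (by linarith)]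
    linarith
  have hr : (4 : ℝ) / (4 * k - 3) / ((2 : ℝ) / (2 * k - 1)) = 1 + 1 / (4 * k - 3) := by
    have h1 : (2 : ℝ) * k - 1 ≠ 0 := by linarith
    have h2 : (4 : ℝ) * k - 3 ≠ 0 := by linarith
    field_simp
    ring
  have hpos : (0 : ℝ) < 1 / (4 * k - 3) := by
    apply div_pos one_pos
    linarith
  have hle : (1 : ℝ) / (4 * k - 3) ≤ 1 / 13 := by
    apply one_div_le_one_div_of_le (by norm_num)
    linarith
  have hR := ratio hM _ _ ha hb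
  rw [hr] at hR
  have hlog := (Real.continuousAt_log (show (1 : ℝ) + 1 / (4 * k - 3) ≠ 0 by linarith)).tendsto.comp hR
  set M : ℝ := Real.log (1 + 1 / (4 * k - 3)) with hMdef
  have hM0 : 0 < M := Real.log_pos (by linarith)
  have hM1 : M ≤ 1 / 13 := by
    have := Real.log_le_sub_one_of_pos (show (0 : ℝ) < 1 + 1 / (4 * k - 3) by linarith)
    linarith
  refine ⟨M / 2, by linarith, ?_⟩
  have hw : Tendsto (fun g : ℕ => (1 : ℝ) / (wa k g : ℝ)) atTop (𝓝 0) :=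
    (tendsto_const_nhds.div_atTop (tendsto_natCast_atTop_atTop.comp (fl_top _ ha)))
  have hw2 := hw.const_mul (k : ℝ)
  rw [mul_zero] at hw2
  filter_upwards [hlog.eventually (lt_mem_nhds (show 7 * M / 8 < M by linarith)),
    hlog.eventually (gt_mem_nhds (show M < 1 / 2 by linarith)),
    (fl_top _ ha).eventually_ge_atTop 1, pw k hk,
    hw2.eventually (gt_mem_nhds (show (0 : ℝ) < M / 8 by linarith)),
    eventually_ge_atTop 1] with g e1 e2 e3 e4 e5 e6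
  simp only [Function.comp_apply] at e1 e2
  have hg1 : (1 : ℝ) ≤ g := by exact_mod_cast e6
  have hw1 : 1 ≤ wa k g := e3
  have hwz : wa k g ≤ za k g := Nat.floor_le_floor (Real.rpow_le_rpow_of_exponent_le hg1 hab)
  obtain ⟨l1, l2⟩ := lam hw1 hwz
  have e1' : 7 * M / 8 < Real.log (VV (wa k g) / VV (za k g)) := e1
  have e2' : Real.log (VV (wa k g) / VV (za k g)) < 1 / 2 := e2
  have hwp : (0 : ℝ) ≤ 1 / (wa k g : ℝ) := by positivity
  have e7 : 4 * (1 / (wa k g : ℝ)) ≤ (k : ℝ) * (1 / (wa k g : ℝ)) :=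
    mul_le_mul_of_nonneg_right hkR hwp
  have hsplit := Finset.sum_filter_add_sum_filter_not (pr (wa k g) (za k g))
    (fun p => p ∣ g + 1) (fun p => 1 / (p : ℝ))
  have hD : ∑ p ∈ (pr (wa k g) (za k g)).filter (fun p => p ∣ g + 1), 1 / (p : ℝ) ≤
      (k : ℝ) * (1 / (wa k g : ℝ)) := by
    have c1 : ∑ p ∈ (pr (wa k g) (za k g)).filter (fun p => p ∣ g + 1), 1 / (p : ℝ) ≤
        (((pr (wa k g) (za k g)).filter (fun p => p ∣ g + 1)).card : ℝ) * (1 / (wa k g : ℝ)) := by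
      rw [← nsmul_eq_mul]
      refine Finset.sum_le_card_nsmul _ _ _ (fun p hp => ?_)
      have c2 : wa k g < p := (mem_pr.1 (mem_filter.1 hp).1).1
      have c3 : (wa k g : ℝ) ≤ p := by exact_mod_cast c2.le
      have c4 : (0 : ℝ) < wa k g := by exact_mod_cast hw1
      exact one_div_le_one_div_of_le c4 c3
    refine c1.trans (mul_le_mul_of_nonneg_right ?_ hwp)
    exact_mod_cast (few e4).le
  have hD0 : 0 ≤ ∑ p ∈ (pr (wa k g) (za k g)).filter (fun p => p ∣ g + 1), 1 / (p : ℝ) :=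
    sum_nonneg fun p _ => by positivity
  have hPz : ∑ p ∈ Pz k g, 1 / (p : ℝ) =
      ∑ p ∈ (pr (wa k g) (za k g)).filter (fun p => ¬ p ∣ g + 1), 1 / (p : ℝ) := rfl
  rw [hPz]
  refine ⟨?_, ?_, hw1, ?_⟩
  · linarith
  · linarith
  · linarith

end Pool.Agent.Lib.SHD
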