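import Pool.Agent.Lib.SHD.Spec

/-! MP_9a4459_nt, Lib/SHD: the choice of the parameters. -/

set_option autoImplicit false

namespace Pool.Agent.Lib.SHD

open Finset Filter Topology MeasureTheory
open Pool.Agent.Lib.MP_3ef1ab_nt Pool.Agent.Results.MP_9a4459_nt Pool.Agent.Lib.SHG
open Pool.Agent.Lib.SHR hiding ShanksLaw
open Pool.Agent.Lib.SHK (pr Vk nu mem_pr MedStmt PrgStmt)
open scoped Classical

namespace NZM

theorem tend {a : ℝ} (ha : 0 < a) : Tendsto (fun g : ℕ => (g : ℝ) ^ a) atTop atTop :=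
  (tendsto_rpow_atTop ha).comp tendsto_natCast_atTop_atTop

/-- a power of the floor is large -/
theorem pow_floor {G β : ℝ} {R : ℕ} (hG : 1 ≤ G) (hb : 2 ≤ G ^ β) (hR : β * R = 2)
    (h2 : (2 : ℝ) ^ R ≤ G) : G ≤ ((⌊G ^ β⌋₊ : ℕ) : ℝ) ^ R := by
  have hG0 : 0 < G := by linarith
  have h1 : G ^ β / 2 ≤ ((⌊G ^ β⌋₊ : ℕ) : ℝ) := by
    have := (Nat.sub_one_lt_floor (G ^ β)).le
    linarith
  have h3 : (G ^ β / 2) ^ R ≤ ((⌊G ^ β⌋₊ : ℕ) : ℝ) ^ R :=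
    pow_le_pow_left₀ (by positivity) h1 R
  refine le_trans ?_ h3
  have h4 : (G ^ β) ^ R = G ^ 2 := by
    rw [← Real.rpow_natCast (G ^ β) R, ← Real.rpow_mul hG0.le, hR]
    exact Real.rpow_natCast G 2
  rw [div_pow, h4, le_div_iff₀ (by positivity)]
  nlinarith

/-- the fourth inequality -/
theorem lt_pow {G a : ℝ} {k : ℕ} (hG : 1 ≤ G) (hk : k ≠ 0) (ha : 1 ≤ a * k) :
    G < (((⌊G ^ a⌋₊ : ℕ) : ℝ) + 1) ^ k := by
  have hG0 : 0 < G := by linarith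
  have h1 : G ^ a < ((⌊G ^ a⌋₊ : ℕ) : ℝ) + 1 := Nat.lt_floor_add_one _
  have h2 : (G ^ a) ^ k < (((⌊G ^ a⌋₊ : ℕ) : ℝ) + 1) ^ k := pow_lt_pow_left₀ h1 (by positivity) hk
  refine lt_of_le_of_lt ?_ h2
  rw [← Real.rpow_natCast (G ^ a) k, ← Real.rpow_mul hG0.le]
  calc G = G ^ (1 : ℝ) := (Real.rpow_one G).symm
    _ ≤ G ^ (a * k) := Real.rpow_le_rpow_of_exponent_le hG ha

theorem add_one_pow {G a : ℝ} (n : ℕ) (hG : 1 ≤ G) (ha : 0 ≤ a) :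
    (((⌊G ^ a⌋₊ : ℕ) : ℝ) + 1) ^ n ≤ 2 ^ n * G ^ (a * n) := by
  have hG0 : 0 < G := by linarith
  have h1 : 1 ≤ G ^ a := Real.one_le_rpow hG ha
  have h2 : ((⌊G ^ a⌋₊ : ℕ) : ℝ) ≤ G ^ a := Nat.floor_le (by positivity)
  have h3 : (((⌊G ^ a⌋₊ : ℕ) : ℝ) + 1) ^ n ≤ (2 * G ^ a) ^ n :=
    pow_le_pow_left₀ (by positivity) (by linarith) n
  rw [mul_pow, ← Real.rpow_natCast (G ^ a) n, ← Real.rpow_mul hG0.le] at h3
  exact h3

theorem last {G β a η ε : ℝ} {k m B : ℕ} (hG : 1 ≤ G) (ha : 0 ≤ a) (hβ : 0 ≤ β)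
    (hC : (k : ℝ) * 2 ^ m * (2 ^ B + 3) ≤ ε * G ^ η) (hsum : a * m + β * B + η ≤ 1) (hε : 0 < ε) :
    (k : ℝ) * (((⌊G ^ a⌋₊ : ℕ) : ℝ) + 1) ^ m * ((((⌊G ^ β⌋₊ : ℕ) : ℝ) + 1) ^ B + 3) ≤ ε * G := by
  have hG0 : 0 < G := by linarith
  have h1 := add_one_pow m hG ha
  have h2 := add_one_pow B hG hβ
  have h3 : 1 ≤ G ^ (β * B) := Real.one_le_rpow hG (by positivity)
  have h4 : (((⌊G ^ β⌋₊ : ℕ) : ℝ) + 1) ^ B + 3 ≤ (2 ^ B + 3) * G ^ (β * B) := by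
    rw [add_mul]
    linarith
  have h5 : G ^ (a * m) * G ^ (β * B) * G ^ η ≤ G := by
    rw [← Real.rpow_add hG0, ← Real.rpow_add hG0]
    calc G ^ (a * m + β * B + η) ≤ G ^ (1 : ℝ) := Real.rpow_le_rpow_of_exponent_le hG hsum
      _ = G := Real.rpow_one G
  calc (k : ℝ) * (((⌊G ^ a⌋₊ : ℕ) : ℝ) + 1) ^ m * ((((⌊G ^ β⌋₊ : ℕ) : ℝ) + 1) ^ B + 3)
      ≤ (k : ℝ) * (2 ^ m * G ^ (a * m)) * ((2 ^ B + 3) * G ^ (β * B)) := by
        refine mul_le_mul (mul_le_mul_of_nonneg_left h1 (by positivity)) h4 (by positivity)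
          (by positivity)
    _ = ((k : ℝ) * 2 ^ m * (2 ^ B + 3)) * (G ^ (a * m) * G ^ (β * B)) := by ring
    _ ≤ (ε * G ^ η) * (G ^ (a * m) * G ^ (β * B)) :=
        mul_le_mul_of_nonneg_right hC (by positivity)
    _ = ε * (G ^ (a * m) * G ^ (β * B) * G ^ η) := by ring
    _ ≤ ε * G := mul_le_mul_of_nonneg_left h5 hε.le

end NZM

theorem tNZ : S_NZ := by
  intro k B hk
  have hk' : (4 : ℝ) ≤ k := by exact_mod_cast hk
  have hk3 : (0 : ℝ) < 4 * k - 3 := by linarith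
  have hk1 : (0 : ℝ) < 2 * k - 1 := by linarith
  have hB : (0 : ℝ) < (B : ℝ) + 1 := by positivity
  have hden : (0 : ℝ) < 2 * (4 * k - 3) * ((B : ℝ) + 1) := by positivity
  obtain ⟨β, hβ⟩ : ∃ β : ℝ, β = 1 / (2 * (4 * k - 3) * ((B : ℝ) + 1)) := ⟨_, rfl⟩
  obtain ⟨η, hη⟩ : ∃ η : ℝ, η = 1 / (2 * (4 * (k : ℝ) - 3)) := ⟨_, rfl⟩
  have hβ0 : 0 < β := by rw [hβ]; positivity
  have hη0 : 0 < η := by rw [hη]; positivity
  have hβη : β * ((B : ℝ) + 1) = η := by rw [hβ, hη]; field_simp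
  have hηk : η * (2 * (4 * (k : ℝ) - 3)) = 1 := by rw [hη]; field_simp
  have hR : β * ((4 * (4 * k - 3) * (B + 1) : ℕ) : ℝ) = 2 := by
    have h1 : ((4 * (4 * k - 3) * (B + 1) : ℕ) : ℝ) = 4 * (4 * k - 3) * ((B : ℝ) + 1) := by
      rw [Nat.cast_mul, Nat.cast_mul, Nat.cast_sub (by omega)]
      push_cast
      ring
    rw [h1]
    have h2 : β * (4 * (4 * (k : ℝ) - 3) * ((B : ℝ) + 1)) =
        2 * ((β * ((B : ℝ) + 1)) * (2 * (4 * (k : ℝ) - 3))) := by ring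
    rw [h2, hβη, hηk]
    norm_num
  refine ⟨β, 4 * (4 * k - 3) * (B + 1), hβ0, ?_⟩
  intro ε y0 hε
  have e1 : ∀ᶠ g : ℕ in atTop, y0 ≤ ⌊(g : ℝ) ^ β⌋₊ :=
    (tendsto_nat_floor_atTop.comp (NZM.tend hβ0)).eventually_ge_atTop y0
  have e2 : ∀ᶠ g : ℕ in atTop, (2 : ℝ) ≤ (g : ℝ) ^ β := (NZM.tend hβ0).eventually_ge_atTop 2
  have e3 : ∀ᶠ g : ℕ in atTop, 2 ^ (4 * (4 * k - 3) * (B + 1)) ≤ g := eventually_ge_atTop _
  have e4 : ∀ᶠ g : ℕ in atTop, (k : ℝ) * 2 ^ (k - 1) * (2 ^ B + 3) / ε ≤ (g : ℝ) ^ η :=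
    (NZM.tend hη0).eventually_ge_atTop _
  filter_upwards [e1, e2, e3, e4, eventually_ge_atTop 1] with g h1 h2 h3 h4 hg
  have hG : (1 : ℝ) ≤ (g : ℝ) := by exact_mod_cast hg
  refine ⟨h1, ?_, ?_, ?_, ?_⟩
  · refine Nat.floor_mono (Real.rpow_le_rpow_of_exponent_le hG ?_)
    have h5 : β ≤ η := by
      rw [← hβη]
      nlinarith [mul_nonneg hβ0.le (Nat.cast_nonneg (α := ℝ) B)]
    refine h5.trans ?_
    rw [hη, div_le_div_iff₀ (by positivity) hk1]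
    linarith
  · have h3' : (2 : ℝ) ^ (4 * (4 * k - 3) * (B + 1)) ≤ (g : ℝ) := by exact_mod_cast h3
    have h := NZM.pow_floor hG h2 hR h3'
    exact_mod_cast h
  · have h : (g : ℝ) < (((⌊(g : ℝ) ^ ((2 : ℝ) / (2 * k - 1))⌋₊ : ℕ) : ℝ) + 1) ^ k := by
      refine NZM.lt_pow hG (by omega) ?_
      rw [div_mul_eq_mul_div, le_div_iff₀ hk1]
      linarith
    unfold wa
    exact_mod_cast h
  · unfold za
    refine NZM.last hG (by positivity) hβ0.le ?_ ?_ hε (η := η)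
    · rw [div_le_iff₀ hε] at h4
      linarith
    · have h5 : ((k - 1 : ℕ) : ℝ) = (k : ℝ) - 1 := by
        rw [Nat.cast_sub (by omega)]
        norm_num
      rw [h5]
      have h6 : (4 : ℝ) / (4 * k - 3) = 8 * η := by
        rw [hη]
        field_simp
        norm_num
      rw [h6]
      have h7 : 8 * η * ((k : ℝ) - 1) = 1 - 2 * η := by linarith [hηk]
      rw [h7]
      linarith [hβη, hβ0.le]

end Pool.Agent.Lib.SHD
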