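import Pool.Agent.Lib.SHD.Spec

/-! MP_9a4459_nt, Lib/SHD, module SO (helper69): the deficit in a fixed interval of classes. -/

set_option autoImplicit false

namespace Pool.Agent.Lib.SHD

open Finset Filter Topology MeasureTheory
open Pool.Agent.Lib.MP_3ef1ab_nt Pool.Agent.Results.MP_9a4459_nt Pool.Agent.Lib.SHG
open Pool.Agent.Lib.SHR hiding ShanksLaw
open Pool.Agent.Lib.SHK (pr Vk nu mem_pr MedStmt PrgStmt)
open scoped Classical

namespace SOM

theorem card_small (P : Finset ℕ) (k n : ℕ) (hP : P.card ≤ n) :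
    ∑ i ∈ range k, ((P.powersetCard i).card : ℝ) ≤ (k : ℝ) * ((n : ℝ) + 1) ^ (k - 1) := by
  have h1 : ∀ i ∈ range k, ((P.powersetCard i).card : ℝ) ≤ ((n : ℝ) + 1) ^ (k - 1) := by
    intro i hi
    rw [mem_range] at hi
    rw [card_powersetCard]
    have h2 : (P.card.choose i : ℝ) ≤ (P.card : ℝ) ^ i := by
      exact_mod_cast Nat.choose_le_pow P.card i
    have h3 : (P.card : ℝ) ^ i ≤ ((n : ℝ) + 1) ^ i := by
      apply pow_le_pow_left₀ (by positivity)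
      have : (P.card : ℝ) ≤ n := by exact_mod_cast hP
      linarith
    have h4 : ((n : ℝ) + 1) ^ i ≤ ((n : ℝ) + 1) ^ (k - 1) := by
      apply pow_le_pow_right₀
      · have : (0 : ℝ) ≤ n := Nat.cast_nonneg n
        linarith
      · omega
    linarith
  calc ∑ i ∈ range k, ((P.powersetCard i).card : ℝ) ≤ ∑ _i ∈ range k, ((n : ℝ) + 1) ^ (k - 1) :=
        sum_le_sum h1
    _ = (k : ℝ) * ((n : ℝ) + 1) ^ (k - 1) := by rw [sum_const, card_range, nsmul_eq_mul]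

theorem main_ineq (P : Finset ℕ) (k : ℕ) (x : ℕ → ℝ) (c : Finset ℕ → ℝ) (V g ε E N : ℝ)
    (hN : N = ∑ i ∈ range k, (-1 : ℝ) ^ i * ∑ D ∈ P.powersetCard i, c D)
    (hc : ∀ D ⊆ P, |V * c D - g * ∏ p ∈ D, x p| ≤ ε * (g * ∏ p ∈ D, x p) + E) :
    V * N ≤ g * ∑ i ∈ range k, (-1 : ℝ) ^ i * ee P x i + ε * g * ∑ i ∈ range k, ee P x i +
      E * ∑ i ∈ range k, ((P.powersetCard i).card : ℝ) := by
  have h1 : V * N - g * ∑ i ∈ range k, (-1 : ℝ) ^ i * ee P x i =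
      ∑ i ∈ range k, (-1 : ℝ) ^ i * ∑ D ∈ P.powersetCard i, (V * c D - g * ∏ p ∈ D, x p) := by
    rw [hN, mul_sum, mul_sum, ← sum_sub_distrib]
    apply sum_congr rfl
    intro i _
    rw [sum_sub_distrib, ← mul_sum, ← mul_sum]
    unfold ee
    ring
  have h2 : ∀ i ∈ range k, (-1 : ℝ) ^ i * ∑ D ∈ P.powersetCard i, (V * c D - g * ∏ p ∈ D, x p) ≤
      ε * g * ee P x i + E * ((P.powersetCard i).card : ℝ) := by
    intro i _
    have h3 : (-1 : ℝ) ^ i * ∑ D ∈ P.powersetCard i, (V * c D - g * ∏ p ∈ D, x p) ≤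
        |∑ D ∈ P.powersetCard i, (V * c D - g * ∏ p ∈ D, x p)| := by
      refine (le_abs_self _).trans ?_
      rw [abs_mul, abs_pow, abs_neg, abs_one, one_pow, one_mul]
    have h4 : |∑ D ∈ P.powersetCard i, (V * c D - g * ∏ p ∈ D, x p)| ≤
        ∑ D ∈ P.powersetCard i, (ε * (g * ∏ p ∈ D, x p) + E) := by
      refine (abs_sum_le_sum_abs _ _).trans (sum_le_sum fun D hD => ?_)
      exact hc D (mem_powersetCard.1 hD).1
    have h5 : ∑ D ∈ P.powersetCard i, (ε * (g * ∏ p ∈ D, x p) + E) =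
        ε * g * ee P x i + E * ((P.powersetCard i).card : ℝ) := by
      rw [sum_add_distrib, sum_const, nsmul_eq_mul]
      unfold ee
      rw [mul_sum]
      congr 1
      · apply sum_congr rfl
        intro D _
        ring
      · ring
    linarith
  have h6 := sum_le_sum h2
  rw [← h1, sum_add_distrib, ← mul_sum, ← mul_sum] at h6
  linarith

end SOM

open SOM in
theorem tSO : S_SO := by
  intro hA hB hI hC hM hN hF hMer k hkev hk4
  obtain ⟨L, hL0, hLev⟩ := hM hMer k hk4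
  -- L ≤ 1/2
  obtain ⟨g1, hg1⟩ := hLev.exists
  have hL2 : L ≤ 1 / 2 := hg1.1.trans hg1.2.1
  set e : ℝ := (L / 2) ^ k / (k.factorial : ℝ) with he
  have hfac : (1 : ℝ) ≤ (k.factorial : ℝ) := by exact_mod_cast Nat.succ_le_of_lt (Nat.factorial_pos k)
  have he0 : 0 < e := by positivity
  have he1 : e ≤ 1 := by
    rw [he]
    apply div_le_one_of_le₀ _ (by positivity)
    refine le_trans (pow_le_one₀ (by positivity) (by linarith)) hfac
  set ε' : ℝ := e / 24 with hε'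
  have hε0 : 0 < ε' := by positivity
  have hε1 : ε' ≤ 1 := by linarith
  obtain ⟨B, hFB⟩ := hF ε' hε0
  obtain ⟨β, R, hβ0, hN⟩ := hN k B hk4
  refine ⟨e / 4, β, R, by positivity, by linarith, hβ0, ?_⟩
  intro y0
  filter_upwards [hLev, hN ε' y0 hε0, eventually_ge_atTop 1] with g hLg hNg hg1
  obtain ⟨hl1, hl2, hwa1, hkmu⟩ := hLg
  obtain ⟨hy0, hywa, hgR, hgk, herr⟩ := hNg
  refine ⟨hy0, hywa, hgR, ?_⟩
  intro b hb
  set y : ℕ := ⌊(g : ℝ) ^ β⌋₊ with hy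
  set P : Finset ℕ := Pz k g with hP
  have hPp : ∀ p ∈ P, wa k g < p ∧ p ≤ za k g ∧ p.Prime ∧ ¬ p ∣ g + 1 := by
    intro p hp
    rw [hP, Pz, mem_filter, mem_pr] at hp
    exact ⟨hp.1.1, hp.1.2.1, hp.1.2.2, hp.2⟩
  have hwaR : (1 : ℝ) ≤ (wa k g : ℝ) := by exact_mod_cast hwa1
  have hx : ∀ p ∈ P, 0 ≤ 1 / (p : ℝ) ∧ 1 / (p : ℝ) ≤ 1 / (wa k g : ℝ) := by
    intro p hp
    refine ⟨by positivity, ?_⟩
    apply one_div_le_one_div_of_le (by linarith)
    exact_mod_cast (hPp p hp).1.le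
  have hx1 : ∀ p ∈ P, 0 ≤ 1 / (p : ℝ) ∧ 1 / (p : ℝ) ≤ 1 := by
    intro p hp
    refine ⟨(hx p hp).1, (hx p hp).2.trans ?_⟩
    rw [div_le_one (by linarith)]
    exact hwaR
  obtain ⟨ie1, ie2, ie3, ie4⟩ := hA P (fun p => 1 / (p : ℝ)) hx1
  have ieb := hB P (fun p => 1 / (p : ℝ)) (1 / (wa k g : ℝ)) (by positivity) hx k
  -- e_k ≥ e
  have hek : e ≤ ee P (fun p => 1 / (p : ℝ)) k := by
    refine le_trans ?_ ieb
    rw [he]
    apply div_le_div_of_nonneg_right _ (by positivity)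
    apply pow_le_pow_left₀ (by positivity)
    refine le_trans ?_ (le_max_left _ _)
    linarith
  -- inclusion-exclusion
  have hvan : ∀ D ⊆ P, k ≤ D.card → ∀ j ∈ Ioo 0 g, SieveFree y (b + j) → ¬ ∀ p ∈ D, p ∣ b + j := by
    intro D hD hDk j hj _ hall
    rw [mem_Ioo] at hj
    have h1 : ∀ p ∈ D, p ∣ j + 1 := by
      intro p hp
      have h2 := hb p (hD hp)
      have h3 : b + j ≡ 1 + j [MOD p] := Nat.ModEq.add_right j h2
      have h4 := (Nat.ModEq.dvd_iff h3 (dvd_refl p)).1 (hall p hp)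
      rwa [add_comm] at h4
    have h5 : ∏ p ∈ D, p ∣ j + 1 :=
      Finset.prod_primes_dvd (j + 1) (fun p hp => (hPp p (hD hp)).2.2.1.prime) h1
    have h6 : ∏ p ∈ D, p ≤ j + 1 := Nat.le_of_dvd (by omega) h5
    have h7 : (wa k g + 1) ^ D.card ≤ ∏ p ∈ D, p := by
      calc (wa k g + 1) ^ D.card = ∏ _p ∈ D, (wa k g + 1) := by rw [prod_const]
        _ ≤ ∏ p ∈ D, p := prod_le_prod' fun p hp => (hPp p (hD hp)).1
    have h8 : (wa k g + 1) ^ k ≤ (wa k g + 1) ^ D.card := Nat.pow_le_pow_right (by omega) hDk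
    omega
  have hie := hI (Ioo 0 g) P (fun j => SieveFree y (b + j)) b k hvan
  set N : ℝ := (((Ioo 0 g).filter (fun j => SieveFree y (b + j) ∧ ∀ p ∈ P, ¬ p ∣ b + j)).card : ℝ)
    with hNdef
  have hcd : ∀ D ⊆ P, |(VV y)⁻¹ * (((Ioo 0 g).filter
      (fun j => SieveFree y (b + j) ∧ ∀ p ∈ D, p ∣ b + j)).card : ℝ) -
        (g : ℝ) * ∏ p ∈ D, 1 / (p : ℝ)| ≤
      ε' * ((g : ℝ) * ∏ p ∈ D, 1 / (p : ℝ)) + (((y : ℝ) + 1) ^ B + 3) := by
    intro D hD
    have hm1 : 1 ≤ ∏ p ∈ D, p := by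
      apply Nat.succ_le_of_lt
      exact prod_pos fun p hp => (hPp p (hD hp)).2.2.1.pos
    have hmp : ∀ p : ℕ, p.Prime → p ≤ y → ¬ p ∣ ∏ q ∈ D, q := by
      intro p hp hpy hdiv
      rw [hp.prime.dvd_finsetProd_iff] at hdiv
      obtain ⟨q, hq, hpq⟩ := hdiv
      have h1 := (Nat.prime_dvd_prime_iff_eq hp (hPp q (hD hq)).2.2.1).1 hpq
      have h2 := (hPp q (hD hq)).1
      omega
    have h1 := hC B y ε' hε0 hε1 (hFB y) b g (∏ p ∈ D, p) hg1 hm1 hmp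
    have h2 : (Ioo 0 g).filter (fun j => SieveFree y (b + j) ∧ ∏ p ∈ D, p ∣ b + j) =
        (Ioo 0 g).filter (fun j => SieveFree y (b + j) ∧ ∀ p ∈ D, p ∣ b + j) := by
      apply filter_congr
      intro j _
      constructor
      · rintro ⟨h3, h4⟩
        exact ⟨h3, fun p hp => (dvd_prod_of_mem (fun q => q) hp).trans h4⟩
      · rintro ⟨h3, h4⟩
        exact ⟨h3, Finset.prod_primes_dvd (b + j) (fun p hp => (hPp p (hD hp)).2.2.1.prime) h4⟩
    have h3 : (g : ℝ) / ((∏ p ∈ D, p : ℕ) : ℝ) = (g : ℝ) * ∏ p ∈ D, 1 / (p : ℝ) := by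
      rw [Nat.cast_prod, prod_div_distrib, prod_const_one, mul_one_div]
    rw [h2, h3] at h1
    exact h1
  have hmain := main_ineq P k (fun p => 1 / (p : ℝ)) (fun D => (((Ioo 0 g).filter
      (fun j => SieveFree y (b + j) ∧ ∀ p ∈ D, p ∣ b + j)).card : ℝ)) (VV y)⁻¹ g ε'
      (((y : ℝ) + 1) ^ B + 3) N hie hcd
  have hPcard : P.card ≤ za k g := by
    calc P.card ≤ (Ioc (wa k g) (za k g)).card := by
          apply card_le_card
          intro p hp
          rw [mem_Ioc]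
          exact ⟨(hPp p hp).1, (hPp p hp).2.1⟩
      _ ≤ za k g := by rw [Nat.card_Ioc]; omega
  have hcs := card_small P k (za k g) hPcard
  set prd : ℝ := ∏ p ∈ P, (1 - 1 / (p : ℝ)) with hprd
  have hprd0 : 0 ≤ prd := prod_nonneg fun p hp => by linarith [(hx1 p hp).2]
  have hprd1 : prd ≤ 1 := prod_le_one (fun p hp => by linarith [(hx1 p hp).2])
    (fun p hp => by linarith [(hx1 p hp).1])
  have h3 := ie3 k hkev
  have h4 := ie4 k
  have h2 := ie2 k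
  have hgR0 : (1 : ℝ) ≤ g := by exact_mod_cast hg1
  -- e_(k+1) ≤ e_k / 2
  have hek1 : ee P (fun p => 1 / (p : ℝ)) (k + 1) ≤ ee P (fun p => 1 / (p : ℝ)) k / 2 := by
    have h5 : (1 : ℝ) ≤ (k : ℝ) + 1 := by
      have : (0 : ℝ) ≤ k := Nat.cast_nonneg k
      linarith
    have h6 : (∑ p ∈ P, 1 / (p : ℝ)) * ee P (fun p => 1 / (p : ℝ)) k ≤
        1 / 2 * ee P (fun p => 1 / (p : ℝ)) k := mul_le_mul_of_nonneg_right hl2 (ie1 k)
    have h7 := ie1 (k + 1)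
    nlinarith
  have hexp : Real.exp (∑ p ∈ P, 1 / (p : ℝ)) ≤ 2 := by
    calc Real.exp (∑ p ∈ P, 1 / (p : ℝ)) ≤ Real.exp (1 / 2) := Real.exp_le_exp.2 hl2
      _ ≤ 2 := by
          have h8 : Real.exp (1 / 2) ^ 2 ≤ 2 ^ 2 := by
            rw [← Real.exp_nat_mul]
            norm_num
            linarith [Real.exp_one_lt_d9]
          exact (abs_le_of_sq_le_sq' h8 (by norm_num)).2
  have hV : 0 < VV y := VV_pos y
  have hE0 : 0 ≤ ((y : ℝ) + 1) ^ B + 3 := by positivity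
  have herr2 : (((y : ℝ) + 1) ^ B + 3) * ∑ i ∈ range k, ((P.powersetCard i).card : ℝ) ≤ ε' * g := by
    calc (((y : ℝ) + 1) ^ B + 3) * ∑ i ∈ range k, ((P.powersetCard i).card : ℝ)
        ≤ (((y : ℝ) + 1) ^ B + 3) * ((k : ℝ) * ((za k g : ℝ) + 1) ^ (k - 1)) :=
          mul_le_mul_of_nonneg_left hcs hE0
      _ = (k : ℝ) * ((za k g : ℝ) + 1) ^ (k - 1) * (((y : ℝ) + 1) ^ B + 3) := by ring
      _ ≤ ε' * g := herr
  have hsum : ∑ i ∈ range k, ee P (fun p => 1 / (p : ℝ)) i ≤ 2 := h4.trans hexp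
  have h9 : (VV y)⁻¹ * N ≤ g * (prd * (1 - e / 4)) := by
    have h10 : (g : ℝ) * ∑ i ∈ range k, (-1 : ℝ) ^ i * ee P (fun p => 1 / (p : ℝ)) i ≤
        g * (prd - e / 2) := by
      apply mul_le_mul_of_nonneg_left _ (by linarith)
      linarith
    have h11 : ε' * g * ∑ i ∈ range k, ee P (fun p => 1 / (p : ℝ)) i ≤ ε' * g * 2 :=
      mul_le_mul_of_nonneg_left hsum (by positivity)
    have h12 : (VV y)⁻¹ * N ≤ g * (prd - e / 2) + ε' * g * 2 + ε' * g := by linarith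
    have h13 : g * (prd - e / 2) + ε' * g * 2 + ε' * g ≤ g * (prd * (1 - e / 4)) := by
      have h14 : prd - e / 2 + 3 * ε' ≤ prd * (1 - e / 4) := by
        rw [hε']
        nlinarith
      calc g * (prd - e / 2) + ε' * g * 2 + ε' * g = g * (prd - e / 2 + 3 * ε') := by ring
        _ ≤ g * (prd * (1 - e / 4)) := mul_le_mul_of_nonneg_left h14 (by linarith)
    linarith
  calc N = VV y * ((VV y)⁻¹ * N) := by field_simp
    _ ≤ VV y * (g * (prd * (1 - e / 4))) := mul_le_mul_of_nonneg_left h9 hV.le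
    _ = (1 - e / 4) * (g * VV y * prd) := by ring

end Pool.Agent.Lib.SHD
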