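import Pool.Agent.Lib.SHD.Spec

set_option autoImplicit false

namespace Pool.Agent.Lib.SHD

open Finset Filter Topology MeasureTheory
open Pool.Agent.Lib.MP_3ef1ab_nt Pool.Agent.Results.MP_9a4459_nt Pool.Agent.Lib.SHG
open Pool.Agent.Lib.SHR hiding ShanksLaw
open Pool.Agent.Lib.SHK (pr Vk nu mem_pr MedStmt PrgStmt)
open scoped Classical

namespace SUBM

theorem vv_split {y w : ℕ} (h : y ≤ w) : VV w = VV y * ∏ p ∈ pr y w, (1 - 1 / (p : ℝ)) := by
  unfold VV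
  rw [← Finset.prod_union]
  · apply Finset.prod_congr _ (fun _ _ => rfl)
    ext p
    rw [mem_union, mem_filter, mem_filter, mem_pr, mem_Icc, mem_Icc]
    constructor
    · rintro ⟨⟨h1, h2⟩, h3⟩
      rcases le_or_gt p y with h4 | h4
      · exact Or.inl ⟨⟨h1, h4⟩, h3⟩
      · exact Or.inr ⟨h4, h2, h3⟩
    · rintro (⟨⟨h1, h2⟩, h3⟩ | ⟨h1, h2, h3⟩)
      · exact ⟨⟨h1, h2.trans h⟩, h3⟩
      · exact ⟨⟨h3.pos, h2⟩, h3⟩
  · rw [Finset.disjoint_left]
    intro p hp hp'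
    rw [mem_filter, mem_Icc] at hp
    rw [mem_pr] at hp'
    omega

theorem dvd_primorial {p w : ℕ} (hp : p.Prime) (h : p ≤ w) : p ∣ primorial w := by
  unfold primorial
  apply Finset.dvd_prod_of_mem
  rw [mem_filter, mem_range]
  exact ⟨by omega, hp⟩

theorem shift {p a D t m : ℕ} (h : p ∣ D) : p ∣ a + D * t + m ↔ p ∣ a + m := by
  have h1 : a + D * t + m ≡ a + m [MOD p] := by
    have h2 : D * t ≡ 0 [MOD p] := (Nat.modEq_zero_iff_dvd).2 (Dvd.dvd.mul_right h t)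
    have h3 : a + D * t ≡ a + 0 [MOD p] := Nat.ModEq.add_left a h2
    exact Nat.ModEq.add_right m h3
  exact h1.dvd_iff (dvd_refl p)

end SUBM

theorem tSUB : S_SUB := by
  intro hSO hRT hAV hCR hPrg d hd
  obtain ⟨k, hkE, hk4, hkd⟩ : ∃ k : ℕ, Even k ∧ 4 ≤ k ∧ (4 : ℝ) / (4 * k - 3) ≤ d := by
    obtain ⟨n, hn⟩ : ∃ n : ℕ, 1 / d ≤ n := exists_nat_ge _
    refine ⟨2 * (n + 2), ⟨n + 2, by ring⟩, by omega, ?_⟩
    have hn0 : (0 : ℝ) ≤ n := Nat.cast_nonneg n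
    have h1 : (0 : ℝ) < 4 * ((2 * (n + 2) : ℕ) : ℝ) - 3 := by
      push_cast
      linarith
    rw [div_le_iff₀ h1]
    push_cast
    have h2 : 1 ≤ n * d := by
      rw [div_le_iff₀ hd] at hn
      exact hn
    have h3 : 0 ≤ n * d := by positivity
    nlinarith
  obtain ⟨κ, β, R, hκ, hκ1, hβ, hSO'⟩ := hSO k hkE hk4
  obtain ⟨y0, hy4, hRT'⟩ := hRT R (κ / 4) (by positivity)
  refine ⟨1 - κ / 2, by linarith, by linarith, ?_⟩
  filter_upwards [hSO' y0, eventually_ge_atTop 1] with g hg hg1 hEven w hw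
  obtain ⟨hy0, hyw, hgR, hcard⟩ := hg
  obtain ⟨y, hy⟩ : ∃ y, y = ⌊(g : ℝ) ^ β⌋₊ := ⟨_, rfl⟩
  rw [← hy] at hy0 hyw hgR hcard
  obtain ⟨P, hP⟩ : ∃ P, P = Pz k g := ⟨_, rfl⟩
  rw [← hP] at hcard
  have hg1' : (1 : ℝ) ≤ g := by exact_mod_cast hg1
  have hk4' : (4 : ℝ) ≤ k := by exact_mod_cast hk4
  have hzaw : za k g ≤ w := by
    have h1 : (za k g : ℝ) ≤ (g : ℝ) ^ ((4 : ℝ) / (4 * k - 3)) :=
      Nat.floor_le (by positivity)
    have h2 : (g : ℝ) ^ ((4 : ℝ) / (4 * k - 3)) ≤ (g : ℝ) ^ d :=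
      Real.rpow_le_rpow_of_exponent_le hg1' hkd
    have h3 : (za k g : ℝ) ≤ w := h1.trans (h2.trans hw)
    exact_mod_cast h3
  have hwaza : wa k g ≤ za k g := by
    unfold wa za
    apply Nat.floor_le_floor
    apply Real.rpow_le_rpow_of_exponent_le hg1'
    rw [div_le_div_iff₀ (by linarith) (by linarith)]
    linarith
  have hyw' : y ≤ w := hyw.trans (hwaza.trans hzaw)
  have hPm : ∀ p ∈ P, p.Prime ∧ y < p ∧ p ≤ w ∧ ¬ p ∣ g + 1 := by
    intro p hp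
    rw [hP, Pz, mem_filter, mem_pr] at hp
    exact ⟨hp.1.2.2, lt_of_le_of_lt hyw hp.1.1, hp.1.2.1.trans hzaw, hp.2⟩
  obtain ⟨b1, hb1, hbP⟩ := hCR y g P hEven (fun p hp => ⟨(hPm p hp).1, (hPm p hp).2.1⟩)
  obtain ⟨S1, hS1⟩ : ∃ S1, S1 = (Ioo 0 g).filter (fun j => SieveFree y (b1 + j) ∧
      ∀ p ∈ P, ¬ p ∣ b1 + j) := ⟨_, rfl⟩
  have hc1 := hcard b1 hbP
  rw [← hS1] at hc1
  obtain ⟨Q, hQ⟩ : ∃ Q, Q = (pr y w).filter (fun p => p ∉ P) := ⟨_, rfl⟩
  obtain ⟨D, hD⟩ : ∃ D, D = primorial y * ∏ p ∈ P, p := ⟨_, rfl⟩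
  have hQm : ∀ p ∈ Q, p.Prime ∧ y < p ∧ p ≤ w ∧ p ∉ P := by
    intro p hp
    rw [hQ, mem_filter, mem_pr] at hp
    exact ⟨hp.1.2.2, hp.1.1, hp.1.2.1, hp.2⟩
  have hQc : ∀ p ∈ Q, p.Prime ∧ 3 ≤ p ∧ p.Coprime D := by
    intro p hp
    obtain ⟨h1, h2, h3, h4⟩ := hQm p hp
    refine ⟨h1, by omega, ?_⟩
    rw [hD]
    apply Nat.Coprime.mul_right
    · unfold primorial
      apply Nat.Coprime.prod_right
      intro q hq
      rw [mem_filter, mem_range] at hq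
      exact (Nat.coprime_primes h1 hq.2).2 (by omega)
    · apply Nat.Coprime.prod_right
      intro q hq
      refine (Nat.coprime_primes h1 (hPm q hq).1).2 ?_
      rintro rfl
      exact h4 hq
  have hS1s : S1 ⊆ Ioo 0 g := by
    rw [hS1]
    exact filter_subset _ _
  obtain ⟨t, ht1, ht2⟩ := hAV hPrg Q S1 g b1 D (κ / 4) (by positivity) hS1s hQc (by
    intro j hj
    have hj' := mem_Ioo.1 (hS1s hj)
    exact hRT' y g j Q hy0 (fun p hp => ⟨(hQm p hp).1, (hQm p hp).2.1⟩) hj'.1 hj'.2 hgR)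
  have hDy : ∀ p : ℕ, p.Prime → p ≤ y → p ∣ D := by
    intro p hp hpy
    rw [hD]
    exact Dvd.dvd.mul_right (SUBM.dvd_primorial hp hpy) _
  have hDP : ∀ p ∈ P, p ∣ D := by
    intro p hp
    rw [hD]
    exact Dvd.dvd.mul_left (Finset.dvd_prod_of_mem _ hp) _
  have hcases : ∀ p : ℕ, p.Prime → p ≤ w → p ≤ y ∨ p ∈ P ∨ p ∈ Q := by
    intro p hp hpw
    rcases le_or_gt p y with h | h
    · exact Or.inl h
    · by_cases h' : p ∈ P
      · exact Or.inr (Or.inl h')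
      · refine Or.inr (Or.inr ?_)
        rw [hQ, mem_filter, mem_pr]
        exact ⟨⟨h, hpw, hp⟩, h'⟩
  refine ⟨b1 + D * t, S1.filter (fun j => ∀ p ∈ Q, ¬ p ∣ b1 + D * t + j),
    (filter_subset _ _).trans hS1s, ?_, ?_⟩
  · have hVV : VV w = VV y * ((∏ p ∈ P, (1 - 1 / (p : ℝ))) * ∏ p ∈ Q, (1 - 1 / (p : ℝ))) := by
      rw [SUBM.vv_split hyw', ← Finset.prod_union]
      · congr 1
        apply Finset.prod_congr _ (fun _ _ => rfl)
        ext p
        rw [mem_union, hQ, mem_filter]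
        constructor
        · intro hp
          by_cases h' : p ∈ P
          · exact Or.inl h'
          · exact Or.inr ⟨hp, h'⟩
        · rintro (hp | hp)
          · rw [mem_pr]
            exact ⟨(hPm p hp).2.1, (hPm p hp).2.2.1, (hPm p hp).1⟩
          · exact hp.1
      · rw [Finset.disjoint_left]
        intro p hp hp'
        exact (hQm p hp').2.2.2 hp
    have hpos : ∀ p : ℕ, p.Prime → 0 ≤ 1 - 1 / (p : ℝ) := by
      intro p hp
      have h1 : (1 : ℝ) ≤ p := by exact_mod_cast hp.one_lt.le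
      have h2 : 1 / (p : ℝ) ≤ 1 := by
        rw [div_le_one (by linarith)]
        exact h1
      linarith
    have hQ0 : 0 ≤ ∏ p ∈ Q, (1 - 1 / (p : ℝ)) :=
      Finset.prod_nonneg fun p hp => hpos p (hQm p hp).1
    have hP0 : 0 ≤ ∏ p ∈ P, (1 - 1 / (p : ℝ)) :=
      Finset.prod_nonneg fun p hp => hpos p (hPm p hp).1
    have hV0 : 0 ≤ VV y := by
      unfold VV
      exact Finset.prod_nonneg fun p hp => hpos p (mem_filter.1 hp).2
    have hg0 : (0 : ℝ) ≤ g := by linarith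
    rw [hVV]
    obtain ⟨a, ha⟩ : ∃ a, a = ∏ p ∈ P, (1 - 1 / (p : ℝ)) := ⟨_, rfl⟩
    obtain ⟨q, hq⟩ : ∃ q, q = ∏ p ∈ Q, (1 - 1 / (p : ℝ)) := ⟨_, rfl⟩
    rw [← ha, ← hq]
    rw [← ha] at hc1 hP0
    rw [← hq] at ht2 hQ0
    have h5 : (S1.card : ℝ) * q ≤ (1 - κ) * (g * VV y * a) * q :=
      mul_le_mul_of_nonneg_right hc1 hQ0
    have h6 : (0 : ℝ) ≤ g * VV y * a * q := by positivity
    calc ((S1.filter (fun j => ∀ p ∈ Q, ¬ p ∣ b1 + D * t + j)).card : ℝ)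
        ≤ (1 + 2 * (κ / 4)) * (S1.card * q) := ht2
      _ ≤ (1 + 2 * (κ / 4)) * ((1 - κ) * (g * VV y * a) * q) :=
          mul_le_mul_of_nonneg_left h5 (by linarith)
      _ = ((1 + κ / 2) * (1 - κ)) * (g * VV y * a * q) := by ring
      _ ≤ (1 - κ / 2) * (g * VV y * a * q) := by
          apply mul_le_mul_of_nonneg_right _ h6
          nlinarith
      _ = (1 - κ / 2) * (g * (VV y * (a * q))) := by ring
  · intro n hn
    have hmod : ∀ (p m : ℕ), p.Prime → p ≤ w → (p ∣ n + m ↔ p ∣ b1 + D * t + m) := by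
      intro p m hp hpw
      have h1 : n ≡ b1 + D * t [MOD p] := hn.of_dvd (SUBM.dvd_primorial hp hpw)
      exact (Nat.ModEq.add_right m h1).dvd_iff (dvd_refl p)
    have hPb : ∀ p ∈ P, ∀ m, (p ∣ b1 + m ↔ p ∣ 1 + m) := by
      intro p hp m
      have h1 : b1 ≡ 1 [MOD p] := hbP p hp
      exact (Nat.ModEq.add_right m h1).dvd_iff (dvd_refl p)
    refine ⟨?_, ?_, ?_⟩
    · intro p hp hpw hdvd
      have h1 : p ∣ n + 0 := hdvd
      rw [hmod p 0 hp hpw] at h1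
      rcases hcases p hp hpw with h | h | h
      · rw [SUBM.shift (hDy p hp h)] at h1
        exact (hb1 p hp h).1 h1
      · rw [SUBM.shift (hDP p h), hPb p h] at h1
        exact hp.one_lt.ne' (Nat.dvd_one.1 h1)
      · exact (ht1 p h).1 h1
    · intro p hp hpw hdvd
      rw [hmod p g hp hpw] at hdvd
      rcases hcases p hp hpw with h | h | h
      · rw [SUBM.shift (hDy p hp h)] at hdvd
        exact (hb1 p hp h).2 hdvd
      · rw [SUBM.shift (hDP p h), hPb p h, add_comm] at hdvd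
        exact (hPm p h).2.2.2 hdvd
      · exact (ht1 p h).2 hdvd
    · intro j hj hfree
      have hfree' : ∀ p : ℕ, p.Prime → p ≤ w → ¬ p ∣ b1 + D * t + j := by
        intro p hp hpw hdvd
        exact hfree p hp hpw ((hmod p j hp hpw).2 hdvd)
      rw [mem_filter, hS1, mem_filter]
      refine ⟨⟨hj, ?_, ?_⟩, ?_⟩
      · intro p hp hpy hdvd
        exact hfree' p hp (hpy.trans hyw') ((SUBM.shift (hDy p hp hpy)).2 hdvd)
      · intro p hp hdvd
        exact hfree' p (hPm p hp).1 (hPm p hp).2.2.1 ((SUBM.shift (hDP p hp)).2 hdvd)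
      · intro p hp hdvd
        exact hfree' p (hQm p hp).1 (hQm p hp).2.2.1 hdvd

end Pool.Agent.Lib.SHD
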