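import Pool.Agent.Lib.SHG.All
import Pool.Agent.Lib.SHD.IEA
import Pool.Agent.Lib.SHD.IEB
import Pool.Agent.Lib.SHD.IES
import Pool.Agent.Lib.SHD.CDM
import Pool.Agent.Lib.SHD.MZ
import Pool.Agent.Lib.SHD.NZ
import Pool.Agent.Lib.SHD.SO
import Pool.Agent.Lib.SHD.RT
import Pool.Agent.Lib.SHD.AV
import Pool.Agent.Lib.SHD.CR
import Pool.Agent.Lib.SHD.SUB
import Pool.Agent.Lib.SHD.MEDA
import Pool.Agent.Lib.SHD.NM4
import Pool.Agent.Lib.SHD.NM5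
import Pool.Agent.Lib.SHD.WDA
import Pool.Agent.Lib.SHD.FNDA
import Pool.Agent.Lib.SHD.FNDB

/-! MP_9a4459_nt, directory Lib/SHD (helper69, helper82): assembly of (R4). -/

set_option autoImplicit false

namespace Pool.Agent.Lib.SHD

open Pool.Agent.Lib.MP_3ef1ab_nt Pool.Agent.Lib.SHG

theorem aSUB : SUBStmt :=
  tSUB (tSO tIEA tIEB tIES tCDM tMZ tNZ aFLW mer) tRT tAV tCR Pool.Agent.Lib.SHK.aPrg

theorem aWDA : WDAStmt :=
  tWDA tCB tVB aSUB (tMEDA Pool.Agent.Lib.SHK.aMrt Pool.Agent.Lib.SHK.aPrg tRT) mer tNM4 tNM5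

theorem aFNDA.{u} : S_FNDA.{u} := tFNDA tMDL aUP2 aWDA

theorem aFNDB.{u} : S_FNDB.{u} := tFNDB tMDL aUP2 aWDA

end Pool.Agent.Lib.SHD
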