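import Pool.Agent.Lib.SHD.SpecD
import Pool.Agent.Lib.SHD.MEDA

/-! MP_9a4459_nt, Lib/SHD, module MEDB (helper69): the medium primes, larger range. -/

set_option autoImplicit false

namespace Pool.Agent.Lib.SHD

open Finset Filter Topology MeasureTheory
open Pool.Agent.Lib.MP_3ef1ab_nt Pool.Agent.Results.MP_9a4459_nt Pool.Agent.Lib.SHG
open Pool.Agent.Lib.SHR hiding ShanksLaw
open Pool.Agent.Lib.SHK (pr Vk nu mem_pr MedStmt PrgStmt MrtStmt)
open scoped Classical

namespace MEDBM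

/-- the sum of the reciprocals -/
theorem mer (C : ℝ) (hC : 0 < C) (h : ∀ x y : ℝ, 2 ≤ x → x ≤ y →
    |∑ p ∈ (Ioc ⌊x⌋₊ ⌊y⌋₊).filter Nat.Prime, 1 / (p : ℝ) - Real.log (Real.log y / Real.log x)| ≤
      C / Real.log x) (y w : ℕ) (h1 : 100 ≤ y) (h2 : y ≤ w) :
    ∑ p ∈ pr y w, 1 / (p : ℝ) ≤ Real.log (Real.log w) + C / Real.log 2 := by
  have hy : (100 : ℝ) ≤ y := by exact_mod_cast h1
  have hw : (y : ℝ) ≤ w := by exact_mod_cast h2
  have hly1 : 1 ≤ Real.log y := by
    have h3 : Real.log (Real.exp 1) ≤ Real.log y :=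
      Real.log_le_log (Real.exp_pos _) (by linarith [Real.exp_one_lt_d9])
    rwa [Real.log_exp] at h3
  have hly : 0 < Real.log y := by linarith
  have hlw : Real.log y ≤ Real.log w := Real.log_le_log (by linarith) hw
  have h5 := h y w (by linarith) hw
  rw [Nat.floor_natCast, Nat.floor_natCast] at h5
  have h6 := (abs_le.1 h5).2
  have h7 : Real.log (Real.log w / Real.log y) ≤ Real.log (Real.log w) := by
    apply Real.log_le_log (div_pos (by linarith) hly)
    exact div_le_self (by linarith) hly1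
  have h8 : C / Real.log y ≤ C / Real.log 2 := by
    apply div_le_div_of_nonneg_left hC.le (Real.log_pos (by norm_num))
    exact Real.log_le_log (by norm_num) (by linarith)
  have h9 : ∑ p ∈ pr y w, 1 / (p : ℝ) = ∑ p ∈ (Ioc y w).filter Nat.Prime, 1 / (p : ℝ) := rfl
  rw [h9]
  linarith

/-- the tail of the exponential series -/
theorem tail (s L : ℝ) (R : ℕ) (hs : 0 ≤ s) (hR : 21 * s + L ≤ R) :
    2 * ((3 * s) ^ R / (R.factorial : ℝ)) ≤ 2 * (Real.exp (-12 * s) * Real.exp (-L)) := by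
  have h1 := Real.pow_div_factorial_le_exp (3 * s * Real.exp 1) (by positivity) R
  have h2 : (3 * s * Real.exp 1) ^ R = (3 * s) ^ R * Real.exp R := by
    rw [mul_pow, ← Real.exp_nat_mul, mul_one]
  rw [h2] at h1
  have h3 : (3 * s) ^ R / (R.factorial : ℝ) ≤ Real.exp (3 * s * Real.exp 1) * Real.exp (-(R : ℝ)) := by
    have h4 : (3 * s) ^ R * Real.exp R / (R.factorial : ℝ) * Real.exp (-(R : ℝ)) =
        (3 * s) ^ R / (R.factorial : ℝ) := by
      have h5 : Real.exp R * Real.exp (-(R : ℝ)) = 1 := by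
        rw [← Real.exp_add, add_neg_cancel, Real.exp_zero]
      calc (3 * s) ^ R * Real.exp R / (R.factorial : ℝ) * Real.exp (-(R : ℝ))
          = (3 * s) ^ R / (R.factorial : ℝ) * (Real.exp R * Real.exp (-(R : ℝ))) := by ring
        _ = (3 * s) ^ R / (R.factorial : ℝ) := by rw [h5, mul_one]
    rw [← h4]
    exact mul_le_mul_of_nonneg_right h1 (Real.exp_pos _).le
  have h5 : Real.exp (3 * s * Real.exp 1) * Real.exp (-(R : ℝ)) ≤
      Real.exp (-12 * s) * Real.exp (-L) := by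
    rw [← Real.exp_add, ← Real.exp_add]
    apply Real.exp_le_exp.2
    have h6 : Real.exp 1 ≤ 3 := by linarith [Real.exp_one_lt_d9]
    have h7 : s * Real.exp 1 ≤ s * 3 := mul_le_mul_of_nonneg_left h6 hs
    linarith
  linarith

/-- `x ≥ (log x)^12 / κ` for large `x` -/
theorem large (κ : ℝ) (hκ : 0 < κ) : ∃ y1 : ℕ, ∀ w : ℕ, y1 ≤ w →
    1 ≤ κ * (Real.log w ^ 12)⁻¹ * w := by
  have h1 : Tendsto (fun w : ℕ => Real.log (w : ℝ) ^ 12 / (w : ℝ)) atTop (𝓝 0) := by
    have h2 : Tendsto (fun x : ℝ => Real.log x ^ 12 / (1 * x + 0)) atTop (𝓝 0) :=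
      Real.tendsto_pow_log_div_mul_add_atTop 1 0 12 one_ne_zero
    have h3 := h2.comp (tendsto_natCast_atTop_atTop (R := ℝ))
    refine h3.congr fun w => ?_
    simp
  have h4 := h1.eventually (gt_mem_nhds hκ)
  obtain ⟨y1, hy1⟩ := eventually_atTop.1 h4
  refine ⟨max y1 3, fun w hw => ?_⟩
  have h5 := hy1 w ((le_max_left _ _).trans hw)
  have h6 : (3 : ℝ) ≤ w := by exact_mod_cast (le_max_right _ _).trans hw
  have h7 : 0 < Real.log (w : ℝ) := Real.log_pos (by linarith)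
  have h8 : 0 < Real.log (w : ℝ) ^ 12 := by positivity
  rw [div_lt_iff₀ (by linarith)] at h5
  rw [mul_assoc, mul_comm, mul_assoc, inv_mul_eq_div, le_div_iff₀ h8]
  linarith

end MEDBM

theorem tMEDB (h1 : MrtStmt) (h2 : PrgStmt) (h3 : S_RT) : MedB := by
  intro A δ hδ hδ1
  obtain ⟨C, hC, hM⟩ := h1
  have hl2 : 0 < Real.log 2 := Real.log_pos (by norm_num)
  set B : ℝ := C / Real.log 2 with hB
  have hB0 : 0 < B := by positivity
  set E : ℝ := Real.exp (-6 * B) with hE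
  have hE0 : 0 < E := Real.exp_pos _
  set L : ℝ := Real.log (64 / δ) with hL
  have hL0 : 0 ≤ L := Real.log_nonneg (by rw [le_div_iff₀ hδ]; linarith)
  obtain ⟨y1, hy1, hR⟩ := h3 A (δ / 16) (by positivity)
  obtain ⟨y2, hy2⟩ := MEDBM.large (δ / 32 * E ^ 2) (by positivity)
  set K : ℝ := max (4 / (δ * E)) (42 * (B + 1) + 2 * L + 5) with hK
  have hK1 : 1 ≤ K := le_trans (by linarith) (le_max_right _ _)
  refine ⟨K, hK1, max (max y1 100) y2, ?_⟩
  intro y w g N n0 D a S hy hyw hg hgy hN hS ha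
  have hyy1 : y1 ≤ y := (le_max_left _ _).trans ((le_max_left _ _).trans hy)
  have hy100 : 100 ≤ y := (le_max_right _ _).trans ((le_max_left _ _).trans hy)
  have hyy2 : y2 ≤ w := ((le_max_right _ _).trans hy).trans hyw
  have hw100 : (100 : ℝ) ≤ w := by exact_mod_cast hy100.trans hyw
  have hlw1 : 1 ≤ Real.log w := by
    have h4 : Real.log (Real.exp 1) ≤ Real.log w :=
      Real.log_le_log (Real.exp_pos _) (by linarith [Real.exp_one_lt_d9])
    rwa [Real.log_exp] at h4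
  have hlw0 : 0 < Real.log (w : ℝ) := by linarith
  have hllw : 0 ≤ Real.log (Real.log w) := Real.log_nonneg hlw1
  set C2 : ℝ := Real.log (Real.log w) + B with hC2
  have hC20 : 0 ≤ C2 := by linarith
  have hsum := MEDBM.mer C hC hM y w hy100 hyw
  rw [← hB, ← hC2] at hsum
  set c0 : ℝ := Real.exp (-6 * C2) with hc0
  have hc0p : 0 < c0 := Real.exp_pos _
  have hc0v : c0 = (Real.log w ^ 6)⁻¹ * E := by
    rw [hc0, hC2, hE]
    have h4 : -6 * (Real.log (Real.log w) + B) = -(6 * Real.log (Real.log w)) + -6 * B := by ring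
    rw [h4, Real.exp_add]
    congr 1
    rw [Real.exp_neg]
    congr 1
    have h5 : (6 : ℝ) * Real.log (Real.log w) = ((6 : ℕ) : ℝ) * Real.log (Real.log w) := by norm_num
    rw [h5, Real.exp_nat_mul, Real.exp_log hlw0]
  have hc01 : c0 ≤ 1 := by
    rw [hc0, Real.exp_le_one_iff]
    linarith
  set κ : ℝ := δ / 32 * c0 ^ 2 with hκ
  have hκp : 0 < κ := by positivity
  set R0 : ℕ := ⌈21 * C2 + L⌉₊ with hR0d
  have hR0a : 21 * C2 + L ≤ R0 := Nat.le_ceil _
  have hR0b : (R0 : ℝ) ≤ 21 * C2 + L + 1 := (Nat.ceil_lt_add_one (by positivity)).le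
  have hR0 : 2 * ((3 * C2) ^ R0 / (R0.factorial : ℝ)) ≤ κ := by
    refine (MEDBM.tail C2 L R0 hC20 hR0a).trans (le_of_eq ?_)
    have h4 : Real.exp (-L) = δ / 64 := by
      rw [hL, Real.exp_neg, Real.exp_log (by positivity), inv_div]
    have h5 : Real.exp (-12 * C2) = c0 ^ 2 := by
      rw [hc0, ← Real.exp_nat_mul]
      congr 1
      push_cast
      ring
    rw [h4, h5, hκ]
    ring
  have hwk : 1 ≤ κ * w := by
    have h4 := hy2 w hyy2
    have h5 : κ = δ / 32 * E ^ 2 * (Real.log w ^ 12)⁻¹ := by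
      rw [hκ, hc0v]
      rw [mul_pow, inv_pow, ← pow_mul]
      ring
    rw [h5]
    exact h4
  -- N is large
  have hlogN : 0 < Real.log (N : ℝ) := lt_of_lt_of_le (by positivity) hN
  have hNpos : (0 : ℝ) < N := by
    rcases Nat.eq_zero_or_pos N with h | h
    · rw [h] at hlogN
      simp at hlogN
    · exact_mod_cast h
  have hNw : w ^ (2 * R0 + 1) ≤ N := by
    have h4 : Real.log ((w : ℝ) ^ (2 * R0 + 1)) ≤ Real.log N := by
      rw [Real.log_pow]
      refine le_trans ?_ hN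
      have h5 : ((2 * R0 + 1 : ℕ) : ℝ) ≤ K * (1 + Real.log (Real.log w)) := by
        push_cast
        have h6 : 42 * (B + 1) + 2 * L + 5 ≤ K := le_max_right _ _
        have h7 : (42 * (B + 1) + 2 * L + 5) * (1 + Real.log (Real.log w)) ≤
            K * (1 + Real.log (Real.log w)) := mul_le_mul_of_nonneg_right h6 (by linarith)
        have h8 : 42 * (Real.log (Real.log w) + B) + 2 * L + 3 ≤
            (42 * (B + 1) + 2 * L + 5) * (1 + Real.log (Real.log w)) := by nlinarith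
        have h9 : (R0 : ℝ) ≤ 21 * (Real.log (Real.log w) + B) + L + 1 := hR0b
        linarith
      calc ((2 * R0 + 1 : ℕ) : ℝ) * Real.log w
          ≤ K * (1 + Real.log (Real.log w)) * Real.log w :=
            mul_le_mul_of_nonneg_right h5 hlw0.le
        _ = K * (Real.log w * (1 + Real.log (Real.log w))) := by ring
    have h5 : (w : ℝ) ^ (2 * R0 + 1) ≤ N :=
      (Real.log_le_log_iff (by positivity) hNpos).1 h4
    exact_mod_cast h5
  have hQ : ∀ p ∈ pr y w, p.Prime ∧ p.Coprime D ∧ a p < p := fun p hp =>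
    ⟨(mem_pr.1 hp).2.2, ha p hp⟩
  have hp100 : ∀ p ∈ pr y w, 100 ≤ p := fun p hp => hy100.trans (mem_pr.1 hp).1.le
  have hQc : (pr y w).card ≤ w := by
    calc (pr y w).card ≤ (Ioc y w).card := card_filter_le _ _
      _ = w - y := Nat.card_Ioc _ _
      _ ≤ w := Nat.sub_le _ _
  have hw4 : 4 ≤ w := by omega
  have hnu : ∀ H : Finset ℕ, H.card ≤ 3 → ∀ p, nu H p ≤ 3 := fun H hH p =>
    card_image_le.trans hH
  have hcard2 : ({0, g} : Finset ℕ).card ≤ 3 := card_le_two.trans (by norm_num)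
  have hcard3 : ∀ j : ℕ, ({0, j, g} : Finset ℕ).card ≤ 3 := fun j => card_le_three
  have hP := MEDAM.prod (pr y w) (nu {0, g}) C2 hp100 (fun p _ => hnu _ hcard2 p) hsum
  have hV : c0 ≤ Vk 1 y w := MEDAM.prod (pr y w) (fun _ => 1) C2 hp100 (fun p _ => by norm_num) hsum
  rw [← hc0] at hP
  have herr := fun (H : Finset ℕ) (hH : H.card ≤ 3) =>
    MEDAM.err h2 (pr y w) H a n0 D N R0 w C2 κ hQ hH hQc hsum hR0 hw4 hwk hNw
  have hN0 : (0 : ℝ) ≤ N := Nat.cast_nonneg N
  set P : ℝ := ∏ p ∈ pr y w, (1 - (nu {0, g} p : ℝ) / p) with hPd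
  set V : ℝ := Vk 1 y w with hVd
  have hVP : c0 ^ 2 ≤ P * V := by
    rw [sq]
    exact mul_le_mul hP hV hc0p.le (hc0p.le.trans hP)
  have hcP : c0 ^ 2 ≤ P := by
    have h4 : c0 ^ 2 ≤ c0 := by
      rw [sq]
      exact mul_le_of_le_one_right hc0p.le hc01
    exact h4.trans hP
  have hcount := MEDAM.count N
    (fun t => ∀ p ∈ pr y w, (n0 + D * t) % p ≠ a p ∧ (n0 + D * t + g) % p ≠ a p)
    (fun j t => ∀ p ∈ pr y w, (n0 + D * t + j) % p ≠ a p) S δ V P c0 hδ hδ1 hc0p hV hP ?_ ?_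
  · set G : ℝ := (((range N).filter (fun t =>
      (∀ p ∈ pr y w, (n0 + D * t) % p ≠ a p ∧ (n0 + D * t + g) % p ≠ a p) ∧
      ((S.filter (fun j => ∀ p ∈ pr y w, (n0 + D * t + j) % p ≠ a p)).card : ℝ) ≤
        (1 + δ) * (S.card * V))).card : ℝ) with hG
    have h4 : δ / 4 * c0 * N ≤ G := hcount
    have hl6 : 0 < Real.log (w : ℝ) ^ 6 := by positivity
    have h5 : (N : ℝ) ≤ 4 / (δ * E) * Real.log w ^ 6 * G := by
      have h6 : (N : ℝ) = 4 / (δ * E) * Real.log w ^ 6 * (δ / 4 * c0 * N) := by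
        rw [hc0v]
        field_simp
      rw [h6]
      exact mul_le_mul_of_nonneg_left h4 (by positivity)
    have hG0 : 0 ≤ G := Nat.cast_nonneg _
    refine h5.trans ?_
    have h7 : 4 / (δ * E) ≤ K := le_max_left _ _
    exact mul_le_mul_of_nonneg_right (mul_le_mul_of_nonneg_right h7 hl6.le) hG0
  · obtain ⟨F, hF, h4⟩ := herr {0, g} hcard2
    have h4 := (abs_le.1 h4).1
    have h5 : F ⊆ (range N).filter (fun t => ∀ p ∈ pr y w, (n0 + D * t) % p ≠ a p ∧
        (n0 + D * t + g) % p ≠ a p) := by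
      intro t ht
      have hh := (hF t).1 ht
      exact mem_filter.2 ⟨hh.1, fun p hp => ⟨hh.2 p hp 0 (by simp), hh.2 p hp g (by simp)⟩⟩
    have h5c : (F.card : ℝ) ≤ (((range N).filter (fun t => ∀ p ∈ pr y w, (n0 + D * t) % p ≠ a p ∧
        (n0 + D * t + g) % p ≠ a p)).card : ℝ) := by exact_mod_cast card_le_card h5
    refine le_trans ?_ h5c
    have h6 : 2 * κ * N ≤ N * P * (δ / 16) := by
      have h7 : 2 * κ = δ / 16 * c0 ^ 2 := by rw [hκ]; ring
      rw [h7]
      have h8 : δ / 16 * c0 ^ 2 ≤ δ / 16 * P := mul_le_mul_of_nonneg_left hcP (by positivity)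
      nlinarith [mul_le_mul_of_nonneg_right h8 hN0]
    linarith
  · intro j hj
    have hj2 := mem_Ioo.1 (hS hj)
    obtain ⟨F, hF, h4⟩ := herr {0, j, g} (hcard3 j)
    have h4 := (abs_le.1 h4).2
    have h5 : (range N).filter (fun t => (∀ p ∈ pr y w, (n0 + D * t) % p ≠ a p ∧
        (n0 + D * t + g) % p ≠ a p) ∧ ∀ p ∈ pr y w, (n0 + D * t + j) % p ≠ a p) ⊆ F := by
      intro t ht
      obtain ⟨hr, ha1, ha2⟩ := mem_filter.1 ht
      refine (hF t).2 ⟨hr, fun p hp h hh => ?_⟩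
      simp only [mem_insert, mem_singleton] at hh
      rcases hh with hh | hh | hh
      · rw [hh]
        exact (ha1 p hp).1
      · rw [hh]
        exact ha2 p hp
      · rw [hh]
        exact (ha1 p hp).2
    have h5c : (((range N).filter (fun t => (∀ p ∈ pr y w, (n0 + D * t) % p ≠ a p ∧
        (n0 + D * t + g) % p ≠ a p) ∧ ∀ p ∈ pr y w, (n0 + D * t + j) % p ≠ a p)).card : ℝ) ≤
        F.card := by exact_mod_cast card_le_card h5
    refine le_trans h5c ?_
    have h6 := hR y g j (pr y w) hyy1 (fun p hp => ⟨(mem_pr.1 hp).2.2, (mem_pr.1 hp).1⟩) hj2.1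
      hj2.2 hgy
    have hVk : ∏ p ∈ pr y w, (1 - 1 / (p : ℝ)) = V := by
      rw [hVd]
      unfold Vk
      exact prod_congr rfl fun p _ => by rw [Nat.cast_one]
    rw [hVk, ← hPd] at h6
    have h7 : 2 * κ * N ≤ N * (P * V) * (δ / 16) := by
      have h7 : 2 * κ = δ / 16 * c0 ^ 2 := by rw [hκ]; ring
      rw [h7]
      have h8 : δ / 16 * c0 ^ 2 ≤ δ / 16 * (P * V) :=
        mul_le_mul_of_nonneg_left hVP (by positivity)
      nlinarith [mul_le_mul_of_nonneg_right h8 hN0]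
    have h8 : N * ∏ p ∈ pr y w, (1 - (nu {0, j, g} p : ℝ) / p) ≤
        N * ((1 + δ / 16) * (V * P)) := mul_le_mul_of_nonneg_left h6 hN0
    nlinarith

end Pool.Agent.Lib.SHD
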