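import Pool.Agent.Lib.SHD.SpecD

/-! MP_9a4459_nt, project SHD, module NMB: numerics for `Mid T`. -/

set_option autoImplicit false

namespace Pool.Agent.Lib.SHD

open Finset Filter Topology MeasureTheory
open Pool.Agent.Lib.MP_3ef1ab_nt Pool.Agent.Results.MP_9a4459_nt Pool.Agent.Lib.SHG
open Pool.Agent.Lib.SHR hiding ShanksLaw
open Pool.Agent.Lib.SHK (pr Vk nu mem_pr MedStmt PrgStmt MrtStmt)
open scoped Classical

namespace NMBM

/-- polynomials are smaller than exponential functions -/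
theorem ev (k : ℕ) (b C : ℝ) (hb : 0 < b) (hC : 0 < C) :
    ∀ᶠ s : ℝ in atTop, s ^ k ≤ C * Real.exp (b * s) := by
  have := (isLittleO_pow_exp_pos_mul_atTop (k := k) (b := b) hb).bound (c := C) hC
  filter_upwards [this, eventually_ge_atTop (0 : ℝ)] with s hs hs0
  rwa [Real.norm_of_nonneg (by positivity), Real.norm_of_nonneg (Real.exp_pos _).le] at hs

/-- the choice of `ε` -/
theorem eps (K c0 : ℝ) (hK : 0 < K) (h : K < c0 ^ 2) :
    ∃ ε : ℝ, 0 < ε ∧ ε < 1 / 2 ∧ (1 + ε) ^ 3 * K < c0 ^ 2 := by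
  refine ⟨min (1 / 4) ((c0 ^ 2 - K) / (14 * K)),
    lt_min (by norm_num) (div_pos (by linarith) (by positivity)),
    lt_of_le_of_lt (min_le_left _ _) (by norm_num), ?_⟩
  set ε : ℝ := min (1 / 4) ((c0 ^ 2 - K) / (14 * K)) with hε
  have h1 : ε ≤ 1 / 4 := min_le_left _ _
  have h2 : ε ≤ (c0 ^ 2 - K) / (14 * K) := min_le_right _ _
  have h0 : 0 < ε := lt_min (by norm_num) (div_pos (by linarith) (by positivity))
  have h3 : ε * (14 * K) ≤ c0 ^ 2 - K := by rwa [le_div_iff₀ (by positivity)] at h2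
  have h4 : (1 + ε) ^ 3 ≤ 1 + 7 * ε := by
    have e2 : ε ^ 2 ≤ ε := by nlinarith
    have e3 : ε ^ 3 ≤ ε := by nlinarith [sq_nonneg ε]
    have e6 : (1 + ε) ^ 3 = 1 + 3 * ε + 3 * ε ^ 2 + ε ^ 3 := by ring
    linarith
  have h5 := mul_le_mul_of_nonneg_right h4 hK.le
  nlinarith

/-- the size of `D` -/
theorem siz (η s d : ℝ) (g D : ℕ) (hg1 : 1 ≤ g) (hg : (g : ℝ) = s ^ 2) (hs : 1 ≤ s) (hη : 0 < η)
    (hd4 : d ≤ 1 / 4) (h1 : 2 / η ≤ √s) (h2 : 1 ≤ η / 2 * s)
    (hD : D ≤ 4 ^ ⌈(g : ℝ) ^ d⌉₊) : (D : ℝ) ≤ Real.exp (7 / 5 * (η * s)) := by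
  have hs0 : 0 < s := by linarith
  have e1 : (g : ℝ) ^ d ≤ √s := by
    have e2 : (g : ℝ) ^ d ≤ (g : ℝ) ^ (1 / 4 : ℝ) :=
      Real.rpow_le_rpow_of_exponent_le (by exact_mod_cast hg1) hd4
    have e3 : (g : ℝ) ^ (1 / 4 : ℝ) = √s := by
      rw [hg, Real.sqrt_eq_rpow, ← Real.rpow_natCast, ← Real.rpow_mul hs0.le]
      norm_num
    rwa [e3] at e2
  have e4 : (⌈(g : ℝ) ^ d⌉₊ : ℝ) ≤ η * s := by
    have e5 : (⌈(g : ℝ) ^ d⌉₊ : ℝ) < (g : ℝ) ^ d + 1 :=
      Nat.ceil_lt_add_one (Real.rpow_nonneg (Nat.cast_nonneg g) d)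
    have e6 : √s ≤ η / 2 * s := by
      have e7 : √s * √s = s := Real.mul_self_sqrt hs0.le
      have e8 : 1 ≤ η / 2 * √s := by
        have := mul_le_mul_of_nonneg_left h1 (show 0 ≤ η / 2 by positivity)
        have e9 : η / 2 * (2 / η) = 1 := by field_simp
        linarith
      nlinarith [Real.sqrt_nonneg s]
    linarith
  have h3 : Real.log 4 ≤ 7 / 5 := by
    have : (4 : ℝ) = 2 ^ 2 := by norm_num
    rw [this, Real.log_pow]
    have := Real.log_two_lt_d9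
    push_cast
    linarith
  have e5 : (D : ℝ) ≤ (4 : ℝ) ^ ⌈(g : ℝ) ^ d⌉₊ := by exact_mod_cast hD
  refine e5.trans ?_
  rw [show (4 : ℝ) ^ ⌈(g : ℝ) ^ d⌉₊ = Real.exp (⌈(g : ℝ) ^ d⌉₊ * Real.log 4) by
    rw [Real.exp_nat_mul, Real.exp_log (by norm_num)]]
  apply Real.exp_le_exp.mpr
  have h4 := mul_le_mul_of_nonneg_left h3 (Nat.cast_nonneg (α := ℝ) ⌈(g : ℝ) ^ d⌉₊)
  linarith only [h4, e4]

/-- the quotient -/
theorem quot (c1 η s W : ℝ) (g M D v : ℕ) (hg : (g : ℝ) = s ^ 2) (hM : (M : ℝ) + 1 ≤ W) (hD1 : 1 ≤ D)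
    (hD : (D : ℝ) ≤ Real.exp (7 / 5 * (η * s))) (hv : Real.exp (c1 * s) / 2 ≤ v)
    (q1 : W * Real.exp ((c1 - 3 / 5 * η) * s) ≤ Real.exp (c1 * s) / 8)
    (q2 : W * (3 * Real.exp (7 / 5 * (η * s))) ≤ Real.exp (c1 * s) / 8)
    (q3 : W * s ^ 2 ≤ Real.exp (c1 * s) / 8) :
    Real.exp ((c1 - 2 * η) * s) ≤ (((v / (M + 1) - 2 * D - g) / D : ℕ) : ℝ) := by
  by_contra hcon
  rw [not_le] at hcon
  have hPpos : 0 < D := hD1
  set q : ℕ := v / (M + 1) with hq
  set N : ℕ := (q - 2 * D - g) / D with hN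
  have n1 : v < (M + 1) * (q + 1) := Nat.lt_mul_div_succ v (Nat.succ_pos M)
  have n2 : q - 2 * D - g < D * (N + 1) := Nat.lt_mul_div_succ _ hPpos
  have n3 : q + 1 ≤ D * (N + 1) + 2 * D + g := by omega
  have n4 : v ≤ (M + 1) * (D * (N + 3) + g) := by
    have : (M + 1) * (q + 1) ≤ (M + 1) * (D * (N + 3) + g) := by
      apply Nat.mul_le_mul_left
      have : D * (N + 3) = D * (N + 1) + 2 * D := by ring
      omega
    omega
  have r1 : (v : ℝ) ≤ ((M : ℝ) + 1) * ((D : ℝ) * ((N : ℝ) + 3) + g) := by exact_mod_cast n4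
  have r3 : (D : ℝ) * ((N : ℝ) + 3) ≤
      Real.exp ((c1 - 3 / 5 * η) * s) + 3 * Real.exp (7 / 5 * (η * s)) := by
    have e1 : (D : ℝ) * ((N : ℝ) + 3) ≤
        Real.exp (7 / 5 * (η * s)) * (Real.exp ((c1 - 2 * η) * s) + 3) := by
      have : (0 : ℝ) ≤ (N : ℝ) := Nat.cast_nonneg _
      gcongr
    have e2 : Real.exp (7 / 5 * (η * s)) * Real.exp ((c1 - 2 * η) * s) =
        Real.exp ((c1 - 3 / 5 * η) * s) := by
      rw [← Real.exp_add]
      congr 1
      ring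
    linarith
  have r4 : ((M : ℝ) + 1) * ((D : ℝ) * ((N : ℝ) + 3) + g) ≤
      W * ((Real.exp ((c1 - 3 / 5 * η) * s) + 3 * Real.exp (7 / 5 * (η * s))) + s ^ 2) := by
    rw [← hg]
    have h1 : (0 : ℝ) ≤ (D : ℝ) * ((N : ℝ) + 3) + g := by positivity
    have h2 : (0 : ℝ) ≤ W := le_trans (by positivity) hM
    exact mul_le_mul hM (by linarith) h1 h2
  have r5 := Real.exp_pos (c1 * s)
  linarith

/-- the last inequality -/
theorem fin (c0 c1 c ε η K c' s D : ℝ) (g : ℕ) (hg : (g : ℝ) = s ^ 2) (hs : 1 ≤ s) (hc0 : 0 < c0)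
    (hc : 0 < c) (hc1 : c < 1)
    (hε0 : 0 < ε) (hε : ε < 1 / 2) (hc' : 0 < c') (hD : D = c1 - 2 * η - (1 + ε) ^ 3 * K / c0)
    (h : s ^ 3 ≤ c' / 16 * Real.exp (D * s)) :
    2 * Real.log g ≤ c' * Real.exp ((c1 - 2 * η) * s) * (((1 - ε) / (c * s)) ^ 2 *
      Real.exp (-((1 + ε) ^ 2 * ((1 + ε) * (K * g)) / (c0 * s)))) := by
  have hs0 : 0 < s := by linarith
  have e1 : -((1 + ε) ^ 2 * ((1 + ε) * (K * g)) / (c0 * s)) = -((1 + ε) ^ 3 * K / c0 * s) := by
    rw [hg]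
    field_simp
  have e2 : Real.exp ((c1 - 2 * η) * s) * Real.exp (-((1 + ε) ^ 3 * K / c0 * s)) =
      Real.exp (D * s) := by
    rw [← Real.exp_add, hD]
    congr 1
    ring
  have e3 : c' * Real.exp ((c1 - 2 * η) * s) * (((1 - ε) / (c * s)) ^ 2 *
      Real.exp (-((1 + ε) ^ 2 * ((1 + ε) * (K * g)) / (c0 * s)))) =
      c' * Real.exp (D * s) * ((1 - ε) / (c * s)) ^ 2 := by
    rw [e1, ← e2]
    ring
  rw [e3]
  have e4 : 1 / 4 / s ^ 2 ≤ ((1 - ε) / (c * s)) ^ 2 := by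
    have e7 : (1 / 2) / s ≤ (1 - ε) / (c * s) := by
      rw [div_le_div_iff₀ hs0 (by positivity)]
      have e8 : c * s ≤ s := by nlinarith
      have e9 : (1 / 2) * (c * s) ≤ (1 / 2) * s := by linarith
      have e10 : (1 / 2) * s ≤ (1 - ε) * s := mul_le_mul_of_nonneg_right (by linarith) hs0.le
      linarith
    have e8 : 1 / 4 / s ^ 2 = ((1 / 2) / s) ^ 2 := by
      rw [div_pow]
      norm_num
    rw [e8]
    exact pow_le_pow_left₀ (by positivity) e7 2
  have e5 : Real.log g ≤ 2 * s := by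
    rw [hg, Real.log_pow]
    have := Real.log_le_sub_one_of_pos hs0
    push_cast
    linarith
  have e6 : 0 < Real.exp (D * s) := Real.exp_pos _
  calc 2 * Real.log g ≤ 4 * s := by linarith
    _ = 16 * s ^ 3 * (1 / 4 / s ^ 2) := by
        field_simp
        norm_num
    _ ≤ c' * Real.exp (D * s) * (1 / 4 / s ^ 2) :=
        mul_le_mul_of_nonneg_right (by linarith) (by positivity)
    _ ≤ c' * Real.exp (D * s) * ((1 - ε) / (c * s)) ^ 2 := by gcongr

end NMBM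

open NMBM in
theorem tNMB : S_NMB := by
  intro K hK0 hK1
  have hκ1 : √K < 1 := by
    rw [Real.sqrt_lt' one_pos]
    linarith
  have hκ0 : 0 < √K := Real.sqrt_pos.mpr hK0
  obtain ⟨c0, hc0d⟩ : ∃ c0 : ℝ, c0 = (√K + 2) / 3 := ⟨_, rfl⟩
  obtain ⟨c1, hc1d⟩ : ∃ c1 : ℝ, c1 = (c0 + 1) / 2 := ⟨_, rfl⟩
  obtain ⟨c, hcd⟩ : ∃ c : ℝ, c = (c1 + 1) / 2 := ⟨_, rfl⟩
  have h0a : √K < c0 := by linarith
  have hc0 : 1 / 2 < c0 := by linarith
  have hc01 : c0 < 1 := by linarith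
  have h1a : c0 < c1 := by linarith
  have h1b : c1 < c := by linarith
  have hc1 : c < 1 := by linarith
  have hKc : K < c0 ^ 2 := Real.lt_sq_of_sqrt_lt h0a
  obtain ⟨ε, hε0, hε, hε5⟩ := eps K c0 hK0 hKc
  obtain ⟨η, hη0, hη1, hη3⟩ : ∃ η : ℝ, 0 < η ∧ η ≤ 1 / 10 ∧ η ≤ (c1 - c0) / 8 :=
    ⟨min (1 / 10) ((c1 - c0) / 8), lt_min (by norm_num) (by linarith), min_le_left _ _,
      min_le_right _ _⟩
  refine ⟨c0, c1, c, ε, η, hc0, h1a, h1b, hc1, hε0, hε, hη0, by linarith, ?_⟩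
  intro d C K1 hd hd4 hC hK1'
  have hK1p : 0 < K1 := by linarith
  refine ⟨1 / (16 * K1), by positivity, ?_⟩
  obtain ⟨D, hD⟩ : ∃ D : ℝ, D = c1 - 2 * η - (1 + ε) ^ 3 * K / c0 := ⟨_, rfl⟩
  have hDpos : 0 < D := by
    have : (1 + ε) ^ 3 * K / c0 < c0 := by
      rw [div_lt_iff₀ (by linarith)]
      nlinarith
    rw [hD]
    linarith
  obtain ⟨β, hβ⟩ : ∃ β : ℝ, β = ε * c0 / (2 * C * (1 + ε) ^ 2) := ⟨_, rfl⟩
  have hβ0 : 0 < β := by
    rw [hβ]
    have : 0 < c0 := by linarith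
    positivity
  have hβ1 : (1 + ε) * (C * (2 * β)) = ε / (1 + ε) * c0 := by
    rw [hβ]
    have : (1 + ε) ≠ 0 := by linarith
    field_simp
  have hβ2 : C * (2 * β) ≤ c := by
    have e1 : C * (2 * β) ≤ (1 + ε) * (C * (2 * β)) := by
      have : 0 ≤ C * (2 * β) := by positivity
      nlinarith
    have e2 : ε / (1 + ε) * c0 ≤ 1 * c0 := by
      refine mul_le_mul_of_nonneg_right ?_ (by linarith)
      rw [div_le_one (by linarith)]
      linarith
    linarith
  have hsq : Tendsto (fun g : ℕ => √(g : ℝ)) atTop atTop :=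
    Real.tendsto_sqrt_atTop.comp tendsto_natCast_atTop_atTop
  have hsq2 : Tendsto (fun g : ℕ => √(√(g : ℝ))) atTop atTop := Real.tendsto_sqrt_atTop.comp hsq
  have hlg : Tendsto (fun g : ℕ => Real.log (g : ℝ)) atTop atTop :=
    Real.tendsto_log_atTop.comp tendsto_natCast_atTop_atTop
  have t0 := hsq.eventually (eventually_ge_atTop (1 : ℝ))
  have t1 := hsq.eventually ((tendsto_id.const_mul_atTop
    (show 0 < c1 - c0 by linarith)).eventually_ge_atTop (1 : ℝ))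
  have t2 := hsq.eventually ((tendsto_id.const_mul_atTop
    (show 0 < c - c1 by linarith)).eventually_ge_atTop (1 : ℝ))
  have t3 := hsq.eventually (ev 0 (1 / 2 * η) (1 / 16) (by positivity) (by norm_num))
  have t5 := hsq.eventually (ev 0 (c1 - 3 / 2 * η) (1 / 48) (by linarith) (by norm_num))
  have t7 := hsq.eventually (ev 2 (c1 - 1 / 10 * η) (1 / 16) (by linarith) (by norm_num))
  have t9 := hsq.eventually (ev 9 D (1 / (16 * K1)) hDpos (by positivity))
  have t10 := hsq.eventually (ev 0 c1 (1 / 2) (by linarith) (by norm_num))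
  have t11 := hsq.eventually (ev 1 c1 1 (by linarith) (by norm_num))
  have t14 := hsq.eventually ((tendsto_id.const_mul_atTop hβ0).eventually_ge_atTop (2 : ℝ))
  have t15 := hsq.eventually ((tendsto_id.const_mul_atTop
    (show 0 < η / 2 by positivity)).eventually_ge_atTop (1 : ℝ))
  have t16 := hsq2.eventually (eventually_ge_atTop (2 / η))
  have t17 := hlg.eventually (eventually_ge_atTop (2 : ℝ))
  have t18 := hlg.eventually (eventually_ge_atTop (1 / β))
  have t19 := hlg.eventually (eventually_ge_atTop (1 / (1 / 10 * η)))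
  filter_upwards [t0, t1, t2, t3, t5, t7, t9, t10, t11, t14, t15, t16, t17, t18, t19,
    eventually_ge_atTop 2] with g s0 s1 s2 s3 s5 s7 s9 s10 s11 s14 s15 s16 s17 s18 s19 hg2
  have hgs : (g : ℝ) = √(g : ℝ) ^ 2 := (Real.sq_sqrt (Nat.cast_nonneg g)).symm
  have hLs : Real.log (g : ℝ) = 2 * Real.log (√(g : ℝ)) := by
    rw [Real.log_sqrt (Nat.cast_nonneg g)]
    ring
  have hsqn : ((Nat.sqrt g : ℕ) : ℝ) ≤ √(g : ℝ) := Real.nat_sqrt_le_real_sqrt
  have hfin : ∀ c' : ℝ, 0 < c' → √(g : ℝ) ^ 3 ≤ c' / 16 * Real.exp (D * √(g : ℝ)) →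
      2 * Real.log g ≤ c' * Real.exp ((c1 - 2 * η) * √(g : ℝ)) * (((1 - ε) / (c * √(g : ℝ))) ^ 2 *
      Real.exp (-((1 + ε) ^ 2 * ((1 + ε) * (K * g)) / (c0 * √(g : ℝ))))) := fun c' hc' h =>
    fin c0 c1 c ε η K c' (√(g : ℝ)) D g hgs s0 (by linarith) (by linarith) hc1 hε0 hε hc' hD h
  clear t0 t1 t2 t3 t5 t7 t9 t10 t11 t14 t15 t16 t17 t18 t19 hsq hsq2 hlg
  generalize hs : √(g : ℝ) = s at *
  generalize hL : Real.log (g : ℝ) = L at *
  simp only [id_eq, pow_zero, pow_one] at s0 s1 s2 s3 s5 s7 s9 s10 s11 s14 s15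
  have hs0 : 0 < s := by linarith only [s0]
  have hL0 : 0 < L := by linarith only [s17]
  obtain ⟨τ, hτ⟩ : ∃ τ : ℝ, τ = 4 * (1 / (16 * K1)) * (s / L) := ⟨_, rfl⟩
  rw [← hτ]
  have hτL : K1 * τ * L = s / 4 := by
    rw [hτ]
    field_simp
    norm_num
  have hτs : ∀ θ : ℝ, 0 < θ → 1 / θ ≤ L → τ ≤ θ * s := by
    intro θ hθ hθL
    have e1 : 1 ≤ θ * L := by
      have := mul_le_mul_of_nonneg_left hθL hθ.le
      rwa [mul_one_div_cancel hθ.ne'] at this
    have e2 : 4 * (1 / (16 * K1)) ≤ 1 := by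
      rw [mul_one_div, div_le_one (by positivity)]
      linarith
    have e3 : s / L ≤ θ * s := by
      rw [div_le_iff₀ hL0]
      have := mul_le_mul_of_nonneg_left e1 hs0.le
      linarith only [this]
    have e4 : 0 ≤ s / L := by positivity
    rw [hτ]
    have := mul_le_mul_of_nonneg_right e2 e4
    linarith only [this, e3]
  have hτ1 : τ ≤ s := by
    have := hτs 1 one_pos (by linarith)
    linarith
  have hτ2 := hτs β hβ0 s18
  have hτ3 := hτs (1 / 10 * η) (by positivity) s19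
  have hfl : Real.exp (c1 * s) / 2 ≤ (⌊Real.exp (c1 * s)⌋₊ : ℝ) := by
    have := Nat.lt_floor_add_one (Real.exp (c1 * s))
    linarith only [this, s10]
  have hfu : (⌊Real.exp (c1 * s)⌋₊ : ℝ) ≤ Real.exp (c1 * s) := Nat.floor_le (Real.exp_pos _).le
  have hl2 := Real.log_two_lt_d9
  have hepos := Real.exp_pos (c1 * s)
  refine ⟨hg2, ?_, ?_, ?_, ?_, ?_, ?_, ?_, ?_⟩
  · apply Nat.le_floor
    linarith only [hsqn, s11]
  · have := Real.log_le_log (by positivity) hfl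
    rw [Real.log_div hepos.ne' (by norm_num), Real.log_exp] at this
    linarith only [this, s1, hl2]
  · have := Real.log_le_log (by linarith only [hfl, hepos])
      (mul_le_mul_of_nonneg_left hfu (by norm_num : (0 : ℝ) ≤ 2))
    rw [Real.log_mul (by norm_num) hepos.ne', Real.log_exp] at this
    linarith only [this, s2, hl2]
  · intro M E hM1 hM hE1 hE
    have hEs := siz η s d g E (by omega) hgs s0 hη0 hd4 s16 s15 hE
    have hM1' : (1 : ℝ) ≤ (M : ℝ) := by exact_mod_cast hM1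
    have hMs : (M : ℝ) ≤ Real.exp (1 / 10 * η * s) :=
      (Real.log_le_iff_le_exp (by linarith)).1 (hM.trans hτ3)
    refine quot c1 η s (2 * Real.exp (1 / 10 * η * s)) g M E _ hgs (by linarith) hE1 hEs hfl
      ?_ ?_ ?_
    · have e1 : Real.exp (c1 * s) =
          Real.exp (1 / 2 * η * s) * (Real.exp (1 / 10 * η * s) * Real.exp ((c1 - 3 / 5 * η) * s)) := by
        rw [← Real.exp_add, ← Real.exp_add]
        congr 1
        ring
      have e2 := mul_le_mul_of_nonneg_right s3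
        (mul_pos (Real.exp_pos (1 / 10 * η * s)) (Real.exp_pos ((c1 - 3 / 5 * η) * s))).le
      rw [e1]
      linarith only [e2]
    · have e1 : Real.exp (c1 * s) =
          Real.exp ((c1 - 3 / 2 * η) * s) * (Real.exp (1 / 10 * η * s) *
            Real.exp (7 / 5 * (η * s))) := by
        rw [← Real.exp_add, ← Real.exp_add]
        congr 1
        ring
      have e2 := mul_le_mul_of_nonneg_right s5
        (mul_pos (Real.exp_pos (1 / 10 * η * s)) (Real.exp_pos (7 / 5 * (η * s)))).le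
      rw [e1]
      linarith only [e2]
    · have e1 : Real.exp (c1 * s) =
          Real.exp ((c1 - 1 / 10 * η) * s) * Real.exp (1 / 10 * η * s) := by
        rw [← Real.exp_add]
        congr 1
        ring
      have e2 := mul_le_mul_of_nonneg_right s7 (Real.exp_pos (1 / 10 * η * s)).le
      rw [e1]
      linarith only [e2]
  · intro x hx1 hx
    have hx0 : 0 < x := by linarith
    have e1 : Real.log x ≤ L / 2 := by
      have := Real.log_le_log hx0 (hx.trans hτ1)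
      linarith only [this, hLs]
    have e2 : x * (1 + Real.log x) ≤ τ * L := by
      have e3 : 1 + Real.log x ≤ L := by linarith only [e1, s17]
      have e4 : 0 ≤ 1 + Real.log x := by
        have := Real.log_nonneg hx1
        linarith only [this]
      exact mul_le_mul hx e3 e4 (by linarith only [hx, hx1])
    have e5 := mul_le_mul_of_nonneg_left e2 hK1p.le
    have e6 : K1 * (τ * L) = s / 4 := by rw [← mul_assoc, hτL]
    have e7 : 1 / 4 * s ≤ (c1 - 2 * η) * s :=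
      mul_le_mul_of_nonneg_right (by linarith only [hc0, h1a, hη1]) hs0.le
    linarith only [e5, e6, e7]
  · have e2 : (1 + ε) * (C * (2 + τ)) ≤ (1 + ε) * (C * (2 * β * s)) :=
      mul_le_mul_of_nonneg_left (mul_le_mul_of_nonneg_left (by linarith only [hτ2, s14]) hC.le)
        (by linarith only [hε0])
    have e3 : (1 + ε) * (C * (2 * β * s)) = ε / (1 + ε) * (c0 * s) := by
      rw [← mul_assoc (ε / (1 + ε)), ← hβ1]
      ring
    linarith only [e2, e3]
  · have e2 : C * (2 + τ) ≤ C * (2 * β * s) :=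
      mul_le_mul_of_nonneg_left (by linarith only [hτ2, s14]) hC.le
    have e3 := mul_le_mul_of_nonneg_right hβ2 hs0.le
    linarith only [e2, e3]
  · intro x hx1 hx
    have hx0 : 0 < x := by linarith
    have hx6 : x ^ 6 ≤ s ^ 6 := pow_le_pow_left₀ hx0.le (hx.trans hτ1) 6
    have e1 : s ^ 3 ≤ 1 / (K1 * x ^ 6) / 16 * Real.exp (D * s) := by
      have e2 : s ^ 9 * (16 * K1) ≤ Real.exp (D * s) := by
        have := mul_le_mul_of_nonneg_right s9 (show 0 ≤ 16 * K1 by positivity)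
        have e3 : 1 / (16 * K1) * Real.exp (D * s) * (16 * K1) = Real.exp (D * s) := by
          field_simp
        linarith only [this, e3]
      have e4 : s ^ 3 * (16 * (K1 * x ^ 6)) ≤ s ^ 9 * (16 * K1) := by
        have e5 : s ^ 9 * (16 * K1) = s ^ 3 * (16 * (K1 * s ^ 6)) := by ring
        rw [e5]
        gcongr
      have e6 : 1 / (K1 * x ^ 6) / 16 * Real.exp (D * s) =
          Real.exp (D * s) / (16 * (K1 * x ^ 6)) := by
        field_simp
      rw [e6, le_div_iff₀ (by positivity)]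
      linarith only [e2, e4]
    have e7 := hfin (1 / (K1 * x ^ 6)) (by positivity) e1
    have e8 : 1 / (K1 * x ^ 6) * Real.exp ((c1 - 2 * η) * s) =
        Real.exp ((c1 - 2 * η) * s) / (K1 * x ^ 6) := by
      ring
    rw [e8] at e7
    exact e7

end Pool.Agent.Lib.SHD
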