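import Pool.Agent.Lib.SHD.All
import Pool.Agent.Lib.SHD.MEDB
import Pool.Agent.Lib.SHD.NMB
import Pool.Agent.Lib.SHD.WDB
import Pool.Agent.Lib.SHD.FNE

/-! MP_9a4459_nt, directory Lib/SHD (helper69, helper82): assembly for
`log (T k) = o(log k / log log k)`. -/

set_option autoImplicit false

namespace Pool.Agent.Lib.SHD

open Pool.Agent.Lib.MP_3ef1ab_nt Pool.Agent.Lib.SHG

theorem aWDB : WDBStmt :=
  tWDB tCB tVB aSUB (tMEDB Pool.Agent.Lib.SHK.aMrt Pool.Agent.Lib.SHK.aPrg tRT) mer tNMB tNM5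

end Pool.Agent.Lib.SHD
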