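import Pool.Agent.Lib.SHD.SpecE

/-! MP_9a4459_nt, directory Lib/SHD, module BLK: the blocks of `Q` by iterated square roots. -/

set_option autoImplicit false

namespace Pool.Agent.Lib.SHD

open Finset Filter Topology MeasureTheory
open Pool.Agent.Lib.MP_3ef1ab_nt Pool.Agent.Results.MP_9a4459_nt Pool.Agent.Lib.SHG
open Pool.Agent.Lib.SHR hiding ShanksLaw
open Pool.Agent.Lib.SHK (pr Vk nu mem_pr MedStmt PrgStmt MrtStmt)
open Pool.Agent.Lib.BV (thr lowS BnfStmt HlyStmt EsyStmt CttStmt LvlStmt MsbStmt)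
open scoped Classical

namespace BLKM

theorem zero (z : ℕ) : thr z 0 = z := rfl

theorem succ (z j : ℕ) : thr z (j + 1) = Nat.sqrt (thr z j) := rfl

theorem anti (z : ℕ) : Antitone (thr z) :=
  antitone_nat_of_succ_le (fun j => by rw [succ]; exact Nat.sqrt_le_self _)

theorem mem (Q : Finset ℕ) (w j p : ℕ) :
    p ∈ blk Q w j ↔ p ∈ Q ∧ (thr w (j + 1) < p ∧ p ≤ thr w j) := by
  unfold blk
  rw [Finset.mem_filter]

theorem disj_lt (Q : Finset ℕ) (w i j : ℕ) (h : i < j) : Disjoint (blk Q w i) (blk Q w j) := by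
  rw [Finset.disjoint_left]
  intro p h1 h2
  rw [mem] at h1 h2
  have h3 : thr w j ≤ thr w (i + 1) := anti w (by omega)
  omega

theorem disj (Q : Finset ℕ) (w i j : ℕ) (h : i ≠ j) : Disjoint (blk Q w i) (blk Q w j) := by
  rcases Nat.lt_or_gt_of_ne h with h | h
  · exact disj_lt Q w i j h
  · exact (disj_lt Q w j i h).symm

theorem dec (z : ℕ) : ∀ j, thr z j + j ≤ z ∨ thr z j ≤ 1 := by
  intro j
  induction j with
  | zero => left; rw [zero]; omega
  | succ j ih =>
    rw [succ]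
    rcases ih with h | h
    · by_cases h2 : thr z j ≤ 1
      · right; exact le_trans (Nat.sqrt_le_self _) h2
      · left
        have := Nat.sqrt_lt_self (n := thr z j) (by omega)
        omega
    · right; exact le_trans (Nat.sqrt_le_self _) h

theorem last (z : ℕ) : thr z z ≤ 1 := by
  rcases dec z z with h | h
  · omega
  · exact h

theorem cover (z p : ℕ) (hp : 2 ≤ p) (hpz : p ≤ z) :
    ∃ j < z, thr z (j + 1) < p ∧ p ≤ thr z j := by
  have hex : ∃ j, thr z (j + 1) < p := by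
    refine ⟨z - 1, ?_⟩
    rw [show z - 1 + 1 = z by omega]
    have := last z
    omega
  refine ⟨Nat.find hex, ?_, Nat.find_spec hex, ?_⟩
  · have : Nat.find hex ≤ z - 1 := by
      apply Nat.find_min'
      rw [show z - 1 + 1 = z by omega]
      have := last z
      omega
    omega
  · rcases h : Nat.find hex with _ | k
    · rw [zero]; exact hpz
    · have := Nat.find_min hex (m := k) (by omega)
      omega

theorem prodEq (Q : Finset ℕ) (w : ℕ) (hQ : ∀ p ∈ Q, 2 ≤ p ∧ p ≤ w) (f : ℕ → ℝ) :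
    ∏ j ∈ range w, ∏ p ∈ blk Q w j, f p = ∏ p ∈ Q, f p := by
  rw [← Finset.prod_biUnion (fun i _ j _ h => disj Q w i j h)]
  refine Finset.prod_congr ?_ (fun _ _ => rfl)
  ext p
  rw [Finset.mem_biUnion]
  constructor
  · rintro ⟨j, -, hp⟩
    rw [mem] at hp
    exact hp.1
  · intro hp
    obtain ⟨h1, h2⟩ := hQ p hp
    obtain ⟨j, hj, h5⟩ := cover w p h1 h2
    exact ⟨j, Finset.mem_range.2 hj, (mem Q w j p).2 ⟨hp, h5⟩⟩

theorem pos (z : ℕ) (hz : 1 ≤ z) : ∀ j, 1 ≤ thr z j := by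
  intro j
  induction j with
  | zero => exact hz
  | succ j ih => rw [succ]; exact Nat.sqrt_pos.2 ih

theorem cardLe (Q : Finset ℕ) (w j : ℕ) (hw : 1 ≤ w) (hQ : ∀ p ∈ Q, 2 ≤ p ∧ p ≤ w) :
    (blk Q w j).card + 1 ≤ thr w j := by
  have h1 : blk Q w j ⊆ Icc 2 (thr w j) := by
    intro p hp
    rw [mem] at hp
    rw [Finset.mem_Icc]
    exact ⟨(hQ p hp.1).1, hp.2.2⟩
  have h2 := Finset.card_le_card h1
  rw [Nat.card_Icc] at h2
  have h3 := pos w hw j
  omega

end BLKM

theorem tBLK : S_BLK := by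
  intro Q w hw hQ
  exact ⟨fun i j h => BLKM.disj Q w i j h, fun f => BLKM.prodEq Q w hQ f,
    fun j => BLKM.cardLe Q w j hw hQ, fun j => BLKM.pos w hw j⟩

end Pool.Agent.Lib.SHD
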