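import Pool.Agent.Lib.SHD.SpecE

/-! MP_9a4459_nt, directory Lib/SHD, module FLE: the fundamental lemma, dimension at most 3. -/

set_option autoImplicit false

namespace Pool.Agent.Lib.SHD

open Finset Filter Topology MeasureTheory
open Pool.Agent.Lib.MP_3ef1ab_nt Pool.Agent.Results.MP_9a4459_nt Pool.Agent.Lib.SHG
open Pool.Agent.Lib.SHR hiding ShanksLaw
open Pool.Agent.Lib.SHK (pr Vk nu mem_pr MedStmt PrgStmt MrtStmt)
open Pool.Agent.Lib.BV (thr lowS BnfStmt HlyStmt EsyStmt CttStmt LvlStmt MsbStmt)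
open scoped Classical

namespace FLEM

/-- the truncated sum of block `j` at `t` -/
noncomputable def yt (Q : Finset ℕ) (Om : ℕ → Finset ℕ) (w b j t : ℕ) : ℝ :=
  ∑ s ∈ lowS (blk Q w j) (2 * (b + j)), (-1 : ℝ) ^ s.card * ∏ p ∈ s, hit Om p t

/-- the error term of block `j` at `t` -/
noncomputable def wt (Q : Finset ℕ) (Om : ℕ → Finset ℕ) (w b j t : ℕ) : ℝ :=
  ∑ s ∈ (blk Q w j).powersetCard (2 * (b + j) + 1), ∏ p ∈ s, hit Om p t

theorem hit_mem (Om : ℕ → Finset ℕ) (p t : ℕ) : 0 ≤ hit Om p t ∧ hit Om p t ≤ 1 := by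
  unfold hit
  split_ifs <;> norm_num

/-- the pointwise inequality -/
theorem pointwise (h1 : BnfStmt) (h2 : HlyStmt) (Q : Finset ℕ) (Om : ℕ → Finset ℕ) (w b t : ℕ)
    (hX : ∏ j ∈ range w, ∏ p ∈ blk Q w j, (1 - hit Om p t) = ∏ p ∈ Q, (1 - hit Om p t)) :
    ∏ p ∈ Q, (1 - hit Om p t) ≤ ∏ j ∈ range w, yt Q Om w b j t ∧
    ∏ j ∈ range w, yt Q Om w b j t ≤ ∏ p ∈ Q, (1 - hit Om p t) +
      ∑ i ∈ range w, wt Q Om w b i t * ∏ j ∈ (range w).erase i, yt Q Om w b j t := by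
  have h := h2 w (fun j => ∏ p ∈ blk Q w j, (1 - hit Om p t)) (fun j => yt Q Om w b j t)
    (fun j => wt Q Om w b j t) (fun j _ => by
      have h3 := h1 (b + j) (blk Q w j) (fun p => hit Om p t) (fun p _ => hit_mem Om p t)
      refine ⟨?_, h3.1, h3.2⟩
      apply Finset.prod_nonneg
      intro p _
      have := (hit_mem Om p t).2
      linarith)
  rw [hX] at h
  exact h

/-- the product over `Q` is the indicator -/
theorem indic (Q : Finset ℕ) (Om : ℕ → Finset ℕ) (t : ℕ) :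
    (∀ p ∈ Q, t % p ∉ Om p) → ∏ p ∈ Q, (1 - hit Om p t) = 1 := by
  intro h
  refine Finset.prod_eq_one fun p hp => ?_
  unfold hit
  rw [if_neg (h p hp), sub_zero]

theorem indic0 (Q : Finset ℕ) (Om : ℕ → Finset ℕ) (t : ℕ) :
    (¬ ∀ p ∈ Q, t % p ∉ Om p) → ∏ p ∈ Q, (1 - hit Om p t) = 0 := by
  intro h
  push Not at h
  obtain ⟨p, hp, hpt⟩ := h
  refine Finset.prod_eq_zero hp ?_
  unfold hit
  rw [if_pos hpt, sub_self]

/-- bound for the error sum of one block -/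
theorem blockbound (Q : Finset ℕ) (Om : ℕ → Finset ℕ) (w j r : ℕ) (T : Finset (Finset ℕ))
    (c : Finset ℕ → ℝ) (hQ : ∀ p ∈ Q, 100 ≤ p ∧ (Om p).card ≤ 3) (hthr : 1 ≤ thr w j)
    (hT : ∀ s ∈ T, s ⊆ blk Q w j ∧ s.card ≤ r) (hc : ∀ s ∈ T, |c s| ≤ 1)
    (hcard : (T.card : ℝ) ≤ (thr w j : ℝ) ^ r) :
    ∑ s ∈ T, |c s| * ∏ p ∈ s, ((Om p).card : ℝ) ≤ ((thr w j : ℝ) ^ r) ^ 2 := by
  have ht1 : (1 : ℝ) ≤ (thr w j : ℝ) := by exact_mod_cast hthr
  have hone : ∀ s ∈ T, ∏ p ∈ s, ((Om p).card : ℝ) ≤ (thr w j : ℝ) ^ r := by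
    intro s hs
    obtain ⟨hsb, hsr⟩ := hT s hs
    by_cases he : (blk Q w j).Nonempty
    · obtain ⟨q, hq⟩ := he
      have hq2 := Finset.mem_filter.1 hq
      have h100 : 100 ≤ thr w j := (hQ q hq2.1).1.trans hq2.2.2
      have h3 : (3 : ℝ) ≤ (thr w j : ℝ) := by
        have : 3 ≤ thr w j := by omega
        exact_mod_cast this
      calc ∏ p ∈ s, ((Om p).card : ℝ) ≤ ∏ _p ∈ s, (3 : ℝ) := by
            refine Finset.prod_le_prod (fun p _ => by positivity) (fun p hp => ?_)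
            have h4 := (hQ p (Finset.mem_filter.1 (hsb hp)).1).2
            exact_mod_cast h4
        _ = 3 ^ s.card := Finset.prod_const _
        _ ≤ 3 ^ r := pow_le_pow_right₀ (by norm_num) hsr
        _ ≤ (thr w j : ℝ) ^ r := pow_le_pow_left₀ (by norm_num) h3 r
    · rw [Finset.not_nonempty_iff_eq_empty] at he
      rw [he] at hsb
      have hs0 : s = ∅ := Finset.subset_empty.1 hsb
      rw [hs0, Finset.prod_empty]
      exact one_le_pow₀ ht1
  calc ∑ s ∈ T, |c s| * ∏ p ∈ s, ((Om p).card : ℝ) ≤ ∑ _s ∈ T, (thr w j : ℝ) ^ r := by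
        refine Finset.sum_le_sum fun s hs => ?_
        have h5 : 0 ≤ ∏ p ∈ s, ((Om p).card : ℝ) := Finset.prod_nonneg fun p _ => by positivity
        calc |c s| * ∏ p ∈ s, ((Om p).card : ℝ) ≤ 1 * ∏ p ∈ s, ((Om p).card : ℝ) :=
              mul_le_mul_of_nonneg_right (hc s hs) h5
          _ = ∏ p ∈ s, ((Om p).card : ℝ) := one_mul _
          _ ≤ _ := hone s hs
    _ = (T.card : ℝ) * (thr w j : ℝ) ^ r := by rw [Finset.sum_const, nsmul_eq_mul]
    _ ≤ (thr w j : ℝ) ^ r * (thr w j : ℝ) ^ r :=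
        mul_le_mul_of_nonneg_right hcard (by positivity)
    _ = ((thr w j : ℝ) ^ r) ^ 2 := by ring

theorem lowS_bd (S : Finset ℕ) (r : ℕ) (s : Finset ℕ) (hs : s ∈ lowS S r) :
    s ⊆ S ∧ s.card ≤ r := by
  unfold lowS at hs
  rw [Finset.mem_filter, Finset.mem_powerset] at hs
  exact hs

/-- the product of the block bounds -/
theorem prodbound (h4 : LvlStmt) (w b : ℕ) (hw : 1 ≤ w) (f : ℕ → ℝ)
    (hf0 : ∀ j ∈ range w, 0 ≤ f j)
    (hf : ∀ j ∈ range w, f j ≤ ((thr w j : ℝ) ^ (2 * (b + j) + 1)) ^ 2) :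
    ∏ j ∈ range w, f j ≤ (w : ℝ) ^ (8 * b + 12) := by
  calc ∏ j ∈ range w, f j ≤ ∏ j ∈ range w, ((thr w j : ℝ) ^ (2 * (b + j) + 1)) ^ 2 :=
        Finset.prod_le_prod hf0 hf
    _ = (∏ j ∈ range w, (thr w j : ℝ) ^ (2 * (b + j) + 1)) ^ 2 := by rw [Finset.prod_pow]
    _ ≤ ((w : ℝ) ^ (4 * b + 6)) ^ 2 :=
        pow_le_pow_left₀ (Finset.prod_nonneg fun j _ => by positivity) (h4 w b hw) 2
    _ = (w : ℝ) ^ (8 * b + 12) := by rw [← pow_mul]; congr 1; ring

end FLEM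

theorem tFLE (h1 : BnfStmt) (h2 : HlyStmt) (h3 : CttStmt) (h4 : LvlStmt) (h5 : S_BLK)
    (h6 : S_LIN) (h7 : MNEStmt) : FLEStmt := by
  obtain ⟨C, hC, h7⟩ := h7
  refine ⟨2 * C, by positivity, ?_⟩
  intro w b N Q Om hw hb hQ
  have hw1 : 1 ≤ w := by omega
  obtain ⟨hdis, hprod, hcard, hthr⟩ := h5 Q w hw1 (fun p hp => by
    have := hQ p hp
    exact ⟨by omega, this.2.2.1⟩)
  set x : ℕ → ℝ := fun p => ((Om p).card : ℝ) / p with hx
  obtain ⟨hY0, hY1, hY2⟩ := h7 Q x w b hw (fun p hp => by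
    obtain ⟨k1, k2, k3, k4, k5⟩ := hQ p hp
    refine ⟨k1, k2, k3, by positivity, ?_⟩
    have h8 : ((Om p).card : ℝ) ≤ 3 := by exact_mod_cast k5
    have h9 : (0 : ℝ) < p := by exact_mod_cast k1.pos
    exact div_le_div_of_nonneg_right h8 h9.le)
  have hQ2 : ∀ p ∈ Q, 100 ≤ p ∧ (Om p).card ≤ 3 := fun p hp =>
    ⟨(hQ p hp).2.1, (hQ p hp).2.2.2.2⟩
  have hB1 : ∀ i ∈ range w, ∀ p ∈ blk Q w i, p.Prime ∧ Om p ⊆ range p := by
    intro i _ p hp
    have hpQ := (Finset.mem_filter.1 hp).1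
    exact ⟨(hQ p hpQ).1, (hQ p hpQ).2.2.2.1⟩
  have hB2 : ∀ i ∈ range w, ∀ j ∈ range w, i ≠ j → Disjoint (blk Q w i) (blk Q w j) :=
    fun i _ j _ hij => hdis i j hij
  -- cardinalities
  have hlow : ∀ j : ℕ, ((lowS (blk Q w j) (2 * (b + j))).card : ℝ) ≤
      (thr w j : ℝ) ^ (2 * (b + j) + 1) := by
    intro j
    have ht1 : (1 : ℝ) ≤ (thr w j : ℝ) := by exact_mod_cast hthr j
    exact ((h3 (blk Q w j) (thr w j) (2 * (b + j)) (hcard j)).1).trans
      (pow_le_pow_right₀ ht1 (Nat.le_succ _))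
  have hpow : ∀ j : ℕ, (((blk Q w j).powersetCard (2 * (b + j) + 1)).card : ℝ) ≤
      (thr w j : ℝ) ^ (2 * (b + j) + 1) := fun j =>
    (h3 (blk Q w j) (thr w j) (2 * (b + j) + 1) (hcard j)).2
  -- the sum Y
  have hYs : |∑ t ∈ range N, ∏ j ∈ range w, FLEM.yt Q Om w b j t -
      (N : ℝ) * ∏ j ∈ range w, Ye Q x w b j| ≤ (w : ℝ) ^ (8 * b + 12) := by
    have h8 := h6 w (fun j => blk Q w j) (fun j => lowS (blk Q w j) (2 * (b + j)))
      (fun _ s => (-1 : ℝ) ^ s.card) Om N hB1 hB2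
      (fun i _ s hs => (FLEM.lowS_bd _ _ s hs).1)
    refine h8.trans ?_
    refine FLEM.prodbound h4 w b hw1 _ (fun j _ => ?_) (fun j _ => ?_)
    · exact Finset.sum_nonneg fun s _ => mul_nonneg (abs_nonneg _)
        (Finset.prod_nonneg fun p _ => by positivity)
    · refine FLEM.blockbound Q Om w j (2 * (b + j) + 1) _ _ hQ2 (hthr j) (fun s hs => ?_)
        (fun s _ => ?_) (hlow j)
      · have h9 := FLEM.lowS_bd _ _ s hs
        exact ⟨h9.1, h9.2.trans (Nat.le_succ _)⟩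
      · rw [abs_pow, abs_neg, abs_one, one_pow]
  -- the sums E_i
  have hEs : ∀ i ∈ range w, |∑ t ∈ range N, FLEM.wt Q Om w b i t *
      ∏ j ∈ (range w).erase i, FLEM.yt Q Om w b j t -
      (N : ℝ) * (Ue Q x w b i * ∏ j ∈ (range w).erase i, Ye Q x w b j)| ≤
        (w : ℝ) ^ (8 * b + 12) := by
    intro i hi
    have h8 := h6 w (fun j => blk Q w j)
      (fun j => if j = i then (blk Q w j).powersetCard (2 * (b + j) + 1) else
        lowS (blk Q w j) (2 * (b + j)))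
      (fun j s => if j = i then (1 : ℝ) else (-1 : ℝ) ^ s.card) Om N hB1 hB2
      (fun j _ s hs => by
        by_cases hji : j = i
        · simp only [if_pos hji] at hs
          exact (Finset.mem_powersetCard.1 hs).1
        · simp only [if_neg hji] at hs
          exact (FLEM.lowS_bd _ _ s hs).1)
    have e1 : ∀ t : ℕ, FLEM.wt Q Om w b i t * ∏ j ∈ (range w).erase i, FLEM.yt Q Om w b j t =
        ∏ j ∈ range w, ∑ s ∈ (if j = i then (blk Q w j).powersetCard (2 * (b + j) + 1) else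
          lowS (blk Q w j) (2 * (b + j))), (if j = i then (1 : ℝ) else (-1 : ℝ) ^ s.card) *
            ∏ p ∈ s, hit Om p t := by
      intro t
      rw [← Finset.mul_prod_erase (range w) _ hi]
      congr 1
      · unfold FLEM.wt
        rw [if_pos rfl]
        exact Finset.sum_congr rfl fun s _ => by rw [if_pos rfl, one_mul]
      · refine Finset.prod_congr rfl fun j hj => ?_
        have hji := Finset.ne_of_mem_erase hj
        unfold FLEM.yt
        rw [if_neg hji]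
        exact Finset.sum_congr rfl fun s _ => by rw [if_neg hji]
    have e2 : Ue Q x w b i * ∏ j ∈ (range w).erase i, Ye Q x w b j =
        ∏ j ∈ range w, ∑ s ∈ (if j = i then (blk Q w j).powersetCard (2 * (b + j) + 1) else
          lowS (blk Q w j) (2 * (b + j))), (if j = i then (1 : ℝ) else (-1 : ℝ) ^ s.card) *
            ∏ p ∈ s, (((Om p).card : ℝ) / p) := by
      rw [← Finset.mul_prod_erase (range w) _ hi]
      congr 1
      · unfold Ue
        rw [if_pos rfl]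
        exact Finset.sum_congr rfl fun s _ => by rw [if_pos rfl, one_mul]
      · refine Finset.prod_congr rfl fun j hj => ?_
        have hji := Finset.ne_of_mem_erase hj
        unfold Ye
        rw [if_neg hji]
        exact Finset.sum_congr rfl fun s _ => by rw [if_neg hji]
    rw [Finset.sum_congr rfl (fun t _ => e1 t), e2]
    refine h8.trans ?_
    refine FLEM.prodbound h4 w b hw1 _ (fun j _ => ?_) (fun j _ => ?_)
    · exact Finset.sum_nonneg fun s _ => mul_nonneg (abs_nonneg _)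
        (Finset.prod_nonneg fun p _ => by positivity)
    · refine FLEM.blockbound Q Om w j (2 * (b + j) + 1) _
        (fun s => if j = i then (1 : ℝ) else (-1 : ℝ) ^ s.card) hQ2 (hthr j) (fun s hs => ?_)
        (fun s _ => ?_) ?_
      · by_cases hji : j = i
        · rw [if_pos hji] at hs
          have h9 := Finset.mem_powersetCard.1 hs
          exact ⟨h9.1, h9.2.le⟩
        · rw [if_neg hji] at hs
          have h9 := FLEM.lowS_bd _ _ s hs
          exact ⟨h9.1, h9.2.trans (Nat.le_succ _)⟩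
      · by_cases hji : j = i
        · simp only [if_pos hji, abs_one, le_refl]
        · simp only [if_neg hji, abs_pow, abs_neg, abs_one, one_pow, le_refl]
      · by_cases hji : j = i
        · rw [if_pos hji]; exact hpow j
        · rw [if_neg hji]; exact hlow j
  -- the pointwise inequality, summed
  have hpt : ∀ t : ℕ, ∏ p ∈ Q, (1 - hit Om p t) ≤ ∏ j ∈ range w, FLEM.yt Q Om w b j t ∧
      ∏ j ∈ range w, FLEM.yt Q Om w b j t ≤ ∏ p ∈ Q, (1 - hit Om p t) +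
        ∑ i ∈ range w, FLEM.wt Q Om w b i t * ∏ j ∈ (range w).erase i, FLEM.yt Q Om w b j t :=
    fun t => FLEM.pointwise h1 h2 Q Om w b t (hprod fun p => 1 - hit Om p t)
  have hS : (((range N).filter (fun t => ∀ p ∈ Q, t % p ∉ Om p)).card : ℝ) =
      ∑ t ∈ range N, ∏ p ∈ Q, (1 - hit Om p t) := by
    rw [Finset.card_filter]
    push_cast
    refine Finset.sum_congr rfl fun t _ => ?_
    by_cases h : ∀ p ∈ Q, t % p ∉ Om p
    · rw [if_pos h, FLEM.indic Q Om t h]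
    · rw [if_neg h, FLEM.indic0 Q Om t h]
  have hup : ∑ t ∈ range N, ∏ p ∈ Q, (1 - hit Om p t) ≤
      ∑ t ∈ range N, ∏ j ∈ range w, FLEM.yt Q Om w b j t :=
    Finset.sum_le_sum fun t _ => (hpt t).1
  have hlo : ∑ t ∈ range N, ∏ j ∈ range w, FLEM.yt Q Om w b j t ≤
      ∑ t ∈ range N, ∏ p ∈ Q, (1 - hit Om p t) + ∑ i ∈ range w, ∑ t ∈ range N,
        FLEM.wt Q Om w b i t * ∏ j ∈ (range w).erase i, FLEM.yt Q Om w b j t := by
    rw [Finset.sum_comm (s := range w), ← Finset.sum_add_distrib]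
    exact Finset.sum_le_sum fun t _ => (hpt t).2
  have hEsum : ∑ i ∈ range w, ∑ t ∈ range N,
      FLEM.wt Q Om w b i t * ∏ j ∈ (range w).erase i, FLEM.yt Q Om w b j t ≤
      (N : ℝ) * (C * Real.exp (-(b : ℝ)) * ∏ p ∈ Q, (1 - x p)) +
        (w : ℝ) * (w : ℝ) ^ (8 * b + 12) := by
    calc _ ≤ ∑ i ∈ range w, ((N : ℝ) * (Ue Q x w b i * ∏ j ∈ (range w).erase i, Ye Q x w b j) +
          (w : ℝ) ^ (8 * b + 12)) := by
          refine Finset.sum_le_sum fun i hi => ?_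
          have := (abs_le.1 (hEs i hi)).2
          linarith
      _ = (N : ℝ) * (∑ i ∈ range w, Ue Q x w b i * ∏ j ∈ (range w).erase i, Ye Q x w b j) +
          (w : ℝ) * (w : ℝ) ^ (8 * b + 12) := by
          rw [Finset.sum_add_distrib, ← Finset.mul_sum, Finset.sum_const, Finset.card_range,
            nsmul_eq_mul]
      _ ≤ _ := by
          have := mul_le_mul_of_nonneg_left hY2 (Nat.cast_nonneg N : (0 : ℝ) ≤ N)
          linarith
  have hNY : |(N : ℝ) * ∏ j ∈ range w, Ye Q x w b j - (N : ℝ) * ∏ p ∈ Q, (1 - x p)| ≤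
      (N : ℝ) * (C * Real.exp (-(b : ℝ)) * ∏ p ∈ Q, (1 - x p)) := by
    rw [← mul_sub, abs_mul, abs_of_nonneg (Nat.cast_nonneg N : (0 : ℝ) ≤ N)]
    exact mul_le_mul_of_nonneg_left hY1 (Nat.cast_nonneg N)
  have hw2 : (2 : ℝ) ≤ w := by exact_mod_cast hw
  have herr : ((w : ℝ) + 1) * (w : ℝ) ^ (8 * b + 12) ≤ (w : ℝ) ^ (32 * b) := by
    calc ((w : ℝ) + 1) * (w : ℝ) ^ (8 * b + 12) ≤ (w : ℝ) ^ 2 * (w : ℝ) ^ (8 * b + 12) :=
          mul_le_mul_of_nonneg_right (by nlinarith) (by positivity)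
      _ = (w : ℝ) ^ (8 * b + 14) := by rw [← pow_add]; congr 1; ring
      _ ≤ (w : ℝ) ^ (32 * b) := pow_le_pow_right₀ (by linarith) (by omega)
  have hpos : 0 ≤ (w : ℝ) * (w : ℝ) ^ (8 * b + 12) := by positivity
  have hX0 : 0 ≤ (N : ℝ) * (C * Real.exp (-(b : ℝ)) * ∏ p ∈ Q, (1 - x p)) :=
    (abs_nonneg _).trans hNY
  obtain ⟨a1, a2⟩ := abs_le.1 hYs
  obtain ⟨b1, b2⟩ := abs_le.1 hNY
  rw [hS, abs_le]
  have e3 : 2 * C * Real.exp (-(b : ℝ)) * ((N : ℝ) * ∏ p ∈ Q, (1 - x p)) =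
      2 * ((N : ℝ) * (C * Real.exp (-(b : ℝ)) * ∏ p ∈ Q, (1 - x p))) := by ring
  have e4 : ((w : ℝ) + 1) * (w : ℝ) ^ (8 * b + 12) =
      (w : ℝ) * (w : ℝ) ^ (8 * b + 12) + (w : ℝ) ^ (8 * b + 12) := by ring
  rw [e4] at herr
  constructor
  · show -(2 * C * Real.exp (-(b : ℝ)) * ((N : ℝ) * ∏ p ∈ Q, (1 - x p)) + (w : ℝ) ^ (32 * b)) ≤
      ∑ t ∈ range N, ∏ p ∈ Q, (1 - hit Om p t) - (N : ℝ) * ∏ p ∈ Q, (1 - x p)
    rw [e3]
    linarith
  · show ∑ t ∈ range N, ∏ p ∈ Q, (1 - hit Om p t) - (N : ℝ) * ∏ p ∈ Q, (1 - x p) ≤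
      2 * C * Real.exp (-(b : ℝ)) * ((N : ℝ) * ∏ p ∈ Q, (1 - x p)) + (w : ℝ) ^ (32 * b)
    rw [e3]
    linarith

end Pool.Agent.Lib.SHD
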