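import Pool.Agent.Lib.SHD.SpecE
import Pool.Agent.Lib.SHD.FNDA
import Pool.Agent.Lib.SHD.FNDB
import Pool.Agent.Lib.SHG.NV

/-! MP_9a4459_nt, Lib/SHD, module FNF (helper82, helper69, from FNE, FNDA, FNDB, NV): the
last steps for `Sub T`. -/

set_option autoImplicit false

namespace Pool.Agent.Lib.SHD

open Finset Filter Topology MeasureTheory
open Pool.Agent.Lib.MP_3ef1ab_nt Pool.Agent.Results.MP_9a4459_nt Pool.Agent.Lib.SHG
open Pool.Agent.Lib.SHR hiding ShanksLaw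
open Pool.Agent.Lib.SHK (pr Vk nu mem_pr MedStmt PrgStmt MrtStmt)
open scoped Classical

open FNDAM in
theorem tFNFA.{u} (h1 : S_MDL.{u}) (h2 : S_UP2.{u}) (h3 : WDCStmt) :
    ∀ (Ω : Type u) (m0 : MeasurableSpace Ω) (P : Measure Ω)
    [IsProbabilityMeasure P] (ℱ : Filtration ℕ m0) (A : ℕ → Set Ω) (T : ℕ → ℕ), CGModel P ℱ A T →
    Sub T → ¬ Slow T → ∀ᵐ ω ∂P, ¬ ShanksLaw (fun k => ω ∈ A k) := by
  intro Ω m0 P _ ℱ A T hA hB hS
  obtain ⟨δ, hδ, hf⟩ : ∃ δ : ℝ, 0 < δ ∧ ∃ᶠ k : ℕ in atTop, Real.log k ^ δ < (T k : ℝ) := by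
    unfold Slow at hS
    push Not at hS
    obtain ⟨δ, hδ, h⟩ := hS
    exact ⟨δ, hδ, h⟩
  obtain ⟨hm, hq⟩ := h1 Ω m0 P ℱ A T hA
  obtain ⟨d, hd⟩ : ∃ d : ℝ, d = min (δ / 4) (1 / 4) := ⟨_, rfl⟩
  have hd0 : 0 < d := by
    rw [hd]
    exact lt_min (by linarith) (by norm_num)
  have hd1 : d ≤ 1 / 4 := by
    rw [hd]
    exact min_le_right _ _
  have hd2 : 4 * d ≤ δ := by
    have : d ≤ δ / 4 := by
      rw [hd]
      exact min_le_left _ _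
    linarith
  obtain ⟨c, c1, ε, hc10, hc11, hc, hε0, hε1, hw⟩ := h3 T hA.mono hB d hd0 hd1
  have hfr := freq T hA.mono δ hf d hd0 hd2 c1 hc10
  have hup := h2 Ω m0 P ℱ (Xi A) (Qc P ℱ A) hm (rho T) ε c
    (fun g => Even g ∧ (g : ℝ) ^ d ≤ (T ⌊Real.exp (c1 * √(g : ℝ))⌋₊ : ℝ)) (rho_nonneg T) hε0 hε1
    (hq ε hε0) hw
  filter_upwards [hup] with ω hω
  intro hSh
  have hX : ∀ k, ω ∈ A k ↔ Xi A k ω = 1 := by
    intro k
    unfold Xi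
    by_cases h : ω ∈ A k
    · simp [h]
    · simp [h]
  have hX0 : ∀ k, Xi A k ω = 0 ↔ ω ∉ A k := by
    intro k
    rw [hX k]
    rcases Xi_01 A k ω with h | h <;> rw [h] <;> norm_num
  obtain ⟨G2, hG2⟩ := hSh ((1 - c) / 2) (by linarith)
  obtain ⟨g, hadm, hgap, hgG⟩ :=
    (hfr.and_eventually (hω.and (eventually_ge_atTop (max G2 1)))).exists
  obtain ⟨m, m1, m2, m3, m4⟩ := hgap hadm
  have hg1 : 1 ≤ g := (le_max_right _ _).trans hgG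
  have hm1 : Consec (fun k => ω ∈ A k) m (m + g) :=
    ⟨(hX m).2 m1, (hX _).2 m3, by omega, fun k a1 a2 => (hX0 k).1 (m2 k a1 a2)⟩
  obtain ⟨p, hp1, hp2, hp3⟩ := first _ m g hm1
  have h6 := hG2 g (p + g) ((le_max_left _ _).trans hgG) hp2.2.1 ⟨p, hp2.1, rfl, hp2.2.2.2⟩ hp3
  have hg0 : (0 : ℝ) < g := by exact_mod_cast hg1
  have hs : 0 < √(g : ℝ) := Real.sqrt_pos.2 hg0
  have hpg : (0 : ℝ) < ((p + g : ℕ) : ℝ) := by
    have : 0 < p + g := by omega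
    exact_mod_cast this
  have hle : ((p + g : ℕ) : ℝ) ≤ (m : ℝ) + g := by
    push_cast
    have : (p : ℝ) ≤ m := by exact_mod_cast hp1
    linarith
  have h7 : Real.log ((p + g : ℕ) : ℝ) ≤ c * √(g : ℝ) :=
    (Real.log_le_log hpg hle).trans m4
  have h8 : Real.log ((p + g : ℕ) : ℝ) / √(g : ℝ) ≤ c := by
    rw [div_le_iff₀ hs]
    exact h7
  have h9 := (abs_lt.1 h6).1
  linarith

theorem tFNFB.{u} (h1 : S_MDL.{u}) (h2 : S_UP2.{u}) (h3 : WDCStmt) : ∀ T : ℕ → ℕ, Monotone T →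
    Sub T → (∃ α : ℝ, 0 < α ∧ ∀ᶠ k : ℕ in atTop, Real.log k ^ α ≤ (T k : ℝ)) →
    ∃ c : ℝ, c < 1 ∧ ∀ (Ω : Type u) (m0 : MeasurableSpace Ω) (P : Measure Ω)
    [IsProbabilityMeasure P] (ℱ : Filtration ℕ m0) (A : ℕ → Set Ω), CGModel P ℱ A T →
    ∀ᵐ ω ∂P, ∃ G : ℕ, ∀ g : ℕ, G ≤ g → Even g →
      ∃ m : ℕ, Consec (fun k => ω ∈ A k) m (m + g) ∧ Real.log ((m : ℝ) + g) < c * √(g : ℝ) := by
  intro T hT hB hα
  obtain ⟨α, hα0, hα⟩ := hα
  obtain ⟨d, hd⟩ : ∃ d : ℝ, d = min (α / 4) (1 / 4) := ⟨_, rfl⟩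
  have hd0 : 0 < d := by
    rw [hd]
    exact lt_min (by linarith) (by norm_num)
  have hd1 : d ≤ 1 / 4 := by
    rw [hd]
    exact min_le_right _ _
  have hd2 : 4 * d ≤ α := by
    have : d ≤ α / 4 := by
      rw [hd]
      exact min_le_left _ _
    linarith
  obtain ⟨c, c1, ε, hc10, hc11, hc, hε0, hε1, hw⟩ := h3 T hT hB d hd0 hd1
  refine ⟨(c + 1) / 2, by linarith, fun Ω m0 P _ ℱ A hA => ?_⟩
  obtain ⟨hm, hq⟩ := h1 Ω m0 P ℱ A T hA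
  have hup := h2 Ω m0 P ℱ (Xi A) (Qc P ℱ A) hm (rho T) ε c
    (fun g => Even g ∧ (g : ℝ) ^ d ≤ (T ⌊Real.exp (c1 * √(g : ℝ))⌋₊ : ℝ)) (FNDAM.rho_nonneg T)
    hε0 hε1 (hq ε hε0) hw
  filter_upwards [hup] with ω hω
  have hX : ∀ k, ω ∈ A k ↔ Xi A k ω = 1 := by
    intro k
    unfold Xi
    by_cases h : ω ∈ A k
    · simp [h]
    · simp [h]
  have hX0 : ∀ k, Xi A k ω = 0 ↔ ω ∉ A k := by
    intro k
    rw [hX k]
    rcases Xi_01 A k ω with h | h <;> rw [h] <;> norm_num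
  obtain ⟨G, hG⟩ := eventually_atTop.1
    ((hω.and (FNDBM.adm T α hα0 hα d hd0 hd2 c1 hc10)).and (eventually_ge_atTop 1))
  refine ⟨G, fun g hg hev => ?_⟩
  obtain ⟨⟨u1, u2⟩, hg1⟩ := hG g hg
  obtain ⟨m, m1, m2, m3, m4⟩ := u1 ⟨hev, u2⟩
  refine ⟨m, ⟨(hX m).2 m1, (hX _).2 m3, by omega, fun k a1 a2 => (hX0 k).1 (m2 k a1 a2)⟩,
    lt_of_le_of_lt m4 ?_⟩
  have hs : 0 < √(g : ℝ) := Real.sqrt_pos.2 (by exact_mod_cast hg1)
  exact mul_lt_mul_of_pos_right (by linarith) hs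

theorem tNVF (h1 : S_VB) (h2 : MerStmt) : ∀ T : ℕ → ℕ, Monotone T → Sub T →
    ∃ (Ω : Type) (m0 : MeasurableSpace Ω) (P : Measure Ω) (ℱ : Filtration ℕ m0) (A : ℕ → Set Ω),
      IsProbabilityMeasure P ∧ CGModel P ℱ A T := by
  intro T hT hTM
  obtain ⟨-, C, hC, hV⟩ := h1 h2
  have hlog : Tendsto (fun k : ℕ => Real.log (k : ℝ)) atTop atTop :=
    Real.tendsto_log_atTop.comp tendsto_natCast_atTop_atTop
  have hsm : ∀ᶠ k : ℕ in atTop, (VV (T k))⁻¹ ≤ Real.log k := by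
    have hB := hTM (1 / (2 * C)) (by positivity)
    filter_upwards [hB, hlog.eventually_ge_atTop (4 * C)] with k h8 h5
    refine (hV (T k)).trans ?_
    have h9 : Real.log ((T k : ℝ) + 1) ≤ Real.log (T k : ℝ) + 1 := by
      rcases Nat.eq_zero_or_pos (T k) with h | h
      · rw [h]
        norm_num
      · have h10 : (1 : ℝ) ≤ (T k : ℝ) := by exact_mod_cast h
        have h11 : Real.log ((T k : ℝ) + 1) ≤ Real.log (2 * (T k : ℝ)) :=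
          Real.log_le_log (by linarith) (by linarith)
        rw [Real.log_mul (by norm_num) (by linarith)] at h11
        have := Real.log_two_lt_d9
        linarith
    have h12 : C * (1 / (2 * C) * Real.log k) = Real.log k / 2 := by
      field_simp
    have h13 : C * (1 + Real.log ((T k : ℝ) + 1)) ≤ C * (2 + 1 / (2 * C) * Real.log k) :=
      mul_le_mul_of_nonneg_left (by linarith) hC.le
    have h14 : C * (2 + 1 / (2 * C) * Real.log k) = 2 * C + Real.log k / 2 := by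
      rw [mul_add, h12]
      ring
    linarith
  let r : ℕ → ℝ := fun k =>
    if (VV (T k))⁻¹ ≤ Real.log k ∧ 2 ≤ k then (VV (T k))⁻¹ / Real.log k else 0
  have hr : ∀ k, 0 ≤ r k ∧ r k ≤ 1 := by
    intro k
    show 0 ≤ (if (VV (T k))⁻¹ ≤ Real.log k ∧ 2 ≤ k then (VV (T k))⁻¹ / Real.log k else 0) ∧
      (if (VV (T k))⁻¹ ≤ Real.log k ∧ 2 ≤ k then (VV (T k))⁻¹ / Real.log k else 0) ≤ 1
    split_ifs with h
    · have h3 : 0 < (VV (T k))⁻¹ := inv_pos.2 (VV_pos _)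
      have h4 : 0 < Real.log k := lt_of_lt_of_le h3 h.1
      exact ⟨(div_pos h3 h4).le, (div_le_one h4).2 h.1⟩
    · exact ⟨le_rfl, zero_le_one⟩
  obtain ⟨Ω, m0, P, ℱ, A, hP, hmeas, hfree, hcond⟩ :=
    NVM.model r (fun k => SieveFree (T k) k) hr
  refine ⟨Ω, m0, P, ℱ, A, hP, ⟨hT, hmeas, hfree, ?_⟩⟩
  have hae : ∀ᵐ ω ∂P, ∀ k : ℕ, SieveFree (T (k + 1)) (k + 1) →
      (P[(A (k + 1)).indicator (fun _ => (1 : ℝ)) | ℱ k]) ω = r (k + 1) := by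
    rw [ae_all_iff]
    intro k
    by_cases hk : SieveFree (T (k + 1)) (k + 1)
    · filter_upwards [hcond k hk] with ω hω _
      exact hω
    · exact Eventually.of_forall fun ω h => absurd h hk
  filter_upwards [hae] with ω hω
  intro ε hε
  have h3 : ∀ᶠ k : ℕ in atTop, (VV (T (k + 1)))⁻¹ ≤ Real.log ((k + 1 : ℕ) : ℝ) :=
    (tendsto_add_atTop_nat 1).eventually hsm
  filter_upwards [h3, eventually_ge_atTop 1] with k h4 h5 h6
  rw [hω k h6]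
  have h7 : r (k + 1) = (VV (T (k + 1)))⁻¹ / Real.log ((k + 1 : ℕ) : ℝ) :=
    if_pos ⟨h4, by omega⟩
  have h8 : 0 < VV (T (k + 1)) := VV_pos _
  have h9 : 0 < Real.log ((k + 1 : ℕ) : ℝ) := lt_of_lt_of_le (inv_pos.2 h8) h4
  have h10 : VV (T (k + 1)) * Real.log ((k + 1 : ℕ) : ℝ) * r (k + 1) = 1 := by
    rw [h7]
    field_simp
  show |VV (T (k + 1)) * Real.log ((k + 1 : ℕ) : ℝ) * r (k + 1) - 1| ≤ ε
  rw [h10, sub_self, abs_zero]
  exact hε.le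

end Pool.Agent.Lib.SHD
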