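import Pool.Agent.Lib.SHD.SpecE

/-! MP_9a4459_nt, Lib/SHD, module LIN: counting a product of linear forms. -/

set_option autoImplicit false

namespace Pool.Agent.Lib.SHD

open Finset Filter Topology MeasureTheory
open Pool.Agent.Lib.MP_3ef1ab_nt Pool.Agent.Results.MP_9a4459_nt Pool.Agent.Lib.SHG
open Pool.Agent.Lib.SHR hiding ShanksLaw
open Pool.Agent.Lib.SHK (pr Vk nu mem_pr MedStmt PrgStmt MrtStmt)
open Pool.Agent.Lib.BV (thr lowS BnfStmt HlyStmt EsyStmt CttStmt LvlStmt MsbStmt)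
open scoped Classical

namespace LINM

lemma lincrt {p m : ℕ} (hpm : p.Coprime m) (hp : 0 < p) (hm : 0 < m) (A B : Finset ℕ)
    (hA : A ⊆ range p) (hB : B ⊆ range m) :
    ((range (p * m)).filter (fun t => t % p ∈ A ∧ t % m ∈ B)).card = A.card * B.card := by
  rw [← card_product]
  refine card_bij' (fun t _ => (t % p, t % m))
    (fun w _ => (Nat.chineseRemainder hpm w.1 w.2 : ℕ)) ?_ ?_ ?_ ?_
  · intro t ht
    exact mem_product.2 (mem_filter.1 ht).2
  · intro w hw
    obtain ⟨h1, h2⟩ := mem_product.1 hw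
    obtain ⟨h3, h4⟩ := (Nat.chineseRemainder hpm w.1 w.2).2
    refine mem_filter.2 ⟨mem_range.2 (Nat.chineseRemainder_lt_mul hpm _ _ hp.ne' hm.ne'), ?_, ?_⟩
    · rw [h3.trans (Nat.ModEq.refl _) |> fun h => (show _ % p = _ % p from h),
        Nat.mod_eq_of_lt (mem_range.1 (hA h1))]
      exact h1
    · rw [(show _ % m = _ % m from h4), Nat.mod_eq_of_lt (mem_range.1 (hB h2))]
      exact h2
  · intro t ht
    have h1 := mem_range.1 (mem_filter.1 ht).1
    have h2 : t ≡ Nat.chineseRemainder hpm (t % p) (t % m) [MOD p * m] :=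
      Nat.chineseRemainder_modEq_unique hpm (Nat.mod_modEq t p).symm (Nat.mod_modEq t m).symm
    exact (Nat.ModEq.eq_of_lt_of_lt h2 h1
      (Nat.chineseRemainder_lt_mul hpm _ _ hp.ne' hm.ne')).symm
  · intro w hw
    obtain ⟨h1, h2⟩ := mem_product.1 hw
    obtain ⟨h3, h4⟩ := (Nat.chineseRemainder hpm w.1 w.2).2
    refine Prod.ext ?_ ?_
    · exact (show _ % p = _ % p from h3).trans (Nat.mod_eq_of_lt (mem_range.1 (hA h1)))
    · exact (show _ % m = _ % m from h4).trans (Nat.mod_eq_of_lt (mem_range.1 (hB h2)))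

/-- the classes modulo the product -/
noncomputable def linC (Om : ℕ → Finset ℕ) (D : Finset ℕ) : Finset ℕ :=
  (range (∏ p ∈ D, p)).filter (fun c => ∀ p ∈ D, c % p ∈ Om p)

lemma linCcard (Om : ℕ → Finset ℕ) (D : Finset ℕ)
    (hD : ∀ p ∈ D, p.Prime ∧ Om p ⊆ range p) : (linC Om D).card = ∏ p ∈ D, (Om p).card := by
  induction D using Finset.induction_on with
  | empty => simp [linC]
  | insert p D hp ih =>
    have hD' : ∀ q ∈ D, q.Prime ∧ Om q ⊆ range q := fun q hq => hD q (mem_insert_of_mem hq)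
    obtain ⟨hp1, hp2⟩ := hD p (mem_insert_self _ _)
    have hm : 0 < ∏ q ∈ D, q := prod_pos fun q hq => (hD' q hq).1.pos
    have hco : p.Coprime (∏ q ∈ D, q) := Nat.Coprime.prod_right fun q hq =>
      (Nat.coprime_primes hp1 (hD' q hq).1).2 fun h => hp (h ▸ hq)
    rw [prod_insert hp, ← ih hD', ← lincrt hco hp1.pos hm (Om p) (linC Om D) hp2
      (filter_subset _ _)]
    congr 1
    unfold linC
    rw [prod_insert hp]
    refine filter_congr fun c _ => ?_
    rw [forall_mem_insert, mem_filter, mem_range]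
    constructor
    · rintro ⟨h1, h2⟩
      refine ⟨h1, Nat.mod_lt _ hm, fun q hq => ?_⟩
      rw [Nat.mod_mod_of_dvd _ (dvd_prod_of_mem _ hq)]
      exact h2 q hq
    · rintro ⟨h1, -, h2⟩
      refine ⟨h1, fun q hq => ?_⟩
      have h3 := h2 q hq
      rwa [Nat.mod_mod_of_dvd _ (dvd_prod_of_mem _ hq)] at h3

/-- the number of t < N in a class -/
lemma linone (m c N : ℕ) (hm : 0 < m) (hc : c < m) :
    |(((range N).filter (fun t => t % m = c)).card : ℝ) - N / m| ≤ 1 := by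
  have h1 : ((range N).filter (fun t => t % m = c)).card =
      N / m + if c % m < N % m then 1 else 0 := by
    rw [← Nat.count_modEq_card N hm c, Nat.count_eq_card_filter_range]
    congr 1
    refine filter_congr fun t _ => ?_
    unfold Nat.ModEq
    rw [Nat.mod_eq_of_lt hc]
  rw [h1]
  have hmR : (0 : ℝ) < m := by exact_mod_cast hm
  have h2 : ((N / m : ℕ) : ℝ) ≤ (N : ℝ) / m := Nat.cast_div_le
  have h3 : (N : ℝ) / m < (N / m : ℕ) + 1 := by
    rw [div_lt_iff₀ hmR]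
    have h4 : N < (N / m + 1) * m := by
      have := Nat.lt_div_mul_add (a := N) hm
      rw [add_mul, one_mul]
      exact this
    exact_mod_cast h4
  push_cast
  rw [abs_le]
  split_ifs
  · constructor
    · linarith
    · linarith
  · constructor
    · linarith
    · linarith

/-- the number of t < N which lie in the given classes for all p in D -/
lemma linN (Om : ℕ → Finset ℕ) (D : Finset ℕ) (N : ℕ)
    (hD : ∀ p ∈ D, p.Prime ∧ Om p ⊆ range p) :
    |(((range N).filter (fun t => ∀ p ∈ D, t % p ∈ Om p)).card : ℝ) -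
      N * ∏ p ∈ D, ((Om p).card : ℝ) / p| ≤ ∏ p ∈ D, ((Om p).card : ℝ) := by
  have hm : 0 < ∏ p ∈ D, p := prod_pos fun q hq => (hD q hq).1.pos
  set m := ∏ p ∈ D, p with hmdef
  have h1 : ((range N).filter (fun t => ∀ p ∈ D, t % p ∈ Om p)).card =
      ∑ c ∈ linC Om D, ((range N).filter (fun t => t % m = c)).card := by
    rw [card_eq_sum_card_fiberwise (f := fun t => t % m) (t := linC Om D)]
    · refine sum_congr rfl fun c hc => ?_
      congr 1
      ext t
      rw [mem_filter, mem_filter, mem_filter]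
      constructor
      · rintro ⟨⟨a1, -⟩, a3⟩
        exact ⟨a1, a3⟩
      · rintro ⟨a1, a3⟩
        refine ⟨⟨a1, fun p hp => ?_⟩, a3⟩
        have a4 := (mem_filter.1 hc).2 p hp
        rw [← a3, Nat.mod_mod_of_dvd _ (dvd_prod_of_mem _ hp)] at a4
        exact a4
    · intro t ht
      have ht' := (mem_filter.1 (mem_coe.1 ht)).2
      refine mem_coe.2 (mem_filter.2 ⟨mem_range.2 (Nat.mod_lt _ hm), fun p hp => ?_⟩)
      rw [Nat.mod_mod_of_dvd _ (dvd_prod_of_mem _ hp)]
      exact ht' p hp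
  have h2 : (N : ℝ) * ∏ p ∈ D, ((Om p).card : ℝ) / p =
      ∑ _c ∈ linC Om D, (N : ℝ) / m := by
    rw [sum_const, linCcard Om D hD, prod_div_distrib, nsmul_eq_mul, hmdef]
    push_cast
    ring
  rw [h1, h2]
  push_cast
  rw [← sum_sub_distrib]
  refine (abs_sum_le_sum_abs _ _).trans ?_
  have h3 : ∀ c ∈ linC Om D,
      |(((range N).filter (fun t => t % m = c)).card : ℝ) - (N : ℝ) / m| ≤ 1 :=
    fun c hc => linone m c N hm (mem_range.1 (mem_filter.1 hc).1)
  refine (sum_le_sum h3).trans ?_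
  rw [sum_const, linCcard Om D hD, nsmul_eq_mul, mul_one]
  push_cast
  exact le_rfl


lemma linhit (Om : ℕ → Finset ℕ) (D : Finset ℕ) (N : ℕ) :
    ∑ t ∈ range N, ∏ p ∈ D, hit Om p t =
      (((range N).filter (fun t => ∀ p ∈ D, t % p ∈ Om p)).card : ℝ) := by
  rw [card_filter]
  push_cast
  refine sum_congr rfl fun t _ => ?_
  unfold hit
  by_cases h : ∀ p ∈ D, t % p ∈ Om p
  · rw [if_pos h]
    exact prod_eq_one fun p hp => if_pos (h p hp)
  · rw [if_neg h]
    push Not at h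
    obtain ⟨p, hp, hp'⟩ := h
    exact prod_eq_zero hp (if_neg hp')

lemma lingen (B : ℕ → Finset ℕ) (T : ℕ → Finset (Finset ℕ)) (c : ℕ → Finset ℕ → ℝ)
    (Om : ℕ → Finset ℕ) (N : ℕ) : ∀ (J : ℕ) (D : Finset ℕ),
    (∀ p ∈ D, p.Prime ∧ Om p ⊆ range p) →
    (∀ i ∈ range J, ∀ p ∈ B i, p.Prime ∧ Om p ⊆ range p) →
    (∀ i ∈ range J, Disjoint D (B i)) →
    (∀ i ∈ range J, ∀ j ∈ range J, i ≠ j → Disjoint (B i) (B j)) →
    (∀ i ∈ range J, ∀ s ∈ T i, s ⊆ B i) →
    |∑ t ∈ range N, (∏ p ∈ D, hit Om p t) *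
        ∏ i ∈ range J, ∑ s ∈ T i, c i s * ∏ p ∈ s, hit Om p t -
      (N : ℝ) * ((∏ p ∈ D, ((Om p).card : ℝ) / p) *
        ∏ i ∈ range J, ∑ s ∈ T i, c i s * ∏ p ∈ s, (((Om p).card : ℝ) / p))| ≤
      (∏ p ∈ D, ((Om p).card : ℝ)) *
        ∏ i ∈ range J, ∑ s ∈ T i, |c i s| * ∏ p ∈ s, ((Om p).card : ℝ) := by
  intro J
  induction J with
  | zero =>
    intro D hD _ _ _ _
    simp only [range_zero, prod_empty, mul_one]
    rw [linhit]
    exact linN Om D N hD
  | succ J ih =>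
    intro D hD hB hDB hdis hT
    have hJ : J ∈ range (J + 1) := mem_range.2 (Nat.lt_succ_self J)
    have hsub : ∀ i, i ∈ range J → i ∈ range (J + 1) := fun i hi =>
      mem_range.2 (lt_trans (mem_range.1 hi) (Nat.lt_succ_self J))
    have hdsj : ∀ s ∈ T J, Disjoint D s := fun s hs =>
      Disjoint.mono_right (hT J hJ s hs) (hDB J hJ)
    have key : ∀ s ∈ T J, |∑ t ∈ range N, (∏ p ∈ D ∪ s, hit Om p t) *
          ∏ i ∈ range J, ∑ s ∈ T i, c i s * ∏ p ∈ s, hit Om p t -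
        (N : ℝ) * ((∏ p ∈ D ∪ s, ((Om p).card : ℝ) / p) *
          ∏ i ∈ range J, ∑ s ∈ T i, c i s * ∏ p ∈ s, (((Om p).card : ℝ) / p))| ≤
        (∏ p ∈ D ∪ s, ((Om p).card : ℝ)) *
          ∏ i ∈ range J, ∑ s ∈ T i, |c i s| * ∏ p ∈ s, ((Om p).card : ℝ) := by
      intro s hs
      refine ih (D ∪ s) ?_ (fun i hi => hB i (hsub i hi)) ?_
        (fun i hi j hj => hdis i (hsub i hi) j (hsub j hj)) (fun i hi => hT i (hsub i hi))
      · intro p hp
        rcases mem_union.1 hp with h | h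
        · exact hD p h
        · exact hB J hJ p (hT J hJ s hs h)
      · intro i hi
        refine disjoint_union_left.2 ⟨hDB i (hsub i hi), ?_⟩
        exact Disjoint.mono_left (hT J hJ s hs)
          (hdis J hJ i (hsub i hi) (mem_range.1 hi).ne')
    have e1 : ∑ t ∈ range N, (∏ p ∈ D, hit Om p t) *
        ∏ i ∈ range (J + 1), ∑ s ∈ T i, c i s * ∏ p ∈ s, hit Om p t =
        ∑ s ∈ T J, c J s * ∑ t ∈ range N, (∏ p ∈ D ∪ s, hit Om p t) *
          ∏ i ∈ range J, ∑ s ∈ T i, c i s * ∏ p ∈ s, hit Om p t := by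
      have a1 : ∀ t ∈ range N, (∏ p ∈ D, hit Om p t) *
          ∏ i ∈ range (J + 1), ∑ s ∈ T i, c i s * ∏ p ∈ s, hit Om p t =
          ∑ s ∈ T J, c J s * ((∏ p ∈ D ∪ s, hit Om p t) *
            ∏ i ∈ range J, ∑ s ∈ T i, c i s * ∏ p ∈ s, hit Om p t) := by
        intro t _
        rw [prod_range_succ, ← mul_assoc, mul_sum]
        refine sum_congr rfl fun s hs => ?_
        rw [prod_union (hdsj s hs)]
        ring
      rw [sum_congr rfl a1, sum_comm]
      exact sum_congr rfl fun s _ => (mul_sum _ _ _).symm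
    have e2 : (N : ℝ) * ((∏ p ∈ D, ((Om p).card : ℝ) / p) *
        ∏ i ∈ range (J + 1), ∑ s ∈ T i, c i s * ∏ p ∈ s, (((Om p).card : ℝ) / p)) =
        ∑ s ∈ T J, c J s * ((N : ℝ) * ((∏ p ∈ D ∪ s, ((Om p).card : ℝ) / p) *
          ∏ i ∈ range J, ∑ s ∈ T i, c i s * ∏ p ∈ s, (((Om p).card : ℝ) / p))) := by
      rw [prod_range_succ, ← mul_assoc, ← mul_assoc, mul_sum]
      refine sum_congr rfl fun s hs => ?_
      rw [prod_union (hdsj s hs)]
      ring
    have e3 : (∏ p ∈ D, ((Om p).card : ℝ)) *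
        ∏ i ∈ range (J + 1), ∑ s ∈ T i, |c i s| * ∏ p ∈ s, ((Om p).card : ℝ) =
        ∑ s ∈ T J, |c J s| * ((∏ p ∈ D ∪ s, ((Om p).card : ℝ)) *
          ∏ i ∈ range J, ∑ s ∈ T i, |c i s| * ∏ p ∈ s, ((Om p).card : ℝ)) := by
      rw [prod_range_succ, ← mul_assoc, mul_sum]
      refine sum_congr rfl fun s hs => ?_
      rw [prod_union (hdsj s hs)]
      ring
    rw [e1, e2, e3, ← sum_sub_distrib]
    refine (abs_sum_le_sum_abs _ _).trans (sum_le_sum fun s hs => ?_)
    rw [← mul_sub, abs_mul]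
    exact mul_le_mul_of_nonneg_left (key s hs) (abs_nonneg _)

end LINM

open LINM in
theorem tLIN : S_LIN := by
  intro J B T c Om N hB hdis hT
  have h := lingen B T c Om N J ∅ (fun p hp => absurd hp (notMem_empty p)) hB
    (fun i _ => disjoint_empty_left _) hdis hT
  simpa only [prod_empty, one_mul] using h

end Pool.Agent.Lib.SHD
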