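import Pool.Agent.Lib.SHD.SpecE
import Pool.Agent.Lib.SHD.MEDB

/-! MP_9a4459_nt, Lib/SHD, module MEDC (helper69): the medium primes, `w` up to a power of `N`. -/

set_option autoImplicit false

namespace Pool.Agent.Lib.SHD

open Finset Filter Topology MeasureTheory
open Pool.Agent.Lib.MP_3ef1ab_nt Pool.Agent.Results.MP_9a4459_nt Pool.Agent.Lib.SHG
open Pool.Agent.Lib.SHR hiding ShanksLaw
open Pool.Agent.Lib.SHK (pr Vk nu mem_pr MedStmt PrgStmt MrtStmt)
open scoped Classical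

theorem tMEDC (h1 : MrtStmt) (h2 : PREStmt) (h3 : S_RT) : MedC := by
  intro A δ hδ hδ1
  obtain ⟨C, hC, hM⟩ := h1
  obtain ⟨CF, hCF, hF⟩ := h2
  have hl2 : 0 < Real.log 2 := Real.log_pos (by norm_num)
  set B : ℝ := C / Real.log 2 with hB
  have hB0 : 0 < B := by positivity
  set E : ℝ := Real.exp (-6 * B) with hE
  have hE0 : 0 < E := Real.exp_pos _
  obtain ⟨b, hb1, hbF⟩ : ∃ b : ℕ, 1 ≤ b ∧ CF * Real.exp (-(b : ℝ)) ≤ δ / 64 := by
    have h4 : Tendsto (fun b : ℕ => CF * Real.exp (-(b : ℝ))) atTop (𝓝 (CF * 0)) :=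
      (Real.tendsto_exp_neg_atTop_nhds_zero.comp (tendsto_natCast_atTop_atTop (R := ℝ))).const_mul CF
    rw [mul_zero] at h4
    obtain ⟨b, hb⟩ := ((h4.eventually (ge_mem_nhds (show (0 : ℝ) < δ / 64 by positivity))).and
      (eventually_ge_atTop 1)).exists
    exact ⟨b, hb.2, hb.1⟩
  obtain ⟨y1, hy1, hR⟩ := h3 A (δ / 32) (by positivity)
  obtain ⟨y2, hy2⟩ := MEDBM.large (δ / 64 * E ^ 2) (by positivity)
  set K : ℝ := max (4 / (δ * E)) (32 * b + 1) with hK
  have hb0 : (1 : ℝ) ≤ b := by exact_mod_cast hb1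
  have hK1 : 1 ≤ K := le_trans (by linarith) (le_max_right _ _)
  refine ⟨K, hK1, max (max y1 100) y2, ?_⟩
  intro y w g N n0 D a S hy hyw hg hgy hN hS ha
  have hyy1 : y1 ≤ y := (le_max_left _ _).trans ((le_max_left _ _).trans hy)
  have hy100 : 100 ≤ y := (le_max_right _ _).trans ((le_max_left _ _).trans hy)
  have hyy2 : y2 ≤ w := ((le_max_right _ _).trans hy).trans hyw
  have hw100n : 100 ≤ w := hy100.trans hyw
  have hw100 : (100 : ℝ) ≤ w := by exact_mod_cast hw100n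
  have hlw1 : 1 ≤ Real.log w := by
    have h4 : Real.log (Real.exp 1) ≤ Real.log w :=
      Real.log_le_log (Real.exp_pos _) (by linarith [Real.exp_one_lt_d9])
    rwa [Real.log_exp] at h4
  have hlw0 : 0 < Real.log (w : ℝ) := by linarith
  have hllw : 0 ≤ Real.log (Real.log w) := Real.log_nonneg hlw1
  set C2 : ℝ := Real.log (Real.log w) + B with hC2
  have hC20 : 0 ≤ C2 := by linarith
  have hsum := MEDBM.mer C hC hM y w hy100 hyw
  rw [← hB, ← hC2] at hsum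
  set c0 : ℝ := Real.exp (-6 * C2) with hc0
  have hc0p : 0 < c0 := Real.exp_pos _
  have hc0v : c0 = (Real.log w ^ 6)⁻¹ * E := by
    rw [hc0, hC2, hE]
    have h4 : -6 * (Real.log (Real.log w) + B) = -(6 * Real.log (Real.log w)) + -6 * B := by ring
    rw [h4, Real.exp_add]
    congr 1
    rw [Real.exp_neg]
    congr 1
    have h5 : (6 : ℝ) * Real.log (Real.log w) = ((6 : ℕ) : ℝ) * Real.log (Real.log w) := by norm_num
    rw [h5, Real.exp_nat_mul, Real.exp_log hlw0]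
  have hc01 : c0 ≤ 1 := by
    rw [hc0, Real.exp_le_one_iff]
    linarith
  set κ : ℝ := δ / 64 * c0 ^ 2 with hκ
  have hκp : 0 < κ := by positivity
  have hwk : 1 ≤ κ * w := by
    have h4 := hy2 w hyy2
    have h5 : κ = δ / 64 * E ^ 2 * (Real.log w ^ 12)⁻¹ := by
      rw [hκ, hc0v]
      rw [mul_pow, inv_pow, ← pow_mul]
      ring
    rw [h5]
    exact h4
  -- N is large
  have hlogN : 0 < Real.log (N : ℝ) := lt_of_lt_of_le (by positivity) hN
  have hNpos : (0 : ℝ) < N := by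
    rcases Nat.eq_zero_or_pos N with h | h
    · rw [h] at hlogN
      simp at hlogN
    · exact_mod_cast h
  have hNw : (w : ℝ) ^ (32 * b + 1) ≤ N := by
    have h4 : Real.log ((w : ℝ) ^ (32 * b + 1)) ≤ Real.log N := by
      rw [Real.log_pow]
      refine le_trans ?_ hN
      have h6 : (32 * b + 1 : ℝ) ≤ K := le_max_right _ _
      push_cast
      exact mul_le_mul_of_nonneg_right h6 hlw0.le
    exact (Real.log_le_log_iff (by positivity) hNpos).1 h4
  have hNk : (w : ℝ) ^ (32 * b) ≤ κ * N := by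
    have h4 : (w : ℝ) ^ (32 * b) * 1 ≤ (w : ℝ) ^ (32 * b) * (κ * w) :=
      mul_le_mul_of_nonneg_left hwk (by positivity)
    have h5 : (w : ℝ) ^ (32 * b) * (κ * w) = κ * (w : ℝ) ^ (32 * b + 1) := by
      rw [pow_succ]
      ring
    have h6 : κ * (w : ℝ) ^ (32 * b + 1) ≤ κ * N := mul_le_mul_of_nonneg_left hNw hκp.le
    linarith
  have hQ : ∀ p ∈ pr y w, p.Prime ∧ 100 ≤ p ∧ p ≤ w ∧ p.Coprime D ∧ a p < p := fun p hp =>
    ⟨(mem_pr.1 hp).2.2, hy100.trans (mem_pr.1 hp).1.le, (mem_pr.1 hp).2.1, ha p hp⟩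
  have hp100 : ∀ p ∈ pr y w, 100 ≤ p := fun p hp => hy100.trans (mem_pr.1 hp).1.le
  have hnu : ∀ H : Finset ℕ, H.card ≤ 3 → ∀ p, nu H p ≤ 3 := fun H hH p =>
    card_image_le.trans hH
  have hcard2 : ({0, g} : Finset ℕ).card ≤ 3 := card_le_two.trans (by norm_num)
  have hcard3 : ∀ j : ℕ, ({0, j, g} : Finset ℕ).card ≤ 3 := fun j => card_le_three
  have hP := MEDAM.prod (pr y w) (nu {0, g}) C2 hp100 (fun p _ => hnu _ hcard2 p) hsum
  have hV : c0 ≤ Vk 1 y w := MEDAM.prod (pr y w) (fun _ => 1) C2 hp100 (fun p _ => by norm_num) hsum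
  rw [← hc0] at hP
  have hN0 : (0 : ℝ) ≤ N := Nat.cast_nonneg N
  have herr : ∀ H : Finset ℕ, H.card ≤ 3 → ∃ F : Finset ℕ,
      (∀ t, t ∈ F ↔ t ∈ range N ∧ ∀ p ∈ pr y w, ∀ h ∈ H, (n0 + D * t + h) % p ≠ a p) ∧
      |(F.card : ℝ) - N * ∏ p ∈ pr y w, (1 - (nu H p : ℝ) / p)| ≤
        δ / 64 * (N * ∏ p ∈ pr y w, (1 - (nu H p : ℝ) / p)) + κ * N := by
    intro H hH
    have hPH : 0 < ∏ p ∈ pr y w, (1 - (nu H p : ℝ) / p) := by
      have := MEDAM.prod (pr y w) (nu H) C2 hp100 (fun p _ => hnu _ hH p) hsum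
      exact lt_of_lt_of_le (Real.exp_pos _) this
    refine ⟨_, fun t => mem_filter, (hF (pr y w) H a w b n0 D N (by omega) hb1 hH hQ).trans ?_⟩
    have h4 := mul_le_mul_of_nonneg_right hbF (mul_nonneg hN0 hPH.le)
    linarith
  set P : ℝ := ∏ p ∈ pr y w, (1 - (nu {0, g} p : ℝ) / p) with hPd
  set V : ℝ := Vk 1 y w with hVd
  have hVP : c0 ^ 2 ≤ P * V := by
    rw [sq]
    exact mul_le_mul hP hV hc0p.le (hc0p.le.trans hP)
  have hcP : c0 ^ 2 ≤ P := by
    have h4 : c0 ^ 2 ≤ c0 := by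
      rw [sq]
      exact mul_le_of_le_one_right hc0p.le hc01
    exact h4.trans hP
  have hcount := MEDAM.count N
    (fun t => ∀ p ∈ pr y w, (n0 + D * t) % p ≠ a p ∧ (n0 + D * t + g) % p ≠ a p)
    (fun j t => ∀ p ∈ pr y w, (n0 + D * t + j) % p ≠ a p) S δ V P c0 hδ hδ1 hc0p hV hP ?_ ?_
  · set G : ℝ := (((range N).filter (fun t =>
      (∀ p ∈ pr y w, (n0 + D * t) % p ≠ a p ∧ (n0 + D * t + g) % p ≠ a p) ∧
      ((S.filter (fun j => ∀ p ∈ pr y w, (n0 + D * t + j) % p ≠ a p)).card : ℝ) ≤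
        (1 + δ) * (S.card * V))).card : ℝ) with hG
    have h4 : δ / 4 * c0 * N ≤ G := hcount
    have hl6 : 0 < Real.log (w : ℝ) ^ 6 := by positivity
    have h5 : (N : ℝ) ≤ 4 / (δ * E) * Real.log w ^ 6 * G := by
      have h6 : (N : ℝ) = 4 / (δ * E) * Real.log w ^ 6 * (δ / 4 * c0 * N) := by
        rw [hc0v]
        field_simp
      rw [h6]
      exact mul_le_mul_of_nonneg_left h4 (by positivity)
    have hG0 : 0 ≤ G := Nat.cast_nonneg _
    refine h5.trans ?_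
    have h7 : 4 / (δ * E) ≤ K := le_max_left _ _
    exact mul_le_mul_of_nonneg_right (mul_le_mul_of_nonneg_right h7 hl6.le) hG0
  · obtain ⟨F, hF, h4⟩ := herr {0, g} hcard2
    have h4 := (abs_le.1 h4).1
    have h5 : F ⊆ (range N).filter (fun t => ∀ p ∈ pr y w, (n0 + D * t) % p ≠ a p ∧
        (n0 + D * t + g) % p ≠ a p) := by
      intro t ht
      have hh := (hF t).1 ht
      exact mem_filter.2 ⟨hh.1, fun p hp => ⟨hh.2 p hp 0 (by simp), hh.2 p hp g (by simp)⟩⟩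
    have h5c : (F.card : ℝ) ≤ (((range N).filter (fun t => ∀ p ∈ pr y w, (n0 + D * t) % p ≠ a p ∧
        (n0 + D * t + g) % p ≠ a p)).card : ℝ) := by exact_mod_cast card_le_card h5
    refine le_trans ?_ h5c
    rw [← hPd] at h4
    have h6 : κ * N ≤ N * P * (δ / 64) := by
      have h8 : δ / 64 * c0 ^ 2 ≤ δ / 64 * P := mul_le_mul_of_nonneg_left hcP (by positivity)
      rw [hκ]
      nlinarith [mul_le_mul_of_nonneg_right h8 hN0]
    have h7 : 0 ≤ (N : ℝ) * P := mul_nonneg hN0 (hc0p.le.trans hP)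
    have h8 : 0 ≤ δ * (N * P) := mul_nonneg hδ.le h7
    linarith
  · intro j hj
    have hj2 := mem_Ioo.1 (hS hj)
    obtain ⟨F, hF, h4⟩ := herr {0, j, g} (hcard3 j)
    have h4 := (abs_le.1 h4).2
    have h5 : (range N).filter (fun t => (∀ p ∈ pr y w, (n0 + D * t) % p ≠ a p ∧
        (n0 + D * t + g) % p ≠ a p) ∧ ∀ p ∈ pr y w, (n0 + D * t + j) % p ≠ a p) ⊆ F := by
      intro t ht
      obtain ⟨hr, ha1, ha2⟩ := mem_filter.1 ht
      refine (hF t).2 ⟨hr, fun p hp h hh => ?_⟩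
      simp only [mem_insert, mem_singleton] at hh
      rcases hh with hh | hh | hh
      · rw [hh]
        exact (ha1 p hp).1
      · rw [hh]
        exact ha2 p hp
      · rw [hh]
        exact (ha1 p hp).2
    have h5c : (((range N).filter (fun t => (∀ p ∈ pr y w, (n0 + D * t) % p ≠ a p ∧
        (n0 + D * t + g) % p ≠ a p) ∧ ∀ p ∈ pr y w, (n0 + D * t + j) % p ≠ a p)).card : ℝ) ≤
        F.card := by exact_mod_cast card_le_card h5
    refine le_trans h5c ?_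
    have h6 := hR y g j (pr y w) hyy1 (fun p hp => ⟨(mem_pr.1 hp).2.2, (mem_pr.1 hp).1⟩) hj2.1
      hj2.2 hgy
    have hVk : ∏ p ∈ pr y w, (1 - 1 / (p : ℝ)) = V := by
      rw [hVd]
      unfold Vk
      exact prod_congr rfl fun p _ => by rw [Nat.cast_one]
    rw [hVk, ← hPd] at h6
    set P3 : ℝ := ∏ p ∈ pr y w, (1 - (nu {0, j, g} p : ℝ) / p) with hP3
    have h7 : κ * N ≤ N * (P * V) * (δ / 64) := by
      have h8 : δ / 64 * c0 ^ 2 ≤ δ / 64 * (P * V) :=
        mul_le_mul_of_nonneg_left hVP (by positivity)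
      rw [hκ]
      nlinarith [mul_le_mul_of_nonneg_right h8 hN0]
    have h8 : N * P3 ≤ N * ((1 + δ / 32) * (V * P)) := mul_le_mul_of_nonneg_left h6 hN0
    have hX : 0 ≤ (N : ℝ) * (P * V) := mul_nonneg hN0 (mul_nonneg (hc0p.le.trans hP) (hc0p.le.trans hV))
    have h9 : (F.card : ℝ) ≤ (1 + δ / 64) * (N * P3) + κ * N := by linarith
    have h10 : (1 + δ / 64) * (N * P3) ≤ (1 + δ / 64) * (N * ((1 + δ / 32) * (V * P))) :=
      mul_le_mul_of_nonneg_left h8 (by linarith)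
    have h11 : (1 + δ / 64) * (N * ((1 + δ / 32) * (V * P))) =
        (1 + δ / 64) * (1 + δ / 32) * (N * (P * V)) := by ring
    have h12 : (1 + δ / 64) * (1 + δ / 32) ≤ 1 + 7 * δ / 64 := by nlinarith
    have h13 : (1 + δ / 64) * (1 + δ / 32) * (N * (P * V)) ≤
        (1 + 7 * δ / 64) * (N * (P * V)) := mul_le_mul_of_nonneg_right h12 hX
    have h14 : (1 + 7 * δ / 64) * (N * (P * V)) + N * (P * V) * (δ / 64) =
        N * (P * V) * (1 + δ / 8) := by ring
    linarith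

end Pool.Agent.Lib.SHD
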