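import Pool.Agent.Lib.SHD.SpecE

/-! MP_9a4459_nt, Lib/SHD, module MNE (helper77): the main terms of Brun-Hooley. -/

set_option autoImplicit false

namespace Pool.Agent.Lib.SHD

open Finset Filter Topology MeasureTheory
open Pool.Agent.Lib.MP_3ef1ab_nt Pool.Agent.Results.MP_9a4459_nt Pool.Agent.Lib.SHG
open Pool.Agent.Lib.SHR hiding ShanksLaw
open Pool.Agent.Lib.SHK (pr Vk nu mem_pr MedStmt PrgStmt MrtStmt)
open Pool.Agent.Lib.BV (thr lowS BnfStmt HlyStmt EsyStmt CttStmt LvlStmt MsbStmt)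
open scoped Classical

namespace MNEM

lemma expL (t : ℝ) (h0 : 0 ≤ t) (h1 : t ≤ 1 / 2) : Real.exp (-(2 * t)) ≤ 1 - t := by
  have h2 : 1 + 2 * t ≤ Real.exp (2 * t) := by
    have := Real.add_one_le_exp (2 * t)
    linarith
  have h3 : 1 ≤ Real.exp (2 * t) * (1 - t) := by
    have h4 : (1 + 2 * t) * (1 - t) ≤ Real.exp (2 * t) * (1 - t) :=
      mul_le_mul_of_nonneg_right h2 (by linarith)
    nlinarith
  rw [Real.exp_neg]
  rw [inv_le_iff_one_le_mul₀ (Real.exp_pos _), mul_comm]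
  exact h3

lemma geom (n : ℕ) : ∑ j ∈ range n, Real.exp (-(2 * (j : ℝ) + 1)) ≤ 1 := by
  have h1 : ∀ j : ℕ, Real.exp (-(2 * (j : ℝ) + 1)) ≤ (1 / 2 : ℝ) ^ (j + 1) := by
    intro j
    have h2 : Real.exp (-(2 * (j : ℝ) + 1)) ≤ Real.exp (-1) ^ (j + 1) := by
      rw [← Real.exp_nat_mul]
      refine Real.exp_le_exp.2 ?_
      push_cast
      have : (0 : ℝ) ≤ j := Nat.cast_nonneg j
      linarith
    refine h2.trans (pow_le_pow_left₀ (Real.exp_pos _).le ?_ _)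
    rw [Real.exp_neg, one_div]
    refine inv_anti₀ two_pos ?_
    have := Real.add_one_le_exp (1 : ℝ)
    linarith
  have h3 : ∑ j ∈ range n, (1 / 2 : ℝ) ^ (j + 1) = 1 - (1 / 2) ^ n := by
    induction n with
    | zero => simp
    | succ n ih => rw [sum_range_succ, ih]; ring
  calc ∑ j ∈ range n, Real.exp (-(2 * (j : ℝ) + 1)) ≤ ∑ j ∈ range n, (1 / 2 : ℝ) ^ (j + 1) :=
        sum_le_sum fun j _ => h1 j
    _ = 1 - (1 / 2) ^ n := h3
    _ ≤ 1 := by
        have : (0 : ℝ) ≤ (1 / 2) ^ n := by positivity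
        linarith

lemma block (hB : BnfStmt) (hE : EsyStmt) (κ : ℝ) (hκ : 1 ≤ κ)
    (hM : ∀ t : ℕ, ∑ p ∈ (Ioc (Nat.sqrt t) t).filter Nat.Prime, 1 / (p : ℝ) ≤ κ)
    (Q : Finset ℕ) (x : ℕ → ℝ) (w b j : ℕ)
    (hQ : ∀ p ∈ Q, p.Prime ∧ 100 ≤ p ∧ p ≤ w ∧ 0 ≤ x p ∧ x p ≤ 3 / (p : ℝ))
    (hx0 : ∀ p : ℕ, 0 ≤ x p) :
    0 < ∏ p ∈ blk Q w j, (1 - x p) ∧
    ∏ p ∈ blk Q w j, (1 - x p) ≤ Ye Q x w b j ∧
    Ye Q x w b j ≤ (∏ p ∈ blk Q w j, (1 - x p)) + Ue Q x w b j ∧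
    0 ≤ Ue Q x w b j ∧
    Ue Q x w b j ≤ (Real.exp (6 * κ) * Real.exp (Real.exp 1 * (3 * κ))) *
      Real.exp (-(b : ℝ)) * Real.exp (-(2 * (j : ℝ) + 1)) * ∏ p ∈ blk Q w j, (1 - x p) := by
  have hmem : ∀ p ∈ blk Q w j, p ∈ Q := fun p hp => (mem_filter.1 hp).1
  have hx2 : ∀ p ∈ blk Q w j, x p ≤ 1 / 2 := by
    intro p hp
    obtain ⟨_, h2, _, _, h5⟩ := hQ p (hmem p hp)
    refine h5.trans ?_
    have h6 : (100 : ℝ) ≤ (p : ℝ) := by exact_mod_cast h2
    rw [div_le_iff₀ (by linarith)]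
    linarith
  have hsum : ∑ p ∈ blk Q w j, x p ≤ 3 * κ := by
    calc ∑ p ∈ blk Q w j, x p ≤ ∑ p ∈ blk Q w j, 3 * (1 / (p : ℝ)) := by
          refine sum_le_sum fun p hp => ?_
          have := (hQ p (hmem p hp)).2.2.2.2
          rw [mul_one_div]
          exact this
      _ = 3 * ∑ p ∈ blk Q w j, 1 / (p : ℝ) := by rw [mul_sum]
      _ ≤ 3 * ∑ p ∈ (Ioc (Nat.sqrt (thr w j)) (thr w j)).filter Nat.Prime, 1 / (p : ℝ) := by
          refine mul_le_mul_of_nonneg_left ?_ (by norm_num)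
          refine sum_le_sum_of_subset_of_nonneg ?_ fun i _ _ => by positivity
          intro p hp
          have h1 := mem_filter.1 hp
          refine mem_filter.2 ⟨mem_Ioc.2 ⟨h1.2.1, h1.2.2⟩, (hQ p h1.1).1⟩
      _ ≤ 3 * κ := mul_le_mul_of_nonneg_left (hM (thr w j)) (by norm_num)
  have hWpos : 0 < ∏ p ∈ blk Q w j, (1 - x p) := by
    refine prod_pos fun p hp => ?_
    have := hx2 p hp
    linarith
  have hWlow : Real.exp (-(6 * κ)) ≤ ∏ p ∈ blk Q w j, (1 - x p) := by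
    calc Real.exp (-(6 * κ)) ≤ Real.exp (∑ p ∈ blk Q w j, -(2 * x p)) := by
          refine Real.exp_le_exp.2 ?_
          rw [sum_neg_distrib, ← mul_sum]
          linarith
      _ = ∏ p ∈ blk Q w j, Real.exp (-(2 * x p)) := Real.exp_sum _ _
      _ ≤ ∏ p ∈ blk Q w j, (1 - x p) :=
          prod_le_prod (fun p _ => (Real.exp_pos _).le)
            fun p hp => expL _ (hx0 p) (hx2 p hp)
  obtain ⟨hb1, hb2⟩ := hB (b + j) (blk Q w j) x
    (fun p hp => ⟨hx0 p, (hx2 p hp).trans (by norm_num)⟩)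
  refine ⟨hWpos, hb1, hb2, ?_, ?_⟩
  · exact sum_nonneg fun s _ => prod_nonneg fun p _ => hx0 p
  · set r := 2 * (b + j) + 1 with hr
    have h1 : Ue Q x w b j ≤ (3 * κ) ^ r / (r.factorial : ℝ) := by
      refine (hE.1 (blk Q w j) x r hx0).trans ?_
      refine div_le_div_of_nonneg_right ?_ (Nat.cast_nonneg _)
      exact pow_le_pow_left₀ (sum_nonneg fun p _ => hx0 p) hsum r
    have h2 : (3 * κ) ^ r / (r.factorial : ℝ) ≤
        Real.exp (-(r : ℝ)) * Real.exp (Real.exp 1 * (3 * κ)) := by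
      have h3 := Real.pow_div_factorial_le_exp (Real.exp 1 * (3 * κ))
        (mul_nonneg (Real.exp_pos _).le (by linarith)) r
      rw [mul_pow, ← Real.exp_nat_mul, mul_one, mul_div_assoc] at h3
      calc (3 * κ) ^ r / (r.factorial : ℝ)
          = Real.exp (-(r : ℝ)) * (Real.exp (r : ℝ) * ((3 * κ) ^ r / (r.factorial : ℝ))) := by
            rw [← mul_assoc, ← Real.exp_add, neg_add_cancel, Real.exp_zero, one_mul]
        _ ≤ Real.exp (-(r : ℝ)) * Real.exp (Real.exp 1 * (3 * κ)) :=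
            mul_le_mul_of_nonneg_left h3 (Real.exp_pos _).le
    have h4 : Real.exp (-(r : ℝ)) ≤ Real.exp (-(b : ℝ)) * Real.exp (-(2 * (j : ℝ) + 1)) := by
      rw [← Real.exp_add]
      refine Real.exp_le_exp.2 ?_
      rw [hr]
      push_cast
      have : (0 : ℝ) ≤ b := Nat.cast_nonneg b
      linarith
    have h5 : 1 ≤ Real.exp (6 * κ) * ∏ p ∈ blk Q w j, (1 - x p) := by
      calc (1 : ℝ) = Real.exp (6 * κ) * Real.exp (-(6 * κ)) := by
            rw [← Real.exp_add, add_neg_cancel, Real.exp_zero]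
        _ ≤ _ := mul_le_mul_of_nonneg_left hWlow (Real.exp_pos _).le
    have h6 : (0 : ℝ) ≤ Real.exp (-(b : ℝ)) * Real.exp (-(2 * (j : ℝ) + 1)) *
        Real.exp (Real.exp 1 * (3 * κ)) := by positivity
    calc Ue Q x w b j ≤ Real.exp (-(r : ℝ)) * Real.exp (Real.exp 1 * (3 * κ)) := h1.trans h2
      _ ≤ Real.exp (-(b : ℝ)) * Real.exp (-(2 * (j : ℝ) + 1)) *
          Real.exp (Real.exp 1 * (3 * κ)) :=
          mul_le_mul_of_nonneg_right h4 (Real.exp_pos _).le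
      _ ≤ (Real.exp (-(b : ℝ)) * Real.exp (-(2 * (j : ℝ) + 1)) *
          Real.exp (Real.exp 1 * (3 * κ))) *
          (Real.exp (6 * κ) * ∏ p ∈ blk Q w j, (1 - x p)) :=
          le_mul_of_one_le_right h6 h5
      _ = _ := by ring

/-- the theorem for a nonnegative `x` -/
lemma core (hB : BnfStmt) (hE : EsyStmt) (hM : MsbStmt) (hK : S_BLK) :
    ∃ C : ℝ, 0 < C ∧ ∀ (Q : Finset ℕ) (x : ℕ → ℝ) (w b : ℕ), 2 ≤ w →
  (∀ p ∈ Q, p.Prime ∧ 100 ≤ p ∧ p ≤ w ∧ 0 ≤ x p ∧ x p ≤ 3 / (p : ℝ)) → (∀ p : ℕ, 0 ≤ x p) →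
  (∀ j, 0 ≤ Ye Q x w b j) ∧
  |∏ j ∈ range w, Ye Q x w b j - ∏ p ∈ Q, (1 - x p)| ≤
    C * Real.exp (-(b : ℝ)) * ∏ p ∈ Q, (1 - x p) ∧
  ∑ i ∈ range w, Ue Q x w b i * ∏ j ∈ (range w).erase i, Ye Q x w b j ≤
    C * Real.exp (-(b : ℝ)) * ∏ p ∈ Q, (1 - x p) := by
  obtain ⟨κ, hκ, hM⟩ := hM
  set c : ℝ := Real.exp (6 * κ) * Real.exp (Real.exp 1 * (3 * κ)) with hc
  have hc0 : 0 < c := by positivity
  refine ⟨(c + 1) * Real.exp c, by positivity, fun Q x w b hw hQ hx0 => ?_⟩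
  have hblk := fun j => block hB hE κ hκ hM Q x w b j hQ hx0
  have hX : ∏ j ∈ range w, ∏ p ∈ blk Q w j, (1 - x p) = ∏ p ∈ Q, (1 - x p) :=
    (hK Q w (by omega) (fun p hp => ⟨(hQ p hp).1.two_le, (hQ p hp).2.2.1⟩)).2.1
      (fun p => 1 - x p)
  set X : ℝ := ∏ p ∈ Q, (1 - x p) with hXd
  set W : ℕ → ℝ := fun j => ∏ p ∈ blk Q w j, (1 - x p) with hW
  have hW0 : ∀ j, 0 < W j := fun j => (hblk j).1
  have hY0 : ∀ j, 0 < Ye Q x w b j := fun j => (hW0 j).trans_le (hblk j).2.1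
  have hU0 : ∀ j, 0 ≤ Ue Q x w b j := fun j => (hblk j).2.2.2.1
  let v : ℕ → ℝ := fun j => c * Real.exp (-(b : ℝ)) * Real.exp (-(2 * (j : ℝ) + 1))
  have hv0 : ∀ j, 0 ≤ v j := fun j => by positivity
  have hUv : ∀ j, Ue Q x w b j ≤ v j * W j := fun j => (hblk j).2.2.2.2
  have hb : Real.exp (-(b : ℝ)) ≤ 1 := by
    rw [Real.exp_le_one_iff]
    simp
  have hvs : ∑ j ∈ range w, v j ≤ c * Real.exp (-(b : ℝ)) := by
    have h1 : ∑ j ∈ range w, v j =
        c * Real.exp (-(b : ℝ)) * ∑ j ∈ range w, Real.exp (-(2 * (j : ℝ) + 1)) := by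
      rw [mul_sum]
    rw [h1]
    exact mul_le_of_le_one_right (by positivity) (geom w)
  have hvs' : ∑ j ∈ range w, v j ≤ c :=
    hvs.trans (mul_le_of_le_one_right hc0.le hb)
  have hvs0 : 0 ≤ ∑ j ∈ range w, v j := sum_nonneg fun j _ => hv0 j
  have hXW : ∏ j ∈ range w, W j = X := hX
  have hX0 : 0 < X := by
    rw [← hXW]
    exact prod_pos fun j _ => hW0 j
  have hprodY : ∏ j ∈ range w, Ye Q x w b j ≤ X * Real.exp (∑ j ∈ range w, v j) := by
    calc ∏ j ∈ range w, Ye Q x w b j ≤ ∏ j ∈ range w, (W j * Real.exp (v j)) := by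
          refine prod_le_prod (fun j _ => (hY0 j).le) fun j _ => ?_
          have h1 := (hblk j).2.2.1
          have h2 : W j + v j * W j ≤ W j * Real.exp (v j) := by
            have h3 := mul_le_mul_of_nonneg_left (Real.add_one_le_exp (v j)) (hW0 j).le
            linarith
          have h4 := hUv j
          linarith
      _ = (∏ j ∈ range w, W j) * Real.exp (∑ j ∈ range w, v j) := by
          rw [prod_mul_distrib, Real.exp_sum]
      _ = _ := by rw [hXW]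
  have hlow : X ≤ ∏ j ∈ range w, Ye Q x w b j := by
    rw [← hXW]
    exact prod_le_prod (fun j _ => (hW0 j).le) fun j _ => (hblk j).2.1
  have hcb : c * Real.exp (-(b : ℝ)) * Real.exp c ≤
      (c + 1) * Real.exp c * Real.exp (-(b : ℝ)) := by
    have h1 : 0 < Real.exp c * Real.exp (-(b : ℝ)) := by positivity
    nlinarith
  have hexp : Real.exp (∑ j ∈ range w, v j) ≤ Real.exp c := Real.exp_le_exp.2 hvs'
  refine ⟨fun j => (hY0 j).le, ?_, ?_⟩
  · rw [abs_of_nonneg (by linarith)]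
    have h1 : Real.exp (∑ j ∈ range w, v j) - 1 ≤ c * Real.exp (-(b : ℝ)) * Real.exp c := by
      set t := ∑ j ∈ range w, v j with ht
      have h2 : Real.exp t - 1 ≤ t * Real.exp t := by
        have h3 : -t + 1 ≤ Real.exp (-t) := Real.add_one_le_exp (-t)
        have h4 := mul_le_mul_of_nonneg_left h3 (Real.exp_pos t).le
        rw [← Real.exp_add, add_neg_cancel, Real.exp_zero] at h4
        linarith
      refine h2.trans ?_
      exact mul_le_mul hvs hexp (Real.exp_pos _).le (by positivity)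
    calc ∏ j ∈ range w, Ye Q x w b j - X ≤ X * (Real.exp (∑ j ∈ range w, v j) - 1) := by
          linarith
      _ ≤ X * ((c + 1) * Real.exp c * Real.exp (-(b : ℝ))) :=
          mul_le_mul_of_nonneg_left (h1.trans hcb) hX0.le
      _ = _ := by ring
  · calc ∑ i ∈ range w, Ue Q x w b i * ∏ j ∈ (range w).erase i, Ye Q x w b j
        ≤ ∑ i ∈ range w, v i * ∏ j ∈ range w, Ye Q x w b j := by
          refine sum_le_sum fun i hi => ?_
          rw [← mul_prod_erase (range w) _ hi, ← mul_assoc]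
          refine mul_le_mul_of_nonneg_right ?_ (prod_nonneg fun j _ => (hY0 j).le)
          exact (hUv i).trans (mul_le_mul_of_nonneg_left (hblk i).2.1 (hv0 i))
      _ = (∑ i ∈ range w, v i) * ∏ j ∈ range w, Ye Q x w b j := by rw [sum_mul]
      _ ≤ (c * Real.exp (-(b : ℝ))) * (X * Real.exp c) := by
          refine mul_le_mul hvs (hprodY.trans (mul_le_mul_of_nonneg_left hexp hX0.le))
            (prod_nonneg fun j _ => (hY0 j).le) (by positivity)
      _ = (c * Real.exp (-(b : ℝ)) * Real.exp c) * X := by ring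
      _ ≤ ((c + 1) * Real.exp c * Real.exp (-(b : ℝ))) * X :=
          mul_le_mul_of_nonneg_right hcb hX0.le

end MNEM

theorem tMNE (h1 : BnfStmt) (h2 : EsyStmt) (h3 : MsbStmt) (h4 : S_BLK) : MNEStmt := by
  obtain ⟨C, hC, h⟩ := MNEM.core h1 h2 h3 h4
  refine ⟨C, hC, fun Q x w b hw hQ => ?_⟩
  set y : ℕ → ℝ := fun p => if p ∈ Q then x p else 0 with hy
  have hyx : ∀ p ∈ Q, y p = x p := fun p hp => by simp [hy, hp]
  have hsub : ∀ j, blk Q w j ⊆ Q := fun j => filter_subset _ _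
  have hYe : ∀ j, Ye Q y w b j = Ye Q x w b j := by
    intro j
    rw [Ye, Ye]
    refine sum_congr rfl fun s hs => ?_
    congr 1
    refine prod_congr rfl fun p hp => hyx p (hsub j ?_)
    rw [lowS, mem_filter, mem_powerset] at hs
    exact hs.1 hp
  have hUe : ∀ j, Ue Q y w b j = Ue Q x w b j := by
    intro j
    rw [Ue, Ue]
    refine sum_congr rfl fun s hs => ?_
    refine prod_congr rfl fun p hp => hyx p (hsub j ?_)
    exact (mem_powersetCard.1 hs).1 hp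
  have hX : ∏ p ∈ Q, (1 - y p) = ∏ p ∈ Q, (1 - x p) :=
    prod_congr rfl fun p hp => by rw [hyx p hp]
  have h5 := h Q y w b hw (fun p hp => by rw [hyx p hp]; exact hQ p hp) (fun p => by
    by_cases hp : p ∈ Q
    · rw [hyx p hp]; exact (hQ p hp).2.2.2.1
    · simp [hy, hp])
  simp only [hYe, hUe, hX] at h5
  exact h5

end Pool.Agent.Lib.SHD
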