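import Pool.Agent.Lib.SHD.SpecE

/-!
MP_9a4459_nt, directory Lib/SHD, module PRE (helper56): the fundamental lemma (dimension at most 3) in a
progression. A copy of Lib/SHK/Prg.lean, with the Bonferroni statement replaced by `FLEStmt`.
-/

set_option autoImplicit false

namespace Pool.Agent.Lib.SHD

open Finset Filter Topology MeasureTheory
open Pool.Agent.Lib.MP_3ef1ab_nt Pool.Agent.Results.MP_9a4459_nt Pool.Agent.Lib.SHG
open Pool.Agent.Lib.SHR hiding ShanksLaw
open Pool.Agent.Lib.SHK (pr Vk nu mem_pr MedStmt PrgStmt MrtStmt)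
open Pool.Agent.Lib.BV (thr lowS BnfStmt HlyStmt EsyStmt CttStmt LvlStmt MsbStmt)
open scoped Classical

namespace PREM

lemma cast_iff {p x b : ℕ} (hb : b < p) : x % p = b ↔ (x : ZMod p) = (b : ZMod p) := by
  rw [ZMod.natCast_eq_natCast_iff', Nat.mod_eq_of_lt hb]

/-- the classes t mod p with n0 + D t + h = b for some h in H -/
noncomputable def OmP (H : Finset ℕ) (b n0 D p : ℕ) : Finset ℕ :=
  (range p).filter (fun t => ∃ h ∈ H, (n0 + D * t + h) % p = b)

lemma card_OmP (H : Finset ℕ) {b n0 D p : ℕ} (hp : p.Prime) (hD : p.Coprime D) (hb : b < p) :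
    (OmP H b n0 D p).card = nu H p := by
  have : Fact p.Prime := ⟨hp⟩
  have : NeZero p := ⟨hp.ne_zero⟩
  have hD0 : (D : ZMod p) ≠ 0 := by
    intro h
    rw [ZMod.natCast_eq_zero_iff] at h
    exact hp.one_lt.ne' (Nat.Coprime.eq_one_of_dvd hD h)
  unfold OmP nu
  apply card_nbij' (fun t : ℕ => ((b : ZMod p) - n0 - D * (t : ZMod p)).val)
    (fun r : ℕ => (((b : ZMod p) - n0 - (r : ZMod p)) / D).val)
  · intro t ht
    rw [Finset.mem_coe, mem_filter] at ht
    obtain ⟨_, h, hh, hht⟩ := ht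
    rw [cast_iff hb] at hht
    rw [Finset.mem_coe, mem_image]
    refine ⟨h, hh, ?_⟩
    have e : (b : ZMod p) - n0 - D * t = (h : ZMod p) := by
      rw [← hht]
      push_cast
      ring
    simp only [e, ZMod.val_natCast]
  · intro r hr
    rw [Finset.mem_coe, mem_image] at hr
    obtain ⟨h, hh, hhr⟩ := hr
    rw [Finset.mem_coe, mem_filter]
    refine ⟨mem_range.2 (ZMod.val_lt _), h, hh, ?_⟩
    rw [cast_iff hb]
    have e1 : (r : ZMod p) = (h : ZMod p) := by
      rw [← hhr]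
      exact ZMod.natCast_mod h p
    push_cast
    rw [ZMod.natCast_zmod_val, e1]
    field_simp
    ring
  · intro t ht
    rw [Finset.mem_coe, mem_filter, mem_range] at ht
    simp only [ZMod.natCast_zmod_val]
    have e : ((b : ZMod p) - n0 - ((b : ZMod p) - n0 - D * t)) / D = (t : ZMod p) := by
      field_simp
      ring
    rw [e, ZMod.val_natCast, Nat.mod_eq_of_lt ht.1]
  · intro r hr
    rw [Finset.mem_coe, mem_image] at hr
    obtain ⟨h, _, hhr⟩ := hr
    have hrp : r < p := by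
      rw [← hhr]
      exact Nat.mod_lt _ hp.pos
    simp only [ZMod.natCast_zmod_val]
    have e : (b : ZMod p) - n0 - D * (((b : ZMod p) - n0 - r) / D) = (r : ZMod p) := by
      field_simp
      ring
    rw [e, ZMod.val_natCast, Nat.mod_eq_of_lt hrp]

lemma mem_OmP (H : Finset ℕ) {b n0 D p : ℕ} (hp : 0 < p) (t : ℕ) :
    t % p ∈ OmP H b n0 D p ↔ ∃ h ∈ H, (n0 + D * t + h) % p = b := by
  unfold OmP
  rw [mem_filter, mem_range]
  have e : ∀ h, (n0 + D * (t % p) + h) % p = (n0 + D * t + h) % p := by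
    intro h
    have h1 : n0 + D * (t % p) + h ≡ n0 + D * t + h [MOD p] :=
      Nat.ModEq.add_right _ (Nat.ModEq.add_left _ (Nat.ModEq.mul_left _ (Nat.mod_modEq t p)))
    exact h1
  constructor
  · rintro ⟨_, h, hh, hht⟩
    exact ⟨h, hh, by rw [← e h]; exact hht⟩
  · rintro ⟨h, hh, hht⟩
    exact ⟨Nat.mod_lt _ hp, h, hh, by rw [e h]; exact hht⟩

end PREM

open PREM in
theorem tPRE (h : FLEStmt) : PREStmt := by
  obtain ⟨C, hC, hF⟩ := h
  refine ⟨C, hC, ?_⟩
  intro Q H a w b n0 D N hw hb hH hQ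
  have hcard : ∀ p ∈ Q, (OmP H (a p) n0 D p).card = nu H p := fun p hp =>
    card_OmP H (hQ p hp).1 (hQ p hp).2.2.2.1 (hQ p hp).2.2.2.2
  have hB := hF w b N Q (fun p => OmP H (a p) n0 D p) hw hb (fun p hp =>
    ⟨(hQ p hp).1, (hQ p hp).2.1, (hQ p hp).2.2.1, filter_subset _ _, by
      have h1 : (OmP H (a p) n0 D p).card = nu H p := hcard p hp
      have h2 : nu H p ≤ H.card := card_image_le
      show (OmP H (a p) n0 D p).card ≤ 3
      omega⟩)
  have hset : (range N).filter (fun t => ∀ p ∈ Q, t % p ∉ OmP H (a p) n0 D p) =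
      (range N).filter (fun t => ∀ p ∈ Q, ∀ h ∈ H, (n0 + D * t + h) % p ≠ a p) := by
    apply filter_congr
    intro t _
    constructor
    · intro hh p hp h hh1 he
      exact hh p hp ((mem_OmP H (hQ p hp).1.pos t).2 ⟨h, hh1, he⟩)
    · intro hh p hp hm
      obtain ⟨h, hh1, he⟩ := (mem_OmP H (hQ p hp).1.pos t).1 hm
      exact hh p hp h hh1 he
  have hprod : ∏ p ∈ Q, (1 - ((OmP H (a p) n0 D p).card : ℝ) / p) = ∏ p ∈ Q, (1 - (nu H p : ℝ) / p) :=
    prod_congr rfl (fun p hp => by rw [hcard p hp])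
  rw [hset, hprod] at hB
  exact hB

end Pool.Agent.Lib.SHD
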