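import Pool.Agent.Lib.SHD.AllM
import Pool.Agent.Lib.SHD.LIN
import Pool.Agent.Lib.SHD.BLK
import Pool.Agent.Lib.SHD.MNE
import Pool.Agent.Lib.SHD.FLE
import Pool.Agent.Lib.SHD.PRE
import Pool.Agent.Lib.SHD.NMC
import Pool.Agent.Lib.SHD.MEDC
import Pool.Agent.Lib.SHD.WDC
import Pool.Agent.Lib.SHD.FNF
import Pool.Agent.Lib.BV.Bnf
import Pool.Agent.Lib.BV.Hly
import Pool.Agent.Lib.BV.Esy
import Pool.Agent.Lib.BV.Ctt
import Pool.Agent.Lib.BV.Lvl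
import Pool.Agent.Lib.BV.Msb
import Pool.Agent.Lib.BV.Pbs

/-! MP_9a4459_nt, directory Lib/SHD (helper82, helper69): assembly for
`log (T k) = o(log k)`. -/

set_option autoImplicit false

namespace Pool.Agent.Lib.SHD

open Pool.Agent.Lib.MP_3ef1ab_nt Pool.Agent.Lib.SHG

theorem aFLE : FLEStmt :=
  tFLE Pool.Agent.Lib.BV.tBnf Pool.Agent.Lib.BV.tHly
    (Pool.Agent.Lib.BV.tCtt Pool.Agent.Lib.BV.tEsy) (Pool.Agent.Lib.BV.tLvl Pool.Agent.Lib.BV.tPbs)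
    tBLK tLIN
    (tMNE Pool.Agent.Lib.BV.tBnf Pool.Agent.Lib.BV.tEsy Pool.Agent.Lib.BV.tMsb tBLK)

theorem aWDC : WDCStmt :=
  tWDC tCB tVB aSUB (tMEDC Pool.Agent.Lib.SHK.aMrt (tPRE aFLE) tRT) mer tNMC tNM5

end Pool.Agent.Lib.SHD
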