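import Pool.Agent.Lib.SHD.AllN
import Pool.Agent.Lib.SHD.WDE
import Pool.Agent.Lib.SHD.FNI

/-! MP_9a4459_nt, directory Lib/SHD (helper82, helper69): assembly for sieving limits `T k ≤ k^δ`. -/

set_option autoImplicit false

namespace Pool.Agent.Lib.SHD

open Finset Filter Topology MeasureTheory
open Pool.Agent.Lib.MP_3ef1ab_nt Pool.Agent.Results.MP_9a4459_nt Pool.Agent.Lib.SHG
open Pool.Agent.Lib.SHR hiding ShanksLaw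
open scoped Classical

theorem aMEDC : MedC := tMEDC Pool.Agent.Lib.SHK.aMrt (tPRE aFLE) tRT

theorem aWDE : WDEStmt := tWDE tCB tVB aSUB aMEDC mer tNMC tNM5

theorem pw_of (T : ℕ → ℕ) (δ : ℝ) (hδ : 0 < δ)
    (h : ∀ᶠ k : ℕ in atTop, (T k : ℝ) ≤ (k : ℝ) ^ δ) : Pw δ T := by
  filter_upwards [h, eventually_ge_atTop 1] with k h1 h2
  have hk : (1 : ℝ) ≤ (k : ℝ) := by exact_mod_cast h2
  have hk0 : (0 : ℝ) < (k : ℝ) := by linarith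
  rcases Nat.eq_zero_or_pos (T k) with h | h
  · rw [h]
    simp only [Nat.cast_zero, Real.log_zero]
    exact mul_nonneg hδ.le (Real.log_nonneg hk)
  · have h3 := Real.log_le_log (by exact_mod_cast h : (0 : ℝ) < (T k : ℝ)) h1
    rwa [Real.log_rpow hk0] at h3

/-- existence -/
theorem aNVI : ∃ δ : ℝ, 0 < δ ∧ ∀ T : ℕ → ℕ, Monotone T → Pw δ T →
    ∃ (Ω : Type) (m0 : MeasurableSpace Ω) (P : Measure Ω) (ℱ : Filtration ℕ m0) (A : ℕ → Set Ω),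
      IsProbabilityMeasure P ∧ CGModel P ℱ A T := tNVI tVB mer

/-- the last steps for `T k ≤ k^δ` -/
theorem aFNI.{u} : ∀ α : ℝ, 0 < α → ∃ δ c : ℝ, 0 < δ ∧ c < 1 ∧
    ∀ T : ℕ → ℕ, Monotone T → (∀ᶠ k : ℕ in atTop, (T k : ℝ) ≤ (k : ℝ) ^ δ) →
    (∃ (Ω : Type) (m0 : MeasurableSpace Ω) (P : Measure Ω) (ℱ : Filtration ℕ m0) (A : ℕ → Set Ω),
      IsProbabilityMeasure P ∧ CGModel P ℱ A T) ∧
    ((∃ᶠ k : ℕ in atTop, Real.log k ^ α ≤ (T k : ℝ)) →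
      ∀ (Ω : Type u) (m0 : MeasurableSpace Ω) (P : Measure Ω) [IsProbabilityMeasure P]
      (ℱ : Filtration ℕ m0) (A : ℕ → Set Ω), CGModel P ℱ A T →
      ∀ᵐ ω ∂P, ¬ ShanksLaw (fun k => ω ∈ A k)) ∧
    ((∀ᶠ k : ℕ in atTop, Real.log k ^ α ≤ (T k : ℝ)) →
      ∀ (Ω : Type u) (m0 : MeasurableSpace Ω) (P : Measure Ω) [IsProbabilityMeasure P]
      (ℱ : Filtration ℕ m0) (A : ℕ → Set Ω), CGModel P ℱ A T →
      ∀ᵐ ω ∂P, ∃ G : ℕ, ∀ g : ℕ, G ≤ g → Even g → ∃ m : ℕ, Consec (fun k => ω ∈ A k) m (m + g) ∧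
        Real.log ((m : ℝ) + g) < c * √(g : ℝ)) := by
  intro α hα
  obtain ⟨δ1, c, hδ1, hc, h1⟩ := tFNI.{u} tMDL aUP2 aWDE α hα
  obtain ⟨δ0, hδ0, h0⟩ := aNVI
  refine ⟨min δ1 δ0, c, lt_min hδ1 hδ0, hc, fun T hT hTδ => ?_⟩
  have hP := pw_of T (min δ1 δ0) (lt_min hδ1 hδ0) hTδ
  exact ⟨h0 T hT (Pw_mono (min_le_right _ _) hP), h1 T hT (Pw_mono (min_le_left _ _) hP)⟩

end Pool.Agent.Lib.SHD
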