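import Pool.Agent.Lib.SHD.SpecI
import Pool.Agent.Lib.SHG.WC

/-! MP_9a4459_nt, directory SHD, module WCE (from SHG/WC.lean and WDB.lean): windows with the explicit
constant for all `T k ≤ k^δ`. -/

set_option autoImplicit false

namespace Pool.Agent.Lib.SHD

open Finset Filter Topology MeasureTheory
open Pool.Agent.Lib.MP_3ef1ab_nt Pool.Agent.Results.MP_9a4459_nt Pool.Agent.Lib.SHG
open Pool.Agent.Lib.SHR hiding ShanksLaw
open Pool.Agent.Lib.SHK (pr mem_pr Vk pr_union pr_disjoint)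
open scoped Classical

open Pool.Agent.Lib.SHG.WCM in
theorem tWCE (h1 : S_CB) (h2 : S_VB) (h3 : S_NM6) (hSml : Pool.Agent.Lib.SHK.SmlStmt)
    (hMed : MedC) (hMtc : Pool.Agent.Lib.SHK.MtcStmt) (hMer : MerStmt) : WCEStmt := by
  intro a c ha hc hc1
  obtain ⟨c0, c1, ε, η, hc0, hc01, hc1c, hε, hε2, hη, hη10, hηa, hnum⟩ := h3 a c ha hc hc1
  obtain ⟨g1, hsml⟩ := hSml ε (max 1 (2 / η ^ 2)) hε (by linarith) (le_max_left _ _)
  obtain ⟨K1, hK11, y0, hmed⟩ := hMed 3 ε hε (by linarith)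
  obtain ⟨y1, hmert⟩ := mert hMtc ε hε
  obtain ⟨hVB, C, hC, hVC⟩ := h2 hMer
  obtain ⟨δ, hδ, hnum2⟩ := hnum C K1 (max 100 (max y0 y1)) hC hK11
  refine ⟨δ, ε, hδ, hε, by linarith, ?_⟩
  intro T hT hGr hSub
  obtain ⟨K0, hK0⟩ := eventually_atTop.1 (hGr.and hSub)
  have hcpos : 0 < c := by linarith
  have hc0pos : 0 < c0 := by linarith
  have hsq : Tendsto (fun g : ℕ => √(g : ℝ)) atTop atTop :=
    Real.tendsto_sqrt_atTop.comp tendsto_natCast_atTop_atTop
  filter_upwards [hnum2, eventually_ge_atTop g1,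
    hsq.eventually_ge_atTop ((K0 : ℝ) / c0)] with g hn hg1 hsK hev
  obtain ⟨n1, n2, n3, n4, n5, n7, n8, n9, n10, n11, hs1, hs2, n12⟩ := hn
  have hg100 : (100 : ℝ) ≤ g := by exact_mod_cast n1
  have hg0 : (0 : ℝ) < g := by linarith
  have hsg : 0 < √(g : ℝ) := Real.sqrt_pos.2 hg0
  have hsg1 : 1 ≤ √(g : ℝ) := by
    rw [Real.one_le_sqrt]
    linarith
  generalize hv : ⌊Real.exp (c1 * √(g : ℝ))⌋₊ = v at *
  have hyle : ((⌊η * √(g : ℝ)⌋₊ : ℕ) : ℝ) ≤ η * √(g : ℝ) := Nat.floor_le (by positivity)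
  generalize hy : ⌊η * √(g : ℝ)⌋₊ = y at *
  generalize hD : primorial y = D at *
  have hDpos : 0 < D := by
    rw [← hD]
    exact primorial_pos y
  -- v is large
  have hlogv : 0 < Real.log (v : ℝ) := lt_of_lt_of_le (by positivity) n8
  have hvpos : (0 : ℝ) < v := by
    rcases Nat.eq_zero_or_pos v with h | h
    · rw [h] at hlogv
      simp at hlogv
    · exact_mod_cast h
  have hKv : K0 ≤ v := by
    have e1 : Real.log (v : ℝ) ≤ v := by
      have := Real.log_le_sub_one_of_pos hvpos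
      linarith
    rw [div_le_iff₀ hc0pos] at hsK
    have : (K0 : ℝ) ≤ v := by nlinarith
    exact_mod_cast this
  -- M
  obtain ⟨M, hM⟩ : ∃ M, M = T (2 * v) := ⟨_, rfl⟩
  have hMlog : Real.log (M : ℝ) ≤ 4 * δ * √(g : ℝ) := by
    have e1 := (hK0 (2 * v) (by omega)).2
    rw [← hM] at e1
    push_cast at e1
    have e2 : δ * Real.log (2 * (v : ℝ)) ≤ δ * (1 * √(g : ℝ)) := by
      refine mul_le_mul_of_nonneg_left (n9.trans ?_) hδ.le
      nlinarith
    have e3 : 0 < δ * √(g : ℝ) := by positivity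
    linarith
  obtain ⟨l, hl⟩ : ∃ l, l = v / (M + 1) := ⟨_, rfl⟩
  have hl1 : (M + 1) * l ≤ v := by
    rw [hl]
    exact Nat.mul_div_le _ _
  have hlv : l ≤ v := by
    rw [hl]
    exact Nat.div_le_self _ _
  obtain ⟨i, hiM, hconst⟩ := h1 T hT v l M (by
    rw [hM]
    rw [hM] at hl1
    exact hT (by omega))
  obtain ⟨u, hu⟩ : ∃ u, u = v + i * l := ⟨_, rfl⟩
  have hu2 : v + (i + 1) * l = u + l := by
    rw [hu]
    ring
  rw [hu2, ← hu] at hconst
  have hul : u + l ≤ 2 * v := by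
    have e1 : (i + 1) * l ≤ (M + 1) * l := Nat.mul_le_mul_right _ (by omega)
    omega
  have hvu : v ≤ u := by omega
  obtain ⟨w, hw⟩ : ∃ w, w = T u := ⟨_, rfl⟩
  rw [← hw] at hconst
  have hlogu : c0 * √(g : ℝ) ≤ Real.log u := n8.trans (Real.log_le_log hvpos (by exact_mod_cast hvu))
  have hyw : y ≤ w := by
    have e1 := (hK0 u (by omega)).1
    rw [← hw] at e1
    have e2 : η * √(g : ℝ) ≤ a * (c0 * √(g : ℝ)) := by nlinarith
    have e3 : a * (c0 * √(g : ℝ)) ≤ a * Real.log u := mul_le_mul_of_nonneg_left hlogu ha.le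
    have : (y : ℝ) ≤ w := by linarith
    exact_mod_cast this
  have hwM : w ≤ M := by
    rw [hw, hM]
    exact hT (by omega)
  have hy100 : 100 ≤ y := (le_max_left _ _).trans n2
  have hw100 : (100 : ℝ) ≤ w := by exact_mod_cast hy100.trans hyw
  have hlw1 : 1 ≤ Real.log (w : ℝ) := by
    have e1 : Real.log (Real.exp 1) ≤ Real.log (w : ℝ) :=
      Real.log_le_log (Real.exp_pos _) (by linarith [Real.exp_one_lt_d9])
    rwa [Real.log_exp] at e1
  have hwlog : Real.log (w : ℝ) ≤ 4 * δ * √(g : ℝ) := by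
    refine le_trans ?_ hMlog
    exact Real.log_le_log (by linarith) (by exact_mod_cast hwM)
  -- N
  obtain ⟨N, hN⟩ : ∃ N, N = (l - 2 * D - g) / D := ⟨_, rfl⟩
  have n10' : Real.exp ((c1 - 2 * η) * √(g : ℝ)) ≤ (N : ℝ) := by
    have := n10 M (by omega) hMlog
    rw [← hl, ← hN] at this
    exact this
  have hNpos : 0 < N := by
    have : (0 : ℝ) < N := lt_of_lt_of_le (Real.exp_pos _) n10'
    exact_mod_cast this
  have hDN : D * N ≤ l - 2 * D - g := by
    rw [hN]
    exact Nat.mul_div_le _ _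
  have hDN1 : D ≤ D * N := Nat.le_mul_of_pos_right _ hNpos
  have hNposR : (0 : ℝ) < N := by exact_mod_cast hNpos
  have hwN : K1 * Real.log w ≤ Real.log N := by
    refine (n11 (Real.log w) hlw1 hwlog).trans ?_
    have e1 := Real.log_le_log (Real.exp_pos _) n10'
    rwa [Real.log_exp] at e1
  -- small primes
  have hgC : (g : ℝ) ≤ max 1 (2 / η ^ 2) * (y : ℝ) ^ 2 :=
    n4.trans (mul_le_mul_of_nonneg_right (le_max_right _ _) (by positivity))
  obtain ⟨b, S0, hS0, hS0c, hb⟩ := hsml g y (fun _ => 0) hg1 hev n3 hgC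
    (fun p hp => (mem_pr.1 hp).2.2.pos)
  rw [hD] at hb
  obtain ⟨A0, hA1, hA2, hA3⟩ := start u b D hDpos
  have hy0 : y0 ≤ y := ((le_max_left _ _).trans (le_max_right _ _)).trans n2
  have hy1 : y1 ≤ y := ((le_max_right _ _).trans (le_max_right _ _)).trans n2
  have hmed' := hmed y w g N A0 D (fun _ => 0) S0 hy0 hyw (by omega) n5 hwN hS0 (by
    intro p hp
    obtain ⟨hpy, hpw, hpp⟩ := mem_pr.1 hp
    refine ⟨?_, hpp.pos⟩
    rw [Nat.Prime.coprime_iff_not_dvd hpp, ← hD, hpp.dvd_primorial_iff]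
    exact not_le.2 hpy)
  set S : Finset ℕ := (range N).filter (fun t =>
      (∀ p ∈ pr y w, (A0 + D * t) % p ≠ 0 ∧ (A0 + D * t + g) % p ≠ 0) ∧
      ((S0.filter (fun j => ∀ p ∈ pr y w, (A0 + D * t + j) % p ≠ 0)).card : ℝ) ≤
        (1 + ε) * (S0.card * Vk 1 y w)) with hS
  -- the position of the window
  have hend : A0 + D * N + g ≤ u + l := by omega
  have hVw : 0 < VV w := VV_pos w
  have hVinv : 1 ≤ (VV w)⁻¹ := (hVB w).1
  have hrC : (VV w)⁻¹ ≤ C * (2 + 4 * δ * √(g : ℝ)) := by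
    refine (hVC w).trans ?_
    refine mul_le_mul_of_nonneg_left ?_ hC.le
    have e1 : Real.log ((w : ℝ) + 1) ≤ Real.log (2 * (w : ℝ)) :=
      Real.log_le_log (by linarith) (by linarith)
    rw [Real.log_mul (by norm_num) (by linarith)] at e1
    have e2 := Real.log_two_lt_d9
    linarith
  have hrho : ∀ k, u ≤ k → k ≤ u + l → rho T k = if SieveFree w k then (VV w)⁻¹ else 0 := by
    intro k hk1 hk2
    unfold rho
    rw [hconst k hk1 hk2]
  have hrho_le : ∀ k, u ≤ k → k ≤ u + l → rho T k ≤ (VV w)⁻¹ := by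
    intro k hk1 hk2
    rw [hrho k hk1 hk2]
    split_ifs
    · exact le_rfl
    · positivity
  have hlogk : ∀ k : ℕ, u ≤ k → k ≤ u + l →
      c0 * √(g : ℝ) ≤ Real.log k ∧ Real.log k ≤ c * √(g : ℝ) := by
    intro k hk1 hk2
    have hk0 : (0 : ℝ) < k := lt_of_lt_of_le hvpos (by exact_mod_cast hvu.trans hk1)
    refine ⟨n8.trans (Real.log_le_log hvpos (by exact_mod_cast hvu.trans hk1)), ?_⟩
    refine le_trans (Real.log_le_log hk0 ?_) n9
    have : k ≤ 2 * v := by omega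
    exact_mod_cast this
  have hfree : ∀ n : ℕ, (∀ p ∈ pr 0 y, n % p ≠ 0) → (∀ p ∈ pr y w, n % p ≠ 0) →
      SieveFree w n := by
    intro n e1 e2 p hp hpw hpn
    have e3 : n % p = 0 := Nat.mod_eq_zero_of_dvd hpn
    rcases le_or_gt p y with h | h
    · exact e1 p (mem_pr.2 ⟨hp.pos, h, hp⟩) e3
    · exact e2 p (mem_pr.2 ⟨h, hpw, hp⟩) e3
  have hDt : ∀ t ∈ S, D * t + D ≤ D * N := by
    intro t ht
    have e1 : t < N := mem_range.1 (mem_filter.1 ht).1
    have e2 : D * (t + 1) ≤ D * N := Nat.mul_le_mul_left D e1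
    have e3 : D * (t + 1) = D * t + D := by ring
    omega
  have hmod : ∀ t, A0 + D * t ≡ b [MOD D] := by
    intro t
    have h6 : A0 + D * t ≡ A0 + 0 [MOD D] :=
      Nat.ModEq.add_left _ ((Nat.modEq_zero_iff_dvd).2 (dvd_mul_right _ _))
    exact h6.trans hA3
  have hlogg : 0 < Real.log (g : ℝ) := Real.log_pos (by linarith)
  have hVy : (VV y)⁻¹ ≤ (1 + ε) * (Real.exp Real.eulerMascheroniConstant *
      (Real.log g / 2)) := by
    refine (hmert y hy1).trans ?_
    have e1 : Real.log (y : ℝ) ≤ Real.log g / 2 := by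
      rcases Nat.eq_zero_or_pos y with h | h
      · rw [h]
        simp only [Nat.cast_zero, Real.log_zero]
        positivity
      · have hy0' : (0 : ℝ) < y := by exact_mod_cast h
        have e2 : (y : ℝ) ≤ √(g : ℝ) := by nlinarith
        have e3 := Real.log_le_log hy0' e2
        rwa [Real.log_sqrt hg0.le] at e3
    refine mul_le_mul_of_nonneg_left ?_ (by linarith)
    exact mul_le_mul_of_nonneg_left e1 (Real.exp_pos _).le
  have hcard : Real.exp ((c1 - 2 * η) * √(g : ℝ)) / (K1 * Real.log w ^ 6) ≤ (S.card : ℝ) := by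
    have hlw0 : 0 < Real.log (w : ℝ) := by linarith
    have hK10 : 0 < K1 := by linarith
    rw [div_le_iff₀ (by positivity)]
    refine (n10'.trans hmed').trans (le_of_eq ?_)
    ring
  have n12' := n12 (Real.log w) hlw1 hwlog
  refine ⟨A0, D, N, S, (VV w)⁻¹, (1 + ε) ^ 3 * (Real.exp Real.eulerMascheroniConstant / 2) * g,
    c0 * √(g : ℝ), c * √(g : ℝ), ?_, by omega, filter_subset _ _, by positivity, by positivity,
    ?_, ?_, ?_, ?_, ?_⟩
  · have : Nat.sqrt g ≤ g := Nat.sqrt_le_self g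
    omega
  · intro t ht
    have ht' := hDt t ht
    have htS := (mem_filter.1 ht).2
    obtain ⟨hb1, hb2⟩ := hb (A0 + D * t) (hmod t)
    refine ⟨?_, ?_, ?_⟩
    · rw [hrho _ (by omega) (by omega), if_pos]
      exact hfree _ (fun p hp => (hb1 p hp).1) (fun p hp => (htS.1 p hp).1)
    · rw [hrho _ (by omega) (by omega), if_pos]
      exact hfree _ (fun p hp => (hb1 p hp).2) (fun p hp => (htS.1 p hp).2)
    · have e1 : ∑ i ∈ Ioo 0 g, rho T (A0 + D * t + i) =
          ∑ i ∈ Ioo 0 g, if SieveFree w (A0 + D * t + i) then (VV w)⁻¹ else 0 := by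
        refine sum_congr rfl fun i hi => ?_
        have := mem_Ioo.1 hi
        exact hrho _ (by omega) (by omega)
      rw [e1, ← sum_filter, sum_const, nsmul_eq_mul]
      have e2 : (Ioo 0 g).filter (fun i => SieveFree w (A0 + D * t + i)) ⊆
          S0.filter (fun j => ∀ p ∈ pr y w, (A0 + D * t + j) % p ≠ 0) := by
        intro i hi
        obtain ⟨hi1, hi2⟩ := mem_filter.1 hi
        rw [mem_filter]
        refine ⟨?_, ?_⟩
        · by_contra hiS
          obtain ⟨p, hp, hpe⟩ := hb2 i hi1 hiS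
          obtain ⟨hp0, hpy, hpp⟩ := mem_pr.1 hp
          exact hi2 p hpp (hpy.trans hyw) (Nat.dvd_of_mod_eq_zero hpe)
        · intro p hp hpe
          obtain ⟨hp0, hpw, hpp⟩ := mem_pr.1 hp
          exact hi2 p hpp hpw (Nat.dvd_of_mod_eq_zero hpe)
      have e3 : (((Ioo 0 g).filter (fun i => SieveFree w (A0 + D * t + i))).card : ℝ) ≤
          (1 + ε) * (S0.card * Vk 1 y w) :=
        le_trans (by exact_mod_cast card_le_card e2) htS.2
      have e4 : (1 + ε) * (S0.card * Vk 1 y w) ≤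
          (1 + ε) * (((1 + ε) * (g / Real.log g)) * Vk 1 y w) := by
        refine mul_le_mul_of_nonneg_left ?_ (by linarith)
        exact mul_le_mul_of_nonneg_right hS0c (Vk_pos y w).le
      have e5 : (1 + ε) * (((1 + ε) * (g / Real.log g)) * Vk 1 y w) * (VV w)⁻¹ =
          (1 + ε) ^ 2 * (g / Real.log g) * (VV y)⁻¹ := by
        rw [Vk_mul hyw]
        have := (Vk_pos y w).ne'
        have := (VV_pos y).ne'
        field_simp
      calc (((Ioo 0 g).filter (fun i => SieveFree w (A0 + D * t + i))).card : ℝ) * (VV w)⁻¹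
          ≤ (1 + ε) * (((1 + ε) * (g / Real.log g)) * Vk 1 y w) * (VV w)⁻¹ :=
            mul_le_mul_of_nonneg_right (e3.trans e4) (by positivity)
        _ = (1 + ε) ^ 2 * (g / Real.log g) * (VV y)⁻¹ := e5
        _ ≤ (1 + ε) ^ 2 * (g / Real.log g) *
            ((1 + ε) * (Real.exp Real.eulerMascheroniConstant * (Real.log g / 2))) :=
            mul_le_mul_of_nonneg_left hVy (by positivity)
        _ = (1 + ε) ^ 3 * (Real.exp Real.eulerMascheroniConstant / 2) * g := by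
            have := hlogg.ne'
            field_simp
  · intro k hk1 hk2
    have hk3 : u ≤ k := by omega
    have hk4 : k ≤ u + l := by omega
    obtain ⟨e1, e2⟩ := hlogk k hk3 hk4
    refine ⟨e1, e2, ?_⟩
    have e3 := (hrho_le k hk3 hk4).trans hrC
    exact (mul_le_mul_of_nonneg_left e3 (show (0 : ℝ) ≤ 1 + ε by linarith)).trans hs1
  · have e1 : (1 - ε) * (VV w)⁻¹ ≤ (VV w)⁻¹ := by nlinarith
    exact e1.trans (hrC.trans hs2)
  · refine n12'.trans ?_
    have e1 : (1 - ε) / √(g : ℝ) ≤ (1 - ε) * (VV w)⁻¹ / (c * √(g : ℝ)) := by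
      rw [div_le_div_iff₀ hsg (by positivity)]
      have e0 : 0 < 1 - ε := by linarith
      have e2 : c ≤ (VV w)⁻¹ := hc1.trans hVinv
      have e3 : (1 - ε) * √(g : ℝ) * c ≤ (1 - ε) * √(g : ℝ) * (VV w)⁻¹ :=
        mul_le_mul_of_nonneg_left e2 (by positivity)
      nlinarith
    have e2 : ((1 - ε) / √(g : ℝ)) ^ 2 ≤ ((1 - ε) * (VV w)⁻¹ / (c * √(g : ℝ))) ^ 2 := by
      refine pow_le_pow_left₀ ?_ e1 2
      have e0 : 0 < 1 - ε := by linarith
      positivity
    have e3 : (1 + ε) ^ 2 * ((1 + ε) ^ 3 * (Real.exp Real.eulerMascheroniConstant / 2) * g) /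
        (c0 * √(g : ℝ)) = (1 + ε) ^ 5 * (Real.exp Real.eulerMascheroniConstant / 2) * g /
        (c0 * √(g : ℝ)) := by
      ring
    rw [e3]
    refine mul_le_mul hcard ?_ (by positivity) (by positivity)
    exact mul_le_mul_of_nonneg_right e2 (Real.exp_pos _).le
  · exact (hlogk _ (by omega) hend).2

end Pool.Agent.Lib.SHD
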