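import Pool.Agent.Lib.SHD.AllQ
import Pool.Agent.Lib.SHD.NM6
import Pool.Agent.Lib.SHD.WCE

/-! MP_9a4459_nt, directory Lib/SHD (helper82): the explicit constant for `a log k ≤ T k ≤ k^δ`. -/

set_option autoImplicit false

namespace Pool.Agent.Lib.SHD

open Finset Filter Topology MeasureTheory
open Pool.Agent.Lib.MP_3ef1ab_nt Pool.Agent.Results.MP_9a4459_nt Pool.Agent.Lib.SHG
open Pool.Agent.Lib.SHR hiding ShanksLaw
open scoped Classical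

theorem aWCE : WCEStmt :=
  tWCE tCB tVB tNM6 Pool.Agent.Lib.SHK.aSml aMEDC Pool.Agent.Lib.SHK.aMtc mer

/-- the last steps -/
theorem aFNR.{u} : ∀ a c : ℝ, 0 < a → √(Real.exp Real.eulerMascheroniConstant / 2) < c →
    ∃ δ : ℝ, 0 < δ ∧ ∀ T : ℕ → ℕ, Monotone T →
    (∀ᶠ k : ℕ in atTop, a * Real.log k ≤ T k ∧ (T k : ℝ) ≤ (k : ℝ) ^ δ) →
    (∃ (Ω : Type) (m0 : MeasurableSpace Ω) (P : Measure Ω) (ℱ : Filtration ℕ m0) (A : ℕ → Set Ω),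
      IsProbabilityMeasure P ∧ CGModel P ℱ A T) ∧
    ∀ (Ω : Type u) (m0 : MeasurableSpace Ω) (P : Measure Ω) [IsProbabilityMeasure P]
      (ℱ : Filtration ℕ m0) (A : ℕ → Set Ω), CGModel P ℱ A T →
      ∀ᵐ ω ∂P, ∃ G : ℕ, ∀ g : ℕ, G ≤ g → Even g → ∃ m : ℕ, Consec (fun k => ω ∈ A k) m (m + g) ∧
        Real.log ((m : ℝ) + g) < c * √(g : ℝ) := by
  intro a c ha hc
  have hκ1 : √(Real.exp Real.eulerMascheroniConstant / 2) < 1 := Pool.Agent.Lib.SHK.aFin.{0}.1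
  obtain ⟨c', hc1, hc2⟩ := exists_between (lt_min hc hκ1)
  have hc'c : c' < c := hc2.trans_le (min_le_left _ _)
  have hc'1 : c' ≤ 1 := (hc2.trans_le (min_le_right _ _)).le
  obtain ⟨δ1, ε, hδ1, hε0, hε1, hw⟩ := aWCE a c' ha hc1 hc'1
  obtain ⟨δ0, hδ0, h0⟩ := aNVI
  refine ⟨min δ1 δ0, lt_min hδ1 hδ0, fun T hT hTδ => ?_⟩
  have hP := pw_of T (min δ1 δ0) (lt_min hδ1 hδ0) (hTδ.mono fun k hk => hk.2)
  refine ⟨h0 T hT (Pw_mono (min_le_right _ _) hP), fun Ω m0 P _ ℱ A hA => ?_⟩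
  obtain ⟨hm, hq⟩ := tMDL Ω m0 P ℱ A T hA
  have hup := aUP2 Ω m0 P ℱ (Xi A) (Qc P ℱ A) hm (rho T) ε c' (fun g => Even g)
    (FNDAM.rho_nonneg T) hε0 hε1 (hq ε hε0)
    (hw T hT (hTδ.mono fun k hk => hk.1) (Pw_mono (min_le_left _ _) hP))
  filter_upwards [hup] with ω hω
  have hX : ∀ k, ω ∈ A k ↔ Xi A k ω = 1 := by
    intro k
    unfold Xi
    by_cases h : ω ∈ A k
    · simp [h]
    · simp [h]
  have hX0 : ∀ k, Xi A k ω = 0 ↔ ω ∉ A k := by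
    intro k
    rw [hX k]
    rcases Xi_01 A k ω with h | h <;> rw [h] <;> norm_num
  obtain ⟨G, hG⟩ := eventually_atTop.1 hω
  refine ⟨max G 1, fun g hg hev => ?_⟩
  obtain ⟨m, m1, m2, m3, m4⟩ := hG g ((le_max_left _ _).trans hg) hev
  have hg1 : 1 ≤ g := (le_max_right _ _).trans hg
  refine ⟨m, ⟨(hX m).2 m1, (hX _).2 m3, by omega, fun k a1 a2 => (hX0 k).1 (m2 k a1 a2)⟩,
    lt_of_le_of_lt m4 ?_⟩
  have hs : 0 < √(g : ℝ) := Real.sqrt_pos.2 (by exact_mod_cast hg1)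
  exact mul_lt_mul_of_pos_right hc'c hs

/-- all constants at once for `T k ≤ k^(o(1))` -/
theorem aFNS.{u} : ∀ T : ℕ → ℕ, Monotone T →
    (∃ a : ℝ, 0 < a ∧ ∀ᶠ k : ℕ in atTop, a * Real.log k ≤ T k) →
    (∀ δ : ℝ, 0 < δ → ∀ᶠ k : ℕ in atTop, (T k : ℝ) ≤ (k : ℝ) ^ δ) →
    ∀ (Ω : Type u) (m0 : MeasurableSpace Ω) (P : Measure Ω) [IsProbabilityMeasure P]
      (ℱ : Filtration ℕ m0) (A : ℕ → Set Ω), CGModel P ℱ A T →
      ∀ᵐ ω ∂P, ∀ c : ℝ, √(Real.exp Real.eulerMascheroniConstant / 2) < c →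
        ∃ G : ℕ, ∀ g : ℕ, G ≤ g → Even g → ∃ m : ℕ, Consec (fun k => ω ∈ A k) m (m + g) ∧
          Real.log ((m : ℝ) + g) < c * √(g : ℝ) := by
  intro T hT ha hB Ω m0 P _ ℱ A hA
  obtain ⟨a, ha, hT2⟩ := ha
  have hall : ∀ᵐ ω ∂P, ∀ j : ℕ, ∃ G : ℕ, ∀ g : ℕ, G ≤ g → Even g →
      ∃ m : ℕ, Consec (fun k => ω ∈ A k) m (m + g) ∧ Real.log ((m : ℝ) + g) <
        (√(Real.exp Real.eulerMascheroniConstant / 2) + 1 / ((j : ℝ) + 1)) * √(g : ℝ) := by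
    refine ae_all_iff.2 fun j => ?_
    have hj : 0 < 1 / ((j : ℝ) + 1) := by positivity
    obtain ⟨δ, hδ, h1⟩ := aFNR.{u} a
      (√(Real.exp Real.eulerMascheroniConstant / 2) + 1 / ((j : ℝ) + 1)) ha (by linarith)
    exact (h1 T hT (hT2.and (hB δ hδ))).2 Ω m0 P ℱ A hA
  filter_upwards [hall] with ω hω c hc
  obtain ⟨j, hj⟩ := exists_nat_one_div_lt (sub_pos.2 hc)
  obtain ⟨G, hG⟩ := hω j
  refine ⟨G, fun g hg hev => ?_⟩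
  obtain ⟨m, h1, h2⟩ := hG g hg hev
  refine ⟨m, h1, h2.trans_le ?_⟩
  exact mul_le_mul_of_nonneg_right (by linarith) (Real.sqrt_nonneg _)

end Pool.Agent.Lib.SHD
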