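import Pool.Agent.Lib.SHD.SpecG
import Pool.Agent.Lib.SHG.FNC

/-! MP_9a4459_nt, directory Lib/SHD, module FNG (from SHG/FNC.lean): the explicit constant for all
`T k ≤ k^(o(1))`. -/

set_option autoImplicit false

namespace Pool.Agent.Lib.SHD

open Finset Filter Topology MeasureTheory
open Pool.Agent.Lib.MP_3ef1ab_nt Pool.Agent.Results.MP_9a4459_nt Pool.Agent.Lib.SHG
open Pool.Agent.Lib.SHR hiding ShanksLaw
open scoped Classical

open Pool.Agent.Lib.SHG.FNCM in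
theorem tFNG.{u} (hM : S_MDL.{u}) (hU : S_UP2.{u}) (h3 : S_WCC)
    (h4 : Pool.Agent.Lib.SHK.SmlStmt) (h5 : MedC)
    (h6 : Pool.Agent.Lib.SHK.MtcStmt) (h7 : MerStmt) : S_FNG.{u} := by
  intro Ω m0 P _ ℱ A T hA hT hTS
  have hW := h3 h4 h5 h6 h7
  obtain ⟨hm, hq⟩ := hM Ω m0 P ℱ A T hA
  set κ := √(Real.exp Real.eulerMascheroniConstant / 2) with hκ
  have hκ0 : 0 ≤ κ := Real.sqrt_nonneg _
  have hκ1 : κ < 1 := kappa
  have hall : ∀ᵐ ω ∂P, ∀ j : ℕ, ∀ᶠ g : ℕ in atTop, Even g → ∃ m : ℕ, Xi A m ω = 1 ∧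
      (∀ k : ℕ, m < k → k < m + g → Xi A k ω = 0) ∧ Xi A (m + g) ω = 1 ∧
      Real.log ((m : ℝ) + g) ≤ (κ + (1 - κ) * (1 / ((j : ℝ) + 1))) * √(g : ℝ) := by
    refine ae_all_iff.2 fun j => ?_
    have h3 : 1 / ((j : ℝ) + 1) ≤ 1 := by
      rw [div_le_one (by positivity)]
      have : (0 : ℝ) ≤ j := Nat.cast_nonneg j
      linarith
    have h4 : (1 - κ) * (1 / ((j : ℝ) + 1)) ≤ (1 - κ) * 1 :=
      mul_le_mul_of_nonneg_left h3 (by linarith)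
    have h5 : 0 < (1 - κ) * (1 / ((j : ℝ) + 1)) := mul_pos (by linarith) (by positivity)
    obtain ⟨ε, hε0, hε1, hw⟩ := hW T hA.mono hT hTS (κ + (1 - κ) * (1 / ((j : ℝ) + 1)))
      (by linarith) (by linarith)
    exact hU Ω m0 P ℱ (Xi A) (Qc P ℱ A) hm (rho T) ε _ (fun g => Even g) (rho_nonneg T) hε0 hε1
      (hq ε hε0) hw
  filter_upwards [hall] with ω hω
  have hX : ∀ k, ω ∈ A k ↔ Xi A k ω = 1 := by
    intro k
    unfold Xi
    by_cases h : ω ∈ A k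
    · simp [h]
    · simp [h]
  have hX0 : ∀ k, Xi A k ω = 0 ↔ ω ∉ A k := by
    intro k
    rw [hX k]
    rcases Xi_01 A k ω with h | h <;> rw [h] <;> norm_num
  intro c hc
  obtain ⟨j, hj⟩ := exists_nat_one_div_lt (show 0 < c - κ by linarith)
  obtain ⟨G, hG⟩ := eventually_atTop.1 (hω j)
  refine ⟨max G 1, fun g hg hev => ?_⟩
  obtain ⟨m, m1, m2, m3, m4⟩ := hG g ((le_max_left _ _).trans hg) hev
  have hg1 : 1 ≤ g := (le_max_right _ _).trans hg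
  refine ⟨m, ⟨(hX m).2 m1, (hX _).2 m3, by omega, fun k a1 a2 => (hX0 k).1 (m2 k a1 a2)⟩,
    lt_of_le_of_lt m4 ?_⟩
  have hs : 0 < √(g : ℝ) := Real.sqrt_pos.2 (by exact_mod_cast hg1)
  refine mul_lt_mul_of_pos_right ?_ hs
  have h5 : (1 - κ) * (1 / ((j : ℝ) + 1)) ≤ 1 * (1 / ((j : ℝ) + 1)) :=
    mul_le_mul_of_nonneg_right (by linarith) (by positivity)
  linarith

end Pool.Agent.Lib.SHD
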