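import Pool.Agent.Lib.SHD.SpecB

/-! SHD, FRQ: infinitely many admissible gap sizes. -/

set_option autoImplicit false

namespace Pool.Agent.Lib.SHD

open Finset Filter Topology MeasureTheory
open Pool.Agent.Lib.MP_3ef1ab_nt Pool.Agent.Results.MP_9a4459_nt Pool.Agent.Lib.SHG
open Pool.Agent.Lib.SHR hiding ShanksLaw
open Pool.Agent.Lib.SHK (pr Vk nu mem_pr MedStmt PrgStmt MrtStmt)
open scoped Classical

theorem tFRQ : S_FRQ := by
  intro T hT hS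
  unfold Slow at hS
  simp only [not_forall] at hS
  obtain ⟨δ, hδ, hfr⟩ := hS
  rw [Filter.not_eventually] at hfr
  have hd0 : 0 < min δ 1 := lt_min hδ one_pos
  refine ⟨min δ 1 / 4, by positivity, by linarith [min_le_right δ 1], ?_⟩
  intro c1 h0 h1
  rw [Filter.frequently_atTop]
  intro G
  have hlarge : ∀ᶠ k : ℕ in atTop, (2 / c1 + 2 + G : ℝ) ≤ Real.log k :=
    (Real.tendsto_log_atTop.comp tendsto_natCast_atTop_atTop).eventually_ge_atTop _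
  obtain ⟨k, hk, hkl⟩ := (hfr.and_eventually hlarge).exists
  have hk' : Real.log k ^ δ < T k := not_le.1 hk
  have hG : (0 : ℝ) ≤ G := Nat.cast_nonneg G
  have hc : 2 ≤ 2 / c1 := by
    rw [le_div_iff₀ h0]
    linarith
  set L := Real.log k
  have hL1 : 1 ≤ L := by linarith
  have hkpos : (0 : ℝ) < k := by
    rcases Nat.eq_zero_or_pos k with h | h
    · exfalso
      have h2 : L = 0 := by
        show Real.log k = 0
        rw [h]
        simp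
      linarith
    · exact_mod_cast h
  -- the number `g`
  have hx0 : 0 ≤ (L / c1) ^ 2 := sq_nonneg _
  have hgx : (L / c1) ^ 2 ≤ ((2 * ⌈(L / c1) ^ 2⌉₊ : ℕ) : ℝ) := by
    push_cast
    linarith [Nat.le_ceil ((L / c1) ^ 2)]
  have hgu : ((2 * ⌈(L / c1) ^ 2⌉₊ : ℕ) : ℝ) ≤ 2 * (L / c1) ^ 2 + 2 := by
    push_cast
    linarith [Nat.ceil_lt_add_one hx0]
  have hLc : L ≤ L / c1 := by
    rw [le_div_iff₀ h0]
    nlinarith
  have hLL : L ≤ (L / c1) ^ 2 := by nlinarith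
  refine ⟨2 * ⌈(L / c1) ^ 2⌉₊, ?_, even_two_mul _, ?_⟩
  · have h2 : (G : ℝ) ≤ ((2 * ⌈(L / c1) ^ 2⌉₊ : ℕ) : ℝ) := by linarith
    exact_mod_cast h2
  · have h3 : ((2 * ⌈(L / c1) ^ 2⌉₊ : ℕ) : ℝ) ≤ L ^ 4 := by
      have h4 : 2 * (1 / c1) ^ 2 + 2 ≤ L ^ 2 := by
        have h5 : 2 / c1 + 2 ≤ L := by linarith
        have h6 : (2 / c1 + 2) ^ 2 ≤ L ^ 2 := pow_le_pow_left₀ (by positivity) h5 2
        have h7 : (2 / c1 + 2) ^ 2 = 4 * (1 / c1) ^ 2 + 8 * (1 / c1) + 4 := by ring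
        have h8 : 0 < 1 / c1 := by positivity
        nlinarith [sq_nonneg (1 / c1)]
      have h9 : (L / c1) ^ 2 = L ^ 2 * (1 / c1) ^ 2 := by ring
      have h10 : 1 ≤ L ^ 2 := one_le_pow₀ hL1
      have h11 : L ^ 4 = L ^ 2 * L ^ 2 := by ring
      have h12 : L ^ 2 * (2 * (1 / c1) ^ 2 + 2) ≤ L ^ 2 * L ^ 2 :=
        mul_le_mul_of_nonneg_left h4 (by positivity)
      have h18 : 2 * (L / c1) ^ 2 + 2 ≤ L ^ 2 * (2 * (1 / c1) ^ 2 + 2) := by
        rw [h9]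
        nlinarith
      rw [h11]
      linarith
    have h13 : ((2 * ⌈(L / c1) ^ 2⌉₊ : ℕ) : ℝ) ^ (min δ 1 / 4) ≤ L ^ δ := by
      calc ((2 * ⌈(L / c1) ^ 2⌉₊ : ℕ) : ℝ) ^ (min δ 1 / 4) ≤ (L ^ 4) ^ (min δ 1 / 4) :=
            Real.rpow_le_rpow (Nat.cast_nonneg _) h3 (by positivity)
        _ = L ^ (min δ 1) := by
            rw [← Real.rpow_natCast L 4, ← Real.rpow_mul (by linarith)]
            congr 1
            push_cast
            ring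
        _ ≤ L ^ δ := Real.rpow_le_rpow_of_exponent_le hL1 (min_le_left _ _)
    have h14 : k ≤ ⌊Real.exp (c1 * √((2 * ⌈(L / c1) ^ 2⌉₊ : ℕ) : ℝ))⌋₊ := by
      apply Nat.le_floor
      have h15 : L / c1 ≤ √((2 * ⌈(L / c1) ^ 2⌉₊ : ℕ) : ℝ) :=
        Real.le_sqrt_of_sq_le hgx
      have h16 : L ≤ c1 * √((2 * ⌈(L / c1) ^ 2⌉₊ : ℕ) : ℝ) := by
        rw [div_le_iff₀ h0] at h15
        linarith
      calc (k : ℝ) = Real.exp L := (Real.exp_log hkpos).symm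
        _ ≤ _ := Real.exp_le_exp.2 h16
    have h17 : ((T k : ℕ) : ℝ) ≤ T ⌊Real.exp (c1 * √((2 * ⌈(L / c1) ^ 2⌉₊ : ℕ) : ℝ))⌋₊ := by
      exact_mod_cast hT h14
    linarith

end Pool.Agent.Lib.SHD
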