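import Pool.Agent.Lib.SHD.SpecB

/-! MP_9a4459_nt, project SHD, module NM5: numbers for the general exponent (`tNM5`). -/

set_option autoImplicit false

namespace Pool.Agent.Lib.SHD

open Finset Filter Topology MeasureTheory
open Pool.Agent.Lib.MP_3ef1ab_nt Pool.Agent.Results.MP_9a4459_nt Pool.Agent.Lib.SHG
open Pool.Agent.Lib.SHR hiding ShanksLaw
open Pool.Agent.Lib.SHK (pr Vk nu mem_pr MedStmt PrgStmt MrtStmt)
open scoped Classical

namespace NM5M

/-- `θ(n) ≥ n/2` for large `n` -/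
theorem theta_half : ∀ᶠ n : ℕ in atTop, (n : ℝ) / 2 ≤ Chebyshev.theta n := by
  have h1 : ∀ᶠ n : ℕ in atTop, Real.log (n : ℝ) ≤ 1 / 25 * (n : ℝ) ^ (1 / 2 : ℝ) := by
    have h := (isLittleO_log_rpow_atTop (show (0 : ℝ) < 1 / 2 by norm_num)).bound
      (show (0 : ℝ) < 1 / 25 by norm_num)
    filter_upwards [tendsto_natCast_atTop_atTop.eventually h, eventually_ge_atTop 1] with n hn h2
    have h3 : (1 : ℝ) ≤ (n : ℝ) := by exact_mod_cast h2
    rw [Real.norm_of_nonneg (Real.log_nonneg h3),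
      Real.norm_of_nonneg (Real.rpow_nonneg (by linarith) _)] at hn
    exact hn
  filter_upwards [h1, eventually_ge_atTop 10] with n hn h10
  have h2 := Chebyshev.theta_ge n
  have hx : (10 : ℝ) ≤ (n : ℝ) := by exact_mod_cast h10
  generalize hxx : (n : ℝ) = x at *
  have hx0 : 0 < x := by linarith
  rw [← Real.sqrt_eq_rpow] at hn
  have hs : √x * √x = x := Real.mul_self_sqrt hx0.le
  have hs0 : 0 ≤ √x := Real.sqrt_nonneg x
  have hs1 : √x ≤ x := by
    have : √x ≤ √(x * x) := Real.sqrt_le_sqrt (by nlinarith)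
    rwa [Real.sqrt_mul_self hx0.le] at this
  have h4 : √x * Real.log x ≤ √x * (1 / 25 * √x) := mul_le_mul_of_nonneg_left hn hs0
  have h5 : √x * (1 / 25 * √x) = 1 / 25 * x := by
    calc √x * (1 / 25 * √x) = 1 / 25 * (√x * √x) := by ring
      _ = 1 / 25 * x := by rw [hs]
  have h6 : Real.log (x + 1) ≤ Real.log 2 + Real.log x := by
    rw [← Real.log_mul (by norm_num) hx0.ne']
    exact Real.log_le_log (by linarith) (by linarith)
  have h7 := Real.log_two_gt_d9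
  have h8 := Real.log_two_lt_d9
  have h9 : x * 0.69 ≤ x * Real.log 2 := mul_le_mul_of_nonneg_left (by linarith) hx0.le
  linarith

end NM5M

/-- **NM5** -/
theorem tNM5 : S_NM5 := by
  intro d A hd
  refine ⟨(A + 1) * (⌈1 / d⌉₊ + 1), fun y0 => ?_⟩
  have hT : Tendsto (fun g : ℕ => ⌈(g : ℝ) ^ d⌉₊) atTop atTop :=
    tendsto_nat_ceil_atTop.comp ((tendsto_rpow_atTop hd).comp tendsto_natCast_atTop_atTop)
  have h3 : ∀ᶠ g : ℕ in atTop, Real.log (g : ℝ) ≤ 1 / 4 * (g : ℝ) ^ d := by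
    have h := (isLittleO_log_rpow_atTop hd).bound (show (0 : ℝ) < 1 / 4 by norm_num)
    filter_upwards [tendsto_natCast_atTop_atTop.eventually h, eventually_ge_atTop 1] with g hg h1
    have h2 : (1 : ℝ) ≤ (g : ℝ) := by exact_mod_cast h1
    rw [Real.norm_of_nonneg (Real.log_nonneg h2),
      Real.norm_of_nonneg (Real.rpow_nonneg (by linarith) _)] at hg
    exact hg
  filter_upwards [hT.eventually_ge_atTop y0, hT.eventually NM5M.theta_half, h3,
    eventually_ge_atTop 1] with g h4 h5 h6 h7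
  have hg1 : (1 : ℝ) ≤ (g : ℝ) := by exact_mod_cast h7
  have hg0 : (0 : ℝ) < (g : ℝ) := by linarith
  have hpos : 0 < (g : ℝ) ^ d := Real.rpow_pos_of_pos hg0 d
  have hy : (g : ℝ) ^ d ≤ (⌈(g : ℝ) ^ d⌉₊ : ℝ) := Nat.le_ceil _
  have hbig : g ^ (A + 1) ≤ ⌈(g : ℝ) ^ d⌉₊ ^ ((A + 1) * (⌈1 / d⌉₊ + 1)) := by
    have h8 : ((g : ℝ) ^ d) ^ ((A + 1) * (⌈1 / d⌉₊ + 1)) ≤
        (⌈(g : ℝ) ^ d⌉₊ : ℝ) ^ ((A + 1) * (⌈1 / d⌉₊ + 1)) := pow_le_pow_left₀ hpos.le hy _
    have h9 : (g : ℝ) ^ (A + 1) ≤ ((g : ℝ) ^ d) ^ ((A + 1) * (⌈1 / d⌉₊ + 1)) := by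
      rw [← Real.rpow_natCast, ← Real.rpow_natCast, ← Real.rpow_mul hg0.le]
      refine Real.rpow_le_rpow_of_exponent_le hg1 ?_
      have h10 : 1 / d ≤ (⌈1 / d⌉₊ : ℝ) := Nat.le_ceil _
      have h11 : 1 ≤ d * ((⌈1 / d⌉₊ : ℝ) + 1) := by
        have h12 : d * (1 / d) ≤ d * ((⌈1 / d⌉₊ : ℝ) + 1) :=
          mul_le_mul_of_nonneg_left (by linarith) hd.le
        rwa [mul_one_div_cancel hd.ne'] at h12
      have h13 : (0 : ℝ) ≤ (A : ℝ) + 1 := by positivity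
      push_cast
      nlinarith [mul_le_mul_of_nonneg_left h11 h13]
    exact_mod_cast h9.trans h8
  refine ⟨h4, ?_, ?_, ?_⟩
  · refine le_trans ?_ hbig
    calc g = g ^ 1 := (pow_one g).symm
      _ ≤ g ^ (A + 1) := Nat.pow_le_pow_right h7 (by omega)
  · exact le_trans (Nat.pow_le_pow_right h7 (Nat.le_succ A)) hbig
  · have h14 : Real.log (g : ℝ) < Real.log (primorial ⌈(g : ℝ) ^ d⌉₊ : ℝ) := by
      have h15 := Chebyshev.theta_eq_log_primorial (⌈(g : ℝ) ^ d⌉₊ : ℝ)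
      rw [Nat.floor_natCast] at h15
      rw [← h15]
      linarith
    have h16 := (Real.log_lt_log_iff hg0 (by exact_mod_cast primorial_pos _)).1 h14
    exact_mod_cast h16

end Pool.Agent.Lib.SHD
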