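import Pool.Agent.Lib.SHG.Spec

/-! MP_9a4459_nt (Shanks: log p(g) ~ √g), directory Lib/SHD (architect helper69). DICHOTOMY for the
Cramér-Granville model with sieving limit `T` (structure `CGModel`, SHG/Defs.lean). Together with
Lib/SHG (R1): if `T k ≤ (log k)^10` for large `k`, then almost surely Shanks's law holds if
`T k = (log k)^(o(1))`, and almost surely it fails if not. Here: `SUBStmt` (for `w ≥ g^d` there is an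
interval `(b, b+g)` whose end points are `w`-free and which contains at most `c g V(w)` integers
free of primes `≤ w`, `c = c(d) < 1`); the rest is in Lib/SHG/SpecB.lean (helper82).

RULES. Module X: file Pool/Agent/Lib/SHD/X.lean, first line `import Pool.Agent.Lib.SHD.Spec` (and
the modules named in the docstring), then `set_option autoImplicit false`, `namespace
Pool.Agent.Lib.SHD` and the same `open` lines as here; auxiliary lemmas in `namespace XM`; final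
theorem `theorem tX : S_X` (for universe-polymorphic statements `theorem tX.{u} : S_X.{u}`). Every
docstring contains a complete proof. Never use congr! / convert!. Every module below 60 s.

Notation: `pr x y` = primes in `(x, y]` (`SHK.mem_pr`), `VV z = ∏_{p ≤ z} (1 - 1/p)` (F/Fl.lean),
`Vk 1 x y = ∏_{p ∈ pr x y} (1 - 1/p)`, `SieveFree z n`: no prime `p ≤ z` divides `n`. -/

set_option autoImplicit false

namespace Pool.Agent.Lib.SHD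

open Finset Filter Topology MeasureTheory
open Pool.Agent.Lib.MP_3ef1ab_nt Pool.Agent.Results.MP_9a4459_nt Pool.Agent.Lib.SHG
open Pool.Agent.Lib.SHR hiding ShanksLaw
open Pool.Agent.Lib.SHK (pr Vk nu mem_pr MedStmt PrgStmt)
open scoped Classical

/-! ### Part 1: elementary symmetric sums -/

/-- the elementary symmetric sum `e_i` of the numbers `x p`, `p ∈ P` -/
noncomputable def ee (P : Finset ℕ) (x : ℕ → ℝ) (i : ℕ) : ℝ :=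
  ∑ D ∈ P.powersetCard i, ∏ p ∈ D, x p

/-! ### IEA (100 lines; uses nothing). `e_0 = 1`, `e_(i+1)(∅) = 0`, and for `q ∉ P`
`e_(i+1)(P ∪ q) = e_(i+1)(P) + x_q e_i(P)` (`Finset.powersetCard_succ_insert`, the two parts are disjoint).
(2) by induction on `P`: `(i+1) e_(i+1)(P ∪ q) = (i+1) e_(i+1)(P) + (i+1) x e_i(P) ≤ λ e_i(P) + x e_i(P) + i x e_i(P)
≤ λ e_i + x e_i + x λ e_(i-1) ≤ (λ + x)(e_i + x e_(i-1)) = (λ + x) e_i(P ∪ q)` (for `i = 0` directly).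
(3) Let `R_k(P) = (-1)^k (∏_P (1 - x) - ∑_{i<k} (-1)^i e_i(P))`. Then `R_0 = ∏ ≥ 0`, and the recursion gives
`R_(k+1)(P ∪ q) = R_(k+1)(P) + x_q R_k(P)`, and for `P = ∅`: `R_k = 0` for `k ≥ 1`, so `R_k ≥ 0` for all `k`
(induction on `P`). By definition `R_k = e_k - R_(k+1)`, and `R_(k+1) = e_(k+1) - R_(k+2) ≤ e_(k+1)`, so
`R_k ≥ e_k - e_(k+1)`; for even `k` this is (3). (4) `∑_{i<k} e_i ≤ ∑_{D ⊆ P} ∏_D x = ∏_P (1 + x)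
≤ exp (∑ x)` (`Finset.prod_one_add` / `Finset.prod_add`, or by induction on `P`). -/
def S_IEA : Prop := ∀ (P : Finset ℕ) (x : ℕ → ℝ), (∀ p ∈ P, 0 ≤ x p ∧ x p ≤ 1) →
  (∀ i, 0 ≤ ee P x i) ∧
  (∀ i : ℕ, ((i : ℝ) + 1) * ee P x (i + 1) ≤ (∑ p ∈ P, x p) * ee P x i) ∧
  (∀ k : ℕ, Even k → ∑ i ∈ range k, (-1 : ℝ) ^ i * ee P x i ≤
    ∏ p ∈ P, (1 - x p) - ee P x k + ee P x (k + 1)) ∧
  (∀ k : ℕ, ∑ i ∈ range k, ee P x i ≤ Real.exp (∑ p ∈ P, x p))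

/-! ### IEB (60 lines; uses nothing). By induction on `P` (recursion as in IEA), for all `i`: `i = 0` is
trivial (`1 ≤ 1`). With `λ = ∑_P x`, `x = x_q ≤ μ`, `a = λ - (i+1) μ`: `e_(i+1)(P ∪ q) = e_(i+1)(P) + x e_i(P) ≥
max a 0 ^ (i+1)/(i+1)! + x max (λ - i μ) 0 ^ i/i!`, `λ - i μ = a + μ ≥ a + x`, and
`max (a+x) 0 ^ (i+1) - max a 0 ^ (i+1) ≤ (i+1) x max (a+x) 0 ^ i` (from
`u^(n+1) - v^(n+1) ≤ (n+1) (u - v) u^n` for `0 ≤ v ≤ u` and `u - v ≤ x`; for `i = 0` with `0^0 = 1`). -/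
def S_IEB : Prop := ∀ (P : Finset ℕ) (x : ℕ → ℝ) (μ : ℝ), 0 ≤ μ → (∀ p ∈ P, 0 ≤ x p ∧ x p ≤ μ) →
  ∀ i : ℕ, max ((∑ p ∈ P, x p) - i * μ) 0 ^ i / (i.factorial : ℝ) ≤ ee P x i

/-! ### IES (60 lines; uses nothing). Inclusion-exclusion. For every `n`: the indicator of
`∀ p ∈ P, ¬ p ∣ n` is `∏_{p ∈ P} (1 - 1[p ∣ n]) = ∑_{D ⊆ P} (-1)^|D| 1[∀ p ∈ D, p ∣ n]` (`Finset.prod_sub` /
`Finset.prod_one_sub_ordered`.. or induction on `P`); sum over the `j ∈ J` with `Q j`, `n = b + j`; the subsets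
`D` are sorted by their number of elements (`Finset.sum_powerset`), and the sets with at least `k` elements
contribute `0` by hypothesis (`powersetCard i P` is empty for `i > card P`). -/
def S_IES : Prop := ∀ (J P : Finset ℕ) (Q : ℕ → Prop) (b k : ℕ),
  (∀ D ⊆ P, k ≤ D.card → ∀ j ∈ J, Q j → ¬ ∀ p ∈ D, p ∣ b + j) →
  ((J.filter (fun j => Q j ∧ ∀ p ∈ P, ¬ p ∣ b + j)).card : ℝ) =
    ∑ i ∈ range k, (-1 : ℝ) ^ i * ∑ D ∈ P.powersetCard i,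
      ((J.filter (fun j => Q j ∧ ∀ p ∈ D, p ∣ b + j)).card : ℝ)

/-! ### Part 2: one favourable choice of classes -/

/-! ### CDM (80 lines; uses nothing; the hypothesis is FLWStmt for one `y`). `n = b + j` runs over
`(b, b + g - 1]`; the multiples of `m` in it are `n = m i` with `i ∈ (N, N + Y]`, `N = b / m`,
`N + Y = (b + g - 1) / m`, and `n` is `y`-free iff `i` is (no prime `≤ y` divides `m`). So the sum in the
hypothesis (for `N`, `Y`) is `(VV y)⁻¹` times the number. `Y ≤ g/m + 1` and `|Y - g/m| ≤ 2`, so the difference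
is at most `ε (g/m + 1) + (y+1)^B + 2 ≤ ε g/m + (y+1)^B + 3`. -/
def S_CDM : Prop := ∀ (B y : ℕ) (ε : ℝ), 0 < ε → ε ≤ 1 →
  (∀ N Y : ℕ, |∑ i ∈ range Y, (if SieveFree y (N + i + 1) then (VV y)⁻¹ else 0) - (Y : ℝ)| ≤
    ε * Y + ((y : ℝ) + 1) ^ B) →
  ∀ b g m : ℕ, 1 ≤ g → 1 ≤ m → (∀ p : ℕ, p.Prime → p ≤ y → ¬ p ∣ m) →
    |(VV y)⁻¹ * (((Ioo 0 g).filter (fun j => SieveFree y (b + j) ∧ m ∣ b + j)).card : ℝ) -
      (g : ℝ) / m| ≤ ε * ((g : ℝ) / m) + (((y : ℝ) + 1) ^ B + 3)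

/-- lower end `g^(2/(2k-1))` of the range of special primes -/
noncomputable def wa (k g : ℕ) : ℕ := ⌊(g : ℝ) ^ ((2 : ℝ) / (2 * k - 1))⌋₊

/-- upper end `g^(4/(4k-3))` of the range of special primes -/
noncomputable def za (k g : ℕ) : ℕ := ⌊(g : ℝ) ^ ((4 : ℝ) / (4 * k - 3))⌋₊

/-- the special primes -/
noncomputable def Pz (k g : ℕ) : Finset ℕ :=
  (pr (wa k g) (za k g)).filter (fun p => ¬ p ∣ g + 1)

/-! ### MZ (100 lines; uses nothing). `L = log ((4/(4k-3))/(2/(2k-1)))/2 > 0`, `2 L = log (1 + 1/(4k-3)) ≤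
1/13`. From `MerStmt` (`VV z log z → c > 0`) `VV (wa)/VV (za) → exp (2 L)` (`wa, za → ∞`,
`log wa/log g → 2/(2k-1)`, `log za/log g → 4/(4k-3)`), and `VV wa/VV za = ∏_{p ∈ pr wa za} (1 - 1/p)⁻¹`, whose
logarithm lies between `∑ 1/p` and `∑ 1/p + 2 ∑ 1/p²`, `∑_{p > wa} 1/p² ≤ 1/wa → 0`; so the sum over
`pr wa za` tends to `2 L`. The primes `p > wa` which divide `g + 1` are fewer than `k` for large `g`
(the product of `k` of them is `≥ (wa+1)^k > g^(2k/(2k-1)) ≥ g + 1`), so they contribute `≤ k/wa → 0`. -/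
def S_MZ : Prop := MerStmt → ∀ k : ℕ, 4 ≤ k → ∃ L : ℝ, 0 < L ∧ ∀ᶠ g : ℕ in atTop,
  L ≤ ∑ p ∈ Pz k g, 1 / (p : ℝ) ∧ ∑ p ∈ Pz k g, 1 / (p : ℝ) ≤ 1 / 2 ∧ 1 ≤ wa k g ∧
  (k : ℝ) * (1 / (wa k g : ℝ)) ≤ L / 2

/-! ### NZ (80 lines; uses nothing). `β = 1/(2 (4k-3) (B+1))`, `R = 4 (4k-3) (B+1)`. `wa + 1 > g^(2/(2k-1))`,
so `(wa+1)^k > g^(2k/(2k-1)) ≥ g`. `⌊g^β⌋ ≥ g^β/2` for large `g`, so its `R`-th power is `≥ g^2/2^R ≥ g`.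
Last: `(za+1)^(k-1) ≤ 2^(k-1) g^(4(k-1)/(4k-3))`, `4 (k-1)/(4k-3) = 1 - 1/(4k-3)`, and
`(⌊g^β⌋+1)^B ≤ 2^B g^(β B)`, `β B < 1/(4k-3)/2`: the product is `o(g)`. -/
def S_NZ : Prop := ∀ k B : ℕ, 4 ≤ k → ∃ (β : ℝ) (R : ℕ), 0 < β ∧ ∀ (ε : ℝ) (y0 : ℕ), 0 < ε →
  ∀ᶠ g : ℕ in atTop, y0 ≤ ⌊(g : ℝ) ^ β⌋₊ ∧ ⌊(g : ℝ) ^ β⌋₊ ≤ wa k g ∧ g ≤ ⌊(g : ℝ) ^ β⌋₊ ^ R ∧
    g < (wa k g + 1) ^ k ∧
    (k : ℝ) * ((za k g : ℝ) + 1) ^ (k - 1) * (((⌊(g : ℝ) ^ β⌋₊ : ℝ) + 1) ^ B + 3) ≤ ε * g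

/-! ### SO (150 lines; uses IEA, IEB, IES, CDM, MZ, NZ as hypotheses). `k` even. `L` from MZ,
`e = (L/2)^k/k!` (`≤ 1`, as `L ≤ 1/2`), `ε' = e/24 ≤ 1`, `B` from FLWStmt for `ε'`, `β, R` from NZ, `κ = e/4`. For large
`g` put `y = ⌊g^β⌋`, `P = Pz k g`, `x_p = 1/p` (`≤ μ = 1/wa`, `∈ [0,1]`), `λ = ∑_P x ≤ 1/2`. IES with
`J = Ioo 0 g`, `Q j = SieveFree y (b + j)`: if `D ⊆ P` has at least `k` elements and all `p ∈ D` divide `b + j`,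
then (as `b % p = 1 % p`) they divide `j + 1`, so `∏_D p ∣ j + 1 ≤ g`, but `∏_D p ≥ (wa+1)^k > g`. So the number
`N` is `∑_{i<k} (-1)^i ∑_{|D|=i} c_D`, `c_D` the number of `j` with `SieveFree y (b+j)` and `∏_D p ∣ b + j`
(distinct primes: `Finset.prod_primes_dvd`), and CDM with `m = ∏_D p` (its prime factors are `> wa ≥ y`) gives
`|(VV y)⁻¹ c_D - g ∏_D x| ≤ ε' g ∏_D x + ((y+1)^B + 3)`. The number of `D` with fewer than `k` elements is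
`∑_{i<k} C(|P|,i) ≤ k (za+1)^(k-1)` (`C(n,i) ≤ n^i`, `|P| ≤ za`). By (NZ with `ε'`), IEA (3), (4):
`(VV y)⁻¹ N ≤ g (∏_P (1-x) - e_k + e_(k+1)) + ε' g exp (1/2) + ε' g`, `e_(k+1) ≤ λ e_k/(k+1) ≤ e_k/2` (IEA (2)),
`e_k ≥ (L - k μ)^k/k! ≥ e` (IEB), so it is `≤ g (∏_P (1-x) - e/2 + 3 ε') ≤ g (∏_P (1-x) - e/4) ≤
g ∏_P (1-x) (1 - e/4)` because `∏ ≤ 1`. -/
def SOStmt : Prop := ∀ k : ℕ, Even k → 4 ≤ k → ∃ (κ β : ℝ) (R : ℕ), 0 < κ ∧ κ ≤ 1 ∧ 0 < β ∧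
  ∀ y0 : ℕ, ∀ᶠ g : ℕ in atTop, y0 ≤ ⌊(g : ℝ) ^ β⌋₊ ∧ ⌊(g : ℝ) ^ β⌋₊ ≤ wa k g ∧
    g ≤ ⌊(g : ℝ) ^ β⌋₊ ^ R ∧
    ∀ b : ℕ, (∀ p ∈ Pz k g, b % p = 1 % p) →
      (((Ioo 0 g).filter (fun j => SieveFree ⌊(g : ℝ) ^ β⌋₊ (b + j) ∧
        ∀ p ∈ Pz k g, ¬ p ∣ b + j)).card : ℝ) ≤
        (1 - κ) * (g * VV ⌊(g : ℝ) ^ β⌋₊ * ∏ p ∈ Pz k g, (1 - 1 / (p : ℝ)))

def S_SO : Prop := S_IEA → S_IEB → S_IES → S_CDM → S_MZ → S_NZ → FLWStmt → MerStmt → SOStmt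

/-! ### Part 3: the remaining primes -/

/-! ### RT (60 lines; model SHK/Rat.lean, copy from there): comparison of the products
As RatStmt, with `Q` instead of `pr y w` and `g ≤ y^R`: if `p` does not divide `j (g - j)`, the factor is
`≤ (1 - ν/p)(1 - 1/p)`; at most `2 R` primes `p > y` divide `j (g - j) ≤ g² ≤ y^(2R)`; and
`(1 - 1/y)^(-2R) ≤ 1 + δ` for `y ≥ y0`. -/
def S_RT : Prop := ∀ (R : ℕ) (δ : ℝ), 0 < δ → ∃ y0 : ℕ, 4 ≤ y0 ∧ ∀ (y g j : ℕ) (Q : Finset ℕ),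
  y0 ≤ y → (∀ p ∈ Q, p.Prime ∧ y < p) → 0 < j → j < g → g ≤ y ^ R →
    ∏ p ∈ Q, (1 - (nu {0, j, g} p : ℝ) / p) ≤
      (1 + δ) * ((∏ p ∈ Q, (1 - 1 / (p : ℝ))) * ∏ p ∈ Q, (1 - (nu {0, g} p : ℝ) / p))

/-! ### AV (110 lines; uses PrgStmt (SHK) as hypothesis): averaging
`Π = ∏ (1 - nu {0,g} p/p) > 0` (`nu ≤ 2 < p`), `V = ∏ (1 - 1/p) > 0`. PrgStmt with `a p = 0`: for `H` with at
most 3 elements the number of `t < N` with `n0 + D t + h` not divisible by `p`, all `h ∈ H`, `p ∈ Q`, is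
`N ∏ (1 - nu H p/p)` up to `2 N (3 s)^R/R! + (1 + 3 |Q|)^R`, `s = ∑ 1/p`; for given `ε > 0` choose `R` with
`2 (3 s)^R/R! ≤ ε/2` (`FloorSemiring.tendsto_pow_div_factorial_atTop`), then `N ≥ 1` with
`(1 + 3 |Q|)^R ≤ (ε/2) N`: the error is `≤ ε N`. Let `A` be the set of the `t < N` for `H = {0, g}`, `K(t)` the
number of the `j ∈ S` with `n0 + D t + j` not divisible by any `p ∈ Q`. `|A| ≥ N (Π - ε) > 0` (`ε ≤ Π/2`), and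
`∑_{t ∈ A} K(t) ≤ ∑_{j ∈ S} N ((1+δ) V Π + ε) = |S| N ((1+δ) V Π + ε)`. If `S` is empty every `t ∈ A` will do.
Otherwise, if `K(t) > (1 + 2δ) |S| V` for all `t ∈ A`: `(1 + 2δ) V (Π - ε) < (1 + δ) V Π + ε`, false for
`ε` small (`ε (1 + (1+2δ) V) ≤ δ V Π`). -/
def S_AV : Prop := PrgStmt → ∀ (Q S : Finset ℕ) (g n0 D : ℕ) (δ : ℝ), 0 < δ → S ⊆ Ioo 0 g →
  (∀ p ∈ Q, p.Prime ∧ 3 ≤ p ∧ p.Coprime D) →
  (∀ j ∈ S, ∏ p ∈ Q, (1 - (nu {0, j, g} p : ℝ) / p) ≤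
    (1 + δ) * ((∏ p ∈ Q, (1 - 1 / (p : ℝ))) * ∏ p ∈ Q, (1 - (nu {0, g} p : ℝ) / p))) →
  ∃ t : ℕ, (∀ p ∈ Q, ¬ p ∣ n0 + D * t ∧ ¬ p ∣ n0 + D * t + g) ∧
    ((S.filter (fun j => ∀ p ∈ Q, ¬ p ∣ n0 + D * t + j)).card : ℝ) ≤
      (1 + 2 * δ) * (S.card * ∏ p ∈ Q, (1 - 1 / (p : ℝ)))

/-! ### CR (60 lines; uses nothing): Chinese remainder theorem
For `p ≤ y` choose a class `r p` mod `p` with `r p` and `r p + g` not `0` mod `p` (`p = 2`: `1`, `g` even; `p ≥ 3`: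
one of `1`, `2`: if `p ∣ 1 + g` then `p` does not divide `2 + g`), for `p ∈ P` the class `1`; pairwise coprime
moduli (`Nat.chineseRemainderOfFinset`; compare the proof of tSml in SHK/Sml.lean). -/
def S_CR : Prop := ∀ (y g : ℕ) (P : Finset ℕ), Even g → (∀ p ∈ P, p.Prime ∧ y < p) →
  ∃ b : ℕ, (∀ p : ℕ, p.Prime → p ≤ y → ¬ p ∣ b ∧ ¬ p ∣ b + g) ∧ ∀ p ∈ P, b % p = 1 % p

/-- For `w ≥ g^d` there is an interval of length `g` with `w`-free end points and few `w`-free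
integers inside. -/
def SUBStmt : Prop := ∀ d : ℝ, 0 < d → ∃ c : ℝ, 1 / 2 ≤ c ∧ c < 1 ∧ ∀ᶠ g : ℕ in atTop, Even g →
  ∀ w : ℕ, (g : ℝ) ^ d ≤ w → ∃ (b : ℕ) (S : Finset ℕ), S ⊆ Ioo 0 g ∧
    (S.card : ℝ) ≤ c * (g * VV w) ∧
    ∀ n : ℕ, n ≡ b [MOD primorial w] → SieveFree w n ∧ SieveFree w (n + g) ∧
      ∀ j ∈ Ioo 0 g, SieveFree w (n + j) → j ∈ S

/-! ### SUB (120 lines; uses SOStmt, RT, AV, CR, PrgStmt as hypotheses). `k` even `≥ 4` with `4/(4k-3) ≤ d`,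
so `za k g ≤ g^d ≤ w`. `κ, β, R` from SO, `δ = κ/4`, `y0` from RT (`R`, `δ`), `c = 1 - κ/2`. For large even `g`:
`y = ⌊g^β⌋ ≥ y0 ≥ 4`, `P = Pz k g` (primes in `(wa, za] ⊆ (y, w]`), `b1` from CR (`y, g, P`), `S1` the set of the `j` in
SO for `b = b1`, `Q` the primes in `pr y w` not in `P`, `D = primorial y * ∏_P p` (coprime to all `p ∈ Q`). AV (with
RT, `g ≤ y^R`) gives `t`; `b = b1 + D t`, `S` the set of the `j ∈ S1` with `b + j` not divisible by any `p ∈ Q`.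
`|S| ≤ (1 + κ/2)(1 - κ) g VV y ∏_P ∏_Q ≤ (1 - κ/2) g VV w` (`VV w = VV y * ∏_{pr y w} (1 - 1/p)`, `pr y w` is the
disjoint union of `P` and `Q`). Let `n = b` mod `primorial w`, so `n = b` mod every prime `p ≤ w`. `p ≤ y`:
`b = b1` mod `p`, CR. `p ∈ P`: `b = b1 = 1` mod `p`, and `p` does not divide `g + 1`. `p ∈ Q`: AV. If `n + j` is
`w`-free, then `b + j`, `b1 + j` are not divisible by `p ≤ y` or `p ∈ P`, so `j ∈ S1`, and `b + j` not by `p ∈ Q`. -/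
def S_SUB : Prop := SOStmt → S_RT → S_AV → S_CR → PrgStmt → SUBStmt

end Pool.Agent.Lib.SHD
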