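import Pool.Agent.Lib.SHD.Spec

/-! MP_9a4459_nt (Shanks: log p(g) ~ √g), directory Lib/SHD, Part 4 with a general exponent (architect
helper82). THEOREM (R4): in the Cramér-Granville model with `T k ≤ (log k)^A`, `A` arbitrary: if NOT
`T k = (log k)^(o(1))`, then almost surely Shanks's law is FALSE.

RULES. Module X: file Pool/Agent/Lib/SHD/X.lean, first line `import Pool.Agent.Lib.SHD.SpecB` (and the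
modules named in the docstring), then `set_option autoImplicit false`, `namespace
Pool.Agent.Lib.SHD` and the same `open` lines as here; auxiliary lemmas in `namespace XM`; final
theorem `theorem tX : S_X` (for universe-polymorphic statements `theorem tX.{u} : S_X.{u}`). Every
docstring contains a complete proof. Never use congr! / convert!. Every module below 60 s. -/

set_option autoImplicit false

namespace Pool.Agent.Lib.SHD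

open Finset Filter Topology MeasureTheory
open Pool.Agent.Lib.MP_3ef1ab_nt Pool.Agent.Results.MP_9a4459_nt Pool.Agent.Lib.SHG
open Pool.Agent.Lib.SHR hiding ShanksLaw
open Pool.Agent.Lib.SHK (pr Vk nu mem_pr MedStmt PrgStmt MrtStmt)
open scoped Classical

/-- MedStmt of SHK with a general exponent `A` in place of `12` and `3` -/
def MedA : Prop := ∀ (A : ℕ) (δ : ℝ), 0 < δ → δ ≤ 1 → ∃ c : ℝ, 0 < c ∧ ∃ R y0 : ℕ,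
  ∀ (y w g N n0 D : ℕ) (a : ℕ → ℕ) (S : Finset ℕ), y0 ≤ y → y ≤ w → w ≤ y ^ A → 0 < g →
    g ≤ y ^ A → w ^ R ≤ N → S ⊆ Ioo 0 g → (∀ p ∈ pr y w, p.Coprime D ∧ a p < p) →
    c * N ≤ (((range N).filter (fun t =>
      (∀ p ∈ pr y w, (n0 + D * t) % p ≠ a p ∧ (n0 + D * t + g) % p ≠ a p) ∧
      ((S.filter (fun j => ∀ p ∈ pr y w, (n0 + D * t + j) % p ≠ a p)).card : ℝ) ≤
        (1 + δ) * (S.card * Vk 1 y w))).card : ℝ)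

/-! ### MEDA (330 lines; a COPY of Lib/SHK/Med.lean `tMed` with the constants changed; final theorem
`theorem tMEDA (h1 : MrtStmt) (h2 : PrgStmt) (h3 : S_RT) : MedA`). `y0 ≥ 100`; `A = 0` is impossible (`y ≤ w ≤ 1`).
`∑_{y<p≤w} 1/p ≤ log A + C/log 2 =: C2` (Mrt, `w ≤ y^A`); `c0 = exp (-6 C2)`; `R0` with
`2 (3 C2)^R0/R0! ≤ (δ/32) c0^2`, `R = 2 R0 + 1`, `y0` such that `(1 + 3w)^R0 ≤ (δ/32) c0^2 w^R` for `w ≥ y0`; in place of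
RatStmt use S_RT with `R = A`, `δ/16`, `Q = pr y w` (`Vk 1 y w = ∏ p ∈ pr y w, (1 - ((1:ℕ):ℝ)/p)`). The rest
word for word (the proof is in the docstring of MedStmt in SHK/Spec.lean). -/
def S_MEDA : Prop := MrtStmt → PrgStmt → S_RT → MedA

/-! ### NM4 (150 lines; compare SHG/NM3.lean (on main), SHK/NumA.lean). Uses: nothing.
`c0 = (√K + 2)/3` (so `√K < c0 < 1`, `1/2 < c0`, `K < c0^2`), `c1 = (c0 + 1)/2`, `c = (c1 + 1)/2`;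
`ε` with `(1+ε)^3 K/c0 < c0` and `ε < 1/2`, then `η > 0` with `(1+ε)^3 K/c0 + 4 η < c1`.
`v = ⌊exp (c1 √g)⌋₊`: `log v ≥ c0 √g`, `log (2v) ≤ c √g` (as `exp x - 1 < v ≤ exp x`). Line 5:
`D ≤ 4^⌈g^d⌉ ≤ exp (2 (g^d + 1))` and `g^d = o(√g)` (`d ≤ 1/4`), `M + 1 ≤ 2 g^A`:
`(v/(M+1) - 2D - g)/D ≥ (exp (c1 √g)/(4 g^A) - 2 - 2 D - g)/D - 1 ≥ exp ((c1 - 2η) √g)`; the others:
`log (g^A + 1) = O(log g)`; last: the exponent is `(c1 - 2η - (1+ε)^3 K/c0) √g ≥ 2 η √g`. -/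
def S_NM4 : Prop := ∀ K : ℝ, 0 < K → K < 1 → ∃ c0 c1 c ε η : ℝ, 1 / 2 < c0 ∧ c0 < c1 ∧ c1 < c ∧
  c < 1 ∧ 0 < ε ∧ ε < 1 / 2 ∧ 0 < η ∧ 4 * η < c1 ∧
  ∀ (d C c' : ℝ) (A R0 : ℕ), 0 < d → d ≤ 1 / 4 → 0 < C → 0 < c' → ∀ᶠ g : ℕ in atTop,
    1 ≤ g ∧ Nat.sqrt g ≤ ⌊Real.exp (c1 * √(g : ℝ))⌋₊ ∧
    c0 * √(g : ℝ) ≤ Real.log (⌊Real.exp (c1 * √(g : ℝ))⌋₊ : ℝ) ∧
    Real.log (2 * (⌊Real.exp (c1 * √(g : ℝ))⌋₊ : ℝ)) ≤ c * √(g : ℝ) ∧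
    (∀ M D : ℕ, M ≤ g ^ A → 1 ≤ D → D ≤ 4 ^ ⌈(g : ℝ) ^ d⌉₊ →
      Real.exp ((c1 - 2 * η) * √(g : ℝ)) ≤
        (((⌊Real.exp (c1 * √(g : ℝ))⌋₊ / (M + 1) - 2 * D - g) / D : ℕ) : ℝ)) ∧
    ((g : ℝ) ^ A) ^ R0 ≤ Real.exp ((c1 - 2 * η) * √(g : ℝ)) ∧
    (1 + ε) * (C * (1 + Real.log ((g : ℝ) ^ A + 1))) ≤ ε / (1 + ε) * (c0 * √(g : ℝ)) ∧
    C * (1 + Real.log ((g : ℝ) ^ A + 1)) ≤ c * √(g : ℝ) ∧
    2 * Real.log g ≤ c' * Real.exp ((c1 - 2 * η) * √(g : ℝ)) * (((1 - ε) / (c * √(g : ℝ))) ^ 2 *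
      Real.exp (-((1 + ε) ^ 2 * ((1 + ε) * (K * g)) / (c0 * √(g : ℝ)))))

/-! ### NM5 (60 lines). Uses: nothing.
`y = ⌈g^d⌉₊ ≥ g^d`; `A1 = (A + 1) (⌈1/d⌉ + 1)`: `y^A1 ≥ g^(d A1) ≥ g^(A+1)`. `log (primorial y) = θ(y) ≥
y log 2 - log (y+1) - 2 √y log y` (Mathlib: `Chebyshev.theta_eq_log_primorial`, `Chebyshev.theta_ge`), which is
`≥ y/2 > log g` for large `g`. -/
def S_NM5 : Prop := ∀ (d : ℝ) (A : ℕ), 0 < d → ∃ A1 : ℕ, ∀ y0 : ℕ, ∀ᶠ g : ℕ in atTop,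
  y0 ≤ ⌈(g : ℝ) ^ d⌉₊ ∧ g ≤ ⌈(g : ℝ) ^ d⌉₊ ^ A1 ∧ g ^ A ≤ ⌈(g : ℝ) ^ d⌉₊ ^ A1 ∧
  g < primorial ⌈(g : ℝ) ^ d⌉₊

/-- the windows: for a large even `g` with `g^d ≤ T ⌊exp (c1 √g)⌋` there are good windows below `exp (c √g)`, `c < 1` -/
def WDAStmt : Prop := ∀ (T : ℕ → ℕ) (A : ℕ), Monotone T →
  (∀ᶠ k : ℕ in atTop, (T k : ℝ) ≤ Real.log k ^ A) → ∀ d : ℝ, 0 < d → d ≤ 1 / 4 →
  ∃ c c1 ε : ℝ, 0 < c1 ∧ c1 ≤ 1 ∧ c < 1 ∧ 0 < ε ∧ ε < 1 ∧ ∀ᶠ g : ℕ in atTop,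
    Even g ∧ (g : ℝ) ^ d ≤ T ⌊Real.exp (c1 * √(g : ℝ))⌋₊ → Win (rho T) ε c g

/-! ### WDA (220 lines; final theorem `theorem tWDA (h1 : S_CB) (h2 : S_VB) (h3 : SUBStmt) (h4 : MedA)
(h5 : MerStmt) (h6 : S_NM4) (h7 : S_NM5) : WDAStmt`).
SUBStmt with `d`: `K ∈ [1/2, 1)`; NM4 with `K`: `c0, c1, c, ε, η`; the conclusion is for these `c, c1, ε`. NM5: `A1`; MedA with
`A1`, `ε`: `c'`, `R0`, `y0`. VB: `C`. Put `y = ⌈g^d⌉₊`, `v = ⌊exp (c1 √g)⌋₊`. For large even `g` with `g^d ≤ T v`: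
`M = T (2 v) ≤ (log (2 v))^A ≤ (c √g)^A ≤ g^A`, `l = v/(M+1)`, S_CB (at `v`, `l`, `M`): `u = v + i l`, `T = w` constant
on `[u, u+l]`, `u + l ≤ 2 v` (`i ≤ M`, `(M+1) l ≤ v`). `w ≥ T v ≥ g^d`, so `y ≤ w` (`Nat.ceil_le`), `w ≤ M ≤ g^A ≤ y^A1`.
SUBStmt at `w := y` (`g^d ≤ y`): `b`, `S0`, `S0.card ≤ K (g VV y)`. `D = primorial y`, `g < D` (NM5), `D ≤ 4^y`
(`primorial_le_four_pow`). `a = D (u/D + 1) + b % D ∈ [u, u + 2D]`, `a ≡ b` mod `D`; `J = (l - 2D - g)/D`, positive by NM4, so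
`a + D J + g ≤ u + l`. MedA (`y, w, g`, `N := J`, `n0 := a`, `D`, `a p := 0`, `S0`; `w^R0 ≤ (g^A)^R0 ≤ J`; `p ∈ pr y w` is coprime
to `primorial y`; `m % p ≠ 0 ↔ ¬ p ∣ m`): the set `S` of its `t`, `card S ≥ c' J`. For `t ∈ S`, `n = a + D t ≡ b` mod `D`:
`n`, `n+g` are `w`-free (primes `≤ y`: SUB; others: MedA); if `n + i`, `0 < i < g`, is `w`-free then it is `y`-free, so
`i ∈ S0` (SUB), and `i` is counted by MedA. So with `r = (VV w)⁻¹`: `∑_{0<i<g} rho T (n+i) ≤ (VV w)⁻¹ (1+ε) (card S0)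
Vk 1 y w ≤ (1+ε) (K g) =: R`, since `VV w = VV y * Vk 1 y w`. `l0 = c0 √g`, `l1 = c √g`; for `k ∈ [a, a + D J + g] ⊆
[u, u+l] ⊆ [v, 2v]`: `l0 ≤ log v ≤ log k ≤ log (2v) ≤ l1`, `T k = w`, `(1+ε) rho T k ≤ (1+ε) (VV w)⁻¹ ≤
(1+ε) C (1 + log (g^A + 1)) ≤ ε/(1+ε) l0`; `(1-ε) r ≤ C (1 + log (g^A+1)) ≤ l1`; the last inequality of Win:
`card S ≥ c' J ≥ c' exp ((c1-2η) √g)`, `r ≥ 1`, NM4. `Nat.sqrt g ≤ v ≤ u ≤ a`; `log (a + D J + g) ≤ log (2v) ≤ c √g`. -/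
def S_WDA : Prop := S_CB → S_VB → SUBStmt → MedA → MerStmt → S_NM4 → S_NM5 → WDAStmt

/-! ### FRQ (60 lines; uses nothing): infinitely many g
`¬ Slow T`: there is `δ > 0` with `(log k)^δ < T k` for infinitely many `k`; `d = min δ 1 / 4`. Given `c1 ∈ (0,1]` and
such a large `k` put `x = log k/c1` and `g = 2 ⌈x²⌉₊` (even): `√g ≥ x`, so `exp (c1 √g) ≥ k` and
`T ⌊exp (c1 √g)⌋₊ ≥ T k > (log k)^δ ≥ (log k)^(4 d)`, and `g ≤ 2 x² + 2 ≤ (log k)^4` for large `k`, so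
`g^d ≤ (log k)^(4 d)`. `g → ∞` with `k`. -/
def S_FRQ : Prop := ∀ T : ℕ → ℕ, Monotone T → ¬ Slow T → ∃ d : ℝ, 0 < d ∧ d ≤ 1 / 4 ∧
  ∀ c1 : ℝ, 0 < c1 → c1 ≤ 1 → ∃ᶠ g : ℕ in atTop,
    Even g ∧ (g : ℝ) ^ d ≤ T ⌊Real.exp (c1 * √(g : ℝ))⌋₊

/-! ### FNDA (helper82; uses S_MDL, S_UP2, S_FRQ, WDAStmt): (R4)
`d` from FRQ, `c, c1, ε` from WDA. S_UP2 with `Adm g = (Even g ∧ g^d ≤ T ..)`: almost surely for all large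
`g` with `Adm g` some `m` with `X m = X (m+g) = 1`, zeros between, `log (m+g) ≤ c √g`. Suppose Shanks's law
holds for such an `ω`; `G` for `(1-c)/2`; by FRQ there is a large `g ≥ G`, `g ≥ 1`, with `Adm g`; let `q` be the
smallest end point of a gap of size `g` (`Nat.find`; `m + g` is one), so `q ≤ m + g`, `log q ≤ c √g`, and
`log q/√g - 1 ≤ c - 1 < -(1-c)/2`, a contradiction. -/
def S_FNDA.{u} : Prop := ∀ (Ω : Type u) (m0 : MeasurableSpace Ω) (P : Measure Ω)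
  [IsProbabilityMeasure P] (ℱ : Filtration ℕ m0) (A : ℕ → Set Ω) (T : ℕ → ℕ), CGModel P ℱ A T →
  (∃ B : ℕ, ∀ᶠ k : ℕ in atTop, (T k : ℝ) ≤ Real.log k ^ B) → ¬ Slow T →
  ∀ᵐ ω ∂P, ¬ ShanksLaw (fun k => ω ∈ A k)

end Pool.Agent.Lib.SHD
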