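import Pool.Agent.Lib.SHD.SpecB

/-! MP_9a4459_nt, directory Lib/SHD, Part 5 (helper69): the dichotomy for larger sieving limits,
`log (T k) = o(log k / log log k)` (definition `Mid`) in place of `T k ≤ (log k)^B`. -/

set_option autoImplicit false

namespace Pool.Agent.Lib.SHD

open Finset Filter Topology MeasureTheory
open Pool.Agent.Lib.MP_3ef1ab_nt Pool.Agent.Results.MP_9a4459_nt Pool.Agent.Lib.SHG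
open Pool.Agent.Lib.SHR hiding ShanksLaw
open Pool.Agent.Lib.SHK (pr Vk nu mem_pr MedStmt PrgStmt MrtStmt)
open scoped Classical

/-- `log (T k) = o(log k / log log k)` -/
def Mid (T : ℕ → ℕ) : Prop := ∀ δ : ℝ, 0 < δ → ∀ᶠ k : ℕ in atTop,
  Real.log (T k) * Real.log (Real.log k) ≤ δ * Real.log k

/-- as MedA, with `w` large in terms of `y` -/
def MedB : Prop := ∀ (A : ℕ) (δ : ℝ), 0 < δ → δ ≤ 1 → ∃ K : ℝ, 1 ≤ K ∧ ∃ y0 : ℕ,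
  ∀ (y w g N n0 D : ℕ) (a : ℕ → ℕ) (S : Finset ℕ), y0 ≤ y → y ≤ w → 0 < g → g ≤ y ^ A →
    K * (Real.log w * (1 + Real.log (Real.log w))) ≤ Real.log N → S ⊆ Ioo 0 g →
    (∀ p ∈ pr y w, p.Coprime D ∧ a p < p) →
    (N : ℝ) ≤ K * Real.log w ^ 6 * (((range N).filter (fun t =>
      (∀ p ∈ pr y w, (n0 + D * t) % p ≠ a p ∧ (n0 + D * t + g) % p ≠ a p) ∧
      ((S.filter (fun j => ∀ p ∈ pr y w, (n0 + D * t + j) % p ≠ a p)).card : ℝ) ≤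
        (1 + δ) * (S.card * Vk 1 y w))).card : ℝ)

/-! ### NMB (170 lines; model: NM4.lean / SHG/NM3.lean). Uses: nothing. Constants as in NM4:
`c0 = (√K + 2)/3`, `c1 = (c0 + 1)/2`, `c = (c1 + 1)/2`, `ε` with `(1+ε)^3 K/c0 < c0`, `ε < 1/2`, `η > 0` with
`(1+ε)^3 K/c0 + 4 η < c1`; so `c1 - 2η > c1/2 > 1/4`. `δ = 1/(16 K1)`. Put `τ = 4 δ √g/log g` (`= o(√g)`, and
`τ ≤ √g`, `log τ ≤ (1/2) log g` for large `g`). (5) `M ≥ 1`, `M ≤ exp τ`, `D ≤ 4^⌈g^d⌉ ≤ exp (2 (g^d + 1)) = exp (o(√g))`: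
`(v/(M+1) - 2D - g)/D ≥ (exp (c1 √g)/(4 exp τ) - 2 - 2D - g)/D - 1 ≥ exp ((c1 - 2η) √g)`. (6) for `1 ≤ x ≤ τ`:
`K1 x (1 + log x) ≤ K1 τ (1 + (1/2) log g) ≤ K1 τ log g = 4 K1 δ √g = √g/4 ≤ (c1 - 2η) √g`. (7), (8): `τ = o(√g)`.
(9): `K1 x^6 ≤ K1 τ^6 ≤ K1 g^3`, and the exponent is `(c1 - 2η - (1+ε)^3 K/c0) √g ≥ 2 η √g`. -/
def S_NMB : Prop := ∀ K : ℝ, 0 < K → K < 1 → ∃ c0 c1 c ε η : ℝ, 1 / 2 < c0 ∧ c0 < c1 ∧ c1 < c ∧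
  c < 1 ∧ 0 < ε ∧ ε < 1 / 2 ∧ 0 < η ∧ 4 * η < c1 ∧
  ∀ d C K1 : ℝ, 0 < d → d ≤ 1 / 4 → 0 < C → 1 ≤ K1 → ∃ δ : ℝ, 0 < δ ∧ ∀ᶠ g : ℕ in atTop,
    2 ≤ g ∧ Nat.sqrt g ≤ ⌊Real.exp (c1 * √(g : ℝ))⌋₊ ∧
    c0 * √(g : ℝ) ≤ Real.log (⌊Real.exp (c1 * √(g : ℝ))⌋₊ : ℝ) ∧
    Real.log (2 * (⌊Real.exp (c1 * √(g : ℝ))⌋₊ : ℝ)) ≤ c * √(g : ℝ) ∧
    (∀ M D : ℕ, 1 ≤ M → Real.log M ≤ 4 * δ * (√(g : ℝ) / Real.log g) → 1 ≤ D →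
      D ≤ 4 ^ ⌈(g : ℝ) ^ d⌉₊ → Real.exp ((c1 - 2 * η) * √(g : ℝ)) ≤
        (((⌊Real.exp (c1 * √(g : ℝ))⌋₊ / (M + 1) - 2 * D - g) / D : ℕ) : ℝ)) ∧
    (∀ x : ℝ, 1 ≤ x → x ≤ 4 * δ * (√(g : ℝ) / Real.log g) →
      K1 * (x * (1 + Real.log x)) ≤ (c1 - 2 * η) * √(g : ℝ)) ∧
    (1 + ε) * (C * (2 + 4 * δ * (√(g : ℝ) / Real.log g))) ≤ ε / (1 + ε) * (c0 * √(g : ℝ)) ∧
    C * (2 + 4 * δ * (√(g : ℝ) / Real.log g)) ≤ c * √(g : ℝ) ∧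
    (∀ x : ℝ, 1 ≤ x → x ≤ 4 * δ * (√(g : ℝ) / Real.log g) →
      2 * Real.log g ≤ Real.exp ((c1 - 2 * η) * √(g : ℝ)) / (K1 * x ^ 6) *
        (((1 - ε) / (c * √(g : ℝ))) ^ 2 *
          Real.exp (-((1 + ε) ^ 2 * ((1 + ε) * (K * g)) / (c0 * √(g : ℝ))))))

/-- the windows for `Mid T` -/
def WDBStmt : Prop := ∀ T : ℕ → ℕ, Monotone T → Mid T → ∀ d : ℝ, 0 < d → d ≤ 1 / 4 →
  ∃ c c1 ε : ℝ, 0 < c1 ∧ c1 ≤ 1 ∧ c < 1 ∧ 0 < ε ∧ ε < 1 ∧ ∀ᶠ g : ℕ in atTop,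
    Even g ∧ (g : ℝ) ^ d ≤ T ⌊Real.exp (c1 * √(g : ℝ))⌋₊ → Win (rho T) ε c g

end Pool.Agent.Lib.SHD
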