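import Pool.Agent.Lib.SHD.SpecD
import Pool.Agent.Lib.BV.SpecF

/-! MP_9a4459_nt, directory Lib/SHD, Part 6 (helper82): the dichotomy for all `T k ≤ k^(o(1))`.
The pure Bonferroni sieve of MEDB is replaced by Brun-Hooley of dimension at most 3.

RULES. Module X: file Pool/Agent/Lib/SHD/X.lean, first line `import Pool.Agent.Lib.SHD.SpecE` (and the
modules named in the docstring), then `set_option autoImplicit false`, `namespace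
Pool.Agent.Lib.SHD` and the same `open` lines as here; auxiliary lemmas in `namespace XM`; final
theorem `theorem tX : S_X` resp. as stated. Never use congr! / convert!. Every module below 60 s. -/

set_option autoImplicit false

namespace Pool.Agent.Lib.SHD

open Finset Filter Topology MeasureTheory
open Pool.Agent.Lib.MP_3ef1ab_nt Pool.Agent.Results.MP_9a4459_nt Pool.Agent.Lib.SHG
open Pool.Agent.Lib.SHR hiding ShanksLaw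
open Pool.Agent.Lib.SHK (pr Vk nu mem_pr MedStmt PrgStmt MrtStmt)
open Pool.Agent.Lib.BV (thr lowS BnfStmt HlyStmt EsyStmt CttStmt LvlStmt MsbStmt)
open scoped Classical

/-- `T k ≤ k^(o(1))` -/
def Sub (T : ℕ → ℕ) : Prop := ∀ δ : ℝ, 0 < δ → ∀ᶠ k : ℕ in atTop,
  Real.log (T k) ≤ δ * Real.log k

/-- 1 if `t` is in one of the classes `Om p` mod `p`, otherwise 0 -/
noncomputable def hit (Om : ℕ → Finset ℕ) (p t : ℕ) : ℝ := if t % p ∈ Om p then 1 else 0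

/-- block `j` of `Q` -/
def blk (Q : Finset ℕ) (w j : ℕ) : Finset ℕ := Q.filter (fun p => thr w (j + 1) < p ∧ p ≤ thr w j)

/-! ### LIN (130 lines; uses nothing; model: BV/Lif.lean, and Bon_crt, Bon_C_card, Bon_one, Bon_N of
SHK/Bon.lean (private, copy)): counting a product of linear forms.
For a finite set `D` of primes with `Om p ⊆ range p` the number of `t < N` with `t % p ∈ Om p` for all `p ∈ D` is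
`N ∏ |Om p|/p + θ ∏ |Om p|`, `|θ| ≤ 1` (Chinese remainder theorem: `∏ |Om p|` classes mod `∏ p`, every class has
`N/∏ p + O(1)` elements; Bon_N). Expand the product over `i < J` (`Finset.prod_sum`, or induction on `J` for all
disjoint `D0` as in Lif): a choice of `s_i ∈ T i` gives `∏ c i (s_i) * #{t < N : t % p ∈ Om p for p ∈ D}`, `D` the
disjoint union of the `s_i`; the main terms recombine to the product, the errors to the right side. -/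
def S_LIN : Prop := ∀ (J : ℕ) (B : ℕ → Finset ℕ) (T : ℕ → Finset (Finset ℕ))
  (c : ℕ → Finset ℕ → ℝ) (Om : ℕ → Finset ℕ) (N : ℕ),
  (∀ i ∈ range J, ∀ p ∈ B i, p.Prime ∧ Om p ⊆ range p) →
  (∀ i ∈ range J, ∀ j ∈ range J, i ≠ j → Disjoint (B i) (B j)) →
  (∀ i ∈ range J, ∀ s ∈ T i, s ⊆ B i) →
  |∑ t ∈ range N, ∏ i ∈ range J, ∑ s ∈ T i, c i s * ∏ p ∈ s, hit Om p t -
    (N : ℝ) * ∏ i ∈ range J, ∑ s ∈ T i, c i s * ∏ p ∈ s, (((Om p).card : ℝ) / p)| ≤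
    ∏ i ∈ range J, ∑ s ∈ T i, |c i s| * ∏ p ∈ s, ((Om p).card : ℝ)

/-- the truncated mean of block `j` -/
noncomputable def Ye (Q : Finset ℕ) (x : ℕ → ℝ) (w b j : ℕ) : ℝ :=
  ∑ s ∈ lowS (blk Q w j) (2 * (b + j)), (-1 : ℝ) ^ s.card * ∏ p ∈ s, x p

/-- the error term of block `j` -/
noncomputable def Ue (Q : Finset ℕ) (x : ℕ → ℝ) (w b j : ℕ) : ℝ :=
  ∑ s ∈ (blk Q w j).powersetCard (2 * (b + j) + 1), ∏ p ∈ s, x p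

/-! ### BLK (60 lines; uses nothing; model: BV/Pbs.lean, most of it can be copied): the blocks. `thr w` is antitone;
every `p ∈ Q`, `2 ≤ p ≤ w`, lies in exactly one block `j < w`; so the product over the blocks is the product over
`Q` (`Finset.prod_biUnion`). `(blk Q w j).card + 1 ≤ thr w j` for `w ≥ 1` (`blk ⊆ Icc 2 (thr w j)`, `thr w j ≥ 1`). -/
def S_BLK : Prop := ∀ (Q : Finset ℕ) (w : ℕ), 1 ≤ w → (∀ p ∈ Q, 2 ≤ p ∧ p ≤ w) →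
  (∀ i j : ℕ, i ≠ j → Disjoint (blk Q w i) (blk Q w j)) ∧
  (∀ f : ℕ → ℝ, ∏ j ∈ range w, ∏ p ∈ blk Q w j, f p = ∏ p ∈ Q, f p) ∧
  (∀ j : ℕ, (blk Q w j).card + 1 ≤ thr w j) ∧ (∀ j : ℕ, 1 ≤ thr w j)

/-! ### MNE (150 lines; copy of BV/Mns.lean `tMns`; uses BnfStmt, EsyStmt, MsbStmt, S_BLK as hypotheses of tMNE, in
this order): the main terms. `κ` from Msb; `thr w (j+1) = sqrt (thr w j)`, so the sum of `x p ≤ 3/p` over block `j` is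
`≤ 3 κ` (`blk ⊆ (Ioc (sqrt t) t).filter Prime`, `t = thr w j`). `W_j = ∏_{blk} (1 - x p) ≥ e^(-6κ)` because
`1 - t ≥ exp (-2t)` for `0 ≤ t ≤ 1/2` (`x p ≤ 3/100`). Bnf: `W_j ≤ Ye ≤ W_j + Ue`. With `r = 2 (b + j) + 1`:
`Ue ≤ (3κ)^r/r! ≤ e^(-r) exp (3 e κ)` (Esy (1), `Real.pow_div_factorial_le_exp`). `u_j = Ue/W_j ≤ c e^(-r)`,
`c = exp (6 κ + 3 e κ)`, `∑_j u_j ≤ c e^(-2b) ∑ e^(-2j-1) ≤ c e^(-b)`. `∏ W_j = X` (S_BLK). So `X ≤ ∏ Ye ≤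
X exp (∑ u_j) ≤ X (1 + c e^c e^(-b))` (`exp t - 1 ≤ t e^t`), and `Ue_i ∏_{j≠i} Ye_j = (Ue_i/Ye_i) ∏ Ye ≤ u_i ∏ Ye`.
NOTE: Esy asks `0 ≤ x i` for ALL `i`: replace `x` by `fun p => if p ∈ Q then x p else 0` (Ye, Ue, X do not change). -/
def MNEStmt : Prop := ∃ C : ℝ, 0 < C ∧ ∀ (Q : Finset ℕ) (x : ℕ → ℝ) (w b : ℕ), 2 ≤ w →
  (∀ p ∈ Q, p.Prime ∧ 100 ≤ p ∧ p ≤ w ∧ 0 ≤ x p ∧ x p ≤ 3 / (p : ℝ)) →
  (∀ j, 0 ≤ Ye Q x w b j) ∧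
  |∏ j ∈ range w, Ye Q x w b j - ∏ p ∈ Q, (1 - x p)| ≤
    C * Real.exp (-(b : ℝ)) * ∏ p ∈ Q, (1 - x p) ∧
  ∑ i ∈ range w, Ue Q x w b i * ∏ j ∈ (range w).erase i, Ye Q x w b j ≤
    C * Real.exp (-(b : ℝ)) * ∏ p ∈ Q, (1 - x p)

def S_MNE : Prop := BnfStmt → EsyStmt → MsbStmt → S_BLK → MNEStmt

/-! ### FLE (180 lines; compare BV/Pws.lean, Smy.lean, Clf.lean; uses BnfStmt, HlyStmt, CttStmt, LvlStmt, S_BLK, S_LIN,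
MNEStmt as hypotheses of tFLE, in this order): THE FUNDAMENTAL LEMMA, dimension at most 3.
For every `t`: `x_j = ∏_{p ∈ blk j} (1 - hit p)`, `y_j = ∑_{s ∈ lowS (blk j) (2(b+j))} (-1)^|s| ∏_s hit`, `w_j = ∑_{|s| = 2(b+j)+1}
∏_s hit`; Bnf: `0 ≤ x_j ≤ y_j ≤ x_j + w_j`; Hly with `J = w`; `∏_j x_j` is the indicator of `∀ p ∈ Q, t % p ∉ Om p` (S_BLK).
Sum over `t < N`: `S ≤ Y ≤ S + E`, `Y = ∑_t ∏ y_j`, `E = ∑_i ∑_t w_i ∏_{j≠i} y_j`. LIN with `x p = |Om p|/p`: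
`|Y - N ∏ Ye| ≤ err`, `|E_i - N Ue_i ∏_{j≠i} Ye_j| ≤ err`, where `err ≤ ∏_{j<w} (thr w j)^(2 (2(b+j)+1)) ≤ w^(8b+12)`: the number
of `s` with `|s| ≤ r`, `r ≤ 2(b+j)+1`, is `≤ (thr w j)^r` (Ctt, `card + 1 ≤ thr`), `∏_s |Om p| ≤ 3^r`, and `3 ≤ thr w j` if the block is
not empty (its primes are `≥ 100`); if it is empty the sum is at most `1 ≤ thr`; Lvl. So `|S - N ∏ Ye| ≤ N ∑_i Ue_i ∏ Ye +
(w + 1) w^(8b+12)`, and MNE gives `|S - N X| ≤ 2 C e^(-b) N X + w^(8b+14)`, `8b + 14 ≤ 32 b`. -/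
def FLEStmt : Prop := ∃ C : ℝ, 0 < C ∧ ∀ (w b N : ℕ) (Q : Finset ℕ) (Om : ℕ → Finset ℕ), 2 ≤ w →
  1 ≤ b → (∀ p ∈ Q, p.Prime ∧ 100 ≤ p ∧ p ≤ w ∧ Om p ⊆ range p ∧ (Om p).card ≤ 3) →
  |(((range N).filter (fun t => ∀ p ∈ Q, t % p ∉ Om p)).card : ℝ) -
    N * ∏ p ∈ Q, (1 - ((Om p).card : ℝ) / p)| ≤
    C * Real.exp (-(b : ℝ)) * (N * ∏ p ∈ Q, (1 - ((Om p).card : ℝ) / p)) + (w : ℝ) ^ (32 * b)

def S_FLE : Prop :=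
  BnfStmt → HlyStmt → CttStmt → LvlStmt → S_BLK → S_LIN → MNEStmt → FLEStmt

/-! ### PRE (110 lines; copy of SHK/Prg.lean `tPrg`; uses FLEStmt as hypothesis of tPRE): a progression.
For `p ∈ Q`: `D` is invertible mod `p`, `Om p` = the classes `t` mod `p` with `n0 + D t + h = a p` mod `p` for some `h ∈ H`; its
card is `nu H p ≤ card H ≤ 3`, and `(n0 + D t + h) % p = a p` iff `t % p` is in `Om p` with this `h`. -/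
def PREStmt : Prop := ∃ C : ℝ, 0 < C ∧ ∀ (Q H : Finset ℕ) (a : ℕ → ℕ) (w b n0 D N : ℕ), 2 ≤ w →
  1 ≤ b → H.card ≤ 3 → (∀ p ∈ Q, p.Prime ∧ 100 ≤ p ∧ p ≤ w ∧ p.Coprime D ∧ a p < p) →
  |(((range N).filter (fun t => ∀ p ∈ Q, ∀ h ∈ H, (n0 + D * t + h) % p ≠ a p)).card : ℝ) -
    N * ∏ p ∈ Q, (1 - (nu H p : ℝ) / p)| ≤
    C * Real.exp (-(b : ℝ)) * (N * ∏ p ∈ Q, (1 - (nu H p : ℝ) / p)) + (w : ℝ) ^ (32 * b)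

def S_PRE : Prop := FLEStmt → PREStmt

/-! ### MEDC (250 lines; model MEDB.lean of helper69; uses MrtStmt, PREStmt, S_RT as hypotheses of tMEDC).
As MedB, with the condition `K log w ≤ log N` only. `C` from PRE, `b ≥ 1` with `C e^(-b) ≤ δ/64`, `y0 ≥ 100` from RT
(`R = A`, `δ/16`), `s = ∑_{y<p≤w} 1/p ≤ log log w + B`; all products `∏ (1 - ν/p)`, `ν ≤ 3`, and `Vk 1 y w` are `≥ c0 = exp (-6 s) ≥
E (log w)^(-6)`; `K ≥ 64 b + ..` such that `w^(32 b) ≤ (δ/64) c0^2 N` if `K log w ≤ log N` (`N ≥ w^K`). PRE for `H = {0,g}` and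
`H = {0,j,g}`: `A ≥ (1 - δ/32) N Π`, the sum over `t ∈ A` of `K(t)` is `≤ |S| N Π V (1 + δ/8)`; the rest word for word. -/
def MedC : Prop := ∀ (A : ℕ) (δ : ℝ), 0 < δ → δ ≤ 1 → ∃ K : ℝ, 1 ≤ K ∧ ∃ y0 : ℕ,
  ∀ (y w g N n0 D : ℕ) (a : ℕ → ℕ) (S : Finset ℕ), y0 ≤ y → y ≤ w → 0 < g → g ≤ y ^ A →
    K * Real.log w ≤ Real.log N → S ⊆ Ioo 0 g →
    (∀ p ∈ pr y w, p.Coprime D ∧ a p < p) →
    (N : ℝ) ≤ K * Real.log w ^ 6 * (((range N).filter (fun t =>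
      (∀ p ∈ pr y w, (n0 + D * t) % p ≠ a p ∧ (n0 + D * t + g) % p ≠ a p) ∧
      ((S.filter (fun j => ∀ p ∈ pr y w, (n0 + D * t + j) % p ≠ a p)).card : ℝ) ≤
        (1 + δ) * (S.card * Vk 1 y w))).card : ℝ)

/-! ### NMC (170 lines; copy of NMB.lean with `√g/log g` replaced by `√g`). Uses: nothing. Constants `c0, c1, c, ε, η` as in
NMB (`c1 - 2η > 1/4`). `δ = min (1/(16 K1)) (min (η/16) (min (ε c0/(16 (1+ε)^2 C)) (1/(32 C) * c0)))` (also `4 δ ≤ 1`).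
(5) `M ≤ exp (4 δ √g)`, `4 δ ≤ η/4`, `D ≤ exp (o(√g))`: `(v/(M+1) - 2D - g)/D ≥ (exp (c1 √g)/(4 exp (4 δ √g)) - 2 - 2D - g)/D - 1 ≥
exp ((c1 - 2η) √g)`. (6) `K1 x ≤ 4 K1 δ √g ≤ √g/4`. (7), (8): `2 C (1+ε) = o(√g)` and `4 δ C (1+ε) ≤ ε c0/(4 (1+ε))`.
(9) `K1 x^6 ≤ K1 g^3`, and the exponent is `(c1 - 2η - (1+ε)^3 K/c0) √g ≥ 2 η √g`. -/
def S_NMC : Prop := ∀ K : ℝ, 0 < K → K < 1 → ∃ c0 c1 c ε η : ℝ, 1 / 2 < c0 ∧ c0 < c1 ∧ c1 < c ∧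
  c < 1 ∧ 0 < ε ∧ ε < 1 / 2 ∧ 0 < η ∧ 4 * η < c1 ∧
  ∀ d C K1 : ℝ, 0 < d → d ≤ 1 / 4 → 0 < C → 1 ≤ K1 → ∃ δ : ℝ, 0 < δ ∧ ∀ᶠ g : ℕ in atTop,
    2 ≤ g ∧ Nat.sqrt g ≤ ⌊Real.exp (c1 * √(g : ℝ))⌋₊ ∧
    c0 * √(g : ℝ) ≤ Real.log (⌊Real.exp (c1 * √(g : ℝ))⌋₊ : ℝ) ∧
    Real.log (2 * (⌊Real.exp (c1 * √(g : ℝ))⌋₊ : ℝ)) ≤ c * √(g : ℝ) ∧
    (∀ M D : ℕ, 1 ≤ M → Real.log M ≤ 4 * δ * √(g : ℝ) → 1 ≤ D →
      D ≤ 4 ^ ⌈(g : ℝ) ^ d⌉₊ → Real.exp ((c1 - 2 * η) * √(g : ℝ)) ≤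
        (((⌊Real.exp (c1 * √(g : ℝ))⌋₊ / (M + 1) - 2 * D - g) / D : ℕ) : ℝ)) ∧
    (∀ x : ℝ, 1 ≤ x → x ≤ 4 * δ * √(g : ℝ) → K1 * x ≤ (c1 - 2 * η) * √(g : ℝ)) ∧
    (1 + ε) * (C * (2 + 4 * δ * √(g : ℝ))) ≤ ε / (1 + ε) * (c0 * √(g : ℝ)) ∧
    C * (2 + 4 * δ * √(g : ℝ)) ≤ c * √(g : ℝ) ∧
    (∀ x : ℝ, 1 ≤ x → x ≤ 4 * δ * √(g : ℝ) →
      2 * Real.log g ≤ Real.exp ((c1 - 2 * η) * √(g : ℝ)) / (K1 * x ^ 6) *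
        (((1 - ε) / (c * √(g : ℝ))) ^ 2 *
          Real.exp (-((1 + ε) ^ 2 * ((1 + ε) * (K * g)) / (c0 * √(g : ℝ))))))

/-! ### WDC (copy of WDB.lean of helper69, with MedC, S_NMC, `Sub T`; theorem tWDC (h1 : S_CB) (h2 : S_VB)
(h3 : SUBStmt) (h4 : MedC) (h5 : MerStmt) (h6 : S_NMC) (h7 : S_NM5) : WDCStmt). `M = T (2v)`: `log M ≤ δ log (2v) ≤ δ √g`. -/
def WDCStmt : Prop := ∀ T : ℕ → ℕ, Monotone T → Sub T → ∀ d : ℝ, 0 < d → d ≤ 1 / 4 →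
  ∃ c c1 ε : ℝ, 0 < c1 ∧ c1 ≤ 1 ∧ c < 1 ∧ 0 < ε ∧ ε < 1 ∧ ∀ᶠ g : ℕ in atTop,
    Even g ∧ (g : ℝ) ^ d ≤ T ⌊Real.exp (c1 * √(g : ℝ))⌋₊ → Win (rho T) ε c g

end Pool.Agent.Lib.SHD
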