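import Pool.Agent.Lib.SHD.SpecE

/-! MP_9a4459_nt, directory Lib/SHD, Part 7 (helper82): the explicit constant `√(e^γ/2)` for all `T` with
`a log k ≤ T k ≤ k^(o(1))` (Part 6 gives MedC). Rules as in SpecE.lean; first line of the modules:
`import Pool.Agent.Lib.SHD.SpecG`. -/

set_option autoImplicit false

namespace Pool.Agent.Lib.SHD

open Finset Filter Topology MeasureTheory
open Pool.Agent.Lib.MP_3ef1ab_nt Pool.Agent.Results.MP_9a4459_nt Pool.Agent.Lib.SHG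
open Pool.Agent.Lib.SHR hiding ShanksLaw
open Pool.Agent.Lib.SHK (pr Vk nu mem_pr MedStmt PrgStmt MrtStmt)
open scoped Classical

/-- `a log k ≤ T k` for large `k` -/
def Low (T : ℕ → ℕ) : Prop := ∃ a : ℝ, 0 < a ∧ ∀ᶠ k : ℕ in atTop, a * Real.log k ≤ T k

/-! ### NM6 (200 lines; a mixture of SHG/NM3.lean `tNM3` and SHD/NMC.lean `tNMC`; both files can be copied). Uses:
nothing. `K = e^γ/2`; constants `c0, c1, ε, η` as in NM3 (`√K < c0 < c1 < c`, `(1+ε)^5 K < c0^2`, `η ≤ (c1 - c0)/8`, and also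
`η ≤ c1/8`, so `c1 - 2 η > 1/4`). With `s = √g`, `v = ⌊exp (c1 s)⌋`, `y = ⌊η s⌋`: the first eight statements are those of NM3.
`δ = min (1/(16 K1)) (min (η/16) (min (ε c0/(16 (1+ε)^2 C)) (c0/(32 C))))`.
Ninth: `primorial y ≤ exp (7/5 η s)` (NM3M.prim), `M + 1 ≤ 2 exp (4 δ s) ≤ 2 exp (η s/4)`, so the quotient is
`≥ exp ((c1 - 7/5 η - η/4) s)/4 - 3 - ..≥ exp ((c1 - 2 η) s)` for large `s` (NM3M.quot with `s^10` replaced by `exp (η s/4)`).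
Tenth: `K1 x ≤ 4 K1 δ s ≤ s/4 ≤ (c1 - 2 η) s`. 11th and 12th: `2 C (1+ε) = o(s)`, `4 δ C (1+ε) ≤ ε c0/(4 (1+ε))`.
Last: `K1 x^6 ≤ K1 s^6`, and the exponent is `(c1 - 2 η - (1+ε)^5 K/c0) s`, positive because
`(1+ε)^5 K/c0 < c0` and `c1 - 2 η > c0`. -/
def S_NM6 : Prop := ∀ a c : ℝ, 0 < a → √(Real.exp Real.eulerMascheroniConstant / 2) < c → c ≤ 1 →
  ∃ c0 c1 ε η : ℝ, 1 / 2 < c0 ∧ c0 < c1 ∧ c1 < c ∧ 0 < ε ∧ ε < 1 / 2 ∧ 0 < η ∧ η ≤ 1 / 10 ∧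
    η ≤ a * c0 ∧ ∀ (C K1 : ℝ) (y0 : ℕ), 0 < C → 1 ≤ K1 → ∃ δ : ℝ, 0 < δ ∧ ∀ᶠ g : ℕ in atTop,
    100 ≤ g ∧ y0 ≤ ⌊η * √(g : ℝ)⌋₊ ∧ ⌊η * √(g : ℝ)⌋₊ ≤ g ∧
    (g : ℝ) ≤ 2 / η ^ 2 * (⌊η * √(g : ℝ)⌋₊ : ℝ) ^ 2 ∧ g ≤ ⌊η * √(g : ℝ)⌋₊ ^ 3 ∧
    2 * g < primorial ⌊η * √(g : ℝ)⌋₊ ∧
    c0 * √(g : ℝ) ≤ Real.log (⌊Real.exp (c1 * √(g : ℝ))⌋₊ : ℝ) ∧
    Real.log (2 * (⌊Real.exp (c1 * √(g : ℝ))⌋₊ : ℝ)) ≤ c * √(g : ℝ) ∧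
    (∀ M : ℕ, 1 ≤ M → Real.log M ≤ 4 * δ * √(g : ℝ) → Real.exp ((c1 - 2 * η) * √(g : ℝ)) ≤
      (((⌊Real.exp (c1 * √(g : ℝ))⌋₊ / (M + 1) - 2 * primorial ⌊η * √(g : ℝ)⌋₊ - g) /
        primorial ⌊η * √(g : ℝ)⌋₊ : ℕ) : ℝ)) ∧
    (∀ x : ℝ, 1 ≤ x → x ≤ 4 * δ * √(g : ℝ) → K1 * x ≤ (c1 - 2 * η) * √(g : ℝ)) ∧
    (1 + ε) * (C * (2 + 4 * δ * √(g : ℝ))) ≤ ε / (1 + ε) * (c0 * √(g : ℝ)) ∧
    C * (2 + 4 * δ * √(g : ℝ)) ≤ c * √(g : ℝ) ∧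
    (∀ x : ℝ, 1 ≤ x → x ≤ 4 * δ * √(g : ℝ) →
      2 * Real.log g ≤ Real.exp ((c1 - 2 * η) * √(g : ℝ)) / (K1 * x ^ 6) *
        (((1 - ε) / √(g : ℝ)) ^ 2 *
          Real.exp (-((1 + ε) ^ 5 * (Real.exp Real.eulerMascheroniConstant / 2) * g /
            (c0 * √(g : ℝ))))))

/-! ### WCC (300 lines; a copy of SHG/WC.lean `tWC` with MedC (`A = 3`), S_NM6, `Low T`, `Sub T`; compare WDC.lean).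
Theorem tWCC (h1 : S_CB) (h2 : S_VB) (h3 : S_NM6) : S_WCC. -/
def S_WCC : Prop := Pool.Agent.Lib.SHK.SmlStmt → MedC →
  Pool.Agent.Lib.SHK.MtcStmt → MerStmt → ∀ T : ℕ → ℕ, Monotone T → Low T → Sub T → ∀ c : ℝ,
  √(Real.exp Real.eulerMascheroniConstant / 2) < c → c ≤ 1 → ∃ ε : ℝ, 0 < ε ∧ ε < 1 ∧
    ∀ᶠ g : ℕ in atTop, Even g → Win (rho T) ε c g

/-! ### FNG (60 lines; a copy of SHG/FNC.lean `tFNC`; the law itself is not needed). -/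
def S_FNG.{u} : Prop := ∀ (Ω : Type u) (m0 : MeasurableSpace Ω) (P : Measure Ω)
  [IsProbabilityMeasure P] (ℱ : Filtration ℕ m0) (A : ℕ → Set Ω) (T : ℕ → ℕ), CGModel P ℱ A T →
  Low T → Sub T → ∀ᵐ ω ∂P, ∀ c : ℝ, √(Real.exp Real.eulerMascheroniConstant / 2) < c →
    ∃ G : ℕ, ∀ g : ℕ, G ≤ g → Even g →
      ∃ m : ℕ, Consec (fun k => ω ∈ A k) m (m + g) ∧ Real.log ((m : ℝ) + g) < c * √(g : ℝ)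

end Pool.Agent.Lib.SHD
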