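import Pool.Agent.Lib.SHD.SpecG

/-! MP_9a4459_nt, directory Lib/SHD, Part 8 (helper82): sieving limits up to a small power of `k`. -/

set_option autoImplicit false

namespace Pool.Agent.Lib.SHD

open Finset Filter Topology MeasureTheory
open Pool.Agent.Lib.MP_3ef1ab_nt Pool.Agent.Results.MP_9a4459_nt Pool.Agent.Lib.SHG
open Pool.Agent.Lib.SHR hiding ShanksLaw
open scoped Classical

/-- `T k ≤ k ^ δ` for large `k` -/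
def Pw (δ : ℝ) (T : ℕ → ℕ) : Prop := ∀ᶠ k : ℕ in atTop, Real.log (T k) ≤ δ * Real.log k

/-- windows (WDC with `δ` independent of `T`) -/
def WDEStmt : Prop := ∀ d : ℝ, 0 < d → d ≤ 1 / 4 → ∃ δ c c1 ε : ℝ, 0 < δ ∧ 0 < c1 ∧ c1 ≤ 1 ∧
  c < 1 ∧ 0 < ε ∧ ε < 1 ∧ ∀ T : ℕ → ℕ, Monotone T → Pw δ T → ∀ᶠ g : ℕ in atTop,
    Even g ∧ (g : ℝ) ^ d ≤ T ⌊Real.exp (c1 * √(g : ℝ))⌋₊ → Win (rho T) ε c g

/-- windows (WCC with `δ` independent of `T`) -/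
def WCEStmt : Prop := ∀ a c : ℝ, 0 < a → √(Real.exp Real.eulerMascheroniConstant / 2) < c →
  c ≤ 1 → ∃ δ ε : ℝ, 0 < δ ∧ 0 < ε ∧ ε < 1 ∧ ∀ T : ℕ → ℕ, Monotone T →
    (∀ᶠ k : ℕ in atTop, a * Real.log k ≤ T k) → Pw δ T →
    ∀ᶠ g : ℕ in atTop, Even g → Win (rho T) ε c g

end Pool.Agent.Lib.SHD
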